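import Mathlib

/-! # Primitive recursive functions: integers, finite sums and products

Similar lemmas: Pool.Agent.Work.MP_90e0ad_ag.PrimBase (integers, bounded quantifiers),
Pool.Agent.Work.MP_9d4f6b_lc.Prim (sums). You may import these files. -/

namespace BU

variable {α : Type} [Primcodable α]

theorem pl_pow : Primrec₂ fun x y : ℕ => x ^ y := Primrec₂.unpaired'.1 Nat.Primrec.pow

private theorem pl_encode (z : ℤ) : Encodable.encode z = Equiv.intEquivNat z := rfl

private theorem pl_encode_nat (n : ℕ) : Encodable.encode (n : ℤ) = 2 * n := rfl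

private theorem pl_encode_negSucc (n : ℕ) : Encodable.encode (Int.negSucc n) = 2 * n + 1 := rfl

private theorem pl_even : PrimrecPred fun z : ℤ => Encodable.encode z % 2 = 0 :=
  Primrec.eq.comp (Primrec.nat_mod.comp Primrec.encode (Primrec.const 2)) (Primrec.const 0)

theorem pl_int_cast : Primrec fun n : ℕ => (n : ℤ) := by
  apply Primrec.encode_iff.1
  exact (Primrec.nat_mul.comp (Primrec.const 2) Primrec.id).of_eq fun n => rfl

theorem pl_toNat : Primrec Int.toNat := by
  refine (Primrec.ite (c := fun z : ℤ => Encodable.encode z % 2 = 0) pl_even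
    (Primrec.nat_div.comp Primrec.encode (Primrec.const 2)) (Primrec.const 0)).of_eq fun z => ?_
  rw [pl_encode]
  cases z with
  | ofNat n =>
    have : Equiv.intEquivNat (Int.ofNat n) = 2 * n := rfl
    rw [this]
    simp
  | negSucc n =>
    have : Equiv.intEquivNat (Int.negSucc n) = 2 * n + 1 := rfl
    rw [this, if_neg (by omega)]
    rfl

private theorem pl_negToNat : Primrec fun z : ℤ => (-z).toNat := by
  refine (Primrec.ite (c := fun z : ℤ => Encodable.encode z % 2 = 0) pl_even
    (Primrec.const 0) (Primrec.nat_div.comp (Primrec.nat_add.comp Primrec.encode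
      (Primrec.const 1)) (Primrec.const 2))).of_eq fun z => ?_
  rw [pl_encode]
  cases z with
  | ofNat n =>
    have : Equiv.intEquivNat (Int.ofNat n) = 2 * n := rfl
    rw [this, if_pos (by omega)]
    simp
  | negSucc n =>
    have : Equiv.intEquivNat (Int.negSucc n) = 2 * n + 1 := rfl
    rw [this, if_neg (by omega)]
    simp only [Int.neg_negSucc]
    have h2 : (2 * n + 1 + 1) / 2 = n + 1 := by omega
    rw [h2]
    rfl

private theorem pl_natSub : Primrec₂ fun x y : ℕ => (x : ℤ) - (y : ℤ) := by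
  apply Primrec.encode_iff.1
  have h1 : PrimrecPred fun p : ℕ × ℕ => p.2 ≤ p.1 := Primrec.nat_le.comp Primrec.snd Primrec.fst
  refine (Primrec.ite h1
    (Primrec.nat_mul.comp (Primrec.const 2) (Primrec.nat_sub.comp Primrec.fst Primrec.snd))
    (Primrec.nat_add.comp (Primrec.nat_mul.comp (Primrec.const 2)
      (Primrec.nat_sub.comp (Primrec.nat_sub.comp Primrec.snd Primrec.fst) (Primrec.const 1)))
      (Primrec.const 1))).of_eq fun p => ?_
  obtain ⟨x, y⟩ := p
  simp only
  split_ifs with h
  · have e : (x : ℤ) - (y : ℤ) = ((x - y : ℕ) : ℤ) := by omega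
    rw [e, pl_encode_nat]
  · have e : (x : ℤ) - (y : ℤ) = Int.negSucc (y - x - 1) := by
      rw [Int.negSucc_eq]
      omega
    rw [e, pl_encode_negSucc]

theorem pl_int_neg : Primrec fun a : ℤ => -a :=
  (pl_natSub.comp pl_negToNat pl_toNat).of_eq fun a => by omega

theorem pl_int_add : Primrec₂ fun a b : ℤ => a + b := by
  have a1 := pl_toNat.comp (Primrec.fst (α := ℤ) (β := ℤ))
  have a2 := pl_negToNat.comp (Primrec.fst (α := ℤ) (β := ℤ))
  have b1 := pl_toNat.comp (Primrec.snd (α := ℤ) (β := ℤ))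
  have b2 := pl_negToNat.comp (Primrec.snd (α := ℤ) (β := ℤ))
  refine (pl_natSub.comp (Primrec.nat_add.comp a1 b1) (Primrec.nat_add.comp a2 b2)).of_eq
    fun p => ?_
  push_cast
  omega

theorem pl_int_sub : Primrec₂ fun a b : ℤ => a - b := by
  have a1 := pl_toNat.comp (Primrec.fst (α := ℤ) (β := ℤ))
  have a2 := pl_negToNat.comp (Primrec.fst (α := ℤ) (β := ℤ))
  have b1 := pl_toNat.comp (Primrec.snd (α := ℤ) (β := ℤ))
  have b2 := pl_negToNat.comp (Primrec.snd (α := ℤ) (β := ℤ))
  refine (pl_natSub.comp (Primrec.nat_add.comp a1 b2) (Primrec.nat_add.comp a2 b1)).of_eq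
    fun p => ?_
  push_cast
  omega

theorem pl_int_mul : Primrec₂ fun a b : ℤ => a * b := by
  have a1 := pl_toNat.comp (Primrec.fst (α := ℤ) (β := ℤ))
  have a2 := pl_negToNat.comp (Primrec.fst (α := ℤ) (β := ℤ))
  have b1 := pl_toNat.comp (Primrec.snd (α := ℤ) (β := ℤ))
  have b2 := pl_negToNat.comp (Primrec.snd (α := ℤ) (β := ℤ))
  refine (pl_natSub.comp
    (Primrec.nat_add.comp (Primrec.nat_mul.comp a1 b1) (Primrec.nat_mul.comp a2 b2))
    (Primrec.nat_add.comp (Primrec.nat_mul.comp a1 b2) (Primrec.nat_mul.comp a2 b1))).of_eq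
    fun p => ?_
  have ha : p.1 = (p.1.toNat : ℤ) - ((-p.1).toNat : ℤ) := by omega
  have hb : p.2 = (p.2.toNat : ℤ) - ((-p.2).toNat : ℤ) := by omega
  conv_rhs => rw [ha, hb]
  push_cast
  ring

theorem pl_int_lt : PrimrecRel fun a b : ℤ => a < b := by
  have h : PrimrecRel fun a b : ℤ => 0 < (b - a).toNat :=
    Primrec.nat_lt.comp (Primrec.const 0)
      (pl_toNat.comp (pl_int_sub.comp Primrec.snd Primrec.fst))
  exact h.of_eq fun a b => by omega

theorem pl_ball {K : α → ℕ} {p : α → ℕ → Prop} (hK : Primrec K) (hp : PrimrecRel p) :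
    PrimrecPred fun a => ∀ i < K a, p a i := by
  have h1 : PrimrecRel fun (x : ℕ) (a : α) => p a x := hp.swap
  have h2 := PrimrecRel.forall_mem_list h1
  exact (PrimrecRel.comp (f := fun a => List.range (K a)) (g := fun a => a) h2
    (Primrec.list_range.comp hK) Primrec.id).of_eq fun a => by simp

theorem pl_bex {K : α → ℕ} {p : α → ℕ → Prop} (hK : Primrec K) (hp : PrimrecRel p) :
    PrimrecPred fun a => ∃ i < K a, p a i := by
  have h1 : PrimrecRel fun (x : ℕ) (a : α) => p a x := hp.swap
  have h2 := PrimrecRel.exists_mem_list h1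
  exact (PrimrecRel.comp (f := fun a => List.range (K a)) (g := fun a => a) h2
    (Primrec.list_range.comp hK) Primrec.id).of_eq fun a => by simp

theorem pl_imp {p q : α → Prop} (hp : PrimrecPred p) (hq : PrimrecPred q) :
    PrimrecPred fun a => p a → q a :=
  (hp.not.or hq).of_eq fun _ => imp_iff_not_or.symm

private theorem pl_fold {β : Type} [Primcodable β] {K : α → ℕ} {f : α → ℕ → β}
    {op : β → β → β} (hop : Primrec₂ op) (e : β) (hK : Primrec K) (hf : Primrec₂ f) :
    Primrec fun a => Nat.rec (motive := fun _ => β) e (fun i s => op s (f a i)) (K a) := by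
  have h1 : Primrec₂ fun (a : α) (p : ℕ × β) => op p.2 (f a p.1) :=
    (hop.comp (Primrec.snd.comp Primrec.snd)
      (hf.comp Primrec.fst (Primrec.fst.comp Primrec.snd))).to₂
  exact Primrec.nat_rec' hK (Primrec.const e) h1

theorem pl_sum {K : α → ℕ} {f : α → ℕ → ℕ} (hK : Primrec K) (hf : Primrec₂ f) :
    Primrec fun a => ∑ i ∈ Finset.range (K a), f a i := by
  refine (pl_fold Primrec.nat_add 0 hK hf).of_eq fun a => ?_
  induction K a with
  | zero => simp
  | succ n ih => rw [Finset.sum_range_succ, ← ih]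

theorem pl_sumZ {K : α → ℕ} {f : α → ℕ → ℤ} (hK : Primrec K) (hf : Primrec₂ f) :
    Primrec fun a => ∑ i ∈ Finset.range (K a), f a i := by
  refine (pl_fold pl_int_add 0 hK hf).of_eq fun a => ?_
  induction K a with
  | zero => simp
  | succ n ih => rw [Finset.sum_range_succ, ← ih]

theorem pl_prodZ {K : α → ℕ} {f : α → ℕ → ℤ} (hK : Primrec K) (hf : Primrec₂ f) :
    Primrec fun a => ∏ i ∈ Finset.range (K a), f a i := by
  refine (pl_fold pl_int_mul 1 hK hf).of_eq fun a => ?_
  induction K a with
  | zero => simp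
  | succ n ih => rw [Finset.prod_range_succ, ← ih]

open Classical in
theorem pl_count {K : α → ℕ} {p : α → ℕ → Prop} (hK : Primrec K) (hp : PrimrecRel p) :
    Primrec fun a => ((Finset.range (K a)).filter (p a)).card := by
  have h1 : Primrec₂ fun (a : α) (i : ℕ) => if p a i then 1 else 0 :=
    Primrec.ite hp (Primrec.const 1) (Primrec.const 0)
  exact (pl_sum hK h1).of_eq fun a => by rw [Finset.card_filter]

end BU
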