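import Pool.Agent.Work.MP_4030f5_lc.U.Defs
import Pool.Agent.Work.MP_4030f5_lc.U.PrimLib

/-! # Primitive recursiveness of the codes

Unfold; `Primrec.nat_div`, `Primrec.nat_mod`, `pl_pow`, `pl_sum`, `Primrec.ite`, `Primrec₂.natPair`. -/

namespace BU

variable {α : Type} [Primcodable α]

theorem pc_dig {b c t : α → ℕ} (hb : Primrec b) (hc : Primrec c) (ht : Primrec t) :
    Primrec fun a => dig (b a) (c a) (t a) := by
  unfold dig
  exact Primrec.nat_mod.comp (Primrec.nat_div.comp hc (pl_pow.comp hb ht)) hb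

theorem pc_undig {b K : α → ℕ} {f : α → ℕ → ℕ} (hb : Primrec b) (hK : Primrec K)
    (hf : Primrec₂ f) : Primrec fun a => undig (b a) (K a) (f a) := by
  unfold undig
  have h1 : Primrec₂ fun (a : α) (t : ℕ) => f a t * b a ^ t :=
    (Primrec.nat_mul.comp hf (pl_pow.comp (hb.comp Primrec.fst) Primrec.snd)).to₂
  exact pl_sum hK h1

theorem pc_c3 {x y : α → ℕ} (hx : Primrec x) (hy : Primrec y) :
    Primrec fun a => c3 (x a) (y a) := by
  unfold c3
  exact Primrec.ite (Primrec.nat_lt.comp hx hy) (Primrec.const 0)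
    (Primrec.ite (Primrec.eq.comp hx hy) (Primrec.const 1) (Primrec.const 2))

theorem pc_pat {K : α → ℕ} {f : α → ℕ → ℕ} (hK : Primrec K) (hf : Primrec₂ f) :
    Primrec fun a => pat (K a) (f a) := by
  unfold pat
  have h1 : Primrec₂ fun (a : α) (z : ℕ) => c3 (f a (z / K a)) (f a (z % K a)) := by
    unfold Primrec₂
    beta_reduce
    apply pc_c3
    · exact hf.comp Primrec.fst (Primrec.nat_div.comp Primrec.snd (hK.comp Primrec.fst))
    · exact hf.comp Primrec.fst (Primrec.nat_mod.comp Primrec.snd (hK.comp Primrec.fst))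
  exact pc_undig (Primrec.const 3) (Primrec.nat_mul.comp hK hK) h1

theorem pc_inf (N : ℕ) {n : α → ℕ} {p f : α → ℕ → ℕ} (hn : Primrec n) (hp : Primrec₂ p)
    (hf : Primrec₂ f) : Primrec fun a => inf (n a) N (p a) (f a) := by
  unfold inf
  exact Primrec₂.natPair.comp (pc_pat (Primrec.const N) hf)
    (hp.comp Primrec.id (pc_undig hn (Primrec.const N) hf))

theorem pc_rinf (K L : ℕ) {n : α → ℕ} {p s : α → ℕ → ℕ} (hn : Primrec n) (hp : Primrec₂ p)
    (hs : Primrec₂ s) : Primrec fun a => rinf K (n a) (p a) L (s a) := by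
  unfold rinf flc
  have h1 : Primrec₂ fun (a : α) (t : ℕ) => min 1 (s a t / L) * L + s a t % L := by
    unfold Primrec₂
    beta_reduce
    exact Primrec.nat_add.comp
      (Primrec.nat_mul.comp (Primrec.nat_min.comp (Primrec.const 1)
        (Primrec.nat_div.comp hs (Primrec.const L))) (Primrec.const L))
      (Primrec.nat_mod.comp hs (Primrec.const L))
  have h2 : Primrec₂ fun (a : α) (t : ℕ) => s a t / L - 1 :=
    (Primrec.nat_sub.comp (Primrec.nat_div.comp hs (Primrec.const L)) (Primrec.const 1)).to₂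
  exact Primrec₂.natPair.comp (pc_undig (Primrec.const (2 * L)) (Primrec.const (K + 2)) h1)
    (pc_inf (K + 2) hn hp h2)

theorem pc_iinf (K : ℕ) {n s c : α → ℕ} {p : α → ℕ → ℕ} (hn : Primrec n) (hp : Primrec₂ p)
    (hs : Primrec s) (hc : Primrec c) : Primrec fun a => iinf K (n a) (p a) (s a) (c a) := by
  unfold iinf
  have h1 : Primrec₂ fun (a : α) (t : ℕ) => dig (n a) (c a) (min t (s a - 1)) := by
    unfold Primrec₂
    beta_reduce
    exact pc_dig (hn.comp Primrec.fst) (hc.comp Primrec.fst)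
      (Primrec.nat_min.comp Primrec.snd (Primrec.nat_sub.comp (hs.comp Primrec.fst)
        (Primrec.const 1)))
  exact Primrec₂.natPair.comp hs (pc_inf (K + 2) hn hp h1)

theorem pc_era {n s c j : α → ℕ} (hn : Primrec n) (hs : Primrec s) (hc : Primrec c)
    (hj : Primrec j) : Primrec fun a => era (n a) (s a) (c a) (j a) := by
  unfold era
  have h1 : Primrec₂ fun (a : α) (t : ℕ) => dig (n a) (c a) (if t < j a then t else t + 1) := by
    unfold Primrec₂
    beta_reduce
    exact pc_dig (hn.comp Primrec.fst) (hc.comp Primrec.fst)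
      (Primrec.ite (Primrec.nat_lt.comp Primrec.snd (hj.comp Primrec.fst)) Primrec.snd
        (Primrec.succ.comp Primrec.snd))
  exact pc_undig hn (Primrec.nat_sub.comp hs (Primrec.const 1)) h1

end BU
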