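import Pool.Agent.Work.MP_4030f5_lc.U.MachDefs
import Pool.Agent.Work.MP_4030f5_lc.U.PrimCode

/-! # Computability of the control

For fixed `H` the list `compH (envQ src d q) H` is a list of constant length whose entries are
primitive recursive in `(d, q)`. -/

namespace BU

private theorem MachB_symm : Primrec (instrEquiv.symm :
    ((ℕ × ℤ) ⊕ (Fin 4 × ℕ × Reg × Reg)) ⊕ (Reg ⊕ List ℕ) → Instr) :=
  Primrec.of_equiv_symm (e := instrEquiv)

private theorem MachB_const {α : Type} [Primcodable α] {r : α → ℕ} {z : α → ℤ} (hr : Primrec r)
    (hz : Primrec z) : Primrec fun a => Instr.const (r a) (z a) :=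
  MachB_symm.comp (Primrec.sumInl.comp (Primrec.sumInl.comp (Primrec.pair hr hz)))

private theorem MachB_op {α : Type} [Primcodable α] (o : Op) {r : α → ℕ} {i j : α → Reg}
    (hr : Primrec r) (hi : Primrec i) (hj : Primrec j) :
    Primrec fun a => Instr.op o (r a) (i a) (j a) := by
  have h : Primrec fun a => instrEquiv.symm (.inl (.inr (opEquiv o, r a, i a, j a))) :=
    MachB_symm.comp (Primrec.sumInl.comp (Primrec.sumInr.comp
      (Primrec.pair (Primrec.const _) (Primrec.pair hr (Primrec.pair hi hj)))))
  refine h.of_eq fun a => ?_
  rw [Equiv.symm_apply_eq]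
  rfl

private theorem MachB_branch {α : Type} [Primcodable α] {i : α → Reg} (hi : Primrec i) :
    Primrec fun a => Instr.branch (i a) :=
  MachB_symm.comp (Primrec.sumInr.comp (Primrec.sumInl.comp hi))

private theorem MachB_halt {α : Type} [Primcodable α] {l : α → List ℕ} (hl : Primrec l) :
    Primrec fun a => Instr.halt (l a) :=
  MachB_symm.comp (Primrec.sumInr.comp (Primrec.sumInr.comp hl))

private theorem MachB_compE {α σ : Type} [Primcodable α] {ρ : α → σ → Reg ⊕ ℤ}
    (hρ : ∀ v, Primrec fun a => ρ a v) (e : Fm σ) (r : ℕ) :
    Primrec fun a => compE (ρ a) e r := by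
  induction e generalizing r with
  | var v =>
    have h : Primrec fun a => (Sum.casesOn (ρ a v)
        (fun i => [Instr.const r 0, .op .add r i (.inr r)])
        (fun z => [Instr.const r z, .const r z]) : List Instr) := by
      refine Primrec.sumCasesOn (hρ v) ?_ ?_
      · refine Primrec.list_cons.comp (MachB_const (Primrec.const _) (Primrec.const _))
          (Primrec.list_cons.comp ?_ (Primrec.const _))
        exact MachB_op .add (Primrec.const _) Primrec.snd (Primrec.const _)
      · refine Primrec.list_cons.comp (MachB_const (Primrec.const _) Primrec.snd)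
          (Primrec.list_cons.comp ?_ (Primrec.const _))
        exact MachB_const (Primrec.const _) Primrec.snd
    refine h.of_eq fun a => ?_
    simp only [compE]
    cases ρ a v <;> rfl
  | const c => exact Primrec.const _
  | add e f he hf =>
    exact Primrec.list_append.comp (Primrec.list_append.comp (he r) (hf (r + 1)))
      (Primrec.const _)
  | mul e f he hf =>
    exact Primrec.list_append.comp (Primrec.list_append.comp (he r) (hf (r + 1)))
      (Primrec.const _)

private theorem MachB_compH {α σ : Type} [Primcodable α] {ρ : α → σ → Reg ⊕ ℤ}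
    (hρ : ∀ v, Primrec fun a => ρ a v) (H : List (Fm σ)) :
    Primrec fun a => compH (ρ a) H := by
  induction H with
  | nil => exact Primrec.const _
  | cons e H ih =>
    exact Primrec.list_append.comp (Primrec.list_append.comp (MachB_compE hρ e 0)
      (Primrec.const _)) ih

private theorem MachB_readH {σ : Type} (H : List (Fm σ)) : Primrec fun h : List ℕ => readH H h := by
  induction H with
  | nil => exact Primrec.const _
  | cons e H ih =>
    exact Primrec.nat_add.comp
      ((Primrec.list_getD 0).comp Primrec.id (Primrec.const _))
      (Primrec.nat_mul.comp (Primrec.const 3)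
        (ih.comp (Primrec.list_drop.comp (Primrec.const _) Primrec.id)))

private theorem MachB_ansH {σ : Type} (H : List (Fm σ)) :
    Primrec fun h : List ℕ => ansH H h := by
  refine Primrec.list_map (Primrec.list_range.comp
    (Primrec.nat_div.comp Primrec.list_length (Primrec.const _))) ?_
  exact (MachB_readH H).comp (Primrec.list_drop.comp
    (Primrec.nat_mul.comp Primrec.snd (Primrec.const _)) Primrec.fst)

private theorem MachB_envQ {α : Type} [Primcodable α] {N m : ℕ} (src : Fin m → Option ℕ)
    {d : α → List ℕ} {q : α → ℕ} (hd : Primrec d) (hq : Primrec q) (z : Fin N × Fin m) :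
    Primrec fun a => envQ src (d a) (q a) z := by
  have hdig : Primrec fun a => dig (d a).length (q a) z.1 :=
    pc_dig (Primrec.list_length.comp hd) hq (Primrec.const _)
  unfold envQ
  cases src z.2 with
  | some l =>
    exact Primrec.sumInl.comp (Primrec.sumInl.comp (Primrec.pair hdig (Primrec.const _)))
  | none =>
    exact Primrec.sumInr.comp (pl_int_cast.comp ((Primrec.list_getD 0).comp hd hdig))

theorem algA_computable {N m : ℕ} (H : List (Fm (Fin N × Fin m))) (src : Fin m → Option ℕ)
    (z : List ℕ) {next : ℕ × List ℕ → ℕ ⊕ List ℕ} (hnext : Computable next) :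
    Computable (algA H src z next) := by
  have hG : Primrec fun w : (List ℕ × List ℕ) × (ℕ ⊕ List ℕ) =>
      if w.1.1.length = 0 then Instr.halt z
      else (Sum.casesOn w.2
        (fun q => (compH (envQ src w.1.1 q) H).getD (w.1.2.length % lenH H) (.halt []))
        (fun out => .halt out) : Instr) := by
    refine Primrec.ite ?_ (Primrec.const _) (Primrec.sumCasesOn Primrec.snd ?_ ?_)
    · exact Primrec.eq.comp (Primrec.list_length.comp (Primrec.fst.comp Primrec.fst))
        (Primrec.const 0)
    · refine (Primrec.list_getD (Instr.halt [])).comp (MachB_compH (fun v => ?_) H) ?_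
      · exact MachB_envQ src (Primrec.fst.comp (Primrec.fst.comp Primrec.fst)) Primrec.snd v
      · exact Primrec.nat_mod.comp
          (Primrec.list_length.comp (Primrec.snd.comp (Primrec.fst.comp Primrec.fst)))
          (Primrec.const _)
    · exact MachB_halt Primrec.snd
  have hc : Computable fun w : List ℕ × List ℕ => next (w.1.length, ansH H w.2) :=
    hnext.comp (Computable.pair (Primrec.list_length.comp Primrec.fst).to_comp
      ((MachB_ansH H).comp Primrec.snd).to_comp)
  refine (hG.to_comp.comp (Computable.pair Computable.id hc)).of_eq fun w => ?_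
  simp only [algA, id]
  split
  · rfl
  · cases next (w.1.length, ansH H w.2) <;> rfl

end BU
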