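import Pool.Agent.Work.MP_4030f5_lc.U.MachA
import Pool.Agent.Work.MP_4030f5_lc.U.MachB

/-! # From strategies to algorithms

Induction on `t`: a history consisting of `j` complete blocks with answers `h` is extended by one
block (`runM_block`, `exec_compH`, `readH_append`). -/

namespace BU

private theorem Mach_lenH_pos {σ : Type} (H : List (Fm σ)) : 0 < lenH H := by
  cases H with
  | nil => exact Nat.one_pos
  | cons e H =>
    simp only [lenH]
    omega

private theorem Mach_readH_append {σ : Type} (H : List (Fm σ)) (h h' : List ℕ)
    (hl : lenH H ≤ h.length) : readH H (h ++ h') = readH H h := by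
  have h1 : (h.take (lenH H)).length = lenH H := by
    rw [List.length_take]
    omega
  have h2 := readH_append H (h.take (lenH H)) (h.drop (lenH H) ++ h') h1
  have h3 := readH_append H (h.take (lenH H)) (h.drop (lenH H)) h1
  rw [← List.append_assoc, List.take_append_drop] at h2
  rw [List.take_append_drop] at h3
  rw [h2, h3]

private theorem Mach_drop {σ : Type} (H : List (Fm σ)) (j b : ℕ) (h h' : List ℕ)
    (hj : h.length = j * lenH H) (hb : b < j) :
    readH H ((h ++ h').drop (b * lenH H)) = readH H (h.drop (b * lenH H)) := by
  have h1 : b * lenH H + lenH H ≤ h.length := by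
    rw [hj, ← Nat.succ_mul]
    exact Nat.mul_le_mul_right _ hb
  rw [List.drop_append_of_le_length (by omega)]
  exact Mach_readH_append H _ _ (by rw [List.length_drop]; omega)

private theorem Mach_ansH_lt {σ : Type} (H : List (Fm σ)) (j : ℕ) (h h' : List ℕ)
    (hj : h.length = j * lenH H) (hl : h'.length < lenH H) :
    ansH H (h ++ h') = ansH H h := by
  have hp := Mach_lenH_pos H
  have h1 : (h ++ h').length / lenH H = j := by
    rw [List.length_append, hj]
    rw [mul_comm, Nat.mul_add_div hp, Nat.div_eq_of_lt hl, add_zero]
  have h2 : h.length / lenH H = j := by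
    rw [hj]
    exact Nat.mul_div_cancel _ hp
  unfold ansH
  rw [h1, h2]
  refine List.map_congr_left fun b hb => ?_
  exact Mach_drop H j b h h' hj (List.mem_range.1 hb)

private theorem Mach_ansH_eq {σ : Type} (H : List (Fm σ)) (j : ℕ) (h h' : List ℕ)
    (hj : h.length = j * lenH H) (hl : h'.length = lenH H) :
    ansH H (h ++ h') = ansH H h ++ [readH H h'] := by
  have hp := Mach_lenH_pos H
  have h1 : (h ++ h').length / lenH H = j + 1 := by
    rw [List.length_append, hj, hl, ← Nat.succ_mul]
    exact Nat.mul_div_cancel _ hp
  have h2 : h.length / lenH H = j := by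
    rw [hj]
    exact Nat.mul_div_cancel _ hp
  unfold ansH
  rw [h1, h2, List.range_succ, List.map_append]
  congr 1
  · refine List.map_congr_left fun b hb => ?_
    exact Mach_drop H j b h h' hj (List.mem_range.1 hb)
  · simp [← hj]

private theorem Mach_step {N m : ℕ} (H : List (Fm (Fin N × Fin m))) (src : Fin m → Option ℕ)
    (z : List ℕ) (next : ℕ × List ℕ → ℕ ⊕ List ℕ) (d : List ℕ) (hd : 1 ≤ d.length)
    (x : ℕ × ℕ → ℝ) (out : List ℕ) (t : ℕ) :
    ∀ (j : ℕ) (h : List ℕ) (s : ℕ → ℝ), h.length = j * lenH H →
      runQ (fun h => next (d.length, h)) (pR H d.length (parv src d x)) t (ansH H h) = some out →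
        runM (algA H src z next) d x (lenH H * t) h s = some out := by
  have hd0 : d.length ≠ 0 := by omega
  induction t with
  | zero =>
    intro j h s hj hr
    rw [mul_zero]
    simp only [runQ] at hr
    simp only [runM, algA, hd0, if_false]
    cases hn : next (d.length, ansH H h) with
    | inl q =>
      rw [hn] at hr
      exact absurd hr (by simp)
    | inr o =>
      rw [hn] at hr
      simpa using hr
  | succ t ih =>
    intro j h s hj hr
    simp only [runQ] at hr
    have hp := Mach_lenH_pos H
    cases hn : next (d.length, ansH H h) with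
    | inl q =>
      rw [hn] at hr
      have hlen : (compH (envQ src d q) H).length = lenH H := compH_length _ _
      have hrho : ∀ (v : Fin N × Fin m) (r : ℕ), envQ src d q v ≠ .inl (.inr r) := by
        intro v r
        unfold envQ
        cases src v.2 <;> simp
      obtain ⟨h1, h2⟩ := exec_compH x (envQ src d q) hrho H s
      have h3 : readH H (execL x (compH (envQ src d q) H) s).2 =
          pR H d.length (parv src d x) q := by
        rw [h2]
        unfold pR
        congr 1
        funext v
        unfold envQ parv
        cases src v.2 with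
        | some l => rfl
        | none => simp [rval]
      have hb := runM_block (algA H src z next) d x (compH (envQ src d q) H)
        (compH_nohalt _ _) (lenH H * t) h s (by
          intro h' hh'
          rw [hlen] at hh'
          simp only [algA, hd0, if_false]
          rw [Mach_ansH_lt H j h h' hj hh', hn]
          simp only
          congr 1
          rw [List.length_append, hj, mul_comm, Nat.mul_add_mod, Nat.mod_eq_of_lt hh'])
      rw [hlen] at hb
      rw [show lenH H * (t + 1) = lenH H + lenH H * t by ring, hb]
      refine ih (j + 1) _ _ ?_ ?_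
      · rw [List.length_append, hj, h1, Nat.succ_mul]
      · rw [Mach_ansH_eq H j h _ hj h1, h3]
        exact hr
    | inr o =>
      rw [hn] at hr
      obtain ⟨u, hu⟩ : ∃ u, lenH H * (t + 1) = u + 1 :=
        ⟨lenH H * (t + 1) - 1, (Nat.succ_pred_eq_of_pos (Nat.mul_pos hp (Nat.succ_pos t))).symm⟩
      rw [hu]
      simp only [runM, algA, hd0, if_false, hn]
      simpa using hr

theorem machine_of_strategy {N m : ℕ} (H : List (Fm (Fin N × Fin m))) (src : Fin m → Option ℕ)
    (z : List ℕ) {next : ℕ × List ℕ → ℕ ⊕ List ℕ} (hnext : Computable next) :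
    ∃ (A : List ℕ × List ℕ → Instr) (B : ℕ), Computable A ∧
      (∀ (x : ℕ × ℕ → ℝ) (t : ℕ) (s : ℕ → ℝ), runM A [] x t [] s = some z) ∧
      ∀ (d : List ℕ), 1 ≤ d.length → ∀ (x : ℕ × ℕ → ℝ) (s : ℕ → ℝ) (t : ℕ) (out : List ℕ),
        runQ (fun h => next (d.length, h)) (pR H d.length (parv src d x)) t [] = some out →
          runM A d x (B * t) [] s = some out := by
  refine ⟨algA H src z next, lenH H, algA_computable H src z hnext, ?_, ?_⟩
  · intro x t s
    cases t <;> simp [runM, algA]
  · intro d hd x s t out hr
    refine Mach_step H src z next d hd x out t 0 [] s (by simp) ?_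
    have : ansH H [] = [] := by simp [ansH]
    rw [this]
    exact hr

end BU
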