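import Pool.Agent.Work.MP_4030f5_lc.U.Core
import Pool.Agent.Work.MP_4030f5_lc.U.Mach

/-! # Uniform version: final assembly -/

namespace BU

theorem uniform_main (k c : ℕ) (hk : 2 ≤ k) : UniformFastBetti k c := by
  classical
  obtain ⟨K, rfl⟩ : ∃ K, k = K + 1 := ⟨k - 1, by omega⟩
  intro eF ν heF hν
  -- the universal family
  let ι : Type := (Fin c × Mon (K + 1 + c) c) ⊕ Unit
  let m : ℕ := Fintype.card ι
  let e : ι ≃ Fin m := Fintype.equivFin _
  let E : (Fin m → ℝ) → (Fin (K + 1) → ℝ) → Prop := fun p x =>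
    ∃ ψ : Formula c, p (e (Sum.inr ())) = ((eF ψ : ℕ) : ℝ) ∧
      x ∈ foSet ψ (fun w => p (e (Sum.inl w)))
  have hE : SA {z : Fin m ⊕ Fin (K + 1) → ℝ |
      E (fun i => z (Sum.inl i)) (fun i => z (Sum.inr i))} := by
    have h1 : {z : Fin m ⊕ Fin (K + 1) → ℝ |
        E (fun i => z (Sum.inl i)) (fun i => z (Sum.inr i))} =
        ⋃ ψ : Formula c, ({z : Fin m ⊕ Fin (K + 1) → ℝ |
            z (Sum.inl (e (Sum.inr ()))) = ((eF ψ : ℕ) : ℝ)} ∩
          {z : Fin m ⊕ Fin (K + 1) → ℝ | (fun i => z (Sum.inr i)) ∈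
            foSet ψ (fun w => z (Sum.inl (e (Sum.inl w))))}) := by
      ext z
      simp [E]
    rw [h1]
    refine SA.iUnion (fun ψ => SA.inter ?_ (F5_SA (fun w => e (Sum.inl w)) ψ))
    have h2 : {z : Fin m ⊕ Fin (K + 1) → ℝ |
        z (Sum.inl (e (Sum.inr ()))) = ((eF ψ : ℕ) : ℝ)} =
        {z | (Fm.var (Sum.inl (e (Sum.inr ()))) : Fm (Fin m ⊕ Fin (K + 1))).eval z ≤
          (Fm.const ((eF ψ : ℕ) : ℤ)).eval z} ∩
        {z | (Fm.const ((eF ψ : ℕ) : ℤ) : Fm (Fin m ⊕ Fin (K + 1))).eval z ≤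
          (Fm.var (Sum.inl (e (Sum.inr ())))).eval z} := by
      ext z
      simp [Fm.eval, le_antisymm_iff]
    rw [h2]
    exact SA.inter (SA.le _ _) (SA.le _ _)
  obtain ⟨H, C, next, hnext, hcore⟩ := core_uniform K m (by omega) E hE
  let src : Fin m → Option ℕ := fun j =>
    Sum.elim (fun w => some (ν w)) (fun _ => none) (e.symm j)
  obtain ⟨A, B, hA, hA0, hA1⟩ :=
    machine_of_strategy H src (List.replicate (K + 1) 0) hnext
  refine ⟨A, B * C, hA, fun n F a ha x s hx => ?_⟩
  rcases Nat.eq_zero_or_pos n with rfl | hn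
  · rw [List.ofFn_zero, hA0]
    have h0 : ∀ q : Fin (K + 1), betti (uni (K + 1) F a) q = 0 := by
      intro q
      have h1 : uni (K + 1) F a = ∅ := by
        unfold uni
        simp
      rw [h1]
      have h2 : Nonempty (HAS (∅ : Set (Fin (K + 1) → ℝ)) q ≃ₗ[ℚ]
          HL (∅ : Set (Fin (K + 1) → ℝ)) ((q : ℕ) + 1)) := HAS_equiv isCompact_empty q
      obtain ⟨g⟩ := h2
      have h3 := T7a_sub_empty (M := Fin (K + 1) → ℝ) (q : ℕ)
      unfold betti
      rw [g.finrank_eq]
      exact Module.finrank_zero_of_subsingleton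
    rw [show (List.ofFn fun q : Fin (K + 1) => betti (uni (K + 1) F a) q) =
      List.ofFn fun _ : Fin (K + 1) => 0 from by
        congr 1
        funext q
        exact h0 q]
    rw [List.ofFn_const]
  · set d : List ℕ := List.ofFn fun i => eF (F i) with hd
    have hlen : d.length = n := by simp [d]
    have hpar : ∀ i : Fin n, ∀ j : Fin m, parv src d x i j =
        Sum.elim (fun w => a i w) (fun _ => ((eF (F i) : ℕ) : ℝ)) (e.symm j) := by
      intro i j
      unfold parv
      rcases hj : e.symm j with w | u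
      · simp only [src, hj, Sum.elim_inl]
        exact hx i w
      · simp only [src, hj, Sum.elim_inr]
        have : d.getD (i : ℕ) 0 = eF (F i) := by
          rw [List.getD_eq_getElem _ _ (by rw [hlen]; exact i.2)]
          simp [d]
        rw [this]
    have key : ∀ i : Fin n, {p : Fin (K + 1) → ℝ | E (parv src d x i) p} = foSet (F i) (a i) := by
      intro i
      ext p
      simp only [E, Set.mem_setOf_eq, hpar, Equiv.symm_apply_apply, Sum.elim_inl, Sum.elim_inr]
      constructor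
      · rintro ⟨ψ, h1, h2⟩
        have h3 : F i = ψ := by
          apply heF
          exact_mod_cast h1
        rw [h3]
        exact h2
      · intro h
        exact ⟨F i, rfl, h⟩
    have hcomp : ∀ i < n, IsCompact {p : Fin (K + 1) → ℝ | E (parv src d x i) p} := by
      intro i hi
      rw [key ⟨i, hi⟩]
      exact Metric.isCompact_of_isClosed_isBounded (ha ⟨i, hi⟩).1 (ha ⟨i, hi⟩).2
    have hrun := hcore n hn (parv src d x) hcomp
    have hun : (⋃ i : Fin n, {p : Fin (K + 1) → ℝ | E (parv src d x i) p}) = uni (K + 1) F a :=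
      Set.iUnion_congr key
    rw [hun] at hrun
    have := hA1 d (by rw [hlen]; exact hn) x s (C * n ^ (K + 1)) _ (by rw [hlen]; exact hrun)
    rw [mul_assoc]
    exact this

end BU
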