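import Pool.Agent.Work.MP_4030f5_lc.U.Stmt
import Pool.Agent.Work.MP_4030f5_lc.BDefs

/-! # From the uniform algorithm to trees

Take any injective numberings `e`, `ν` (both types are finite). For fixed `n`, `F` unroll the algorithm
into a tree by recursion on the number `t` of remaining steps and the history `h`: `.const r z` becomes
`.const (2 * r) z ..`, registers: scratch register `r` becomes scratch register `2 * r`; input register `(i, l)`
with `i < n`, `l = ν z` becomes the input `(i, z)`; all other input registers `(i, l)` become scratch register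
`2 * Nat.pair i l + 1` (never written). Leaf: `fun q => out.getD q 0`. The depth is at most `t`. Invariant: the
scratch content `s` of the tree gives `s (2 * r)` for the machine, and the machine input is
`x (i, l) = a i z` or `s (2 * Nat.pair i l + 1)`. -/

namespace BU

open Classical in
private noncomputable def ur_reg {n : ℕ} {Z : Type} (ν : Z → ℕ) : Reg → (Fin n × Z) ⊕ ℕ
  | .inl p => if h : p.1 < n ∧ ∃ z, ν z = p.2 then .inl (⟨p.1, h.1⟩, h.2.choose)
      else .inr (2 * Nat.pair p.1 p.2 + 1)
  | .inr r => .inr (2 * r)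

private noncomputable def ur_tree {n k : ℕ} {Z : Type} (ν : Z → ℕ) (A : List ℕ × List ℕ → Instr)
    (d : List ℕ) : ℕ → List ℕ → RACT (Fin n × Z) (Fin k → ℕ)
  | 0, h =>
    match A (d, h) with
    | .halt out => .leaf (fun q => out.getD q 0)
    | _ => .leaf (fun _ => 0)
  | t + 1, h =>
    match A (d, h) with
    | .const r z => .const (2 * r) (z : ℝ) (ur_tree ν A d t (h ++ [0]))
    | .op o r i j => .op o (2 * r) (ur_reg ν i) (ur_reg ν j) (ur_tree ν A d t (h ++ [0]))
    | .branch i => .branch (ur_reg ν i) (ur_tree ν A d t (h ++ [0])) (ur_tree ν A d t (h ++ [1]))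
        (ur_tree ν A d t (h ++ [2]))
    | .halt out => .leaf (fun q => out.getD q 0)

private theorem ur_depth {n k : ℕ} {Z : Type} (ν : Z → ℕ) (A : List ℕ × List ℕ → Instr)
    (d : List ℕ) (t : ℕ) (h : List ℕ) :
    (ur_tree (n := n) (k := k) ν A d t h).depth ≤ t := by
  induction t generalizing h with
  | zero =>
    unfold ur_tree
    split <;> simp [RACT.depth]
  | succ t ih =>
    unfold ur_tree
    split
    · simp only [RACT.depth]
      exact Nat.succ_le_succ (ih _)
    · simp only [RACT.depth]
      exact Nat.succ_le_succ (ih _)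
    · simp only [RACT.depth]
      exact Nat.succ_le_succ (max_le (ih _) (max_le (ih _) (ih _)))
    · simp [RACT.depth]

private theorem ur_elim {n : ℕ} {Z : Type} (ν : Z → ℕ) (a : Fin n × Z → ℝ) (x : ℕ × ℕ → ℝ)
    (s s' : ℕ → ℝ) (h1 : ∀ r, s' r = s (2 * r))
    (h2 : ∀ p, x p = Sum.elim a s (ur_reg ν (.inl p))) (g : Reg) :
    Sum.elim x s' g = Sum.elim a s (ur_reg ν g) := by
  cases g with
  | inl p => exact h2 p
  | inr r => exact h1 r

private theorem ur_upd {n : ℕ} {Z : Type} (ν : Z → ℕ) (a : Fin n × Z → ℝ)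
    (s : ℕ → ℝ) (r : ℕ) (v : ℝ) (p : ℕ × ℕ) :
    Sum.elim a (Function.update s (2 * r) v) (ur_reg ν (.inl p)) =
      Sum.elim a s (ur_reg ν (.inl p)) := by
  unfold ur_reg
  simp only
  split_ifs with h
  · rfl
  · simp only [Sum.elim_inr]
    rw [Function.update_of_ne (by omega)]

private theorem ur_upd' (s s' : ℕ → ℝ) (h1 : ∀ r, s' r = s (2 * r)) (r : ℕ) (v : ℝ) (r' : ℕ) :
    Function.update s' r v r' = Function.update s (2 * r) v (2 * r') := by
  by_cases h : r' = r
  · subst h; simp
  · rw [Function.update_of_ne h, Function.update_of_ne (by omega), h1]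

private theorem ur_run {n k : ℕ} {Z : Type} (ν : Z → ℕ) (A : List ℕ × List ℕ → Instr)
    (d : List ℕ) (a : Fin n × Z → ℝ) (x : ℕ × ℕ → ℝ) (out : List ℕ) (t : ℕ) (h : List ℕ)
    (s s' : ℕ → ℝ) (h1 : ∀ r, s' r = s (2 * r))
    (h2 : ∀ p, x p = Sum.elim a s (ur_reg ν (.inl p)))
    (hr : runM A d x t h s' = some out) :
    (ur_tree (n := n) (k := k) ν A d t h).run a s = fun q : Fin k => out.getD (q : ℕ) 0 := by
  induction t generalizing h s s' with
  | zero =>
    unfold runM at hr
    unfold ur_tree
    split at hr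
    · rename_i o ho
      rw [ho]
      simp only [Option.some.injEq] at hr
      simp [RACT.run, hr]
    · simp at hr
  | succ t ih =>
    unfold runM at hr
    unfold ur_tree
    split at hr
    · rename_i r z ho
      rw [ho]
      simp only [RACT.run]
      refine ih _ _ _ (ur_upd' s s' h1 r z) (fun p => ?_) hr
      rw [ur_upd, h2]
    · rename_i o r i j ho
      rw [ho]
      simp only [RACT.run]
      rw [ur_elim ν a x s s' h1 h2, ur_elim ν a x s s' h1 h2] at hr
      refine ih _ _ _ (ur_upd' s s' h1 r _) (fun p => ?_) hr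
      rw [ur_upd, h2]
    · rename_i i ho
      rw [ho]
      simp only [RACT.run]
      rw [ur_elim ν a x s s' h1 h2] at hr
      unfold sgnCode at hr
      split_ifs at hr ⊢ with c1 c2
      · exact ih _ _ _ h1 h2 hr
      · exact ih _ _ _ h1 h2 hr
      · exact ih _ _ _ h1 h2 hr
    · rename_i o ho
      rw [ho]
      simp only [Option.some.injEq] at hr
      simp [RACT.run, hr]

theorem uniform_fastR {k c : ℕ} (h : UniformFastBetti k c) : FastBettiR k c := by
  obtain ⟨e, he⟩ := Countable.exists_injective_nat (Formula c)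
  obtain ⟨ν, hν⟩ := Countable.exists_injective_nat (Fin c × Mon (k + c) c)
  obtain ⟨A, C, -, hA⟩ := h e ν he hν
  refine ⟨C, fun n F => ⟨ur_tree ν A (List.ofFn fun i => e (F i)) (C * n ^ k) [],
    ur_depth _ _ _ _ _, ?_⟩⟩
  intro a ha s q
  have h1 := hA n F a ha
    (fun p => Sum.elim (fun z : Fin n × (Fin c × Mon (k + c) c) => a z.1 z.2) s
      (ur_reg ν (.inl p))) (fun r => s (2 * r)) (by
      intro i z
      have hz : (i : ℕ) < n ∧ ∃ z', ν z' = ν z := ⟨i.2, z, rfl⟩
      have hz' : hz.2.choose = z := hν hz.2.choose_spec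
      unfold ur_reg
      simp only
      rw [dif_pos hz]
      simp only [Sum.elim_inl]
      rw [hz'])
  have h2 := ur_run (k := k) ν A _ (fun z : Fin n × (Fin c × Mon (k + c) c) => a z.1 z.2) _ _
    (C * n ^ k) [] s (fun r => s (2 * r)) (fun r => rfl) (fun p => rfl) h1
  rw [h2]
  simp

end BU
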