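import Pool.Agent.Work.MP_4030f5_lc.U.Defs

/-! # From computation trees to query strategies

Combinator `ask q f : List ℕ → ℕ ⊕ List ℕ`, `[] ↦ .inl q`, `a :: h ↦ f a h`. Then
`runQ (ask q f) p (t + 1) [] = runQ (f (p q)) p t []` (`runQ (fun h => S (a :: h)) p t h' = runQ S p t (a :: h')`
by induction on `t`). `runQ` is monotone in `t` once it is `some`. Show by induction on the tree `T`, for
every concrete scratch content `s : ℕ → ℝ`: there is a strategy `S` with
`runQ S p t [] = some (T.run (fun q => p q) s)` for all `p` and `t ≥ 2 * T.depth`. `.const`: same strategy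
for the new scratch content. `.op _ _ i j`: for every register that is an input `q` ask the query `q`
(at most two queries), then the strategy (`choose`, for all possible answers) for the scratch content
computed from the answers. `.branch i`: at most one query. -/

namespace BU

private def Act_ask (q : ℕ) (f : ℕ → List ℕ → ℕ ⊕ List ℕ) : List ℕ → ℕ ⊕ List ℕ
  | [] => .inl q
  | a :: h => f a h

private theorem Act_shift (S : List ℕ → ℕ ⊕ List ℕ) (p : ℕ → ℕ) (a : ℕ) (t : ℕ) :
    ∀ h : List ℕ, runQ S p t (a :: h) = runQ (fun h => S (a :: h)) p t h := by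
  induction t with
  | zero => intro h; rfl
  | succ t ih =>
    intro h
    simp only [runQ]
    cases hS : S (a :: h) with
    | inl q => simpa using ih (h ++ [p q])
    | inr o => rfl

private theorem Act_run_ask (q : ℕ) (f : ℕ → List ℕ → ℕ ⊕ List ℕ) (p : ℕ → ℕ) (t : ℕ) :
    runQ (Act_ask q f) p (t + 1) [] = runQ (f (p q)) p t [] := by
  have h1 : runQ (Act_ask q f) p (t + 1) [] = runQ (Act_ask q f) p t [p q] := rfl
  rw [h1, Act_shift]
  rfl

private theorem Act_read {K : ℕ} (N : ℕ) (r : Fin K ⊕ ℕ) (s : ℕ → ℝ)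
    (out : ℝ → (ℕ → ℕ) → List ℕ)
    (h : ∀ v : ℝ, ∃ S : List ℕ → ℕ ⊕ List ℕ, ∀ (p : ℕ → ℕ) (t : ℕ), N ≤ t →
      runQ S p t [] = some (out v p)) :
    ∃ S : List ℕ → ℕ ⊕ List ℕ, ∀ (p : ℕ → ℕ) (t : ℕ), N + 1 ≤ t →
      runQ S p t [] = some (out (Sum.elim (fun q : Fin K => (p q : ℝ)) s r) p) := by
  rcases r with q | j
  · choose F hF using h
    refine ⟨Act_ask q (fun a => F (a : ℝ)), fun p t ht => ?_⟩
    obtain ⟨t', rfl⟩ : ∃ t', t = t' + 1 := ⟨t - 1, by omega⟩
    rw [Act_run_ask]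
    exact hF _ p t' (by omega)
  · obtain ⟨S, hS⟩ := h (s j)
    exact ⟨S, fun p t ht => hS p t (by omega)⟩

private theorem Act_main {K : ℕ} (T : ACT (Fin K) (List ℕ)) : ∀ s : ℕ → ℝ,
    ∃ S : List ℕ → ℕ ⊕ List ℕ, ∀ (p : ℕ → ℕ) (t : ℕ), 2 * T.depth ≤ t →
      runQ S p t [] = some (T.run (fun q : Fin K => (p q : ℝ)) s) := by
  induction T with
  | leaf b =>
    intro s
    refine ⟨fun _ => .inr b, fun p t _ => ?_⟩
    cases t <;> rfl
  | const r c T ih =>
    intro s
    obtain ⟨S, hS⟩ := ih (Function.update s r (c : ℝ))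
    refine ⟨S, fun p t ht => ?_⟩
    rw [ACT.depth] at ht
    exact hS p t (by omega)
  | op o r i j T ih =>
    intro s
    have h1 : ∀ v : ℝ, ∃ S : List ℕ → ℕ ⊕ List ℕ, ∀ (p : ℕ → ℕ) (t : ℕ), 2 * T.depth + 1 ≤ t →
        runQ S p t [] = some (T.run (fun q : Fin K => (p q : ℝ)) (Function.update s r
          (o.val v (Sum.elim (fun q : Fin K => (p q : ℝ)) s j)))) := by
      intro v
      exact Act_read (2 * T.depth) j s
        (fun w p => T.run (fun q : Fin K => (p q : ℝ)) (Function.update s r (o.val v w)))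
        (fun w => ih (Function.update s r (o.val v w)))
    obtain ⟨S, hS⟩ := Act_read (2 * T.depth + 1) i s
      (fun v p => T.run (fun q : Fin K => (p q : ℝ)) (Function.update s r
          (o.val v (Sum.elim (fun q : Fin K => (p q : ℝ)) s j)))) h1
    refine ⟨S, fun p t ht => ?_⟩
    rw [ACT.depth] at ht
    exact hS p t (by omega)
  | branch i T₁ T₂ T₃ ih₁ ih₂ ih₃ =>
    intro s
    obtain ⟨S, hS⟩ := Act_read (2 * max T₁.depth (max T₂.depth T₃.depth)) i s
      (fun v p => if v < 0 then T₁.run (fun q : Fin K => (p q : ℝ)) s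
        else if v = 0 then T₂.run (fun q : Fin K => (p q : ℝ)) s
        else T₃.run (fun q : Fin K => (p q : ℝ)) s) (by
      intro v
      obtain ⟨S₁, h₁⟩ := ih₁ s
      obtain ⟨S₂, h₂⟩ := ih₂ s
      obtain ⟨S₃, h₃⟩ := ih₃ s
      by_cases hv : v < 0
      · refine ⟨S₁, fun p t ht => ?_⟩
        rw [if_pos hv]
        exact h₁ p t (by omega)
      · by_cases hv0 : v = 0
        · refine ⟨S₂, fun p t ht => ?_⟩
          rw [if_neg hv, if_pos hv0]
          exact h₂ p t (by omega)
        · refine ⟨S₃, fun p t ht => ?_⟩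
          rw [if_neg hv, if_neg hv0]
          exact h₃ p t (by omega))
    refine ⟨S, fun p t ht => ?_⟩
    rw [ACT.depth] at ht
    exact hS p t (by omega)

theorem strat_of_act {K : ℕ} (T : ACT (Fin K) (List ℕ)) :
    ∃ s : List ℕ → ℕ ⊕ List ℕ, ∀ (p : ℕ → ℕ) (t : ℕ), 2 * T.depth ≤ t →
      runQ s p t [] = some (T.run (fun q : Fin K => (p q : ℝ)) (fun _ => 0)) :=
  Act_main T (fun _ => 0)

end BU
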