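import Pool.Agent.Work.MP_4030f5_lc.U.CpDefs

/-! # Compatible compact balls in the classes

Adapt `T10a_choose` (T10a.lean): recursion on `r` from `k` down. For `r ≤ k` and a class
`W = cls (G r) y` (`y` good; `finite_cls`: finitely many classes) the ball must contain the restrictions
`(y' ∘ ι)` of the points `y'` of the balls of all classes `W'` of `r'`-tuples, `r < r' ≤ k`, along all
strictly increasing `ι : Fin r → Fin r'` with restriction of `W'` in `W`: finitely many compact subsets of
`W` (their union is compact, its preimage under the chart is compact, hence in a closed ball).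
`r' = r`: `ι = id`. `r' > r` impossible for strictly increasing maps `Fin r' → Fin r`. -/

namespace BU

private theorem balls_le {r r' : ℕ} {ι : Fin r' → Fin r} (h : StrictMono ι) : r' ≤ r := by
  have := Fintype.card_le_of_injective ι h.injective
  simpa using this

private theorem balls_id {r : ℕ} {ι : Fin r → Fin r} (h : StrictMono ι) : ι = id := by
  have hs : Function.Surjective ι := Finite.surjective_of_injective h.injective
  have : (StrictMono.orderIsoOfSurjective ι h hs) = OrderIso.refl (Fin r) :=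
    Subsingleton.elim _ _
  funext i
  have h2 := congrArg (fun e : Fin r ≃o Fin r => e i) this
  simpa using h2

private theorem balls_step {k m : ℕ} (E : (Fin m → ℝ) → (Fin k → ℝ) → Prop)
    (G : (r : ℕ) → List (Fm (Fin r × Fin m))) (hG : TypesOK E G) (s : ℕ) :
    ∃ Cc : (r : ℕ) → Set (Fin r × Fin m → ℝ) → Set (Fin r × Fin m → ℝ),
      ∀ r ≤ k, k < s + r → ∀ y : Fin r × Fin m → ℝ, GoodP E y →
        (∃ (d : ℕ) (e : (Fin d → ℝ) ≃ₜ cls (G r) y) (R : ℝ), 0 ≤ R ∧
          Cc r (cls (G r) y) =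
            (fun u => (e u : Fin r × Fin m → ℝ)) '' Metric.closedBall 0 R) ∧
        ∀ (r' : ℕ) (ι : Fin r' → Fin r), StrictMono ι → k < s + r' →
          ∀ y' ∈ Cc r (cls (G r) y),
          (fun z : Fin r' × Fin m => y' (ι z.1, z.2)) ∈
            Cc r' (cls (G r') (fun z : Fin r' × Fin m => y (ι z.1, z.2))) := by
  classical
  induction s with
  | zero => exact ⟨fun _ _ => ∅, fun r h1 h2 => by omega⟩
  | succ s ih =>
    obtain ⟨Cc, hC⟩ := ih
    -- the compact set to be covered
    let P : (r : ℕ) → Set (Fin r × Fin m → ℝ) → (r' : ℕ) → (Fin r → Fin r') →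
        Set (Fin r' × Fin m → ℝ) → Prop := fun r W r' ι W' =>
      ∃ y'' : Fin r' × Fin m → ℝ, GoodP E y'' ∧ W' = cls (G r') y'' ∧ StrictMono ι ∧
        cls (G r) (fun z : Fin r × Fin m => y'' (ι z.1, z.2)) = W
    let K : (r : ℕ) → Set (Fin r × Fin m → ℝ) → Set (Fin r × Fin m → ℝ) := fun r W =>
      ⋃ r' ∈ Finset.Ioc r k, ⋃ ι : Fin r → Fin r', ⋃ W' ∈ {W' | P r W r' ι W'},
        (fun y' : Fin r' × Fin m → ℝ => fun z : Fin r × Fin m => y' (ι z.1, z.2)) '' Cc r' W'
    have hKcomp : ∀ r ≤ k, k < s + 1 + r → ∀ W, IsCompact (K r W) := by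
      intro r hr1 hr2 W
      refine Set.Finite.isCompact_biUnion (Finset.finite_toSet _) ?_
      intro r' hr'
      have hr'' : r < r' ∧ r' ≤ k := by simpa using hr'
      refine isCompact_iUnion fun ι => ?_
      refine Set.Finite.isCompact_biUnion ?_ ?_
      · refine (finite_cls (G r')).subset ?_
        rintro W' ⟨y'', -, rfl, -⟩
        exact ⟨y'', rfl⟩
      · rintro W' ⟨y'', hy, rfl, -⟩
        obtain ⟨⟨d, e, R, -, hCe⟩, -⟩ := hC r' hr''.2 (by omega) y'' hy
        rw [hCe]
        refine ((isCompact_closedBall _ _).image ?_).image ?_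
        · exact continuous_subtype_val.comp e.continuous
        · fun_prop
    have hKW : ∀ r ≤ k, k < s + 1 + r → ∀ W, K r W ⊆ W := by
      intro r hr1 hr2 W
      refine Set.iUnion₂_subset fun r' hr' => ?_
      have hr'' : r < r' ∧ r' ≤ k := by simpa using hr'
      refine Set.iUnion_subset fun ι => ?_
      refine Set.iUnion₂_subset ?_
      rintro W' ⟨y'', hy, rfl, hι, hW⟩ z ⟨y', hy', rfl⟩
      obtain ⟨⟨d, e, R, -, hCe⟩, -⟩ := hC r' hr''.2 (by omega) y'' hy
      rw [hCe] at hy'
      obtain ⟨u, -, hu⟩ := hy'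
      have h1 : y' ∈ cls (G r') y'' := hu ▸ (e u).2
      have h2 := (hG r' y'' hy).2.2.2.2 r ι hι y' h1
      rw [hW] at h2
      exact h2
    have hex : ∀ (r : ℕ) (W : Set (Fin r × Fin m → ℝ)), ∃ C : Set (Fin r × Fin m → ℝ),
        r ≤ k → k < s + 1 + r → ∀ y : Fin r × Fin m → ℝ, GoodP E y → W = cls (G r) y →
        (∃ (d : ℕ) (e : (Fin d → ℝ) ≃ₜ W) (R : ℝ), 0 ≤ R ∧
          C = (fun u => (e u : Fin r × Fin m → ℝ)) '' Metric.closedBall 0 R) ∧ K r W ⊆ C := by
      intro r W
      by_cases h0 : r ≤ k ∧ k < s + 1 + r ∧ ∃ y : Fin r × Fin m → ℝ, GoodP E y ∧ W = cls (G r) y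
      · obtain ⟨hr1, hr2, y, hy, rfl⟩ := h0
        obtain ⟨d, ⟨e⟩⟩ := (hG r y hy).1
        have hc : IsCompact (e.symm '' {w : cls (G r) y |
            (w : Fin r × Fin m → ℝ) ∈ K r (cls (G r) y)}) := by
          refine IsCompact.image ?_ e.symm.continuous
          rw [Topology.IsInducing.subtypeVal.isCompact_iff]
          have : (Subtype.val '' {w : cls (G r) y |
              (w : Fin r × Fin m → ℝ) ∈ K r (cls (G r) y)}) = K r (cls (G r) y) := by
            ext y'
            constructor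
            · rintro ⟨w, hw, rfl⟩
              exact hw
            · intro hy'
              exact ⟨⟨y', hKW r hr1 hr2 _ hy'⟩, hy', rfl⟩
          rw [this]
          exact hKcomp r hr1 hr2 _
        obtain ⟨R, hR⟩ := hc.isBounded.subset_closedBall 0
        refine ⟨(fun u => (e u : Fin r × Fin m → ℝ)) '' Metric.closedBall 0 (max R 0),
          fun _ _ _ _ _ => ⟨⟨d, e, max R 0, le_max_right _ _, rfl⟩, ?_⟩⟩
        intro y' hy'
        have hy1 := hKW r hr1 hr2 _ hy'
        refine ⟨e.symm ⟨y', hy1⟩,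
          Metric.closedBall_subset_closedBall (le_max_left _ _) (hR ⟨_, hy', rfl⟩), ?_⟩
        simp
      · refine ⟨∅, fun h1 h2 y hy hW => absurd ⟨h1, h2, y, hy, hW⟩ h0⟩
    choose C' hC' using hex
    refine ⟨fun r W => if k < s + r then Cc r W else C' r W, fun r hr1 hr2 y hy => ⟨?_, ?_⟩⟩
    · by_cases hs : k < s + r
      · simp only [if_pos hs]
        exact (hC r hr1 hs y hy).1
      · simp only [if_neg hs]
        exact (hC' r (cls (G r) y) hr1 hr2 y hy rfl).1
    · intro r' ι hι hr' y' hy'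
      by_cases hrr : r' = r
      · subst hrr
        have := balls_id hι
        subst this
        exact hy'
      · have hlt : r' < r := lt_of_le_of_ne (balls_le hι) hrr
        simp only at hy' ⊢
        rw [if_pos (by omega)] at hy'
        by_cases hs : k < s + r'
        · rw [if_pos hs]
          exact (hC r hr1 (by omega) y hy).2 r' ι hι hs y' hy'
        · rw [if_neg hs]
          have hg : GoodP E (fun z : Fin r' × Fin m => y (ι z.1, z.2)) := fun j => hy (ι j)
          refine (hC' r' _ (by omega) hr' _ hg rfl).2 ?_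
          refine Set.mem_iUnion₂.2 ⟨r, by simp; omega, ?_⟩
          refine Set.mem_iUnion.2 ⟨ι, ?_⟩
          refine Set.mem_iUnion₂.2 ⟨cls (G r) y, ⟨y, hy, rfl, hι, rfl⟩, y', hy', rfl⟩

theorem balls_exist {k m : ℕ} (E : (Fin m → ℝ) → (Fin k → ℝ) → Prop)
    (G : (r : ℕ) → List (Fm (Fin r × Fin m))) (hG : TypesOK E G) :
    ∃ Cc, BallsOK E G Cc := by
  obtain ⟨Cc, hC⟩ := balls_step E G hG (k + 1)
  refine ⟨Cc, fun r hr y hy => ?_⟩
  obtain ⟨h1, h2⟩ := hC r hr (by omega) y hy
  exact ⟨h1, fun r' ι hι y' hy' => h2 r' ι hι (by omega) y' hy'⟩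

end BU
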