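import Pool.Agent.Work.MP_4030f5_lc.U.InfoT

/-! # Coded and typed sums

`nU T n = (n + 1) * T.L`; `stepEquiv n T.L : Step n T.L ≃ Fin ((n + 1) * T.L)`; `kc κ` runs through
`range (nU ^ K)` (`finFunctionFinEquiv`, `Equiv.arrowCongr` / `Equiv.sum_comp`, `Finset.sum_range`); products over
`range (n + 1)`: `Finset.prod_range` and `(finSuccEquiv n).symm`.
`Cons_typed`: `ocmp` is the comparison of a linear order on `Option ℝ` (`A2_t`, `A2_lt`, `A2_eq`, `A2_gt` in A2.lean);
`rkC κ u` is the number of `v` with `val v < val u`, so ranks are compared as the values. Every `κ < nU ^ K` is a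
`kc κ'`, every `u < nU` a `stepEquiv n T.L u'`. -/

namespace BU

private def ca_equiv (K n L : ℕ) : (Fin K → Step n L) ≃ Fin (((n + 1) * L) ^ K) :=
  (Equiv.arrowCongr (Equiv.refl (Fin K)) (stepEquiv n L)).trans finFunctionFinEquiv

private theorem ca_equiv_coe {K n L : ℕ} (κ : Fin K → Step n L) :
    (ca_equiv K n L κ : ℕ) = kc κ := rfl

private theorem ca_sum {K n L : ℕ} {M : Type} [AddCommMonoid M] (f : ℕ → M) :
    ∑ κ ∈ Finset.range (((n + 1) * L) ^ K), f κ = ∑ κ : Fin K → Step n L, f (kc κ) := by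
  rw [Finset.sum_range, ← Equiv.sum_comp (ca_equiv K n L)]
  rfl

private theorem ca_sum' {n L : ℕ} {M : Type} [AddCommMonoid M] (f : ℕ → M) :
    ∑ u ∈ Finset.range ((n + 1) * L), f u = ∑ u : Step n L, f (stepEquiv n L u) := by
  rw [Finset.sum_range, ← Equiv.sum_comp (stepEquiv n L)]

private theorem ca_prod {n : ℕ} {M : Type} [CommMonoid M] (f : ℕ → M) :
    ∏ o ∈ Finset.range (n + 1), f o = ∏ o : Option (Fin n), f ((finSuccEquiv n).symm o) := by
  rw [Finset.prod_range, ← Equiv.prod_comp (finSuccEquiv n).symm]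

/-- the coded formula in typed form. -/
theorem chiC_typed {K : ℕ} (T : Tabs) {n : ℕ} (p : ℕ → ℕ) :
    chiC K T n p = -∑ κ : Fin K → Step n T.L, ∑ u : Step n T.L,
      open Classical in
      if okC K T n p (kc κ) (stepEquiv n T.L u) = 1 ∧
          ∀ u' : Step n T.L, stepEquiv n T.L u' < stepEquiv n T.L u →
            cmpC K T n p (kc κ) (stepEquiv n T.L u') (stepEquiv n T.L u) ≠ 1 then
        (∏ o : Option (Fin n), vC K T n p T.vl (kc κ) (stepEquiv n T.L u) ((finSuccEquiv n).symm o)) -
          ∏ o : Option (Fin n), vC K T n p T.vr (kc κ) (stepEquiv n T.L u) ((finSuccEquiv n).symm o)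
      else 0 := by
  classical
  unfold chiC
  have e0 : nU T n = (n + 1) * T.L := rfl
  rw [e0, ca_sum]
  congr 1
  refine Finset.sum_congr rfl fun κ _ => ?_
  rw [ca_sum']
  refine Finset.sum_congr rfl fun u _ => ?_
  have hc : (okC K T n p (kc κ) (stepEquiv n T.L u) = 1 ∧
      ∀ u' < ((stepEquiv n T.L u : Fin ((n + 1) * T.L)) : ℕ),
        cmpC K T n p (kc κ) u' (stepEquiv n T.L u) ≠ 1) ↔
      (okC K T n p (kc κ) (stepEquiv n T.L u) = 1 ∧
          ∀ u' : Step n T.L, stepEquiv n T.L u' < stepEquiv n T.L u →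
            cmpC K T n p (kc κ) (stepEquiv n T.L u') (stepEquiv n T.L u) ≠ 1) := by
    refine and_congr_right fun _ => ?_
    constructor
    · intro h u' hu'
      exact h _ hu'
    · intro h u' hu'
      have hlt : u' < (n + 1) * T.L := hu'.trans (stepEquiv n T.L u).2
      have := h ((stepEquiv n T.L).symm ⟨u', hlt⟩) (by
        rw [Equiv.apply_symm_apply]
        exact hu')
      rw [Equiv.apply_symm_apply] at this
      exact this
  rw [ca_prod, ca_prod]
  by_cases hh : (okC K T n p (kc κ) (stepEquiv n T.L u) = 1 ∧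
          ∀ u' : Step n T.L, stepEquiv n T.L u' < stepEquiv n T.L u →
            cmpC K T n p (kc κ) (stepEquiv n T.L u') (stepEquiv n T.L u) ≠ 1)
  · rw [if_pos hh, if_pos (hc.2 hh)]
  · rw [if_neg hh, if_neg (fun h => hh (hc.1 h))]

private def ca_t (a : Option ℝ) : WithTop ℝ := a

private theorem ca_lt (a b : Option ℝ) : ocmp a b = .lt ↔ ca_t a < ca_t b := by
  cases a with
  | none => cases b with
    | none =>
      simp only [ocmp, reduceCtorEq, false_iff]
      exact lt_irrefl _
    | some b =>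
      simp only [ocmp, reduceCtorEq, false_iff]
      exact not_lt_of_ge le_top
  | some a => cases b with
    | none =>
      simp only [ocmp, true_iff]
      exact WithTop.coe_lt_top a
    | some b =>
      have h : (ca_t (some a) < ca_t (some b)) ↔ a < b := WithTop.coe_lt_coe
      rw [h]
      simp only [ocmp]
      split_ifs with h1 h2
      · simp [h1]
      · simp [h1]
      · simp [h1]

private theorem ca_eq (a b : Option ℝ) : ocmp a b = .eq ↔ ca_t a = ca_t b := by
  have h0 : ca_t a = ca_t b ↔ a = b := Iff.rfl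
  rw [h0]
  cases a with
  | none => cases b with
    | none => simp [ocmp]
    | some b => simp [ocmp]
  | some a => cases b with
    | none => simp [ocmp]
    | some b =>
      simp only [ocmp, Option.some.injEq]
      split_ifs with h1 h2
      · simp [h1.ne]
      · simp [h2]
      · simp [h2]

private theorem ca_oc {β : Type} [LinearOrder β] (a b : Option ℝ) (x y : β)
    (h1 : ca_t a < ca_t b ↔ x < y) (h2 : ca_t a = ca_t b ↔ x = y) (f : ℕ → ℕ → ℕ)
    (i j : ℕ) (h3 : x < y ↔ i < j) (h4 : x = y ↔ i = j) : oc (ocmp a b) = c3 i j := by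
  unfold c3
  by_cases c1 : i < j
  · rw [if_pos c1, (ca_lt a b).2 (h1.2 (h3.2 c1))]
    rfl
  · rw [if_neg c1]
    by_cases c2 : i = j
    · rw [if_pos c2, (ca_eq a b).2 (h2.2 (h4.2 c2))]
      rfl
    · rw [if_neg c2]
      have n1 : ocmp a b ≠ .lt := fun h => c1 (h3.1 (h1.1 ((ca_lt a b).1 h)))
      have n2 : ocmp a b ≠ .eq := fun h => c2 (h4.1 (h2.1 ((ca_eq a b).1 h)))
      cases h : ocmp a b with
      | lt => exact absurd h n1
      | eq => exact absurd h n2
      | gt => rfl

/-- ranks are compared as the values. -/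
private theorem ca_rank {ι β : Type} [Fintype ι] [LinearOrder β] (w : ι → β) (u v : ι) :
    ((Finset.univ.filter (fun x => w x < w u)).card <
      (Finset.univ.filter (fun x => w x < w v)).card ↔ w u < w v) ∧
    ((Finset.univ.filter (fun x => w x < w u)).card =
      (Finset.univ.filter (fun x => w x < w v)).card ↔ w u = w v) := by
  classical
  have key : ∀ a b : ι, w a < w b → (Finset.univ.filter (fun x => w x < w a)).card <
      (Finset.univ.filter (fun x => w x < w b)).card := by
    intro a b hab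
    apply Finset.card_lt_card
    rw [Finset.ssubset_iff_of_subset]
    · exact ⟨a, by simp [hab], by simp⟩
    · intro x hx
      simp only [Finset.mem_filter, Finset.mem_univ, true_and] at hx ⊢
      exact hx.trans hab
  have heq : ∀ a b : ι, w a = w b → (Finset.univ.filter (fun x => w x < w a)).card =
      (Finset.univ.filter (fun x => w x < w b)).card := by
    intro a b hab
    rw [hab]
  rcases lt_trichotomy (w u) (w v) with h | h | h
  · have := key u v h
    constructor
    · exact ⟨fun _ => h, fun _ => this⟩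
    · exact ⟨fun h' => absurd h' this.ne, fun h' => absurd h' h.ne⟩
  · have := heq u v h
    constructor
    · exact ⟨fun h' => absurd h' (by rw [this]; exact lt_irrefl _), fun h' => absurd h' (by
        rw [h]; exact lt_irrefl _)⟩
    · exact ⟨fun _ => h, fun _ => this⟩
  · have := key v u h
    constructor
    · exact ⟨fun h' => absurd h' this.le.not_gt, fun h' => absurd h' h.le.not_gt⟩
    · exact ⟨fun h' => absurd h' this.ne', fun h' => absurd h' h.ne'⟩

/-- tables of comparisons of (optional) real numbers are consistent. -/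
theorem Cons_typed {K : ℕ} (T : Tabs) {n : ℕ} (p : ℕ → ℕ)
    (val : (Fin K → Step n T.L) → Step n T.L → Option ℝ)
    (h : ∀ κ u v, cmpC K T n p (kc κ) (stepEquiv n T.L u) (stepEquiv n T.L v) =
      oc (ocmp (val κ u) (val κ v))) : Cons K T n p := by
  classical
  intro κ0 hκ0 u0 hu0 v0 hv0
  obtain ⟨κ, rfl⟩ : ∃ κ : Fin K → Step n T.L, kc κ = κ0 := by
    refine ⟨(ca_equiv K n T.L).symm ⟨κ0, hκ0⟩, ?_⟩
    rw [← ca_equiv_coe, Equiv.apply_symm_apply]
  obtain ⟨u, rfl⟩ : ∃ u : Step n T.L, (stepEquiv n T.L u : ℕ) = u0 :=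
    ⟨(stepEquiv n T.L).symm ⟨u0, hu0⟩, by rw [Equiv.apply_symm_apply]⟩
  obtain ⟨v, rfl⟩ : ∃ v : Step n T.L, (stepEquiv n T.L v : ℕ) = v0 :=
    ⟨(stepEquiv n T.L).symm ⟨v0, hv0⟩, by rw [Equiv.apply_symm_apply]⟩
  have hrk : ∀ w : Step n T.L, rkC K T n p (kc κ) (stepEquiv n T.L w) =
      (Finset.univ.filter (fun x => ca_t (val κ x) < ca_t (val κ w))).card := by
    intro w
    unfold rkC
    have e0 : nU T n = (n + 1) * T.L := rfl
    rw [Finset.card_filter, e0, ca_sum', Finset.card_filter]
    refine Finset.sum_congr rfl fun x _ => ?_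
    rw [h κ x w]
    have : oc (ocmp (val κ x) (val κ w)) = 0 ↔ ca_t (val κ x) < ca_t (val κ w) := by
      rw [← ca_lt]
      cases ocmp (val κ x) (val κ w) <;> simp [oc]
    by_cases hc : ca_t (val κ x) < ca_t (val κ w)
    · rw [if_pos hc, if_pos (this.2 hc)]
    · rw [if_neg hc, if_neg (fun h' => hc (this.1 h'))]
  rw [h κ u v, hrk, hrk]
  obtain ⟨r1, r2⟩ := ca_rank (fun x => ca_t (val κ x)) u v
  exact ca_oc _ _ (ca_t (val κ u)) (ca_t (val κ v)) Iff.rfl Iff.rfl (fun _ _ => 0) _ _ r1.symm
    r2.symm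

end BU
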