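import Pool.Agent.Work.MP_4030f5_lc.U.RowDefs

/-! # Locality of the rows

For a strictly increasing map `ι` of the items let `ℓ.sub ι = ⟨ℓ.w, fun i => ℓ.g (ι i)⟩`. Then
`(ℓ.step (mapS ι s)).sub ι = (ℓ.sub ι).step s` (in `Lev.step` only the comparisons of the item `i` with
the item `j` of the step matter), hence the same for `Lev.rows` (induction on `q`), and
`(topLev E a).sub ι = topLev E (fun z => a (ι z.1, z.2))`. -/

namespace BU

private def Local_sub {n n' q : ℕ} (ι : Fin n' → Fin n) (ℓ : Lev n q) : Lev n' q :=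
  ⟨ℓ.w, fun i => ℓ.g (ι i)⟩

private theorem Local_step {n n' q L : ℕ} (ι : Fin n' → Fin n) (hι : StrictMono ι)
    (ℓ : Lev n (q + 1)) (s : Step n' L) :
    Local_sub ι (ℓ.step (mapS ι s)) = (Local_sub ι ℓ).step s := by
  obtain ⟨o, α⟩ := s
  rcases o with _ | j
  · rfl
  · unfold Local_sub Lev.step mapS
    simp only [Option.map_some, hι.injective.eq_iff, hι.lt_iff_lt]

private theorem Local_rows {n n' L : ℕ} (ι : Fin n' → Fin n) (hι : StrictMono ι) (q : ℕ)
    (ℓ : Lev n (q + 1)) (κ : Fin q → Step n' L) :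
    Local_sub ι (Lev.rows q ℓ (fun i => mapS ι (κ i))) = Lev.rows q (Local_sub ι ℓ) κ := by
  induction q with
  | zero => rfl
  | succ q ih =>
    unfold Lev.rows
    rw [← Local_step ι hι, ← ih]
    rfl

theorem row_local {k m n n' L : ℕ} (E : (Fin m → ℝ) → (Fin (k + 1) → ℝ) → Prop)
    (ι : Fin n' → Fin n) (hι : StrictMono ι) (κ : Fin k → Step n' L) (a : Fin n × Fin m → ℝ)
    (o : Option (Fin n')) :
    (F2_row E (fun i => mapS ι (κ i)) a).fn (o.map ι) =
      (F2_row E κ (fun z => a (ι z.1, z.2))).fn o := by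
  have h1 : Local_sub ι (topLev E a) = topLev E (fun z => a (ι z.1, z.2)) := rfl
  have h2 := Local_rows ι hι k (topLev E a) κ
  rw [h1] at h2
  unfold F2_row
  rw [← h2]
  rcases o with _ | i <;> rfl

end BU
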