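import Pool.Agent.Work.MP_4030f5_lc.U.RowDefs

/-! # The Euler integral of a row, explicitly

`ℓ.F (fun _ => t) = ∏ o, ℓ.fn o t` (product over `Option (Fin n)`), so
`EI 1 ℓ.F = EI1 (fun t => ∏ o, ℓ.fn o t)`. The break points of the product are among the values
`b` with `ℓ.val u = some b`; by `EI1_eq_sum` the integral is the sum over these `b` of
`∏ o, ℓ.fn o b - ∏ o, rl (ℓ.fn o) b` (`rl_prod`). Every `b` is represented by exactly one `u` with
least number `stepEquiv n L u`. `evL_spec`: `bp u α` is increasing in `α` (`Bk` sorted); if the last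
break point `≤ b` is number `α`, then there are no break points in between (`exists_bp`), and
`E4a_right` (private in E4a.lean, copy it; also `E4a_left`) gives the values. -/

namespace BU

open Filter

private theorem Row_right {u : ℝ → ℤ} (h : PC u) {b t : ℝ} (hbt : b < t)
    (hno : ∀ x, b < x → x ≤ t → x ∉ Bk u) : u t = rl u b := by
  have h1 := rl_spec h b
  have h2 : ∀ᶠ s in nhdsWithin b (Set.Ioi b), s ∈ Set.Ioo b t := Ioo_mem_nhdsGT hbt
  obtain ⟨s, hs1, hs2⟩ := (h1.and h2).exists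
  rw [← hs1]
  refine (PC.eq_of_Icc hs2.2.le ?_).symm
  intro x hx
  exact hno x (lt_of_lt_of_le hs2.1 hx.1) hx.2

private theorem Row_left {u : ℝ → ℤ} {t : ℝ} (hno : ∀ x, x ≤ t → x ∉ Bk u) :
    u t = initv u := by
  have h1 : ∀ᶠ s in atBot, u s = u t := by
    filter_upwards [eventually_le_atBot t] with s hs
    exact PC.eq_of_Icc hs (fun x hx => hno x hx.2)
  have hex : ∃ v, ∀ᶠ s in atBot, u s = v := ⟨u t, h1⟩
  unfold initv
  rw [dif_pos hex]
  obtain ⟨s, hs1, hs2⟩ := (hex.choose_spec.and h1).exists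
  rw [← hs1, hs2]

private theorem Row_EI {n : ℕ} (ℓ : Lev n 1) :
    EI 1 ℓ.F = EI1 (fun t => ∏ o, ℓ.fn o t) := by
  show EI1 (fun t => ℓ.F (Fin.snoc (Fin.elim0 : Fin 0 → ℝ) t)) = _
  refine congrArg EI1 (funext fun t => ?_)
  have h1 : (Fin.snoc (Fin.elim0 : Fin 0 → ℝ) t : Fin 1 → ℝ) = fun _ => t := by
    funext i
    have hi : i = Fin.last 0 := Fin.ext (by have := i.2; simp only [Fin.val_last]; omega)
    subst hi
    exact Fin.snoc_last (α := fun _ => ℝ) t Fin.elim0
  rw [h1, Fintype.prod_option]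
  rfl

private theorem Row_bp_lt {u : ℝ → ℤ} {α β : ℕ} {x y : ℝ} (hα : bp u α = some x)
    (hβ : bp u β = some y) (h : α < β) : x < y := by
  unfold bp at hα hβ
  split_ifs at hα hβ with hfin
  rw [List.getElem?_eq_some_iff] at hα hβ
  obtain ⟨h1, rfl⟩ := hα
  obtain ⟨h2, rfl⟩ := hβ
  exact (Finset.sortedLT_sort hfin.toFinset).getElem_lt_getElem_of_lt h

private theorem Row_cmp_ne_lt {b : ℝ} {y : Option ℝ} (h : ocmp (some b) y ≠ .lt) :
    ∃ x, y = some x ∧ x ≤ b := by
  cases y with
  | none => exact absurd rfl h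
  | some x =>
    refine ⟨x, rfl, ?_⟩
    by_contra hlt
    apply h
    unfold ocmp
    exact if_pos (not_le.1 hlt)

private theorem Row_cmp_of_le {b x : ℝ} (h : x ≤ b) : ocmp (some b) (some x) ≠ .lt := by
  have h1 : ¬ b < x := not_lt.2 h
  by_cases h2 : b = x
  · subst h2
    simp [ocmp]
  · simp [ocmp, h1, h2]

private theorem Row_cmp_eq {x y : Option ℝ} {b : ℝ} (hy : y = some b) :
    ocmp x y = .eq ↔ x = some b := by
  subst hy
  cases x with
  | none => simp [ocmp]
  | some a =>
    unfold ocmp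
    by_cases h1 : a < b
    · simp [h1, h1.ne]
    · by_cases h2 : a = b <;> simp [h1, h2]

theorem evL_spec {L : ℕ} {u : ℝ → ℤ} (h : PC u) (hL : (Bk u).ncard ≤ L) (b : ℝ) :
    evL (loc L u) (fun α : Fin L => ocmp (some b) (bp u α)) = (u b, rl u b) := by
  classical
  unfold evL
  split_ifs with hne heq
  · -- the last break point `≤ b` is `b`
    set α := (Finset.univ.filter (fun α : Fin L => ocmp (some b) (bp u α) ≠ .lt)).max' hne with hα
    have h1 : bp u α = some b := by
      have hmem := Finset.max'_mem _ hne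
      rw [← hα, Finset.mem_filter] at hmem
      obtain ⟨x, hx, hxb⟩ := Row_cmp_ne_lt hmem.2
      rw [Row_cmp_eq hx] at heq
      rw [hx, heq]
    have h2 : (loc L u).2 α = some (u b, rl u b) := by
      unfold loc
      simp only [h1, Option.map_some]
    rw [h2]
    rfl
  · set α := (Finset.univ.filter (fun α : Fin L => ocmp (some b) (bp u α) ≠ .lt)).max' hne with hα
    have hmem := Finset.max'_mem _ hne
    rw [← hα, Finset.mem_filter] at hmem
    obtain ⟨x, hx, hxb⟩ := Row_cmp_ne_lt hmem.2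
    have hxb' : x < b := by
      rcases hxb.eq_or_lt with h0 | h0
      · exfalso
        apply heq
        rw [Row_cmp_eq hx, h0]
      · exact h0
    have hno : ∀ y, x < y → y ≤ b → y ∉ Bk u := by
      intro y hy1 hy2 hy
      obtain ⟨β, hβ⟩ := exists_bp h hL hy
      have h1 : β ∈ Finset.univ.filter (fun α : Fin L => ocmp (some b) (bp u α) ≠ .lt) := by
        rw [Finset.mem_filter]
        refine ⟨Finset.mem_univ _, ?_⟩
        rw [hβ]
        exact Row_cmp_of_le hy2
      have h2 : β ≤ α := Finset.le_max' _ _ h1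
      rcases h2.eq_or_lt with h3 | h3
      · rw [h3, hx] at hβ
        exact hy1.ne (Option.some.inj hβ)
      · exact absurd (Row_bp_lt hβ hx h3) (not_lt.2 hy1.le)
    have h2 : (loc L u).2 α = some (u x, rl u x) := by
      unfold loc
      simp only [hx, Option.map_some]
    have h3 : u b = rl u x := Row_right h hxb' hno
    have h4 : rl u b = u b := rl_eq_self (hno b hxb' le_rfl)
    rw [h2]
    simp only [Option.getD_some]
    rw [h4, h3]
  · have hno : ∀ y, y ≤ b → y ∉ Bk u := by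
      intro y hy2 hy
      obtain ⟨β, hβ⟩ := exists_bp h hL hy
      apply hne
      refine ⟨β, ?_⟩
      rw [Finset.mem_filter]
      refine ⟨Finset.mem_univ _, ?_⟩
      show ocmp (some b) (bp u β) ≠ .lt
      rw [hβ]
      exact Row_cmp_of_le hy2
    have h3 : u b = initv u := Row_left hno
    have h4 : rl u b = u b := rl_eq_self (hno b le_rfl)
    rw [h4, h3]
    rfl

theorem row_formula {n L : ℕ} (ℓ : Lev n 1) (h : ∀ o, PC (ℓ.fn o))
    (hL : ∀ o, (Bk (ℓ.fn o)).ncard ≤ L) :
    EI 1 ℓ.F = ∑ u : Step n L,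
      open Classical in
      if (ℓ.val u).isSome ∧ ∀ u' : Step n L, stepEquiv n L u' < stepEquiv n L u →
          ocmp (ℓ.val u') (ℓ.val u) ≠ .eq then
        (∏ o, (evL (loc L (ℓ.fn o)) (fun α : Fin L => ocmp (ℓ.val u) (ℓ.val (o, α)))).1) -
          ∏ o, (evL (loc L (ℓ.fn o)) (fun α : Fin L => ocmp (ℓ.val u) (ℓ.val (o, α)))).2
      else 0 := by
  classical
  rw [Row_EI, ← Finset.sum_filter]
  -- the break points
  have hA : Bk (fun t => ∏ o, ℓ.fn o t) ⊆
      ((Finset.univ.biUnion fun o => (h o).toFinset : Finset ℝ) : Set ℝ) := by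
    intro t ht
    by_contra hcon
    apply ht
    have h1 : ∀ o, ∀ᶠ s in nhds t, ℓ.fn o s = ℓ.fn o t := by
      intro o
      by_contra h2
      apply hcon
      rw [Finset.coe_biUnion]
      refine Set.mem_iUnion₂.2 ⟨o, Finset.mem_coe.2 (Finset.mem_univ o), ?_⟩
      rw [Set.Finite.coe_toFinset]
      exact h2
    filter_upwards [Filter.eventually_all.2 h1] with s hs
    exact Finset.prod_congr rfl fun o _ => hs o
  rw [EI1_eq_sum hA]
  symm
  refine Finset.sum_bij (fun u _ => (ℓ.val u).getD 0) ?_ ?_ ?_ ?_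
  · intro u hu
    rw [Finset.mem_filter] at hu
    obtain ⟨b, hb⟩ := Option.isSome_iff_exists.1 hu.2.1
    rw [hb, Option.getD_some, Finset.mem_biUnion]
    refine ⟨u.1, Finset.mem_univ _, ?_⟩
    rw [Set.Finite.mem_toFinset]
    exact bp_mem hb
  · intro u hu v hv huv
    rw [Finset.mem_filter] at hu hv
    obtain ⟨b, hb⟩ := Option.isSome_iff_exists.1 hu.2.1
    obtain ⟨b', hb'⟩ := Option.isSome_iff_exists.1 hv.2.1
    rw [hb, hb', Option.getD_some, Option.getD_some] at huv
    subst huv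
    rcases lt_trichotomy (stepEquiv n L u) (stepEquiv n L v) with h1 | h1 | h1
    · exact absurd ((Row_cmp_eq hb').2 hb) (hv.2.2 u h1)
    · exact (stepEquiv n L).injective h1
    · exact absurd ((Row_cmp_eq hb).2 hb') (hu.2.2 v h1)
  · intro t ht
    rw [Finset.mem_biUnion] at ht
    obtain ⟨o, _, ho⟩ := ht
    rw [Set.Finite.mem_toFinset] at ho
    obtain ⟨α, hα⟩ := exists_bp (h o) (hL o) ho
    have hne : (Finset.univ.filter fun u : Step n L => ℓ.val u = some t).Nonempty :=
      ⟨(o, α), by rw [Finset.mem_filter]; exact ⟨Finset.mem_univ _, hα⟩⟩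
    obtain ⟨u, hu, hmin⟩ := Finset.exists_min_image _ (fun u => stepEquiv n L u) hne
    rw [Finset.mem_filter] at hu
    refine ⟨u, ?_, by rw [hu.2, Option.getD_some]⟩
    rw [Finset.mem_filter]
    refine ⟨Finset.mem_univ _, by rw [hu.2]; rfl, fun u' hu' heq => ?_⟩
    rw [Row_cmp_eq hu.2] at heq
    exact absurd (hmin u' (by rw [Finset.mem_filter]; exact ⟨Finset.mem_univ _, heq⟩))
      (not_le.2 hu')
  · intro u hu
    rw [Finset.mem_filter] at hu
    obtain ⟨b, hb⟩ := Option.isSome_iff_exists.1 hu.2.1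
    have h1 : ∀ o, evL (loc L (ℓ.fn o)) (fun α : Fin L => ocmp (ℓ.val u) (ℓ.val (o, α))) =
        (ℓ.fn o b, rl (ℓ.fn o) b) := by
      intro o
      rw [hb]
      exact evL_spec (h o) (hL o) b
    have h2 : (∏ o, (evL (loc L (ℓ.fn o)) (fun α : Fin L => ocmp (ℓ.val u) (ℓ.val (o, α)))).1) =
        ∏ o, ℓ.fn o b := Finset.prod_congr rfl fun o _ => by rw [h1 o]
    have h3 : (∏ o, (evL (loc L (ℓ.fn o)) (fun α : Fin L => ocmp (ℓ.val u) (ℓ.val (o, α)))).2) =
        ∏ o, rl (ℓ.fn o) b := Finset.prod_congr rfl fun o _ => by rw [h1 o]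
    have h4 : (ℓ.val u).getD 0 = b := by rw [hb]; rfl
    rw [h2, h3, h4, rl_prod Finset.univ (fun o _ => h o) b]

end BU
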