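import Mathlib

/-! # Finite tables -/

namespace BU

theorem table_exists {X A : Type} (code : X → ℕ) (B : ℕ) (hB : ∀ x, code x < B) (f : X → A)
    (d : A) (h : ∀ x x', code x = code x' → f x = f x') :
    ∃ l : List A, ∀ x, l.getD (code x) d = f x := by
  classical
  let g : ℕ → A := fun c => if hc : ∃ x, code x = c then f hc.choose else d
  refine ⟨(List.range B).map g, fun x => ?_⟩
  have hx := hB x
  rw [List.getD_eq_getElem _ _ (by simpa using hx)]
  simp only [List.getElem_map, List.getElem_range]
  have hex : ∃ x', code x' = code x := ⟨x, rfl⟩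
  simp only [g, dif_pos hex]
  exact h _ _ hex.choose_spec

end BU
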