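import Pool.Agent.Work.MP_4030f5_lc.U.ChiA
import Pool.Agent.Work.MP_4030f5_lc.U.Row
import Pool.Agent.Work.MP_4030f5_lc.U.Local
import Pool.Agent.Work.MP_4030f5_lc.U.Table

/-! # The Euler characteristic by tables

Take `L = L1 + 1` at least the `L₀` of `euler_rows` and the `C₁` of `BddLev.rows` (as in `F2_data`,
F2.lean). Apply `info_transfer` to
(1) `Ψ n sl a = ocmp (val u) (val v)` of the row `F2_row E (first K slots) a`, `u`, `v` the last two slots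
(`bdd_ocmp`, `row_local`: `ℓ.val u = bp (ℓ.fn u.1) u.2`);
(2) `Ψ n sl a = loc L (ℓ.fn o)` for the same row, `o` the item of the last slot (`bdd_loc`);
(3) `Ψ n sl a = (ℓ.val u).isSome`, `u` the last slot (from (2)).
Tables by `table_exists` with `X` the type of all `(n, a, sl)` with `n ≥ 1` (for `vl`, `vr` also with
`c : Fin L → Ordering`; value `(evL loc c).1`, resp. `.2`; the code is
`Nat.pair (undig 3 L (fun α => oc (c α))) (rinf ..)`), boundedness by `rinf_lt`, `undig_lt`,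
`Nat.pair_lt_max_add_one_sq`. Then `chiC_typed`, `row_formula`, `euler_rows`; `Cons_typed`. -/

namespace BU

open Finset

section

variable {K m L : ℕ}

private theorem ChiCode_oc_lt (o : Ordering) : oc o < 3 := by cases o <;> simp [oc]

private theorem ChiCode_oc_inj {o o' : Ordering} (h : oc o = oc o') : o = o' := by
  cases o <;> cases o' <;> simp_all [oc]

private theorem ChiCode_oc_eq_one (o : Ordering) : oc o = 1 ↔ o = .eq := by
  cases o <;> simp [oc]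

private def ChiCode_κ {n : ℕ} (sl : Fin (K + 2) → Step n L) (i : Fin K) : Step n L :=
  sl i.castSucc.castSucc

private theorem ChiCode_slT {n : ℕ} (κ : Fin K → Step n L) (u v : Step n L) :
    ChiCode_κ (slT κ u v) = κ ∧ slT κ u v (Fin.last K).castSucc = u ∧
      slT κ u v (Fin.last (K + 1)) = v := by
  refine ⟨?_, ?_, ?_⟩
  · funext i
    unfold ChiCode_κ slT
    rw [Fin.snoc_castSucc (α := fun _ => Step n L), Fin.snoc_castSucc (α := fun _ => Step n L)]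
  · unfold slT
    rw [Fin.snoc_castSucc (α := fun _ => Step n L), Fin.snoc_last (α := fun _ => Step n L)]
  · unfold slT
    rw [Fin.snoc_last (α := fun _ => Step n L)]

variable (E : (Fin m → ℝ) → (Fin (K + 1) → ℝ) → Prop)

private noncomputable def ChiCode_Ψ₁ (L n : ℕ) (sl : Fin (K + 2) → Step n L)
    (a : Fin n × Fin m → ℝ) : Ordering :=
  ocmp ((F2_row E (ChiCode_κ sl) a).val (sl (Fin.last K).castSucc))
    ((F2_row E (ChiCode_κ sl) a).val (sl (Fin.last (K + 1))))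

private noncomputable def ChiCode_Ψ₂ (L n : ℕ) (sl : Fin (K + 2) → Step n L)
    (a : Fin n × Fin m → ℝ) : ℤ × (Fin L → Option (ℤ × ℤ)) :=
  loc L ((F2_row E (ChiCode_κ sl) a).fn (sl (Fin.last (K + 1))).1)

private noncomputable def ChiCode_Ψ₃ (L n : ℕ) (sl : Fin (K + 2) → Step n L)
    (a : Fin n × Fin m → ℝ) : Bool :=
  ((ChiCode_Ψ₂ E L n sl a).2 (sl (Fin.last (K + 1))).2).isSome

private theorem ChiCode_val_local {r n : ℕ} (ι : Fin r → Fin n) (hι : StrictMono ι)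
    (κ : Fin K → Step r L) (a : Fin n × Fin m → ℝ) (u : Step r L) :
    (F2_row E (fun i => mapS ι (κ i)) a).val (mapS ι u) =
      (F2_row E κ (fun z => a (ι z.1, z.2))).val u := by
  unfold Lev.val
  rw [show (mapS ι u).1 = u.1.map ι from rfl, row_local E ι hι κ a u.1]
  rfl

private theorem ChiCode_loc₁ (r n : ℕ) (ι : Fin r → Fin n) (hι : StrictMono ι)
    (sl : Fin (K + 2) → Step r L) (a : Fin n × Fin m → ℝ) :
    ChiCode_Ψ₁ E L n (fun t => mapS ι (sl t)) a =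
      ChiCode_Ψ₁ E L r sl (fun z => a (ι z.1, z.2)) := by
  unfold ChiCode_Ψ₁
  have h := ChiCode_val_local E ι hι (ChiCode_κ sl) a
  exact congrArg₂ ocmp (h _) (h _)

private theorem ChiCode_loc₂ (r n : ℕ) (ι : Fin r → Fin n) (hι : StrictMono ι)
    (sl : Fin (K + 2) → Step r L) (a : Fin n × Fin m → ℝ) :
    ChiCode_Ψ₂ E L n (fun t => mapS ι (sl t)) a =
      ChiCode_Ψ₂ E L r sl (fun z => a (ι z.1, z.2)) := by
  unfold ChiCode_Ψ₂
  exact congrArg (loc L) (row_local E ι hι (ChiCode_κ sl) a _)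

private theorem ChiCode_loc₃ (r n : ℕ) (ι : Fin r → Fin n) (hι : StrictMono ι)
    (sl : Fin (K + 2) → Step r L) (a : Fin n × Fin m → ℝ) :
    ChiCode_Ψ₃ E L n (fun t => mapS ι (sl t)) a =
      ChiCode_Ψ₃ E L r sl (fun z => a (ι z.1, z.2)) := by
  unfold ChiCode_Ψ₃
  rw [ChiCode_loc₂ E r n ι hι sl a]
  rfl

end

/-- inputs of the tables. -/
private abbrev ChiCode_X (K m L : ℕ) : Type :=
  Σ n : ℕ, {x : (ℕ → Fin m → ℝ) × (Fin (K + 2) → Step n L) × (ℕ → ℕ) //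
    1 ≤ n ∧ ∀ t : Fin (K + 2), x.2.2 t = stepEquiv n L (x.2.1 t)}

theorem chi_code (K m : ℕ) (E : (Fin m → ℝ) → (Fin (K + 1) → ℝ) → Prop)
    (hE : SA {z : Fin m ⊕ Fin (K + 1) → ℝ | E (fun i => z (Sum.inl i)) (fun i => z (Sum.inr i))}) :
    ∃ (H₁ : List (Fm (Fin (K + 2) × Fin m))) (L1 : ℕ), ∀ H, H₁ ⊆ H →
      ∃ (cmp ok : List ℕ) (vl vr : List ℤ), ∀ T : Tabs, T.L1 = L1 → T.cmp = cmp → T.ok = ok →
        T.vl = vl → T.vr = vr → ∀ n, 1 ≤ n → ∀ a : ℕ → Fin m → ℝ,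
        (∀ i < n, IsCompact {p | E (a i) p}) →
          Cons K T n (pR H n a) ∧
          chiC K T n (pR H n a) = ∑ q ∈ Finset.range (K + 1), (-1 : ℤ) ^ q *
            (betti (⋃ i : Fin n, {p | E (a i) p} : Set (Fin (K + 1) → ℝ)) q : ℤ) := by
  classical
  obtain ⟨L₀, hL₀⟩ := euler_rows E hE
  obtain ⟨C₀, hC₀⟩ := topLev_bdd E hE
  obtain ⟨C₁, hC₁⟩ := BddLev.rows C₀ K
  obtain ⟨C₂, hC₂⟩ := bdd_loc C₁
  obtain ⟨C₃, hC₃⟩ := bdd_ocmp C₁
  obtain ⟨L1, hL1a, hL1b⟩ : ∃ L1 : ℕ, L₀ ≤ L1 ∧ C₁ ≤ L1 :=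
    ⟨max L₀ C₁, le_max_left _ _, le_max_right _ _⟩
  have hL : 0 < L1 + 1 := Nat.succ_pos _
  have hrow : ∀ (n : ℕ) (κ : Fin K → Step n (L1 + 1)), BddLev C₁ (fun a => F2_row E κ a) :=
    fun n κ => hC₁ _ n _ _ (hC₀ n) κ
  obtain ⟨Ha, hHa⟩ := info_transfer (K := K) (m := m) hL (ChiCode_Ψ₁ E (L1 + 1))
    (fun r n ι hι sl a => ChiCode_loc₁ E r n ι hι sl a)
    (fun r sl => ⟨C₃, hC₃ _ r _ _ (hrow r (ChiCode_κ sl)) _ _⟩)
  obtain ⟨Hb, hHb⟩ := info_transfer (K := K) (m := m) hL (ChiCode_Ψ₂ E (L1 + 1))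
    (fun r n ι hι sl a => ChiCode_loc₂ E r n ι hι sl a)
    (fun r sl => ⟨C₂, hC₂ _ r _ _ (hrow r (ChiCode_κ sl)) _⟩)
  obtain ⟨Hc, hHc⟩ := info_transfer (K := K) (m := m) hL (ChiCode_Ψ₃ E (L1 + 1))
    (fun r n ι hι sl a => ChiCode_loc₃ E r n ι hι sl a)
    (fun r sl => ⟨C₂, by
      obtain ⟨F, hF, hF'⟩ := hC₂ _ r (L1 + 1) _ (hrow r (ChiCode_κ sl)) (sl (Fin.last (K + 1))).1
      exact ⟨F, hF, fun x y hxy => by
        show (ChiCode_Ψ₃ E (L1 + 1) r sl x) = ChiCode_Ψ₃ E (L1 + 1) r sl y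
        have h1 : ChiCode_Ψ₂ E (L1 + 1) r sl x = ChiCode_Ψ₂ E (L1 + 1) r sl y := hF' x y hxy
        unfold ChiCode_Ψ₃
        rw [h1]⟩⟩)
  refine ⟨Ha ++ (Hb ++ Hc), L1, fun H hH => ?_⟩
  have hHa' : Ha ⊆ H := fun e he => hH (List.mem_append_left _ he)
  have hHb' : Hb ⊆ H := fun e he => hH (List.mem_append_right _ (List.mem_append_left _ he))
  have hHc' : Hc ⊆ H := fun e he => hH (List.mem_append_right _ (List.mem_append_right _ he))
  obtain ⟨B, hB⟩ := rinf_lt (K := K) hL H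
  let code : ChiCode_X K m (L1 + 1) → ℕ := fun x => rinf K x.1 (pR H x.1 x.2.1.1) (L1 + 1) x.2.1.2.2
  have hcode : ∀ x, code x < B := fun x => hB _ _ _
  let aF : (x : ChiCode_X K m (L1 + 1)) → Fin x.1 × Fin m → ℝ := fun x z => x.2.1.1 z.1 z.2
  obtain ⟨cmp, hcmp⟩ := table_exists code B hcode
    (fun x => oc (ChiCode_Ψ₁ E (L1 + 1) x.1 x.2.1.2.1 (aF x))) 0 (by
      rintro ⟨n, ⟨a, sl, s⟩, hn, hs⟩ ⟨n', ⟨a', sl', s'⟩, hn', hs'⟩ h
      exact congrArg oc (hHa H hHa' n n' hn hn' sl sl' a a' s s' hs hs' h))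
  obtain ⟨ok, hok⟩ := table_exists code B hcode
    (fun x => cond (ChiCode_Ψ₃ E (L1 + 1) x.1 x.2.1.2.1 (aF x)) 1 0) 0 (by
      rintro ⟨n, ⟨a, sl, s⟩, hn, hs⟩ ⟨n', ⟨a', sl', s'⟩, hn', hs'⟩ h
      have := hHc H hHc' n n' hn hn' sl sl' a a' s s' hs hs' h
      exact congrArg (fun b => cond b 1 0) this)
  -- tables with comparisons
  let ocs : (Fin (L1 + 1) → Ordering) → ℕ → ℕ := fun c α =>
    if h : α < L1 + 1 then oc (c ⟨α, h⟩) else 0
  have hocs : ∀ c α, ocs c α < 3 := by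
    intro c α
    simp only [ocs]
    split_ifs
    · exact ChiCode_oc_lt _
    · norm_num
  let code2 : ChiCode_X K m (L1 + 1) × (Fin (L1 + 1) → Ordering) → ℕ := fun x =>
    Nat.pair (undig 3 (L1 + 1) (ocs x.2)) (code x.1)
  have hcode2 : ∀ x, code2 x < (3 ^ (L1 + 1) + B + 1) ^ 2 := by
    intro x
    refine (Nat.pair_lt_max_add_one_sq _ _).trans_le (Nat.pow_le_pow_left ?_ 2)
    have h1 : undig 3 (L1 + 1) (ocs x.2) < 3 ^ (L1 + 1) := undig_lt fun t _ => hocs _ _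
    have h2 := hcode x.1
    omega
  have hdet : ∀ x x', code2 x = code2 x' → evL (ChiCode_Ψ₂ E (L1 + 1) x.1.1 x.1.2.1.2.1 (aF x.1)) x.2 =
      evL (ChiCode_Ψ₂ E (L1 + 1) x'.1.1 x'.1.2.1.2.1 (aF x'.1)) x'.2 := by
    rintro ⟨⟨n, ⟨a, sl, s⟩, hn, hs⟩, c⟩ ⟨⟨n', ⟨a', sl', s'⟩, hn', hs'⟩, c'⟩ h
    obtain ⟨h1, h2⟩ := Nat.pair_eq_pair.1 h
    have h3 := hHb H hHb' n n' hn hn' sl sl' a a' s s' hs hs' h2
    have h4 := undig_inj (fun t _ => hocs c t) (fun t _ => hocs c' t) h1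
    have h5 : c = c' := by
      funext α
      have h6 := h4 α α.2
      simp only [ocs, α.2, dif_pos] at h6
      exact ChiCode_oc_inj h6
    simp only [aF]
    rw [h3, h5]
  obtain ⟨vl, hvl⟩ := table_exists code2 _ hcode2
    (fun x => (evL (ChiCode_Ψ₂ E (L1 + 1) x.1.1 x.1.2.1.2.1 (aF x.1)) x.2).1) 0
    (fun x x' h => congrArg Prod.fst (hdet x x' h))
  obtain ⟨vr, hvr⟩ := table_exists code2 _ hcode2
    (fun x => (evL (ChiCode_Ψ₂ E (L1 + 1) x.1.1 x.1.2.1.2.1 (aF x.1)) x.2).2) 0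
    (fun x x' h => congrArg Prod.snd (hdet x x' h))
  refine ⟨cmp, ok, vl, vr, ?_⟩
  intro T h1 h2 h3 h4 h5 n hn a ha
  subst h1 h2 h3 h4 h5
  set aF' : Fin n × Fin m → ℝ := fun z => a z.1 z.2 with haF'
  -- the tables in typed form
  have hcmpT : ∀ (κ : Fin K → Step n (T.L1 + 1)) (u v : Step n (T.L1 + 1)),
      cmpC K T n (pR H n a) (kc κ) (stepEquiv n (T.L1 + 1) u) (stepEquiv n (T.L1 + 1) v) =
        oc (ocmp ((F2_row E κ aF').val u) ((F2_row E κ aF').val v)) := by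
    intro κ u v
    have h := hcmp ⟨n, ⟨(a, slT κ u v, slot K (nU T n) (kc κ) (stepEquiv n (T.L1 + 1) u)
      (stepEquiv n (T.L1 + 1) v)), hn, fun t => slot_slT κ u v t⟩⟩
    obtain ⟨e1, e2, e3⟩ := ChiCode_slT κ u v
    simp only [ChiCode_Ψ₁] at h
    rw [e1, e2, e3] at h
    exact h
  have hokT : ∀ (κ : Fin K → Step n (T.L1 + 1)) (u : Step n (T.L1 + 1)),
      okC K T n (pR H n a) (kc κ) (stepEquiv n (T.L1 + 1) u) = 1 ↔
        ((F2_row E κ aF').val u).isSome := by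
    intro κ u
    have h := hok ⟨n, ⟨(a, slT κ u u, slot K (nU T n) (kc κ) (stepEquiv n (T.L1 + 1) u)
      (stepEquiv n (T.L1 + 1) u)), hn, fun t => slot_slT κ u u t⟩⟩
    obtain ⟨e1, e2, e3⟩ := ChiCode_slT κ u u
    simp only [ChiCode_Ψ₃, ChiCode_Ψ₂] at h
    rw [e1, e3] at h
    have h' : okC K T n (pR H n a) (kc κ) (stepEquiv n (T.L1 + 1) u) =
        cond (((loc (T.L1 + 1) ((F2_row E κ aF').fn u.1)).2 u.2).isSome) 1 0 := h
    rw [h']
    have h2 : ((loc (T.L1 + 1) ((F2_row E κ aF').fn u.1)).2 u.2).isSome =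
        ((F2_row E κ aF').val u).isSome := by
      simp only [loc, Lev.val, Option.isSome_map]
    rw [h2]
    cases ((F2_row E κ aF').val u).isSome <;> simp
  have hvT : ∀ (tab : List ℤ) (π : ℤ × ℤ → ℤ), (∀ x, tab.getD (code2 x) 0 =
      π (evL (ChiCode_Ψ₂ E (T.L1 + 1) x.1.1 x.1.2.1.2.1 (aF x.1)) x.2)) →
      ∀ (κ : Fin K → Step n (T.L1 + 1)) (u : Step n (T.L1 + 1)) (o : Option (Fin n)),
      vC K T n (pR H n a) tab (kc κ) (stepEquiv n (T.L1 + 1) u) ((finSuccEquiv n).symm o) =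
        π (evL (loc (T.L1 + 1) ((F2_row E κ aF').fn o))
          (fun α : Fin (T.L1 + 1) => ocmp ((F2_row E κ aF').val u) ((F2_row E κ aF').val (o, α)))) := by
    intro tab π htab κ u o
    have hz : ((stepEquiv n (T.L1 + 1) (o, (⟨0, hL⟩ : Fin (T.L1 + 1))) : Fin ((n + 1) * (T.L1 + 1))) : ℕ) =
        ((finSuccEquiv n).symm o : ℕ) * (T.L1 + 1) := by
      simp [stepEquiv, finProdFinEquiv]
      rw [mul_comm]
    have hz2 : ∀ α : Fin (T.L1 + 1), ((stepEquiv n (T.L1 + 1) (o, α) : Fin ((n + 1) * (T.L1 + 1))) : ℕ) =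
        ((finSuccEquiv n).symm o : ℕ) * (T.L1 + 1) + α := by
      intro α
      simp [stepEquiv, finProdFinEquiv]
      ring
    have h := htab (⟨n, ⟨(a, slT κ (o, (⟨0, hL⟩ : Fin (T.L1 + 1))) (o, ⟨0, hL⟩),
      slot K (nU T n) (kc κ) (stepEquiv n (T.L1 + 1) (o, ⟨0, hL⟩)) (stepEquiv n (T.L1 + 1) (o, ⟨0, hL⟩))), hn,
      fun t => slot_slT κ _ _ t⟩⟩,
      fun α : Fin (T.L1 + 1) => ocmp ((F2_row E κ aF').val u) ((F2_row E κ aF').val (o, α)))
    obtain ⟨e1, e2, e3⟩ := ChiCode_slT κ (o, (⟨0, hL⟩ : Fin (T.L1 + 1))) (o, ⟨0, hL⟩)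
    simp only [ChiCode_Ψ₂] at h
    rw [e1, e3] at h
    unfold vC
    rw [← h]
    simp only [code2, code, hz]
    congr 2
    refine undig_congr fun α hα => ?_
    have hα' : α < T.L1 + 1 := hα
    have h3 := hcmpT κ u (o, ⟨α, hα⟩)
    rw [hz2] at h3
    refine Eq.trans h3 ?_
    simp only [ocs, hα', dif_pos]
  refine ⟨Cons_typed T (pR H n a) (fun κ u => (F2_row E κ aF').val u) hcmpT, ?_⟩
  rw [chiC_typed, hL₀ (T.L1 + 1) (hL1a.trans (Nat.le_succ _)) n (fun i => a i)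
    (fun i => ha i i.2)]
  congr 1
  refine Finset.sum_congr rfl fun κ _ => ?_
  have hb := hrow n κ
  have hrf := row_formula (L := T.L1 + 1) (F2_row E κ aF') (fun o => (F2_row_pc E κ hb aF' o).1)
    (fun o => (F2_row_pc E κ hb aF' o).2.trans (hL1b.trans (Nat.le_succ _)))
  refine Eq.trans ?_ hrf.symm
  refine Finset.sum_congr rfl fun u _ => ?_
  have hiff : (okC K T n (pR H n a) (kc κ) (stepEquiv n T.L u) = 1 ∧
      ∀ u' : Step n T.L, stepEquiv n T.L u' < stepEquiv n T.L u →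
        cmpC K T n (pR H n a) (kc κ) (stepEquiv n T.L u') (stepEquiv n T.L u) ≠ 1) ↔
      (((F2_row E κ aF').val u).isSome ∧ ∀ u' : Step n T.L,
        stepEquiv n T.L u' < stepEquiv n T.L u →
          ocmp ((F2_row E κ aF').val u') ((F2_row E κ aF').val u) ≠ .eq) := by
    refine and_congr (hokT κ u) (forall_congr' fun u' => forall_congr' fun _ => ?_)
    exact not_congr ((Eq.congr_left (hcmpT κ u' u)).trans (ChiCode_oc_eq_one _))
  have hprod1 : (∏ o : Option (Fin n), vC K T n (pR H n a) T.vl (kc κ) (stepEquiv n T.L u)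
      ((finSuccEquiv n).symm o)) = ∏ o, (evL (loc T.L ((F2_row E κ aF').fn o))
          (fun α : Fin T.L => ocmp ((F2_row E κ aF').val u) ((F2_row E κ aF').val (o, α)))).1 :=
    Finset.prod_congr rfl fun o _ => hvT _ Prod.fst hvl κ u o
  have hprod2 : (∏ o : Option (Fin n), vC K T n (pR H n a) T.vr (kc κ) (stepEquiv n T.L u)
      ((finSuccEquiv n).symm o)) = ∏ o, (evL (loc T.L ((F2_row E κ aF').fn o))
          (fun α : Fin T.L => ocmp ((F2_row E κ aF').val u) ((F2_row E κ aF').val (o, α)))).2 :=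
    Finset.prod_congr rfl fun o _ => hvT _ Prod.snd hvr κ u o
  rw [hprod1, hprod2]
  exact if_congr hiff rfl rfl

end BU
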