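import Pool.Agent.Work.MP_4030f5_lc.U.PrimCode

/-! # The Euler characteristic formula is primitive recursive

Compose `pc_rinf`, `pc_dig`, `pc_undig`, `Primrec.list_getD` (the tables of `T` and `K`, `T.L` are constants),
`pl_sumZ`, `pl_prodZ`, `pl_count`, `pl_ball`, `pl_imp`, `Primrec.ite`, `PrimrecPred.and` etc. For functions of more
variables work over `α × ℕ`, `(α × ℕ) × ℕ`, ... as in the general statements. -/

namespace BU

variable {α : Type} [Primcodable α]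

private theorem cp_nU (T : Tabs) {n : α → ℕ} (hn : Primrec n) : Primrec fun a => nU T (n a) := by
  unfold nU
  exact Primrec.nat_mul.comp (Primrec.succ.comp hn) (Primrec.const T.L)

private theorem cp_slot (K : ℕ) {U κ u v t : α → ℕ} (hU : Primrec U) (hκ : Primrec κ)
    (hu : Primrec u) (hv : Primrec v) (ht : Primrec t) :
    Primrec fun a => slot K (U a) (κ a) (u a) (v a) (t a) := by
  unfold slot
  exact Primrec.ite (Primrec.nat_lt.comp ht (Primrec.const K)) (pc_dig hU hκ ht)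
    (Primrec.ite (Primrec.eq.comp ht (Primrec.const K)) hu hv)

private theorem cp_rinf (K : ℕ) (T : Tabs) {n κ u v : α → ℕ} {p : α → ℕ → ℕ} (hn : Primrec n)
    (hp : Primrec₂ p) (hκ : Primrec κ) (hu : Primrec u) (hv : Primrec v) :
    Primrec fun a => rinf K (n a) (p a) T.L (slot K (nU T (n a)) (κ a) (u a) (v a)) := by
  have h1 : Primrec₂ fun (a : α) (t : ℕ) => slot K (nU T (n a)) (κ a) (u a) (v a) t := by
    unfold Primrec₂
    beta_reduce
    exact cp_slot K ((cp_nU T hn).comp Primrec.fst) (hκ.comp Primrec.fst) (hu.comp Primrec.fst)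
      (hv.comp Primrec.fst) Primrec.snd
  exact pc_rinf K T.L hn hp h1

theorem pc_cmpC (K : ℕ) (T : Tabs) {n κ u v : α → ℕ} {p : α → ℕ → ℕ} (hn : Primrec n)
    (hp : Primrec₂ p) (hκ : Primrec κ) (hu : Primrec u) (hv : Primrec v) :
    Primrec fun a => cmpC K T (n a) (p a) (κ a) (u a) (v a) := by
  unfold cmpC
  exact (Primrec.list_getD 0).comp (Primrec.const T.cmp) (cp_rinf K T hn hp hκ hu hv)

private theorem cp_okC (K : ℕ) (T : Tabs) {n κ u : α → ℕ} {p : α → ℕ → ℕ} (hn : Primrec n)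
    (hp : Primrec₂ p) (hκ : Primrec κ) (hu : Primrec u) :
    Primrec fun a => okC K T (n a) (p a) (κ a) (u a) := by
  unfold okC
  exact (Primrec.list_getD 0).comp (Primrec.const T.ok) (cp_rinf K T hn hp hκ hu hu)

private theorem cp_vC (K : ℕ) (T : Tabs) (tab : List ℤ) {n κ u o : α → ℕ} {p : α → ℕ → ℕ}
    (hn : Primrec n) (hp : Primrec₂ p) (hκ : Primrec κ) (hu : Primrec u) (ho : Primrec o) :
    Primrec fun a => vC K T (n a) (p a) tab (κ a) (u a) (o a) := by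
  unfold vC
  have hp' : Primrec₂ fun (b : α × ℕ) (q : ℕ) => p b.1 q :=
    (hp.comp (Primrec.fst.comp Primrec.fst) Primrec.snd).to₂
  have h1 : Primrec₂ fun (a : α) (β : ℕ) => cmpC K T (n a) (p a) (κ a) (u a) (o a * T.L + β) := by
    unfold Primrec₂
    beta_reduce
    exact pc_cmpC K T (hn.comp Primrec.fst) hp' (hκ.comp Primrec.fst) (hu.comp Primrec.fst)
      (Primrec.nat_add.comp (Primrec.nat_mul.comp (ho.comp Primrec.fst) (Primrec.const T.L))
        Primrec.snd)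
  have h2 : Primrec fun a => o a * T.L := Primrec.nat_mul.comp ho (Primrec.const T.L)
  exact (Primrec.list_getD (0 : ℤ)).comp (Primrec.const tab) (Primrec₂.natPair.comp
    (pc_undig (Primrec.const 3) (Primrec.const T.L) h1) (cp_rinf K T hn hp hκ h2 h2))

theorem chiC_primrec (K : ℕ) (T : Tabs) {n : α → ℕ} {p : α → ℕ → ℕ} (hn : Primrec n)
    (hp : Primrec₂ p) : Primrec fun a => chiC K T (n a) (p a) := by
  unfold chiC
  -- variables: `((a, κ), u)`
  have hn2 : Primrec fun c : (α × ℕ) × ℕ => n c.1.1 := hn.comp (Primrec.fst.comp Primrec.fst)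
  have hp2 : Primrec₂ fun (c : (α × ℕ) × ℕ) (q : ℕ) => p c.1.1 q :=
    (hp.comp (Primrec.fst.comp (Primrec.fst.comp Primrec.fst)) Primrec.snd).to₂
  have hκ2 : Primrec fun c : (α × ℕ) × ℕ => c.1.2 := Primrec.snd.comp Primrec.fst
  have hu2 : Primrec fun c : (α × ℕ) × ℕ => c.2 := Primrec.snd
  have hn3 : Primrec fun c : ((α × ℕ) × ℕ) × ℕ => n c.1.1.1 := hn2.comp Primrec.fst
  have hp3 : Primrec₂ fun (c : ((α × ℕ) × ℕ) × ℕ) (q : ℕ) => p c.1.1.1 q :=
    (hp2.comp (Primrec.fst.comp Primrec.fst) Primrec.snd).to₂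
  have hκ3 : Primrec fun c : ((α × ℕ) × ℕ) × ℕ => c.1.1.2 := hκ2.comp Primrec.fst
  have hu3 : Primrec fun c : ((α × ℕ) × ℕ) × ℕ => c.1.2 := hu2.comp Primrec.fst
  have ho3 : Primrec fun c : ((α × ℕ) × ℕ) × ℕ => c.2 := Primrec.snd
  have hcond : PrimrecPred fun c : (α × ℕ) × ℕ => okC K T (n c.1.1) (p c.1.1) c.1.2 c.2 = 1 ∧
      ∀ u' < c.2, cmpC K T (n c.1.1) (p c.1.1) c.1.2 u' c.2 ≠ 1 := by
    refine PrimrecPred.and (Primrec.eq.comp (cp_okC K T hn2 hp2 hκ2 hu2) (Primrec.const 1)) ?_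
    have g : PrimrecRel fun (c : (α × ℕ) × ℕ) (u' : ℕ) =>
        cmpC K T (n c.1.1) (p c.1.1) c.1.2 u' c.2 ≠ 1 :=
      PrimrecPred.not (Primrec.eq.comp (pc_cmpC K T hn3 hp3 hκ3 ho3 hu3) (Primrec.const 1))
    exact pl_ball Primrec.snd g
  have hprod : ∀ tab : List ℤ, Primrec fun c : (α × ℕ) × ℕ =>
      ∏ o ∈ Finset.range (n c.1.1 + 1), vC K T (n c.1.1) (p c.1.1) tab c.1.2 c.2 o := by
    intro tab
    have g : Primrec₂ fun (c : (α × ℕ) × ℕ) (o : ℕ) =>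
        vC K T (n c.1.1) (p c.1.1) tab c.1.2 c.2 o :=
      (cp_vC K T tab hn3 hp3 hκ3 hu3 ho3).to₂
    exact pl_prodZ (Primrec.succ.comp hn2) g
  have hterm : Primrec₂ fun (b : α × ℕ) (u : ℕ) =>
      if okC K T (n b.1) (p b.1) b.2 u = 1 ∧ ∀ u' < u, cmpC K T (n b.1) (p b.1) b.2 u' u ≠ 1 then
        (∏ o ∈ Finset.range (n b.1 + 1), vC K T (n b.1) (p b.1) T.vl b.2 u o) -
          ∏ o ∈ Finset.range (n b.1 + 1), vC K T (n b.1) (p b.1) T.vr b.2 u o
      else 0 :=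
    (Primrec.ite hcond (pl_int_sub.comp (hprod T.vl) (hprod T.vr)) (Primrec.const 0)).to₂
  have hrow : Primrec₂ fun (a : α) (κ : ℕ) => ∑ u ∈ Finset.range (nU T (n a)),
      if okC K T (n a) (p a) κ u = 1 ∧ ∀ u' < u, cmpC K T (n a) (p a) κ u' u ≠ 1 then
        (∏ o ∈ Finset.range (n a + 1), vC K T (n a) (p a) T.vl κ u o) -
          ∏ o ∈ Finset.range (n a + 1), vC K T (n a) (p a) T.vr κ u o
      else 0 :=
    (pl_sumZ ((cp_nU T hn).comp Primrec.fst) hterm).to₂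
  exact pl_int_neg.comp (pl_sumZ (pl_pow.comp (cp_nU T hn) (Primrec.const K)) hrow)

private theorem cp_rkC (K : ℕ) (T : Tabs) {n κ u : α → ℕ} {p : α → ℕ → ℕ} (hn : Primrec n)
    (hp : Primrec₂ p) (hκ : Primrec κ) (hu : Primrec u) :
    Primrec fun a => rkC K T (n a) (p a) (κ a) (u a) := by
  classical
  have hp' : Primrec₂ fun (b : α × ℕ) (q : ℕ) => p b.1 q :=
    (hp.comp (Primrec.fst.comp Primrec.fst) Primrec.snd).to₂
  have g : PrimrecRel fun (a : α) (v : ℕ) => cmpC K T (n a) (p a) (κ a) v (u a) = 0 :=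
    Primrec.eq.comp (pc_cmpC K T (hn.comp Primrec.fst) hp' (hκ.comp Primrec.fst) Primrec.snd
      (hu.comp Primrec.fst)) (Primrec.const 0)
  refine (pl_count (cp_nU T hn) g).of_eq fun a => ?_
  unfold rkC
  congr 1
  ext v
  simp only [Finset.mem_filter]

theorem Cons_primrec (K : ℕ) (T : Tabs) {n : α → ℕ} {p : α → ℕ → ℕ}
    (hn : Primrec n) (hp : Primrec₂ p) : PrimrecPred fun a => Cons K T (n a) (p a) := by
  unfold Cons
  have hn3 : Primrec fun c : ((α × ℕ) × ℕ) × ℕ => n c.1.1.1 :=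
    hn.comp (Primrec.fst.comp (Primrec.fst.comp Primrec.fst))
  have hp3 : Primrec₂ fun (c : ((α × ℕ) × ℕ) × ℕ) (q : ℕ) => p c.1.1.1 q :=
    (hp.comp (Primrec.fst.comp (Primrec.fst.comp (Primrec.fst.comp Primrec.fst)))
      Primrec.snd).to₂
  have hκ3 : Primrec fun c : ((α × ℕ) × ℕ) × ℕ => c.1.1.2 :=
    Primrec.snd.comp (Primrec.fst.comp Primrec.fst)
  have hu3 : Primrec fun c : ((α × ℕ) × ℕ) × ℕ => c.1.2 := Primrec.snd.comp Primrec.fst
  have hv3 : Primrec fun c : ((α × ℕ) × ℕ) × ℕ => c.2 := Primrec.snd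
  have h3 : PrimrecRel fun (c : (α × ℕ) × ℕ) (v : ℕ) =>
      cmpC K T (n c.1.1) (p c.1.1) c.1.2 c.2 v =
        c3 (rkC K T (n c.1.1) (p c.1.1) c.1.2 c.2) (rkC K T (n c.1.1) (p c.1.1) c.1.2 v) :=
    Primrec.eq.comp (pc_cmpC K T hn3 hp3 hκ3 hu3 hv3)
      (pc_c3 (cp_rkC K T hn3 hp3 hκ3 hu3) (cp_rkC K T hn3 hp3 hκ3 hv3))
  have h2 : PrimrecRel fun (b : α × ℕ) (u : ℕ) => ∀ v < nU T (n b.1),
      cmpC K T (n b.1) (p b.1) b.2 u v =
        c3 (rkC K T (n b.1) (p b.1) b.2 u) (rkC K T (n b.1) (p b.1) b.2 v) :=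
    pl_ball ((cp_nU T hn).comp (Primrec.fst.comp Primrec.fst)) h3
  have h1 : PrimrecRel fun (a : α) (κ : ℕ) => ∀ u < nU T (n a), ∀ v < nU T (n a),
      cmpC K T (n a) (p a) κ u v =
        c3 (rkC K T (n a) (p a) κ u) (rkC K T (n a) (p a) κ v) :=
    pl_ball ((cp_nU T hn).comp Primrec.fst) h2
  exact pl_ball (pl_pow.comp (cp_nU T hn) (Primrec.const K)) h1

end BU
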