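import Pool.Agent.Work.MP_4030f5_lc.U.Defs

/-! # Codes: digits, patterns, sign vectors

All elementary. `dig_undig`: `Nat.sum` of digits, e.g. by induction on `K`
(`undig b (K+1) f = f 0 + b * undig b K (fun t => f (t+1))`), or via
`finFunctionFinEquiv`. `pat_eq`: the digit number `t * K + t'` of `pat K f` is `c3 (f t) (f t')`. -/

namespace BU

theorem dig_lt {b : ℕ} (hb : 0 < b) (c t : ℕ) : dig b c t < b := Nat.mod_lt _ hb

private theorem undig_succ (b K : ℕ) (f : ℕ → ℕ) :
    undig b (K + 1) f = f 0 + b * undig b K (fun t => f (t + 1)) := by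
  unfold undig
  rw [Finset.sum_range_succ', pow_zero, mul_one, add_comm, Finset.mul_sum]
  congr 1
  refine Finset.sum_congr rfl fun t _ => ?_
  rw [pow_succ]
  ring

private theorem dig_zero (b c : ℕ) : dig b c 0 = c % b := by
  unfold dig
  rw [pow_zero, Nat.div_one]

private theorem dig_succ (b c t : ℕ) : dig b c (t + 1) = dig b (c / b) t := by
  unfold dig
  rw [pow_succ, mul_comm, Nat.div_div_eq_div_mul]

theorem undig_lt {b K : ℕ} {f : ℕ → ℕ} (h : ∀ t < K, f t < b) : undig b K f < b ^ K := by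
  induction K with
  | zero => simp [undig]
  | succ K ih =>
    have h1 := ih fun t ht => h t (by omega)
    have h2 := h K (by omega)
    unfold undig at h1 ⊢
    rw [Finset.sum_range_succ, pow_succ]
    have h3 : f K * b ^ K + b ^ K ≤ b * b ^ K := by
      calc f K * b ^ K + b ^ K = (f K + 1) * b ^ K := by ring
        _ ≤ b * b ^ K := Nat.mul_le_mul_right _ h2
    have h4 : b * b ^ K = b ^ K * b := mul_comm _ _
    omega

theorem undig_congr {b K : ℕ} {f g : ℕ → ℕ} (h : ∀ t < K, f t = g t) :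
    undig b K f = undig b K g := by
  unfold undig
  exact Finset.sum_congr rfl fun t ht => by rw [h t (Finset.mem_range.mp ht)]

theorem dig_undig {b K : ℕ} {f : ℕ → ℕ} (h : ∀ t < K, f t < b) {t : ℕ} (ht : t < K) :
    dig b (undig b K f) t = f t := by
  induction K generalizing f t with
  | zero => omega
  | succ K ih =>
    have h0 := h 0 (by omega)
    rw [undig_succ]
    rcases t with _ | t
    · rw [dig_zero, Nat.add_mul_mod_self_left, Nat.mod_eq_of_lt h0]
    · rw [dig_succ, Nat.add_mul_div_left _ _ (by omega), Nat.div_eq_of_lt h0, zero_add]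
      exact ih (f := fun t => f (t + 1)) (fun s hs => h (s + 1) (by omega)) (by omega)

theorem undig_dig {b K c : ℕ} (hb : 0 < b) (hc : c < b ^ K) : undig b K (dig b c) = c := by
  induction K generalizing c with
  | zero =>
    rw [pow_zero] at hc
    simp [undig]
    omega
  | succ K ih =>
    rw [undig_succ, dig_zero]
    simp only [dig_succ]
    rw [ih (by
      rw [pow_succ] at hc
      exact Nat.div_lt_of_lt_mul (by rw [mul_comm]; exact hc))]
    exact Nat.mod_add_div c b

theorem undig_inj {b K : ℕ} {f g : ℕ → ℕ} (hf : ∀ t < K, f t < b) (hg : ∀ t < K, g t < b)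
    (h : undig b K f = undig b K g) : ∀ t < K, f t = g t := by
  intro t ht
  rw [← dig_undig hf ht, h, dig_undig hg ht]

theorem c3_lt (x y : ℕ) : c3 x y < 3 := by
  unfold c3
  split_ifs <;> omega

theorem pat_lt (K : ℕ) (f : ℕ → ℕ) : pat K f < 3 ^ (K * K) :=
  undig_lt fun _ _ => c3_lt _ _

theorem pat_congr {K : ℕ} {f g : ℕ → ℕ} (h : ∀ t < K, f t = g t) : pat K f = pat K g := by
  unfold pat
  refine undig_congr fun t ht => ?_
  have hK : 0 < K := by
    rcases Nat.eq_zero_or_pos K with h0 | h0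
    · subst h0
      omega
    · exact h0
  rw [h _ (Nat.div_lt_of_lt_mul ht), h _ (Nat.mod_lt _ hK)]

theorem pat_eq {K : ℕ} {f g : ℕ → ℕ} (h : pat K f = pat K g) :
    ∀ t < K, ∀ t' < K, (f t < f t' ↔ g t < g t') := by
  intro t ht t' ht'
  have h1 := undig_inj (b := 3) (K := K * K) (fun _ _ => c3_lt _ _) (fun _ _ => c3_lt _ _) h
    (t * K + t') (by
      calc t * K + t' < t * K + K := by omega
        _ = (t + 1) * K := by ring
        _ ≤ K * K := Nat.mul_le_mul_right K ht)
  have hK : 0 < K := by omega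
  have h2 : (t * K + t') / K = t := by
    rw [add_comm, Nat.add_mul_div_right _ _ hK, Nat.div_eq_of_lt ht', zero_add]
  have h3 : (t * K + t') % K = t' := by
    rw [add_comm, Nat.add_mul_mod_self_right, Nat.mod_eq_of_lt ht']
  simp only [h2, h3] at h1
  unfold c3 at h1
  split_ifs at h1 <;> omega

private theorem sgnCode_val (v : ℝ) : (sgnCode v = 0 ∧ SignType.sign v = -1) ∨
    (sgnCode v = 1 ∧ SignType.sign v = 0) ∨ (sgnCode v = 2 ∧ SignType.sign v = 1) := by
  unfold sgnCode
  rcases lt_trichotomy v 0 with h | h | h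
  · left
    exact ⟨if_pos h, sign_neg h⟩
  · right; left
    subst h
    simp
  · right; right
    exact ⟨by rw [if_neg (not_lt.mpr h.le), if_neg h.ne'], sign_pos h⟩

theorem sgnCode_eq (v w : ℝ) : sgnCode v = sgnCode w ↔ SignType.sign v = SignType.sign w := by
  rcases sgnCode_val v with ⟨h1, h2⟩ | ⟨h1, h2⟩ | ⟨h1, h2⟩ <;>
  rcases sgnCode_val w with ⟨h3, h4⟩ | ⟨h3, h4⟩ | ⟨h3, h4⟩ <;>
  rw [h1, h2, h3, h4] <;> decide

private theorem sgnCode_lt (v : ℝ) : sgnCode v < 3 := by
  unfold sgnCode
  split_ifs <;> omega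

variable {σ : Type}

theorem svc_lt (H : List (Fm σ)) (y : σ → ℝ) : svc H y < 3 ^ H.length := by
  induction H with
  | nil => simp [svc]
  | cons e H ih =>
    have := sgnCode_lt (e.eval y)
    rw [svc, List.length_cons, pow_succ]
    omega

theorem svc_eq {H : List (Fm σ)} {y y' : σ → ℝ} :
    svc H y = svc H y' ↔ SgnEq H y y' := by
  induction H with
  | nil => simp [svc, SgnEq]
  | cons e H ih =>
    have h1 := sgnCode_lt (e.eval y)
    have h2 := sgnCode_lt (e.eval y')
    have h3 : SgnEq (e :: H) y y' ↔ e.sgn y = e.sgn y' ∧ SgnEq H y y' := by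
      simp [SgnEq]
    rw [h3, ← ih, svc, svc]
    unfold Fm.sgn
    rw [← sgnCode_eq]
    omega

private theorem thrCode_lt (v ε : ℝ) : thrCode v ε < 3 := by
  unfold thrCode
  split_ifs <;> omega

theorem tvc_lt (H : List (Fm σ)) (y : σ → ℝ) (ε : ℝ) : tvc H y ε < 3 ^ H.length := by
  induction H with
  | nil => simp [tvc]
  | cons e H ih =>
    have := thrCode_lt (e.eval y) ε
    rw [tvc, List.length_cons, pow_succ]
    omega

private theorem cd_sign_neg {a b : ℝ} (h : SignType.sign a = SignType.sign b) : a < 0 ↔ b < 0 := by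
  rw [← sign_eq_neg_one_iff, ← sign_eq_neg_one_iff, h]

private theorem cd_sign_pos {a b : ℝ} (h : SignType.sign a = SignType.sign b) : 0 < a ↔ 0 < b := by
  rw [← sign_eq_one_iff, ← sign_eq_one_iff, h]

/-- the thresholded sign vector is of bounded complexity. -/
theorem tvc_bdd (H : List (Fm σ)) : ∃ C : ℕ,
    Bdd C (fun z : σ ⊕ Unit → ℝ => tvc H (fun i => z (Sum.inl i)) (z (Sum.inr ()))) := by
  induction H with
  | nil => exact ⟨0, Bdd.const 0⟩
  | cons e H ih =>
    obtain ⟨C, hC⟩ := ih
    set e1 : Fm (σ ⊕ Unit) := Fm.add (e.rename Sum.inl) (Fm.var (Sum.inr ())) with he1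
    set e2 : Fm (σ ⊕ Unit) := Fm.add (e.rename Sum.inl)
      (Fm.mul (Fm.const (-1)) (Fm.var (Sum.inr ()))) with he2
    have hev : ∀ z : σ ⊕ Unit → ℝ, (e.rename Sum.inl).eval z = e.eval (fun i => z (Sum.inl i)) := by
      intro z
      clear hC he1 he2
      clear e1 e2
      induction e with
      | var i => rfl
      | const c => rfl
      | add e f he hf => simp only [Fm.rename, Fm.eval, he, hf]
      | mul e f he hf => simp only [Fm.rename, Fm.eval, he, hf]
    have h1 : Bdd (e1.size + e2.size) (fun z : σ ⊕ Unit → ℝ =>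
        thrCode (e.eval (fun i => z (Sum.inl i))) (z (Sum.inr ()))) := by
      refine ⟨[e1, e2], by simp [tsize], fun x y hxy => ?_⟩
      have h2 : e1.sgn x = e1.sgn y := hxy e1 (by simp)
      have h3 : e2.sgn x = e2.sgn y := hxy e2 (by simp)
      unfold Fm.sgn at h2 h3
      rw [he1] at h2
      rw [he2] at h3
      simp only [Fm.eval, hev] at h2 h3
      have h4 := cd_sign_neg h2
      have h5 := cd_sign_pos h3
      push_cast at h5
      have a1 : ∀ v ε : ℝ, v < -ε ↔ v + ε < 0 := fun v ε => by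
        constructor <;> intro h <;> linarith
      have a2 : ∀ v ε : ℝ, ε < v ↔ 0 < v + -1 * ε := fun v ε => by
        constructor <;> intro h <;> linarith
      have b1 : e.eval (fun i => x (Sum.inl i)) < -x (Sum.inr ()) ↔
          e.eval (fun i => y (Sum.inl i)) < -y (Sum.inr ()) :=
        (a1 _ _).trans (h4.trans (a1 _ _).symm)
      have b2 : x (Sum.inr ()) < e.eval (fun i => x (Sum.inl i)) ↔
          y (Sum.inr ()) < e.eval (fun i => y (Sum.inl i)) :=
        (a2 _ _).trans (h5.trans (a2 _ _).symm)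
      unfold thrCode
      simp only [b1, b2]
    have h6 := (h1.prod hC).comp (fun p : ℕ × ℕ => p.1 + 3 * p.2)
    exact ⟨_, h6⟩

variable {N m : ℕ}

theorem pR_undig (H : List (Fm (Fin N × Fin m))) {n : ℕ} (a : ℕ → Fin m → ℝ) {f : ℕ → ℕ}
    (hf : ∀ t < N, f t < n) :
    pR H n a (undig n N f) = svc H (fun z => a (f z.1) z.2) := by
  unfold pR
  congr 1
  funext z
  rw [dig_undig hf z.1.2]

theorem pT_undig (H : List (Fm (Fin N × Fin m))) {n : ℕ} (y : ℕ → Fin m → ℝ) (ε : ℝ) {f : ℕ → ℕ}
    (hf : ∀ t < N, f t < n) :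
    pT H n y ε (undig n N f) = tvc H (fun z => y (f z.1) z.2) ε := by
  unfold pT
  congr 1
  funext z
  rw [dig_undig hf z.1.2]

end BU
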