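import Pool.Agent.Work.MP_4030f5_lc.U.Codes

/-! # Codes of the information in the slots

`inf_eq`, `inf_lt`, `rinf_lt`: `Nat.pair_eq_pair`, `pat_eq`, `pR_undig`, `svc_eq`; bounds by `pat_lt`, `svc_lt`,
`Nat.pair_lt_max_add_one_sq` (here `inf` is bounded for every `n`, also `n = 0`, since `pR` is an `svc`). -/

namespace BU

private theorem flc_digit {L x : ℕ} (hL : 0 < L) (s : ℕ) : min 1 (x) * L + s % L < 2 * L := by
  have h1 : s % L < L := Nat.mod_lt _ hL
  have h2 : min 1 x ≤ 1 := min_le_left _ _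
  have h3 : min 1 x * L ≤ 1 * L := Nat.mul_le_mul_right L h2
  omega

theorem flc_lt {K L : ℕ} (hL : 0 < L) (s : ℕ → ℕ) : flc K L s < (2 * L) ^ (K + 2) :=
  undig_lt fun t _ => flc_digit hL (s t)

/-- digits of `flc`: `min 1 x * L + y < 2 * L` determines `min 1 x` and `y < L`. -/
theorem flc_eq {K L : ℕ} (hL : 0 < L) {s s' : ℕ → ℕ} (h : flc K L s = flc K L s') :
    ∀ t < K + 2, (s t / L = 0 ↔ s' t / L = 0) ∧ s t % L = s' t % L := by
  intro t ht
  have h1 := undig_inj (fun t _ => flc_digit hL (s t)) (fun t _ => flc_digit hL (s' t)) h t ht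
  have h2 : s t % L < L := Nat.mod_lt _ hL
  have h3 : s' t % L < L := Nat.mod_lt _ hL
  generalize s t / L = x at h1 ⊢
  generalize s' t / L = x' at h1 ⊢
  rcases Nat.eq_zero_or_pos x with hx | hx <;> rcases Nat.eq_zero_or_pos x' with hx' | hx'
  · subst hx; subst hx'
    simp only [Nat.min_zero, zero_mul, zero_add] at h1
    exact ⟨Iff.rfl, h1⟩
  · subst hx
    rw [Nat.min_zero, zero_mul, zero_add, min_eq_left hx', one_mul] at h1
    omega
  · subst hx'
    rw [Nat.min_zero, zero_mul, zero_add, min_eq_left hx, one_mul] at h1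
    omega
  · rw [min_eq_left hx, min_eq_left hx'] at h1
    exact ⟨by omega, by omega⟩

theorem inf_eq {N m n n' : ℕ} {H : List (Fm (Fin N × Fin m))} {a a' : ℕ → Fin m → ℝ}
    {f f' : ℕ → ℕ} (hf : ∀ t < N, f t < n) (hf' : ∀ t < N, f' t < n')
    (h : inf n N (pR H n a) f = inf n' N (pR H n' a') f') :
    (∀ t < N, ∀ t' < N, (f t < f t' ↔ f' t < f' t')) ∧
      SgnEq H (fun z => a (f z.1) z.2) (fun z => a' (f' z.1) z.2) := by
  unfold inf at h
  obtain ⟨h1, h2⟩ := Nat.pair_eq_pair.mp h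
  rw [pR_undig H a hf, pR_undig H a' hf'] at h2
  exact ⟨pat_eq h1, svc_eq.mp h2⟩

private theorem pair_lt_of {x y A : ℕ} (hx : x ≤ A) (hy : y ≤ A) : Nat.pair x y < (A + 1) ^ 2 := by
  refine (Nat.pair_lt_max_add_one_sq x y).trans_le ?_
  exact Nat.pow_le_pow_left (Nat.succ_le_succ (max_le hx hy)) 2

theorem inf_lt {N m : ℕ} (H : List (Fm (Fin N × Fin m))) : ∃ B : ℕ, ∀ (n : ℕ)
    (a : ℕ → Fin m → ℝ) (f : ℕ → ℕ), inf n N (pR H n a) f < B := by
  refine ⟨(3 ^ (N * N) + 3 ^ H.length + 1) ^ 2, fun n a f => ?_⟩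
  unfold inf
  have h1 := pat_lt N f
  have h2 := svc_lt H (fun z => a (dig n (undig n N f) z.1) z.2)
  exact pair_lt_of (by omega) (by unfold pR; omega)

theorem rinf_lt {K m L : ℕ} (hL : 0 < L) (H : List (Fm (Fin (K + 2) × Fin m))) :
    ∃ B : ℕ, ∀ (n : ℕ) (a : ℕ → Fin m → ℝ) (s : ℕ → ℕ), rinf K n (pR H n a) L s < B := by
  obtain ⟨B, hB⟩ := inf_lt H
  refine ⟨((2 * L) ^ (K + 2) + B + 1) ^ 2, fun n a s => ?_⟩
  unfold rinf
  have h1 := flc_lt (K := K) hL s
  have h2 := hB n a (fun t => s t / L - 1)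
  exact pair_lt_of (by omega) (by omega)

theorem slot_lt {K U κ u v : ℕ} (hu : u < U) (hv : v < U) (t : ℕ) : slot K U κ u v t < U := by
  unfold slot
  split_ifs
  · exact dig_lt (by omega) _ _
  · exact hu
  · exact hv

end BU
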