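import Pool.Agent.Work.MP_4030f5_lc.U.Multi
import Pool.Agent.Work.MP_4030f5_lc.U.Codes

/-! # Real inputs and rational worlds

Given `n` and `a` let `N' = n * m + 1` and let `F` be the list of all expressions
`e(y_θ) - ε`, `e(y_θ) + ε` (`e ∈ H`, `θ` a tuple of `N` indices `< n`; variables `i * m + j`, and `n * m` for
`ε`; `-ε` is `.mul (.const (-1)) (.var ..)`). `twt F ≤ n ^ N * (2 * twt H + 10 * H.length)`. Choose `ε₀ > 0` with
`|e(a_θ)| > 2 ε₀` whenever `e(a_θ) ≠ 0`; for all `(y, ε)` near `(a, ε₀)` the thresholded signs at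
`(y, ε)` are the signs at `a` (continuity); take a generic one (`gen_dense`), then a rational one
(`sample_multi`): the thresholded signs are determined by `SgnEq F`. World `w`: digits
`z_t + B`, `t ≤ n * m`, and `Q - 1`, with `B = Bf n := B₀ (n * m + 1) (n ^ N * (2 * twt H + 10 * H.length) )`. -/

namespace BU

private theorem grid_eval_cont {σ : Type} (e : Fm σ) : Continuous (fun x : σ → ℝ => e.eval x) := by
  induction e with
  | var i => exact continuous_apply i
  | const c => exact continuous_const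
  | add e f he hf => exact he.add hf
  | mul e f he hf => exact he.mul hf

private theorem grid_wt_rename {σ τ : Type} (r : σ → τ) (e : Fm σ) : (e.rename r).wt = e.wt := by
  induction e with
  | var i => rfl
  | const c => rfl
  | add e f he hf => show _ + _ + 1 = _ + _ + 1; rw [he, hf]
  | mul e f he hf => show _ + _ + 1 = _ + _ + 1; rw [he, hf]

private theorem grid_twt_append {σ : Type} (F G : List (Fm σ)) : twt (F ++ G) = twt F + twt G := by
  unfold twt
  simp

private theorem grid_twt_flatMap {ι σ : Type} (L : List ι) (g : ι → List (Fm σ)) (c : ℕ)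
    (h : ∀ i ∈ L, twt (g i) ≤ c) : twt (L.flatMap g) ≤ L.length * c := by
  induction L with
  | nil => simp [twt]
  | cons a L ih =>
    rw [List.flatMap_cons, grid_twt_append, List.length_cons, Nat.succ_mul]
    have h1 := h a (by simp)
    have h2 := ih fun i hi => h i (by simp [hi])
    omega

/-- the two expressions -/
private def gridE {σ τ : Type} (r : σ → τ) (v : τ) (e : Fm σ) : List (Fm τ) :=
  [.add (e.rename r) (.mul (.const (-1)) (.var v)), .add (e.rename r) (.var v)]

private theorem grid_twt_E {σ τ : Type} (r : σ → τ) (v : τ) (H : List (Fm σ)) :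
    twt (H.flatMap (gridE r v)) ≤ 2 * twt H + 10 * H.length := by
  induction H with
  | nil => simp [twt]
  | cons e H ih =>
    rw [List.flatMap_cons, grid_twt_append, List.length_cons]
    have h1 : twt (gridE r v e) = 2 * e.wt + 7 := by
      simp only [twt, gridE, List.map_cons, List.map_nil, List.sum_cons, List.sum_nil, Fm.wt,
        grid_wt_rename]
      norm_num
      ring
    have h2 : twt (e :: H) = e.wt + twt H := by simp [twt]
    rw [h1, h2]
    omega

private theorem grid_thr {v v₀ ε ε₀ : ℝ} (h1 : SignType.sign (v - ε) = SignType.sign (v₀ - ε₀))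
    (h2 : SignType.sign (v + ε) = SignType.sign (v₀ + ε₀)) (hε₀ : 0 < ε₀)
    (hv₀ : v₀ ≠ 0 → 2 * ε₀ < |v₀|) : thrCode v ε = sgnCode v₀ := by
  rcases lt_trichotomy v₀ 0 with h | h | h
  · have h3 := hv₀ h.ne
    rw [abs_of_neg h] at h3
    rw [sign_neg (show v₀ + ε₀ < 0 by linarith), sign_eq_neg_one_iff] at h2
    unfold thrCode sgnCode
    rw [if_pos (show v < -ε by linarith), if_pos h]
  · subst h
    rw [sign_neg (show (0 : ℝ) - ε₀ < 0 by linarith), sign_eq_neg_one_iff] at h1
    rw [sign_pos (show 0 < (0 : ℝ) + ε₀ by linarith), sign_eq_one_iff] at h2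
    unfold thrCode sgnCode
    rw [if_neg (show ¬ v < -ε by linarith), if_neg (show ¬ ε < v by linarith), if_neg (lt_irrefl _),
      if_pos rfl]
  · have h3 := hv₀ h.ne'
    rw [abs_of_pos h] at h3
    rw [sign_pos (show 0 < v₀ - ε₀ by linarith), sign_eq_one_iff] at h1
    rw [sign_pos (show 0 < v₀ + ε₀ by linarith), sign_eq_one_iff] at h2
    unfold thrCode sgnCode
    rw [if_neg (show ¬ v < -ε by linarith), if_pos (show ε < v by linarith),
      if_neg (not_lt.2 h.le), if_neg h.ne']

private theorem grid_tvc {σ : Type} (H : List (Fm σ)) (y y₀ : σ → ℝ) (ε : ℝ)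
    (h : ∀ e ∈ H, thrCode (e.eval y) ε = sgnCode (e.eval y₀)) : tvc H y ε = svc H y₀ := by
  induction H with
  | nil => rfl
  | cons e H ih =>
    show thrCode (e.eval y) ε + 3 * tvc H y ε = sgnCode (e.eval y₀) + 3 * svc H y₀
    rw [h e (by simp), ih fun e' he' => h e' (by simp [he'])]

private theorem grid_primrec (B : ℕ → ℕ → ℕ) (hB : Primrec₂ B) (m N c : ℕ) :
    Primrec fun n => B (n * m + 1) (n ^ N * c) := by
  have hpow : ∀ N : ℕ, Primrec fun n : ℕ => n ^ N := by
    intro N
    induction N with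
    | zero => simpa using Primrec.const 1
    | succ N ih =>
      have := Primrec.nat_mul.comp ih Primrec.id
      refine this.of_eq fun n => ?_
      rw [pow_succ]
      rfl
  have h1 : Primrec fun n : ℕ => n * m + 1 :=
    Primrec.succ.comp (Primrec.nat_mul.comp Primrec.id (Primrec.const m))
  have h2 : Primrec fun n : ℕ => n ^ N * c := Primrec.nat_mul.comp (hpow N) (Primrec.const c)
  exact hB.comp h1 h2

/-- a positive threshold below finitely many nonzero numbers -/
private theorem grid_eps {ι : Type} (L : Finset ι) (f : ι → ℝ) :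
    ∃ ε₀ : ℝ, 0 < ε₀ ∧ ∀ i ∈ L, f i ≠ 0 → 2 * ε₀ < |f i| := by
  classical
  induction L using Finset.induction_on with
  | empty => exact ⟨1, one_pos, by simp⟩
  | insert a L _ ih =>
    obtain ⟨ε, hε, h⟩ := ih
    by_cases ha : f a = 0
    · refine ⟨ε, hε, fun i hi hne => ?_⟩
      rcases Finset.mem_insert.1 hi with rfl | hi
      · exact absurd ha hne
      · exact h i hi hne
    · have hpos : 0 < |f a| := abs_pos.2 ha
      refine ⟨min ε (|f a| / 3), lt_min hε (by linarith), fun i hi hne => ?_⟩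
      have h1 : min ε (|f a| / 3) ≤ ε := min_le_left _ _
      have h2 : min ε (|f a| / 3) ≤ |f a| / 3 := min_le_right _ _
      rcases Finset.mem_insert.1 hi with rfl | hi
      · linarith
      · have := h i hi hne
        linarith

private theorem grid_idx {n m : ℕ} (θ : Fin n) (j : Fin m) : (θ : ℕ) * m + j < n * m + 1 := by
  have h1 : (θ : ℕ) + 1 ≤ n := θ.2
  have h2 := Nat.mul_le_mul_right m h1
  have h3 := j.2
  rw [Nat.add_mul, one_mul] at h2
  omega

private theorem grid_pos {n m k : ℕ} (h : k < n * m) : 0 < m := by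
  rcases Nat.eq_zero_or_pos m with rfl | h'
  · simp at h
  · exact h'

theorem real_to_grid {N m : ℕ} (H : List (Fm (Fin N × Fin m))) :
    ∃ Bf : ℕ → ℕ, Primrec Bf ∧ ∀ n : ℕ, 1 ≤ n → ∀ a : ℕ → Fin m → ℝ,
      ∃ w < (2 * Bf n + 1) ^ (n * m + 2), ∀ q, pR H n a q = pW H n (Bf n) w q := by
  classical
  obtain ⟨B, hB, hsample⟩ := sample_multi
  refine ⟨fun n => B (n * m + 1) (n ^ N * (2 * twt H + 10 * H.length)),
    grid_primrec B hB m N _, fun n hn a => ?_⟩
  -- the family
  set r : (Fin N → Fin n) → Fin N × Fin m → Fin (n * m + 1) := fun θ z =>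
    ⟨(θ z.1 : ℕ) * m + z.2, grid_idx (θ z.1) z.2⟩ with hr
  set F : List (Fm (Fin (n * m + 1))) := (Finset.univ : Finset (Fin N → Fin n)).toList.flatMap
    fun θ => H.flatMap (gridE (r θ) (Fin.last (n * m))) with hF
  have hFw : twt F ≤ n ^ N * (2 * twt H + 10 * H.length) := by
    refine (grid_twt_flatMap _ _ (2 * twt H + 10 * H.length) fun θ _ => grid_twt_E _ _ H).trans ?_
    rw [Finset.length_toList, Finset.card_univ, Fintype.card_fun, Fintype.card_fin,
      Fintype.card_fin]
  -- the threshold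
  obtain ⟨ε₀, hε₀, hthr⟩ := grid_eps
    ((Finset.univ : Finset (Fin N → Fin n)) ×ˢ (Finset.univ : Finset (Fin H.length)))
    (fun p => (H.get p.2).eval (fun z => a (p.1 z.1) z.2))
  have hthr' : ∀ θ : Fin N → Fin n, ∀ e ∈ H, e.eval (fun z => a (θ z.1) z.2) ≠ 0 →
      2 * ε₀ < |e.eval (fun z => a (θ z.1) z.2)| := by
    intro θ e he hne
    obtain ⟨k, hk⟩ := List.get_of_mem he
    have := hthr (θ, k) (by simp)
    simp only [hk] at this
    exact this hne
  -- the real point
  set x₀ : Fin (n * m + 1) → ℝ := fun k => if h : (k : ℕ) < n * m then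
    a ((k : ℕ) / m) ⟨(k : ℕ) % m, Nat.mod_lt _ (grid_pos h)⟩ else ε₀ with hx₀
  have hx₀last : x₀ (Fin.last (n * m)) = ε₀ := by
    rw [hx₀]
    dsimp only
    rw [dif_neg (by simp)]
  have hx₀r : ∀ θ z, x₀ (r θ z) = a (θ z.1) z.2 := by
    intro θ z
    have hlt : (θ z.1 : ℕ) * m + z.2 < n * m := by
      have h1 : (θ z.1 : ℕ) + 1 ≤ n := (θ z.1).2
      have h2 := Nat.mul_le_mul_right m h1
      have h3 := z.2.2
      rw [Nat.add_mul, one_mul] at h2
      omega
    have hm : 0 < m := lt_of_le_of_lt (Nat.zero_le _) z.2.2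
    rw [hx₀]
    dsimp only
    rw [dif_pos (show ((r θ z : Fin (n * m + 1)) : ℕ) < n * m from hlt)]
    have e1 : ((r θ z : Fin (n * m + 1)) : ℕ) / m = (θ z.1 : ℕ) := by
      show ((θ z.1 : ℕ) * m + z.2) / m = _
      rw [Nat.add_comm, Nat.add_mul_div_right _ _ hm, Nat.div_eq_of_lt z.2.2, zero_add]
    have e2 : (⟨((r θ z : Fin (n * m + 1)) : ℕ) % m, Nat.mod_lt _ hm⟩ : Fin m) = z.2 := by
      apply Fin.ext
      show ((θ z.1 : ℕ) * m + z.2) % m = _
      rw [Nat.add_comm, Nat.add_mul_mod_self_right, Nat.mod_eq_of_lt z.2.2]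
    rw [e1, e2]
  have hevm : ∀ θ (e : Fm (Fin N × Fin m)) (x : Fin (n * m + 1) → ℝ),
      (Fm.add (e.rename (r θ)) (.mul (.const (-1)) (.var (Fin.last (n * m))))).eval x =
        e.eval (fun z => x (r θ z)) - x (Fin.last (n * m)) := by
    intro θ e x
    show (e.rename (r θ)).eval x + ((-1 : ℤ) : ℝ) * x (Fin.last (n * m)) = _
    rw [Fm.eval_rename]
    push_cast
    ring
  have hevp : ∀ θ (e : Fm (Fin N × Fin m)) (x : Fin (n * m + 1) → ℝ),
      (Fm.add (e.rename (r θ)) (.var (Fin.last (n * m)))).eval x =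
        e.eval (fun z => x (r θ z)) + x (Fin.last (n * m)) := by
    intro θ e x
    show (e.rename (r θ)).eval x + x (Fin.last (n * m)) = _
    rw [Fm.eval_rename]
  have hmemF : ∀ f, f ∈ F ↔ ∃ θ : Fin N → Fin n, ∃ e ∈ H,
      f = Fm.add (e.rename (r θ)) (.mul (.const (-1)) (.var (Fin.last (n * m)))) ∨
      f = Fm.add (e.rename (r θ)) (.var (Fin.last (n * m))) := by
    intro f
    rw [hF]
    simp [gridE, List.mem_flatMap]
  have hne : ∀ f ∈ F, f.eval x₀ ≠ 0 := by
    intro f hf
    obtain ⟨θ, e, he, h | h⟩ := (hmemF f).1 hf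
    · rw [h, hevm, hx₀last]
      simp only [hx₀r]
      by_cases h0 : e.eval (fun z => a (θ z.1) z.2) = 0
      · rw [h0]; linarith
      · have h1 := hthr' θ e he h0
        intro h2
        have h3 : e.eval (fun z => a (θ z.1) z.2) = ε₀ := by linarith
        rw [h3, abs_of_pos hε₀] at h1
        linarith
    · rw [h, hevp, hx₀last]
      simp only [hx₀r]
      by_cases h0 : e.eval (fun z => a (θ z.1) z.2) = 0
      · rw [h0]; linarith
      · have h1 := hthr' θ e he h0
        intro h2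
        have h3 : e.eval (fun z => a (θ z.1) z.2) = -ε₀ := by linarith
        rw [h3, abs_neg, abs_of_pos hε₀] at h1
        linarith
  -- the neighbourhood
  have hnb : ∀ᶠ x in nhds x₀, ∀ f ∈ F, f.sgn x = f.sgn x₀ := by
    have h1 : ∀ᶠ x in nhds x₀, ∀ f ∈ F.toFinset, f.sgn x = f.sgn x₀ := by
      rw [Filter.eventually_all_finset]
      intro f hf
      have hf' := hne f (List.mem_toFinset.1 hf)
      have hc := (grid_eval_cont f).tendsto x₀
      rcases lt_or_gt_of_ne hf' with h | h
      · filter_upwards [hc.eventually (gt_mem_nhds h)] with x hx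
        unfold Fm.sgn
        rw [sign_neg hx, sign_neg h]
      · filter_upwards [hc.eventually (lt_mem_nhds h)] with x hx
        unfold Fm.sgn
        rw [sign_pos hx, sign_pos h]
    filter_upwards [h1] with x hx f hf
    exact hx f (List.mem_toFinset.2 hf)
  obtain ⟨U, hU, hUo, hx₀U⟩ := eventually_nhds_iff.1 hnb
  obtain ⟨x, hxU, hgen⟩ := gen_dense U hUo ⟨x₀, hx₀U⟩
  obtain ⟨z, Q, hQ1, hQB, hzB, hsgn⟩ := hsample (n * m + 1) _ F hFw x hgen
  set Bn : ℕ := B (n * m + 1) (n ^ N * (2 * twt H + 10 * H.length)) with hBn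
  -- the world
  set f : ℕ → ℕ := fun t => if h : t < n * m + 1 then (z ⟨t, h⟩ + Bn).toNat else Q - 1 with hf
  have hflt : ∀ t < n * m + 2, f t < 2 * Bn + 1 := by
    intro t _
    rw [hf]
    dsimp only
    split_ifs with h
    · have h1 := abs_le.1 (hzB ⟨t, h⟩)
      omega
    · omega
  have hdig : ∀ t < n * m + 2, dig (2 * Bn + 1) (undig (2 * Bn + 1) (n * m + 2) f) t = f t :=
    fun t ht => dig_undig hflt ht
  refine ⟨undig (2 * Bn + 1) (n * m + 2) f, undig_lt hflt, fun q => ?_⟩
  have hgz : ∀ t (h : t < n * m + 1), gz Bn (undig (2 * Bn + 1) (n * m + 2) f) t = z ⟨t, h⟩ := by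
    intro t h
    unfold gz
    rw [hdig t (by omega), hf]
    dsimp only
    rw [dif_pos h]
    have h1 := abs_le.1 (hzB ⟨t, h⟩)
    rw [Int.toNat_of_nonneg (by omega)]
    ring
  have hgQ : gQ Bn (undig (2 * Bn + 1) (n * m + 2) f) (n * m + 1) = Q := by
    unfold gQ
    rw [hdig (n * m + 1) (by omega), hf]
    dsimp only
    rw [dif_neg (by omega)]
    omega
  unfold pR pW pT
  symm
  refine grid_tvc H _ _ _ fun e he => ?_
  set θ : Fin N → Fin n := fun t => ⟨dig n q t, dig_lt (by omega) q t⟩ with hθ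
  have hy : (fun zz : Fin N × Fin m =>
      ((gz Bn (undig (2 * Bn + 1) (n * m + 2) f) (dig n q zz.1 * m + zz.2) : ℤ) : ℝ) /
        (gQ Bn (undig (2 * Bn + 1) (n * m + 2) f) (n * m + 1) : ℕ)) =
      fun zz => (fun i => (z i : ℝ) / Q) (r θ zz) := by
    funext zz
    rw [hgQ, hgz _ (grid_idx (θ zz.1) zz.2)]
  have hy2 : ((gz Bn (undig (2 * Bn + 1) (n * m + 2) f) (n * m) : ℤ) : ℝ) /
        (gQ Bn (undig (2 * Bn + 1) (n * m + 2) f) (n * m + 1) : ℕ) =
      (fun i => (z i : ℝ) / Q) (Fin.last (n * m)) := by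
    rw [hgQ, hgz _ (Nat.lt_succ_self _)]
    rfl
  have hsg : ∀ g ∈ F, SignType.sign (g.eval (fun i => (z i : ℝ) / Q)) =
      SignType.sign (g.eval x₀) := fun g hg => (hsgn g hg).symm.trans (hU x hxU g hg)
  have hm1 := hsg _ ((hmemF _).2 ⟨θ, e, he, Or.inl rfl⟩)
  have hp1 := hsg _ ((hmemF _).2 ⟨θ, e, he, Or.inr rfl⟩)
  rw [hevm, hevm, hx₀last] at hm1
  rw [hevp, hevp, hx₀last] at hp1
  simp only [hx₀r] at hm1 hp1
  have hfin := grid_thr hm1 hp1 hε₀ (hthr' θ e he)
  rw [hy2]
  refine Eq.trans ?_ hfin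
  exact congrArg (fun w => thrCode (e.eval w) _) hy

end BU
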