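import Pool.Agent.Work.MP_4030f5_lc.U.PrimCode

/-! # The answers of a rational world are primitive recursive

For `e : Fm (Fin N × Fin m)` and `z : Fin N × Fin m → ℤ`, `Q ≥ 1` the integer
`num e z Q = Q ^ e.size * e.eval (z / Q)` is given by: variable `v`: `z v`; constant `c`: `c * Q`;
`add e f`: `Q ^ (f.size + 1) * num e + Q ^ (e.size + 1) * num f`; `mul e f`: `Q * num e * num f`.
`thrCode (e.eval (z / Q)) (w / Q)` compares `num e z Q` with `± w * Q ^ (e.size - 1)`. Induction on `e` and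
on the list `H` (both fixed); `z (t, j) = gz B w (dig n q t * m + j)`. -/

namespace BU

private def gp_num {σ : Type} (z : σ → ℤ) (Q : ℤ) : Fm σ → ℤ
  | .var i => z i
  | .const c => c * Q
  | .add e f => Q ^ (f.size + 1) * gp_num z Q e + Q ^ (e.size + 1) * gp_num z Q f
  | .mul e f => Q * (gp_num z Q e * gp_num z Q f)

private theorem gp_num_eq {σ : Type} (z : σ → ℤ) (Q : ℤ) (hQ : 0 < Q) (e : Fm σ) :
    (gp_num z Q e : ℝ) = (Q : ℝ) ^ e.size * e.eval (fun v => (z v : ℝ) / Q) := by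
  have hQ' : (Q : ℝ) ≠ 0 := by exact_mod_cast hQ.ne'
  induction e with
  | var i =>
    simp only [gp_num, Fm.size, Fm.eval]
    field_simp
  | const c =>
    simp only [gp_num, Fm.size, Fm.eval]
    push_cast
    ring
  | add e f ihe ihf =>
    simp only [gp_num, Fm.size, Fm.eval]
    push_cast
    rw [ihe, ihf]
    ring
  | mul e f ihe ihf =>
    simp only [gp_num, Fm.size, Fm.eval]
    push_cast
    rw [ihe, ihf]
    ring

private theorem gp_size_pos {σ : Type} (e : Fm σ) : 1 ≤ e.size := by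
  cases e <;> simp [Fm.size]

private theorem gp_thr {σ : Type} (z : σ → ℤ) (Q W : ℤ) (hQ : 0 < Q) (e : Fm σ) :
    thrCode (e.eval (fun v => (z v : ℝ) / Q)) ((W : ℝ) / Q) =
      if gp_num z Q e < -(W * Q ^ (e.size - 1)) then 0
      else if W * Q ^ (e.size - 1) < gp_num z Q e then 2 else 1 := by
  have hQ' : (0 : ℝ) < (Q : ℝ) := by exact_mod_cast hQ
  have hs := gp_size_pos e
  have h0 := gp_num_eq z Q hQ e
  obtain ⟨s, hs⟩ : ∃ s, e.size = s + 1 := ⟨e.size - 1, by omega⟩
  rw [hs] at h0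
  have hp : (0 : ℝ) < (Q : ℝ) ^ (s + 1) := by positivity
  have hW : (Q : ℝ) ^ (s + 1) * ((W : ℝ) / Q) = (W : ℝ) * (Q : ℝ) ^ s := by
    rw [pow_succ]
    field_simp
  have he : e.size - 1 = s := by omega
  rw [he]
  have h1 : (e.eval (fun v => (z v : ℝ) / Q) < -((W : ℝ) / Q)) ↔
      gp_num z Q e < -(W * Q ^ s) := by
    rw [← mul_lt_mul_iff_right₀ hp, mul_neg, hW, ← h0]
    constructor
    · intro h; exact_mod_cast h
    · intro h; exact_mod_cast h
  have h2 : ((W : ℝ) / Q < e.eval (fun v => (z v : ℝ) / Q)) ↔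
      W * Q ^ s < gp_num z Q e := by
    rw [← mul_lt_mul_iff_right₀ hp, hW, ← h0]
    constructor
    · intro h; exact_mod_cast h
    · intro h; exact_mod_cast h
  unfold thrCode
  simp only [h1, h2]

private theorem gp_pow {α : Type} [Primcodable α] {Q : α → ℤ} (hQ : Primrec Q) (k : ℕ) :
    Primrec fun a => Q a ^ k := by
  induction k with
  | zero => simpa using Primrec.const (1 : ℤ)
  | succ k ih =>
    refine (pl_int_mul.comp ih hQ).of_eq fun a => ?_
    rw [pow_succ]

private theorem gp_num_primrec {σ : Type} {α : Type} [Primcodable α] {z : α → σ → ℤ} {Q : α → ℤ}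
    (hz : ∀ v, Primrec fun a => z a v) (hQ : Primrec Q) (e : Fm σ) :
    Primrec fun a => gp_num (z a) (Q a) e := by
  induction e with
  | var i => exact hz i
  | const c => exact pl_int_mul.comp (Primrec.const c) hQ
  | add e f ihe ihf =>
    exact pl_int_add.comp (pl_int_mul.comp (gp_pow hQ _) ihe) (pl_int_mul.comp (gp_pow hQ _) ihf)
  | mul e f ihe ihf =>
    exact pl_int_mul.comp hQ (pl_int_mul.comp ihe ihf)

private theorem gp_thr_primrec {σ : Type} {α : Type} [Primcodable α] {z : α → σ → ℤ} {Q W : α → ℤ}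
    (hz : ∀ v, Primrec fun a => z a v) (hQ : Primrec Q) (hW : Primrec W) (hQ0 : ∀ a, 0 < Q a)
    (e : Fm σ) :
    Primrec fun a => thrCode (e.eval (fun v => (z a v : ℝ) / Q a)) ((W a : ℝ) / Q a) := by
  have hn := gp_num_primrec hz hQ e
  have hP : Primrec fun a => W a * Q a ^ (e.size - 1) := pl_int_mul.comp hW (gp_pow hQ _)
  have c1 : PrimrecPred fun a => gp_num (z a) (Q a) e < -(W a * Q a ^ (e.size - 1)) :=
    pl_int_lt.comp hn (pl_int_neg.comp hP)
  have c2 : PrimrecPred fun a => W a * Q a ^ (e.size - 1) < gp_num (z a) (Q a) e :=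
    pl_int_lt.comp hP hn
  refine (Primrec.ite c1 (Primrec.const 0)
    (Primrec.ite c2 (Primrec.const 2) (Primrec.const 1))).of_eq fun a => ?_
  rw [gp_thr (z a) (Q a) (W a) (hQ0 a) e]

private theorem gp_tvc_primrec {σ : Type} {α : Type} [Primcodable α] {z : α → σ → ℤ} {Q W : α → ℤ}
    (hz : ∀ v, Primrec fun a => z a v) (hQ : Primrec Q) (hW : Primrec W) (hQ0 : ∀ a, 0 < Q a)
    (H : List (Fm σ)) :
    Primrec fun a => tvc H (fun v => (z a v : ℝ) / Q a) ((W a : ℝ) / Q a) := by
  induction H with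
  | nil => exact Primrec.const 0
  | cons e H ih =>
    exact Primrec.nat_add.comp (gp_thr_primrec hz hQ hW hQ0 e)
      (Primrec.nat_mul.comp (Primrec.const 3) ih)

private theorem gp_gz {α : Type} [Primcodable α] {B w t : α → ℕ} (hB : Primrec B) (hw : Primrec w)
    (ht : Primrec t) : Primrec fun a => gz (B a) (w a) (t a) := by
  unfold gz
  exact pl_int_sub.comp (pl_int_cast.comp (pc_dig (Primrec.nat_add.comp
    (Primrec.nat_mul.comp (Primrec.const 2) hB) (Primrec.const 1)) hw ht)) (pl_int_cast.comp hB)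

private theorem gp_gQ {α : Type} [Primcodable α] {B w t : α → ℕ} (hB : Primrec B) (hw : Primrec w)
    (ht : Primrec t) : Primrec fun a => gQ (B a) (w a) (t a) := by
  unfold gQ
  exact Primrec.nat_add.comp (pc_dig (Primrec.nat_add.comp
    (Primrec.nat_mul.comp (Primrec.const 2) hB) (Primrec.const 1)) hw ht) (Primrec.const 1)

theorem pW_primrec {N m : ℕ} (H : List (Fm (Fin N × Fin m))) {α : Type} [Primcodable α]
    {n B w q : α → ℕ} (hn : Primrec n) (hB : Primrec B) (hw : Primrec w) (hq : Primrec q) :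
    Primrec fun a => pW H (n a) (B a) (w a) (q a) := by
  have hnm : Primrec fun a => n a * m := Primrec.nat_mul.comp hn (Primrec.const m)
  have hQn : Primrec fun a => gQ (B a) (w a) (n a * m + 1) :=
    gp_gQ hB hw (Primrec.succ.comp hnm)
  have hQ : Primrec fun a => ((gQ (B a) (w a) (n a * m + 1) : ℕ) : ℤ) := pl_int_cast.comp hQn
  have hW : Primrec fun a => gz (B a) (w a) (n a * m) := gp_gz hB hw hnm
  have hz : ∀ v : Fin N × Fin m,
      Primrec fun a => gz (B a) (w a) (dig (n a) (q a) (v.1 : ℕ) * m + (v.2 : ℕ)) := by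
    intro v
    have h1 : Primrec fun a => dig (n a) (q a) (v.1 : ℕ) := pc_dig hn hq (Primrec.const (v.1 : ℕ))
    have h2 : Primrec fun a => dig (n a) (q a) (v.1 : ℕ) * m :=
      Primrec.nat_mul.comp h1 (Primrec.const m)
    have h3 : Primrec fun a => dig (n a) (q a) (v.1 : ℕ) * m + (v.2 : ℕ) :=
      Primrec.nat_add.comp h2 (Primrec.const (v.2 : ℕ))
    exact gp_gz hB hw h3
  have hQ0 : ∀ a, (0 : ℤ) < ((gQ (B a) (w a) (n a * m + 1) : ℕ) : ℤ) := by
    intro a
    exact Int.natCast_pos.2 (Nat.succ_pos _)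
  have key := @gp_tvc_primrec (Fin N × Fin m) α _
    (fun a v => gz (B a) (w a) (dig (n a) (q a) (v.1 : ℕ) * m + (v.2 : ℕ)))
    (fun a => ((gQ (B a) (w a) (n a * m + 1) : ℕ) : ℤ))
    (fun a => gz (B a) (w a) (n a * m)) hz hQ hW hQ0 H
  refine key.of_eq fun a => ?_
  simp only [pW, pT, Int.cast_natCast]

end BU
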