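import Pool.Agent.Work.MP_4030f5_lc.U.Defs
import Pool.Agent.Work.MP_4030f5_lc.U.PrimLib

/-! # Search for the best strategy

Codes of strategies are finite tables `tab : List (ℕ ⊕ List ℕ)`, `S tab h = tab.getD (Encodable.encode h) (.inr [])`.
For `n ≥ 1` the strategy given by `hex` meets only finitely many histories for `w < Bd n` (`runQ` makes at
most `Lf n` queries), so some table agrees with it there and satisfies
`check n tab : ∀ w < Bd n, good n w → runQ (S tab) (P n w) (Lf n) [] = some (val n w)`.
`val` is only computable: first compute the list `V n` of all `val n w`, `w < Bd n` (`Computable.nat_rec`),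
then the condition is primitive recursive in `(n, V n, tab)`. `next (n, h) = S tab h` for the first table with
`n = 0 ∨ check n tab`. -/

namespace BU

/-- the strategy given by a table. -/
private def Search_S (tab : List (ℕ ⊕ List ℕ)) (h : List ℕ) : ℕ ⊕ List ℕ :=
  tab.getD (Encodable.encode h) (.inr [])

private theorem Search_S_primrec : Primrec₂ Search_S :=
  (Primrec.list_getD (Sum.inr [] : ℕ ⊕ List ℕ)).comp Primrec.fst
    (Primrec.encode.comp Primrec.snd)

/-- one step of a strategy; the state is the history or the output. -/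
private def Search_step (s : List ℕ → ℕ ⊕ List ℕ) (p : ℕ → ℕ) : List ℕ ⊕ List ℕ → List ℕ ⊕ List ℕ :=
  Sum.elim (fun h => Sum.elim (fun q => .inl (h ++ [p q])) (fun o => .inr o) (s h)) .inr

private def Search_out : List ℕ ⊕ List ℕ → Option (List ℕ) :=
  Sum.elim (fun _ => none) some

private theorem Search_iter_inr (s : List ℕ → ℕ ⊕ List ℕ) (p : ℕ → ℕ) (t : ℕ) (o : List ℕ) :
    (Search_step s p)^[t] (.inr o) = .inr o := by
  induction t with
  | zero => rfl
  | succ t ih => rw [Function.iterate_succ_apply]; exact ih

private theorem Search_runQ (s : List ℕ → ℕ ⊕ List ℕ) (p : ℕ → ℕ) (t : ℕ) (h : List ℕ) :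
    runQ s p t h = Search_out ((Search_step s p)^[t + 1] (.inl h)) := by
  induction t generalizing h with
  | zero =>
    simp only [runQ, Function.iterate_succ_apply, Function.iterate_zero_apply, Search_step,
      Sum.elim_inl]
    cases s h <;> rfl
  | succ t ih =>
    rw [Function.iterate_succ_apply]
    simp only [runQ]
    cases hs : s h with
    | inl q =>
      simp only
      rw [ih]
      congr 2
      simp [Search_step, hs]
    | inr o =>
      simp only
      have : Search_step s p (.inl h) = .inr o := by simp [Search_step, hs]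
      rw [this, Search_iter_inr]
      rfl

private theorem Search_runQ_primrec {α : Type} [Primcodable α] {tab : α → List (ℕ ⊕ List ℕ)}
    {p : α → ℕ → ℕ} {t : α → ℕ} (htab : Primrec tab) (hp : Primrec₂ p) (ht : Primrec t) :
    Primrec fun a => runQ (Search_S (tab a)) (p a) (t a) [] := by
  have hstep : Primrec₂ fun (a : α) (u : List ℕ ⊕ List ℕ) =>
      Search_step (Search_S (tab a)) (p a) u := by
    have h0 : Primrec fun w : α × (List ℕ ⊕ List ℕ) => (Sum.casesOn w.2
        (fun h => (Sum.casesOn (Search_S (tab w.1) h) (fun q => Sum.inl (h ++ [p w.1 q]))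
          (fun o => Sum.inr o) : List ℕ ⊕ List ℕ)) (fun o => Sum.inr o) : List ℕ ⊕ List ℕ) := by
      refine Primrec.sumCasesOn Primrec.snd ?_ (Primrec.sumInr.comp Primrec.snd)
      refine Primrec.sumCasesOn (Search_S_primrec.comp
        (htab.comp (Primrec.fst.comp Primrec.fst)) Primrec.snd) ?_
        (Primrec.sumInr.comp Primrec.snd)
      refine Primrec.sumInl.comp (Primrec.list_append.comp (Primrec.snd.comp Primrec.fst) ?_)
      exact Primrec.list_cons.comp
        (hp.comp (Primrec.fst.comp (Primrec.fst.comp Primrec.fst)) Primrec.snd)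
        (Primrec.const [])
    refine h0.of_eq fun w => ?_
    unfold Search_step
    rcases w.2 with h | o
    · simp only [Sum.elim_inl]
      cases Search_S (tab w.1) h <;> rfl
    · rfl
  have hiter : Primrec fun a => (Search_step (Search_S (tab a)) (p a))^[t a + 1] (.inl []) :=
    Primrec.nat_iterate (Primrec.succ.comp ht) (Primrec.const _) hstep
  have hout : Primrec Search_out := by
    have h1 : Primrec fun u : List ℕ ⊕ List ℕ =>
        (Sum.casesOn u (fun _ => none) (fun o => some o) : Option (List ℕ)) :=
      Primrec.sumCasesOn Primrec.id (Primrec.const _).to₂ (Primrec.option_some.comp Primrec.snd)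
    refine h1.of_eq fun u => ?_
    cases u <;> rfl
  exact (hout.comp hiter).of_eq fun a => (Search_runQ _ _ _ _).symm

private theorem Search_bound (s : List ℕ → ℕ ⊕ List ℕ) (p : ℕ → ℕ) (t : ℕ) (h : List ℕ) :
    ∃ M : ℕ, ∀ s' : List ℕ → ℕ ⊕ List ℕ, (∀ g, Encodable.encode g < M → s' g = s g) →
      runQ s' p t h = runQ s p t h := by
  induction t generalizing h with
  | zero =>
    refine ⟨Encodable.encode h + 1, fun s' hs' => ?_⟩
    simp only [runQ]
    rw [hs' h (Nat.lt_succ_self _)]
  | succ t ih =>
    cases hs : s h with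
    | inl q =>
      obtain ⟨M, hM⟩ := ih (h ++ [p q])
      refine ⟨max (Encodable.encode h + 1) M, fun s' hs' => ?_⟩
      simp only [runQ]
      rw [hs' h (lt_of_lt_of_le (Nat.lt_succ_self _) (le_max_left _ _)), hs]
      exact hM s' fun g hg => hs' g (lt_of_lt_of_le hg (le_max_right _ _))
    | inr o =>
      refine ⟨Encodable.encode h + 1, fun s' hs' => ?_⟩
      simp only [runQ]
      rw [hs' h (Nat.lt_succ_self _), hs]

private theorem Search_bound_all (s : List ℕ → ℕ ⊕ List ℕ) (p : ℕ → ℕ → ℕ) (t : ℕ) (K : ℕ) :
    ∃ M : ℕ, ∀ s' : List ℕ → ℕ ⊕ List ℕ, (∀ g, Encodable.encode g < M → s' g = s g) →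
      ∀ w < K, runQ s' (p w) t [] = runQ s (p w) t [] := by
  induction K with
  | zero => exact ⟨0, fun s' _ w hw => absurd hw (Nat.not_lt_zero w)⟩
  | succ K ih =>
    obtain ⟨M, hM⟩ := ih
    obtain ⟨M', hM'⟩ := Search_bound s (p K) t []
    refine ⟨max M M', fun s' hs' w hw => ?_⟩
    rcases Nat.lt_succ_iff_lt_or_eq.1 hw with hw | rfl
    · exact hM s' (fun g hg => hs' g (lt_of_lt_of_le hg (le_max_left _ _))) w hw
    · exact hM' s' (fun g hg => hs' g (lt_of_lt_of_le hg (le_max_right _ _)))

private theorem Search_table (s : List ℕ → ℕ ⊕ List ℕ) (M : ℕ) :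
    ∃ tab : List (ℕ ⊕ List ℕ), ∀ g, Encodable.encode g < M → Search_S tab g = s g := by
  refine ⟨(List.range M).map fun i => s ((Encodable.decode (α := List ℕ) i).getD []),
    fun g hg => ?_⟩
  unfold Search_S
  rw [List.getD_eq_getElem _ _ (by simpa using hg)]
  simp

theorem search {P : ℕ → ℕ → ℕ → ℕ} {Bd Lf : ℕ → ℕ} {good : ℕ → ℕ → Prop}
    {val : ℕ → ℕ → List ℕ}
    (hP : Primrec fun z : (ℕ × ℕ) × ℕ => P z.1.1 z.1.2 z.2)
    (hBd : Primrec Bd) (hLf : Primrec Lf)
    (hgood : PrimrecPred fun z : ℕ × ℕ => good z.1 z.2)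
    (hval : Computable fun z : ℕ × ℕ => val z.1 z.2)
    (hex : ∀ n, 1 ≤ n → ∃ s : List ℕ → ℕ ⊕ List ℕ, ∀ w < Bd n, good n w →
      runQ s (P n w) (Lf n) [] = some (val n w)) :
    ∃ next : ℕ × List ℕ → ℕ ⊕ List ℕ, Computable next ∧
      ∀ n, 1 ≤ n → ∀ w < Bd n, good n w →
        runQ (fun h => next (n, h)) (P n w) (Lf n) [] = some (val n w) := by
  classical
  -- the list of values
  let V : ℕ → List (List ℕ) := fun n =>
    Nat.rec (motive := fun _ => List (List ℕ)) [] (fun w IH => IH ++ [val n w]) (Bd n)
  have hVc : Computable V := by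
    have h1 : Computable₂ fun (n : ℕ) (u : ℕ × List (List ℕ)) => u.2 ++ [val n u.1] :=
      Computable.list_concat.comp (Computable.snd.comp Computable.snd)
        (hval.comp (Computable.pair Computable.fst (Computable.fst.comp Computable.snd)))
    exact Computable.nat_rec hBd.to_comp (Computable.const []) h1
  have hVl : ∀ n K, (Nat.rec (motive := fun _ => List (List ℕ)) []
      (fun w IH => IH ++ [val n w]) K) = (List.range K).map (val n) := by
    intro n K
    induction K with
    | zero => rfl
    | succ K ih =>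
      rw [List.range_succ, List.map_append, ← ih]
      rfl
  have hVg : ∀ n, ∀ w < Bd n, (V n).getD w [] = val n w := by
    intro n w hw
    have h1 : V n = (List.range (Bd n)).map (val n) := hVl n (Bd n)
    rw [h1, List.getD_eq_getElem _ _ (by simpa using hw)]
    simp
  -- the test
  let T : ℕ → List (ℕ ⊕ List ℕ) := fun i => (Encodable.decode (α := List (ℕ ⊕ List ℕ)) i).getD []
  have hT : Primrec T := Primrec.option_getD.comp Primrec.decode (Primrec.const [])
  let chk : (ℕ × List (List ℕ)) × ℕ → Prop := fun z =>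
    z.1.1 = 0 ∨ ∀ w < Bd z.1.1, good z.1.1 w →
      runQ (Search_S (T z.2)) (P z.1.1 w) (Lf z.1.1) [] = some (z.1.2.getD w [])
  have hchk : PrimrecPred chk := by
    refine PrimrecPred.or (Primrec.eq.comp (Primrec.fst.comp Primrec.fst) (Primrec.const 0)) ?_
    refine pl_ball (hBd.comp (Primrec.fst.comp Primrec.fst)) ?_
    refine pl_imp (hgood.comp (Primrec.pair (Primrec.fst.comp (Primrec.fst.comp Primrec.fst))
      Primrec.snd)) ?_
    refine Primrec.eq.comp (Search_runQ_primrec (hT.comp (Primrec.snd.comp Primrec.fst)) ?_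
      (hLf.comp (Primrec.fst.comp (Primrec.fst.comp Primrec.fst)))) ?_
    · exact hP.comp (Primrec.pair (Primrec.pair
        (Primrec.fst.comp (Primrec.fst.comp (Primrec.fst.comp Primrec.fst)))
        (Primrec.snd.comp Primrec.fst)) Primrec.snd)
    · exact Primrec.option_some.comp ((Primrec.list_getD []).comp
        (Primrec.snd.comp (Primrec.fst.comp Primrec.fst)) Primrec.snd)
  have hg : Primrec fun z : (ℕ × List (List ℕ)) × ℕ => if chk z then some (T z.2) else none :=
    Primrec.ite hchk (Primrec.option_some.comp (hT.comp Primrec.snd)) (Primrec.const none)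
  have hf : Computable₂ fun (n i : ℕ) =>
      if chk ((n, V n), i) then some (T i) else none :=
    hg.to_comp.comp (Computable.pair (Computable.pair Computable.fst
      (hVc.comp Computable.fst)) Computable.snd)
  have hpr := Partrec.rfindOpt hf
  -- totality
  have hdom : ∀ n, (Nat.rfindOpt fun i : ℕ => if chk ((n, V n), i) then some (T i) else none).Dom := by
    intro n
    rw [Nat.rfindOpt_dom]
    rcases Nat.eq_zero_or_pos n with rfl | hn
    · exact ⟨0, T 0, by simp [chk]⟩
    · obtain ⟨s, hs⟩ := hex n hn
      obtain ⟨M, hM⟩ := Search_bound_all s (P n) (Lf n) (Bd n)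
      obtain ⟨tab, htab⟩ := Search_table s M
      refine ⟨Encodable.encode tab, T (Encodable.encode tab), ?_⟩
      have h1 : T (Encodable.encode tab) = tab := by simp [T]
      have h2 : chk ((n, V n), Encodable.encode tab) := by
        refine Or.inr fun w hw hgw => ?_
        simp only
        rw [h1, hM _ htab w hw, hs w hw hgw, hVg n w hw]
      rw [if_pos h2]
      rfl
  let g : ℕ → List (ℕ ⊕ List ℕ) := fun n =>
    (Nat.rfindOpt fun i : ℕ => if chk ((n, V n), i) then some (T i) else none).get (hdom n)
  have hgc : Computable g := by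
    refine hpr.of_eq fun n => ?_
    exact (Part.some_get (hdom n)).symm
  have hgs : ∀ n, ∃ i, T i = g n ∧ chk ((n, V n), i) := by
    intro n
    obtain ⟨i, hi⟩ := Nat.rfindOpt_spec (Part.get_mem (hdom n))
    by_cases h : chk ((n, V n), i)
    · rw [if_pos h] at hi
      exact ⟨i, by simpa using hi, h⟩
    · rw [if_neg h] at hi
      exact absurd hi (by simp)
  refine ⟨fun z => Search_S (g z.1) z.2, ?_, ?_⟩
  · exact Search_S_primrec.to_comp.comp (hgc.comp Computable.fst) Computable.snd
  · intro n hn w hw hgw
    obtain ⟨i, hi, hc⟩ := hgs n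
    rcases hc with h0 | hc
    · simp only at h0
      omega
    · have := hc w hw hgw
      simp only at this
      rw [hi, hVg n w hw] at this
      exact this

end BU
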