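import Mathlib

/-! # Dimension of the cohomology of a matrix complex

`range B.mulVecLin ≤ C` (rows of `B` in `V`, `A * B = 0`), so the quotient has dimension
`finrank C - B.rank` (`Submodule.finrank_quotient_add_finrank`, `Submodule.comap_subtype_equiv_of_le` or the like).
`C` is the kernel of `A` restricted to the subspace `S` of the vectors supported on `V`
(dimension `#V`); since the columns of `A` outside `V` vanish, `A v = A (v restricted to V)`, so the range of the
restriction is the whole range of `A`: `finrank C + A.rank = #V` (rank-nullity). -/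

namespace BU

/-- extension by zero -/
private def LinA_ext {X : Type} (V : X → Prop) [DecidablePred V] :
    ({x // V x} → ℚ) →ₗ[ℚ] (X → ℚ) where
  toFun v x := if h : V x then v ⟨x, h⟩ else 0
  map_add' v w := by
    funext x
    by_cases h : V x <;> simp [h]
  map_smul' c v := by
    funext x
    by_cases h : V x <;> simp [h]

private theorem LinA_ext_apply {X : Type} (V : X → Prop) [DecidablePred V] (v : {x // V x} → ℚ)
    (x : X) : LinA_ext V v x = if h : V x then v ⟨x, h⟩ else 0 := rfl

private theorem LinA_ext_inj {X : Type} (V : X → Prop) [DecidablePred V] :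
    Function.Injective (LinA_ext V) := by
  intro v w h
  funext x
  have := congrFun h x.1
  simpa [LinA_ext_apply, x.2] using this

/-- `A` has columns only in `V`, `B` has rows only in `V`, `A B = 0`. -/
theorem coh_dim {X : Type} [Fintype X] [DecidableEq X] (V : X → Prop) [DecidablePred V]
    (A B : Matrix X X ℚ) (hA : ∀ x x', A x x' ≠ 0 → V x') (hB : ∀ x x', B x x' ≠ 0 → V x)
    (hAB : A * B = 0) (C : Submodule ℚ (X → ℚ))
    (hC : ∀ v, v ∈ C ↔ (∀ x, ¬ V x → v x = 0) ∧ A.mulVec v = 0) :
    Module.finrank ℚ (↥C ⧸ (LinearMap.range B.mulVecLin).comap C.subtype) + A.rank + B.rank =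
      (Finset.univ.filter V).card := by
  have hle : LinearMap.range B.mulVecLin ≤ C := by
    rintro _ ⟨v, rfl⟩
    rw [hC]
    refine ⟨fun x hx => ?_, ?_⟩
    · rw [Matrix.mulVecLin_apply, Matrix.mulVec, dotProduct]
      refine Finset.sum_eq_zero fun y _ => ?_
      have : B x y = 0 := by
        by_contra h
        exact hx (hB x y h)
      rw [this, zero_mul]
    · rw [Matrix.mulVecLin_apply, Matrix.mulVec_mulVec, hAB, Matrix.zero_mulVec]
  have h1 := Submodule.finrank_quotient_add_finrank ((LinearMap.range B.mulVecLin).comap C.subtype)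
  have h2 : Module.finrank ℚ ((LinearMap.range B.mulVecLin).comap C.subtype) = B.rank :=
    (Submodule.comapSubtypeEquivOfLe hle).finrank_eq
  -- rank-nullity
  have h3 := LinearMap.finrank_range_add_finrank_ker (A.mulVecLin ∘ₗ LinA_ext V)
  have hrange : LinearMap.range (A.mulVecLin ∘ₗ LinA_ext V) = LinearMap.range A.mulVecLin := by
    apply le_antisymm
    · rintro _ ⟨v, rfl⟩
      exact ⟨LinA_ext V v, rfl⟩
    · rintro _ ⟨v, rfl⟩
      refine ⟨fun x => v x.1, ?_⟩
      rw [LinearMap.comp_apply, Matrix.mulVecLin_apply, Matrix.mulVecLin_apply]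
      funext x
      rw [Matrix.mulVec, Matrix.mulVec, dotProduct, dotProduct]
      refine Finset.sum_congr rfl fun y _ => ?_
      rw [LinA_ext_apply]
      by_cases hy : V y
      · rw [dif_pos hy]
      · have : A x y = 0 := by
          by_contra h
          exact hy (hA x y h)
        rw [this, zero_mul, zero_mul]
  have hCeq : C = (LinearMap.ker (A.mulVecLin ∘ₗ LinA_ext V)).map (LinA_ext V) := by
    ext v
    rw [hC, Submodule.mem_map]
    constructor
    · rintro ⟨h4, h5⟩
      have hv : LinA_ext V (fun x => v x.1) = v := by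
        funext x
        rw [LinA_ext_apply]
        by_cases hx : V x
        · rw [dif_pos hx]
        · rw [dif_neg hx, h4 x hx]
      refine ⟨fun x => v x.1, ?_, hv⟩
      rw [LinearMap.mem_ker, LinearMap.comp_apply, hv, Matrix.mulVecLin_apply, h5]
    · rintro ⟨w, hw, rfl⟩
      refine ⟨fun x hx => ?_, ?_⟩
      · rw [LinA_ext_apply, dif_neg hx]
      · rw [LinearMap.mem_ker, LinearMap.comp_apply, Matrix.mulVecLin_apply] at hw
        exact hw
  have h4 : Module.finrank ℚ C = Module.finrank ℚ (LinearMap.ker (A.mulVecLin ∘ₗ LinA_ext V)) := by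
    rw [hCeq]
    exact (Submodule.equivMapOfInjective (LinA_ext V) (LinA_ext_inj V) _).finrank_eq.symm
  have h5 : Module.finrank ℚ ({x // V x} → ℚ) = (Finset.univ.filter V).card := by
    rw [Module.finrank_fintype_fun_eq_card, Fintype.card_subtype]
  rw [hrange, h5] at h3
  have h6 : A.rank = Module.finrank ℚ (LinearMap.range A.mulVecLin) := rfl
  omega

end BU
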