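import Pool.Agent.Work.MP_4030f5_lc.U.GlobA
import Pool.Agent.Work.MP_4030f5_lc.U.LinA

/-! # The cohomology of the total complex as the cohomology of a matrix complex

`Φ N v I τ = ∑_{x : iI x = I, il x = τ.length, vld N x} v x * ps I.toFinset (il x) (ib x) τ`, a linear map
`(X → ℚ) → TC n M`. Facts: (a) `DT (Φ N v) - Φ (N + 1) (ent N • v)` is in `ZT` in degree `N + 1` (at `I` with
`1 ≤ |I| ≤ k`; `dA`, `rR`; `D c I = ∑ j, (-1)^j c (I.eraseIdx j)`, `D_ofFn`; note `c [] = 0` and that
`ps .. [] = 0` kills the terms at lists of length `0`); (b) if `Φ N v` is in `ZT` in degree `N` then `v` vanishes on the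
valid indices (`indep`); (c) `c` in `S.inQ N` is congruent to some `Φ N v`. Then `quot_equiv` (T6a.lean) with
`C = {v | supported on valid indices, ent N • v = 0}`, `B = range (ent (N - 1))`, `C' = tcyc`, `B' = tbd N`;
surjectivity and injectivity from `FinSys.rel_acyc` in degrees `N` and `N - 1`; `ent N * ent (N - 1) = 0` from
(a), (b) and `DT_DT`. Finally `coh_dim`. For `N = 1` everything is zero. -/

namespace BU

open Finset

section glob

variable {k n : ℕ} {M : Type} [MetricSpace M] {𝓔 : Finset (Fin n) → Set M}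

private theorem gb_ZS_iff {Y : Set M} {l : ℕ} {f : List M → ℚ} :
    f ∈ ZS Y l ↔ Z Y (fun τ => if τ.length = l then f τ else 0) := Iff.rfl

private theorem gb_Z_of {Y : Set M} {l : ℕ} {f g : List M → ℚ} (hf : f ∈ ZS Y l)
    (h1 : ∀ τ : List M, τ.length = l → g τ = f τ) (h2 : ∀ τ : List M, τ.length ≠ l → g τ = 0) :
    Z Y g := by
  have e : g = fun τ => if τ.length = l then f τ else 0 := by
    funext τ
    by_cases h : τ.length = l
    · rw [if_pos h, h1 τ h]
    · rw [if_neg h, h2 τ h]
  rw [e]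
  exact hf

private theorem gb_ZS_of {Y : Set M} {l : ℕ} {f g : List M → ℚ} (hf : Z Y g)
    (h1 : ∀ τ : List M, τ.length = l → f τ = g τ) : f ∈ ZS Y l := by
  rw [gb_ZS_iff]
  obtain ⟨η, hη, h⟩ := hf
  refine ⟨η, hη, fun τ h2 h3 => ?_⟩
  show (if τ.length = l then f τ else 0) = 0
  split_ifs with h4
  · rw [h1 τ h4, h τ h2 h3]
  · rfl

/-- the coboundary as an alternating sum -/
private theorem gb_D_sum {α A : Type} [AddCommGroup A] (f : List α → A) (I : List α) :
    D f I = ∑ j ∈ range I.length, ((-1 : ℤ) ^ j) • f (I.eraseIdx j) := by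
  induction I generalizing f with
  | nil => simp [D_nil]
  | cons x l ih =>
    rw [D_cons, ih, List.length_cons, Finset.sum_range_succ']
    simp only [List.eraseIdx_cons_succ, List.eraseIdx_cons_zero, pow_zero, one_smul]
    rw [sub_eq_neg_add, ← Finset.sum_neg_distrib]
    congr 1
    refine Finset.sum_congr rfl fun j _ => ?_
    rw [pow_succ, mul_neg_one, neg_smul]

variable (S : FinSys k n M 𝓔) {X : Type} [Fintype X] (iI : X → List (Fin n)) (il ib : X → ℕ)

open Classical in
/-- the coefficients of a vector -/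
private noncomputable def gb_cv (N : ℕ) (v : X → ℚ) (I : List (Fin n)) (l b : ℕ) : ℚ :=
  ∑ x, if S.vld iI il ib N x ∧ iI x = I ∧ il x = l ∧ ib x = b then v x else 0

private theorem gb_cv_add (N : ℕ) (v w : X → ℚ) (I : List (Fin n)) (l b : ℕ) :
    gb_cv S iI il ib N (v + w) I l b = gb_cv S iI il ib N v I l b + gb_cv S iI il ib N w I l b := by
  unfold gb_cv
  rw [← Finset.sum_add_distrib]
  refine Finset.sum_congr rfl fun x _ => ?_
  split_ifs <;> simp

private theorem gb_cv_smul (N : ℕ) (a : ℚ) (v : X → ℚ) (I : List (Fin n)) (l b : ℕ) :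
    gb_cv S iI il ib N (a • v) I l b = a * gb_cv S iI il ib N v I l b := by
  unfold gb_cv
  rw [Finset.mul_sum]
  refine Finset.sum_congr rfl fun x _ => ?_
  split_ifs <;> simp

private theorem gb_cv_zero {N : ℕ} {v : X → ℚ} {I : List (Fin n)} {l b : ℕ}
    (h : ¬ (1 ≤ I.length ∧ 1 ≤ l ∧ I.length + l = N)) : gb_cv S iI il ib N v I l b = 0 := by
  unfold gb_cv
  refine Finset.sum_eq_zero fun x _ => if_neg ?_
  rintro ⟨⟨h1, h2, h3, -⟩, rfl, rfl, -⟩
  exact h ⟨h1, h2, h3⟩

/-- the comparison map -/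
private noncomputable def gb_Phi (N : ℕ) : (X → ℚ) →ₗ[ℚ] TC n M where
  toFun v := fun I τ => ∑ b ∈ range (S.be I.toFinset τ.length),
    gb_cv S iI il ib N v I τ.length b * S.ps I.toFinset τ.length b τ
  map_add' v w := by
    funext I τ
    simp only [gb_cv_add, add_mul, Finset.sum_add_distrib]
    rfl
  map_smul' a v := by
    funext I τ
    simp only [gb_cv_smul, mul_assoc, ← Finset.mul_sum]
    rfl

private theorem gb_Phi_apply (N : ℕ) (v : X → ℚ) (I : List (Fin n)) (τ : List M) :
    gb_Phi S iI il ib N v I τ = ∑ b ∈ range (S.be I.toFinset τ.length),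
      gb_cv S iI il ib N v I τ.length b * S.ps I.toFinset τ.length b τ := rfl

private theorem gb_Phi_zero {N : ℕ} (v : X → ℚ) {I : List (Fin n)} {τ : List M}
    (h : ¬ (1 ≤ I.length ∧ 1 ≤ τ.length ∧ I.length + τ.length = N)) :
    gb_Phi S iI il ib N v I τ = 0 := by
  rw [gb_Phi_apply]
  refine Finset.sum_eq_zero fun b _ => ?_
  rw [gb_cv_zero S iI il ib h, zero_mul]

private theorem gb_TN (N : ℕ) (v : X → ℚ) : TN (gb_Phi S iI il ib N v) :=
  ⟨fun τ => gb_Phi_zero S iI il ib v (by simp), fun I => gb_Phi_zero S iI il ib v (by simp)⟩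

private theorem gb_P (N : ℕ) (v : X → ℚ) :
    T9a_P N (gb_Phi S iI il ib N v) = gb_Phi S iI il ib N v := by
  funext I τ
  unfold T9a_P
  split_ifs with h
  · rfl
  · exact (gb_Phi_zero S iI il ib v (fun h' => h h'.2.2)).symm

/-- sums over the basis elements -/
private theorem gb_sum (N : ℕ) (v : X → ℚ) (I : List (Fin n)) (l : ℕ) (F : ℕ → ℚ) :
    open Classical in
    ∑ b ∈ range (S.be I.toFinset l), F b * gb_cv S iI il ib N v I l b =
      ∑ x, if S.vld iI il ib N x ∧ iI x = I ∧ il x = l then F (ib x) * v x else 0 := by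
  classical
  simp only [gb_cv, Finset.mul_sum]
  rw [Finset.sum_comm]
  refine Finset.sum_congr rfl fun x _ => ?_
  by_cases h : S.vld iI il ib N x ∧ iI x = I ∧ il x = l
  · rw [if_pos h]
    obtain ⟨h1, rfl, rfl⟩ := h
    rw [Finset.sum_eq_single (ib x)]
    · rw [if_pos ⟨h1, rfl, rfl, rfl⟩]
    · intro b _ hb
      rw [if_neg (fun h => hb h.2.2.2.symm), mul_zero]
    · intro hb
      exact absurd (Finset.mem_range.2 h1.2.2.2) hb
  · rw [if_neg h]
    refine Finset.sum_eq_zero fun b _ => ?_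
    rw [if_neg (fun h' => h ⟨h'.1, h'.2.1, h'.2.2.1⟩), mul_zero]

variable (hinj : ∀ N x x', S.vld iI il ib N x → S.vld iI il ib N x' → iI x = iI x' → il x = il x' →
      ib x = ib x' → x = x')

include hinj in
private theorem gb_cv_eq {N : ℕ} (v : X → ℚ) {x : X} (hx : S.vld iI il ib N x) :
    gb_cv S iI il ib N v (iI x) (il x) (ib x) = v x := by
  classical
  unfold gb_cv
  rw [Finset.sum_eq_single x]
  · rw [if_pos ⟨hx, rfl, rfl, rfl⟩]
  · intro x' _ hne
    refine if_neg ?_
    rintro ⟨h1, h2, h3, h4⟩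
    exact hne (hinj N x' x h1 hx h2 h3 h4)
  · intro h
    exact absurd (Finset.mem_univ x) h

include hinj in
/-- a vector whose cochain is negligible vanishes on the valid indices -/
private theorem gb_vanish {N : ℕ} (hN : N ≤ k + 1) {v : X → ℚ}
    (h : ZT k 𝓔 (gb_Phi S iI il ib N v)) {x : X} (hx : S.vld iI il ib N x) : v x = 0 := by
  have hI : iI x ≠ [] := by
    intro h0
    have := hx.1
    rw [h0] at this
    simp at this
  have h1 := hx.1
  have h2 := hx.2.1
  have h3 := hx.2.2.1
  have hk : (iI x).length ≤ k := by omega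
  have hJ : (iI x).toFinset.Nonempty := by
    obtain ⟨a, ha⟩ := List.exists_mem_of_ne_nil _ hI
    exact ⟨a, List.mem_toFinset.2 ha⟩
  have hJk : (iI x).toFinset.card ≤ k := (List.toFinset_card_le _).trans hk
  have h4 : (fun τ => ∑ b ∈ range (S.be (iI x).toFinset (il x)),
      gb_cv S iI il ib N v (iI x) (il x) b * S.ps (iI x).toFinset (il x) b τ) ∈
        ZS (𝓔 (iI x).toFinset) (il x) := by
    refine gb_ZS_of (h (iI x) hI hk) fun τ hτ => ?_
    rw [gb_Phi_apply, hτ]
  have h5 := S.indep _ hJ hJk _ _ h4 (ib x) hx.2.2.2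
  rw [← gb_cv_eq S iI il ib hinj v hx]
  exact h5

/-- cochains in the finite system -/
private theorem gb_inQ {N : ℕ} {c : TC n M} {v : X → ℚ}
    (h : ZT k 𝓔 (T9a_P N (c - gb_Phi S iI il ib N v))) : S.inQ N c := by
  intro I l hI hk hl hN
  refine ⟨gb_cv S iI il ib N v I l, gb_ZS_of (h I hI hk) fun τ hτ => ?_⟩
  unfold T9a_P
  rw [if_pos (by omega)]
  show _ = c I τ - gb_Phi S iI il ib N v I τ
  rw [gb_Phi_apply, hτ]

variable (hsurj : ∀ (I : List (Fin n)) (l b : ℕ), 1 ≤ I.length → 1 ≤ l → I.length + l ≤ k + 1 →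
      b < S.be I.toFinset l → ∃ x, iI x = I ∧ il x = l ∧ ib x = b)

include hinj hsurj in
private theorem gb_lift {N : ℕ} (hN : N ≤ k + 1) {c : TC n M} (hc : TN c) (h : S.inQ N c) :
    ∃ v : X → ℚ, (∀ x, ¬ S.vld iI il ib N x → v x = 0) ∧
      ZT k 𝓔 (T9a_P N (c - gb_Phi S iI il ib N v)) := by
  classical
  have hex : ∀ (I : List (Fin n)) (l : ℕ), ∃ w : ℕ → ℚ, I ≠ [] → I.length ≤ k → 1 ≤ l →
      I.length + l = N → (fun τ => c I τ - ∑ b ∈ range (S.be I.toFinset l),
        w b * S.ps I.toFinset l b τ) ∈ ZS (𝓔 I.toFinset) l := by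
    intro I l
    by_cases h' : I ≠ [] ∧ I.length ≤ k ∧ 1 ≤ l ∧ I.length + l = N
    · obtain ⟨w, hw⟩ := h I l h'.1 h'.2.1 h'.2.2.1 h'.2.2.2
      exact ⟨w, fun _ _ _ _ => hw⟩
    · exact ⟨0, fun h1 h2 h3 h4 => absurd ⟨h1, h2, h3, h4⟩ h'⟩
  choose w hw using hex
  let v : X → ℚ := fun x => if S.vld iI il ib N x then w (iI x) (il x) (ib x) else 0
  refine ⟨v, fun x hx => if_neg hx, fun I hI hk => ?_⟩
  have hI1 : 1 ≤ I.length := List.length_pos_iff.2 hI
  by_cases hs : I.length < N
  · have hl : I.length + (N - I.length) = N := by omega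
    refine gb_Z_of (hw I (N - I.length) hI hk (by omega) hl) (fun τ hτ => ?_) (fun τ hτ => ?_)
    · unfold T9a_P
      rw [if_pos (by omega)]
      show c I τ - gb_Phi S iI il ib N v I τ = _
      rw [gb_Phi_apply, hτ]
      congr 1
      refine Finset.sum_congr rfl fun b hb => ?_
      obtain ⟨x, hx1, hx2, hx3⟩ := hsurj I (N - I.length) b hI1 (by omega) (by omega)
        (Finset.mem_range.1 hb)
      have hx : S.vld iI il ib N x := by
        refine ⟨by rw [hx1]; exact hI1, by rw [hx2]; omega, by rw [hx1, hx2]; exact hl, ?_⟩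
        rw [hx1, hx2, hx3]
        exact Finset.mem_range.1 hb
      have h1 := gb_cv_eq S iI il ib hinj v hx
      rw [hx1, hx2, hx3] at h1
      rw [h1]
      show (if S.vld iI il ib N x then w (iI x) (il x) (ib x) else 0) * _ = _
      rw [if_pos hx, hx1, hx2, hx3]
    · unfold T9a_P
      rw [if_neg (by omega)]
  · have e : T9a_P N (c - gb_Phi S iI il ib N v) I = fun _ => 0 := by
      funext τ
      unfold T9a_P
      split_ifs with h'
      · have hτ : τ = [] := List.length_eq_zero_iff.1 (by omega)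
        rw [hτ]
        show c I [] - gb_Phi S iI il ib N v I [] = 0
        rw [hc.2, (gb_TN S iI il ib N v).2, sub_zero]
      · rfl
    rw [e]
    exact Z_zero _

include hinj hsurj in
/-- the differential of the comparison map -/
private theorem gb_DT {N : ℕ} (hN : N ≤ k) (v : X → ℚ) :
    ZT k 𝓔 (DT (gb_Phi S iI il ib N v) -
      gb_Phi S iI il ib (N + 1) ((Matrix.of (S.ent iI il ib N)).mulVec v)) := by
  classical
  set u : X → ℚ := (Matrix.of (S.ent iI il ib N)).mulVec v with hu
  set Φ := gb_Phi S iI il ib N v with hΦ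
  have hTN : TN Φ := gb_TN S iI il ib N v
  have hdeg : DT Φ = T9a_P (N + 1) (DT Φ) := by
    conv_lhs => rw [hΦ, ← gb_P, T9a_DT_P]
  intro I hI hk
  have hI1 : 1 ≤ I.length := List.length_pos_iff.2 hI
  have hzero : ∀ τ : List M, I.length + τ.length ≠ N + 1 →
      (DT Φ - gb_Phi S iI il ib (N + 1) u) I τ = 0 := by
    intro τ hτ
    show DT Φ I τ - gb_Phi S iI il ib (N + 1) u I τ = 0
    rw [gb_Phi_zero S iI il ib u (fun h => hτ h.2.2), sub_zero, hdeg]
    unfold T9a_P
    rw [if_neg hτ]
  by_cases hs : I.length < N + 1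
  · -- the main case
    set l : ℕ := N + 1 - I.length with hl
    have hl1 : 1 ≤ l := by omega
    have hIl : I.length + l = N + 1 := by omega
    set J := I.toFinset with hJ
    have hJn : J.Nonempty := by
      obtain ⟨a, ha⟩ := List.exists_mem_of_ne_nil _ hI
      exact ⟨a, List.mem_toFinset.2 ha⟩
    have hJk : J.card ≤ k := (List.toFinset_card_le _).trans hk
    -- the coefficients
    let R : ℕ → ℕ → ℚ := fun j b => ∑ b' ∈ range (S.be (I.eraseIdx j).toFinset l),
      S.mR J (I.eraseIdx j).toFinset l b b' * gb_cv S iI il ib N v (I.eraseIdx j) l b'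
    let A : ℕ → ℚ := fun b => ∑ b' ∈ range (S.be J (l - 1)),
      S.mA J (l - 1) b b' * gb_cv S iI il ib N v I (l - 1) b'
    have hcoef : ∀ b < S.be J l, gb_cv S iI il ib (N + 1) u I l b =
        (∑ j ∈ range I.length, (-1 : ℚ) ^ j * R j b) + (-1) ^ I.length * A b := by
      intro b hb
      obtain ⟨x, hx1, hx2, hx3⟩ := hsurj I l b hI1 hl1 (by omega) hb
      have hx : S.vld iI il ib (N + 1) x := by
        refine ⟨by rw [hx1]; exact hI1, by rw [hx2]; exact hl1, by rw [hx1, hx2]; exact hIl, ?_⟩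
        rw [hx1, hx2, hx3]
        exact hb
      have h1 := gb_cv_eq S iI il ib hinj u hx
      rw [hx1, hx2, hx3] at h1
      rw [h1]
      have h2 : u x = ∑ x', S.ent iI il ib N x x' * v x' := rfl
      rw [h2]
      have h3 : ∀ j, R j b = ∑ x', if S.vld iI il ib N x' ∧ iI x' = I.eraseIdx j ∧ il x' = l then
          S.mR J (I.eraseIdx j).toFinset l b (ib x') * v x' else 0 := fun j =>
        gb_sum S iI il ib N v (I.eraseIdx j) l _
      have h4 : A b = ∑ x', if S.vld iI il ib N x' ∧ iI x' = I ∧ il x' = l - 1 then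
          S.mA J (l - 1) b (ib x') * v x' else 0 := gb_sum S iI il ib N v I (l - 1) _
      simp only [h3, h4, Finset.mul_sum]
      rw [Finset.sum_comm, ← Finset.sum_add_distrib]
      refine Finset.sum_congr rfl fun x' _ => ?_
      by_cases hv : S.vld iI il ib N x'
      · unfold FinSys.ent
        rw [if_pos ⟨hx, hv⟩, add_mul, Finset.sum_mul, hx1, hx2, hx3]
        congr 1
        · refine Finset.sum_congr rfl fun j _ => ?_
          by_cases hj : I.eraseIdx j = iI x' ∧ il x' = l
          · rw [if_pos hj, if_pos ⟨hv, hj.1.symm, hj.2⟩, ← hj.1]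
            ring
          · rw [if_neg hj, if_neg (fun h => hj ⟨h.2.1.symm, h.2.2⟩)]
            ring
        · by_cases hj : iI x' = I ∧ il x' + 1 = l
          · have e1 : il x' = l - 1 := by omega
            rw [if_pos hj, if_pos ⟨hv, hj.1, e1⟩, e1]
            ring
          · rw [if_neg hj, if_neg (fun h => hj ⟨h.2.1, by omega⟩)]
            ring
      · unfold FinSys.ent
        rw [if_neg (fun h => hv h.2), zero_mul, if_neg (fun h => hv h.1), mul_zero, add_zero]
        symm
        refine Finset.sum_eq_zero fun j _ => ?_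
        rw [if_neg (fun h => hv h.1), mul_zero]
    -- the error terms
    have hE : ∀ j, (fun τ => Φ (I.eraseIdx j) τ - ∑ b ∈ range (S.be J l),
        R j b * S.ps J l b τ) ∈ ZS (𝓔 J) l := by
      intro j
      by_cases hj : I.eraseIdx j = []
      · refine gb_ZS_of (Z_zero _) fun τ hτ => ?_
        have h1 : Φ (I.eraseIdx j) τ = 0 := by
          rw [hj]
          exact hTN.1 τ
        have h2 : ∀ b, R j b = 0 := by
          intro b
          refine Finset.sum_eq_zero fun b' _ => ?_
          rw [gb_cv_zero S iI il ib (by rw [hj]; simp), mul_zero]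
        simp [h1, h2]
      · have hJ' : (I.eraseIdx j).toFinset ⊆ J := by
          intro a ha
          rw [List.mem_toFinset] at ha
          exact List.mem_toFinset.2 (List.mem_of_mem_eraseIdx ha)
        have hJ'n : (I.eraseIdx j).toFinset.Nonempty := by
          obtain ⟨a, ha⟩ := List.exists_mem_of_ne_nil _ hj
          exact ⟨a, List.mem_toFinset.2 ha⟩
        have h1 : (∑ b' ∈ range (S.be (I.eraseIdx j).toFinset l),
            gb_cv S iI il ib N v (I.eraseIdx j) l b' • fun τ =>
              S.ps (I.eraseIdx j).toFinset l b' τ - ∑ b ∈ range (S.be J l),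
                S.mR J (I.eraseIdx j).toFinset l b b' * S.ps J l b τ) ∈ ZS (𝓔 J) l :=
          Submodule.sum_mem _ fun b' hb' => Submodule.smul_mem _ _
            (S.rR J _ hJ' hJ'n hJk l hl1 b' (Finset.mem_range.1 hb'))
        refine gb_ZS_of (gb_ZS_iff.1 h1) fun τ hτ => ?_
        rw [if_pos hτ, Finset.sum_apply]
        simp only [Pi.smul_apply, smul_eq_mul, mul_sub, Finset.sum_sub_distrib]
        congr 1
        · rw [hΦ, gb_Phi_apply, hτ]
        · simp only [R, Finset.sum_mul, Finset.mul_sum]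
          rw [Finset.sum_comm]
          refine Finset.sum_congr rfl fun b' _ => Finset.sum_congr rfl fun b _ => ?_
          ring
    have hE' : (fun τ => D (Φ I) τ - ∑ b ∈ range (S.be J l), A b * S.ps J l b τ) ∈
        ZS (𝓔 J) l := by
      by_cases hl2 : l = 1
      · refine gb_ZS_of (Z_zero _) fun τ hτ => ?_
        have h1 : D (Φ I) τ = 0 := by
          refine D_eq_zero fun l' _ hl' => ?_
          have : l' = [] := List.length_eq_zero_iff.1 (by omega)
          rw [this]
          exact hTN.2 I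
        have h2 : ∀ b, A b = 0 := by
          intro b
          refine Finset.sum_eq_zero fun b' _ => ?_
          rw [gb_cv_zero S iI il ib (by omega), mul_zero]
        simp [h1, h2]
      · have hl3 : l - 1 + 1 = l := by omega
        have h1 : (∑ b' ∈ range (S.be J (l - 1)),
            gb_cv S iI il ib N v I (l - 1) b' • fun τ =>
              D (S.ps J (l - 1) b') τ - ∑ b ∈ range (S.be J l),
                S.mA J (l - 1) b b' * S.ps J l b τ) ∈ ZS (𝓔 J) l := by
          refine Submodule.sum_mem _ fun b' hb' => Submodule.smul_mem _ _ ?_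
          have h := S.dA J hJn hJk (l - 1) (by omega) b' (Finset.mem_range.1 hb')
          rw [hl3] at h
          exact h
        refine gb_ZS_of (gb_ZS_iff.1 h1) fun τ hτ => ?_
        rw [if_pos hτ, Finset.sum_apply]
        simp only [Pi.smul_apply, smul_eq_mul, mul_sub, Finset.sum_sub_distrib]
        congr 1
        · have h2 : D (Φ I) τ = D (fun σ => ∑ b' ∈ range (S.be J (l - 1)),
              gb_cv S iI il ib N v I (l - 1) b' * S.ps J (l - 1) b' σ) τ := by
            refine D_congr fun l' _ hl' => ?_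
            have h3 : l'.length = l - 1 := by omega
            rw [hΦ, gb_Phi_apply, h3]
          rw [h2, D_sum]
          refine Finset.sum_congr rfl fun b' _ => ?_
          exact D_map (AddMonoidHom.mulLeft (gb_cv S iI il ib N v I (l - 1) b'))
            (S.ps J (l - 1) b') τ
        · simp only [A, Finset.sum_mul, Finset.mul_sum]
          rw [Finset.sum_comm]
          refine Finset.sum_congr rfl fun b' _ => Finset.sum_congr rfl fun b _ => ?_
          ring
    have htot : (∑ j ∈ range I.length, ((-1 : ℚ) ^ j) • (fun τ => Φ (I.eraseIdx j) τ -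
        ∑ b ∈ range (S.be J l), R j b * S.ps J l b τ)) + ((-1 : ℚ) ^ I.length) •
          (fun τ => D (Φ I) τ - ∑ b ∈ range (S.be J l), A b * S.ps J l b τ) ∈ ZS (𝓔 J) l :=
      Submodule.add_mem _ (Submodule.sum_mem _ fun j _ => Submodule.smul_mem _ _ (hE j))
        (Submodule.smul_mem _ _ hE')
    refine gb_Z_of htot (fun τ hτ => ?_) (fun τ hτ => hzero τ (by omega))
    show DT Φ I τ - gb_Phi S iI il ib (N + 1) u I τ = _
    have h1 : gb_Phi S iI il ib (N + 1) u I τ = ∑ b ∈ range (S.be J l),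
        ((∑ j ∈ range I.length, (-1 : ℚ) ^ j * R j b) + (-1) ^ I.length * A b) *
          S.ps J l b τ := by
      rw [gb_Phi_apply, hτ]
      refine Finset.sum_congr rfl fun b hb => ?_
      rw [hcoef b (Finset.mem_range.1 hb)]
    have h2 : D Φ I τ = ∑ j ∈ range I.length, (-1 : ℚ) ^ j * Φ (I.eraseIdx j) τ := by
      rw [gb_D_sum, Finset.sum_apply]
      refine Finset.sum_congr rfl fun j _ => ?_
      rw [Pi.smul_apply, zsmul_eq_mul]
      push_cast
      rfl
    rw [h1]
    show D Φ I τ + (-1) ^ I.length * D (Φ I) τ - _ = _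
    rw [h2, Pi.add_apply, Finset.sum_apply]
    simp only [Pi.smul_apply, smul_eq_mul, mul_sub, add_mul, Finset.sum_add_distrib,
      Finset.sum_sub_distrib, Finset.sum_mul, Finset.mul_sum]
    rw [Finset.sum_comm (s := range (S.be J l)) (t := range I.length)]
    simp only [mul_assoc]
    ring
  · have e : (DT Φ - gb_Phi S iI il ib (N + 1) u) I = fun _ => 0 := by
      funext τ
      by_cases hτ : τ = []
      · rw [hτ]
        show DT Φ I [] - gb_Phi S iI il ib (N + 1) u I [] = 0
        rw [(T9a_TN_DT hTN).2, (gb_TN S iI il ib (N + 1) u).2, sub_zero]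
      · refine hzero τ ?_
        have := List.length_pos_iff.2 hτ
        omega
    rw [e]
    exact Z_zero _

end glob

theorem FinSys.finrank_HT {k n : ℕ} {M : Type} [MetricSpace M] {𝓔 : Finset (Fin n) → Set M}
    (S : FinSys k n M 𝓔) {X : Type} [Fintype X] [DecidableEq X] (iI : X → List (Fin n))
    (il ib : X → ℕ)
    (hinj : ∀ N x x', S.vld iI il ib N x → S.vld iI il ib N x' → iI x = iI x' → il x = il x' →
      ib x = ib x' → x = x')
    (hsurj : ∀ (I : List (Fin n)) (l b : ℕ), 1 ≤ I.length → 1 ≤ l → I.length + l ≤ k + 1 →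
      b < S.be I.toFinset l → ∃ x, iI x = I ∧ il x = l ∧ ib x = b)
    {N : ℕ} (hN1 : 2 ≤ N) (hN : N ≤ k) :
    open Classical in
    Module.finrank ℚ (HT k 𝓔 N) + (Matrix.of (S.ent iI il ib N)).rank +
        (Matrix.of (S.ent iI il ib (N - 1))).rank =
      (Finset.univ.filter (S.vld iI il ib N)).card := by
  classical
  obtain ⟨N', rfl⟩ : ∃ N', N = N' + 1 := ⟨N - 1, by omega⟩
  rw [Nat.add_sub_cancel]
  set A := Matrix.of (S.ent iI il ib (N' + 1)) with hA
  set B := Matrix.of (S.ent iI il ib N') with hB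
  have hAne : ∀ x x', A x x' ≠ 0 → S.vld iI il ib (N' + 1) x' := by
    intro x x' h
    by_contra hv
    exact h (if_neg (fun h' => hv h'.2))
  have hAne' : ∀ x x', A x x' ≠ 0 → S.vld iI il ib (N' + 1 + 1) x := by
    intro x x' h
    by_contra hv
    exact h (if_neg (fun h' => hv h'.1))
  have hBne : ∀ x x', B x x' ≠ 0 → S.vld iI il ib (N' + 1) x := by
    intro x x' h
    by_contra hv
    exact h (if_neg (fun h' => hv h'.1))
  have hAsupp : ∀ v x, ¬ S.vld iI il ib (N' + 1 + 1) x → A.mulVec v x = 0 := by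
    intro v x hx
    show ∑ x', A x x' * v x' = 0
    refine Finset.sum_eq_zero fun x' _ => ?_
    by_cases h : A x x' = 0
    · rw [h, zero_mul]
    · exact absurd (hAne' x x' h) hx
  have hBsupp : ∀ v x, ¬ S.vld iI il ib (N' + 1) x → B.mulVec v x = 0 := by
    intro v x hx
    show ∑ x', B x x' * v x' = 0
    refine Finset.sum_eq_zero fun x' _ => ?_
    by_cases h : B x x' = 0
    · rw [h, zero_mul]
    · exact absurd (hBne x x' h) hx
  -- the square of the differential
  have hDB : ∀ w, ZT k 𝓔 (DT (gb_Phi S iI il ib N' w) - gb_Phi S iI il ib (N' + 1) (B.mulVec w)) :=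
    fun w => gb_DT S iI il ib hinj hsurj (by omega) w
  have hDA : ∀ w, ZT k 𝓔 (DT (gb_Phi S iI il ib (N' + 1) w) -
      gb_Phi S iI il ib (N' + 1 + 1) (A.mulVec w)) :=
    fun w => gb_DT S iI il ib hinj hsurj hN w
  have hsq : ∀ w, A.mulVec (B.mulVec w) = 0 := by
    intro w
    funext x
    by_cases hx : S.vld iI il ib (N' + 1 + 1) x
    · refine gb_vanish S iI il ib hinj (N := N' + 1 + 1) (by omega) ?_ hx
      have h1 := T9a_ZT_DT S.anti (c := DT (gb_Phi S iI il ib N' w) -
        gb_Phi S iI il ib (N' + 1) (B.mulVec w))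
        ((T9a_TN_sub (T9a_TN_DT (gb_TN S iI il ib N' w)) (gb_TN S iI il ib (N' + 1) _)).1) (hDB w)
      rw [T9a_DT_sub, T9a_DT_DT, zero_sub] at h1
      have h2 := T9a_ZT_add h1 (hDA (B.mulVec w))
      have h3 := T9a_ZT_smul (-1) h2
      have e : (-1 : ℚ) • (-DT (gb_Phi S iI il ib (N' + 1) (B.mulVec w)) +
          (DT (gb_Phi S iI il ib (N' + 1) (B.mulVec w)) -
            gb_Phi S iI il ib (N' + 1 + 1) (A.mulVec (B.mulVec w)))) =
          gb_Phi S iI il ib (N' + 1 + 1) (A.mulVec (B.mulVec w)) := by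
        rw [neg_one_smul]
        abel
      rw [e] at h3
      exact h3
    · rw [hAsupp _ _ hx]
      rfl
  have hAB : A * B = 0 := by
    refine Matrix.ext_iff_mulVec.2 fun w => ?_
    rw [← Matrix.mulVec_mulVec, hsq, Matrix.zero_mulVec]
  -- the cocycles
  let C : Submodule ℚ (X → ℚ) :=
    { carrier := {v | (∀ x, ¬ S.vld iI il ib (N' + 1) x → v x = 0) ∧ A.mulVec v = 0}
      add_mem' := by
        rintro v w ⟨h1, h2⟩ ⟨h3, h4⟩
        refine ⟨fun x hx => by rw [Pi.add_apply, h1 x hx, h3 x hx, add_zero], ?_⟩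
        rw [Matrix.mulVec_add, h2, h4, add_zero]
      zero_mem' := ⟨fun x _ => rfl, Matrix.mulVec_zero A⟩
      smul_mem' := by
        rintro a v ⟨h1, h2⟩
        refine ⟨fun x hx => by rw [Pi.smul_apply, h1 x hx, smul_zero], ?_⟩
        rw [Matrix.mulVec_smul, h2, smul_zero] }
  have hC : ∀ v, v ∈ C ↔ (∀ x, ¬ S.vld iI il ib (N' + 1) x → v x = 0) ∧ A.mulVec v = 0 :=
    fun v => Iff.rfl
  have hmain := coh_dim (S.vld iI il ib (N' + 1)) A B hAne hBne hAB C hC
  obtain ⟨φ⟩ := quot_equiv (C := C) (B := LinearMap.range B.mulVecLin) (C' := tcyc k 𝓔)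
    (B' := tbd k 𝓔 (N' + 1)) (gb_Phi S iI il ib (N' + 1)) (fun c hc => by
      refine ⟨gb_TN S iI il ib _ c, ?_⟩
      have h1 := hDA c
      rw [((hC c).1 hc).2, map_zero, sub_zero] at h1
      exact h1) (fun c hc => by
      constructor
      · rintro ⟨e, he, h⟩
        have h0 : ZT k 𝓔 (T9a_P (N' + 1) (gb_Phi S iI il ib (N' + 1) c - DT e)) := h
        have h1 : ZT k 𝓔 (T9a_P (N' + 1) (DT e - gb_Phi S iI il ib (N' + 1) c)) := by
          have h2 := T9a_ZT_smul (-1) h0
          rw [← T9a_P_smul, neg_one_smul, neg_sub] at h2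
          exact h2
        have h2 : S.inQ (N' + 1) (DT e) := gb_inQ S iI il ib h1
        obtain ⟨e', he', h3⟩ := S.rel_acyc (by omega) he h2
        have hTN : TN (e - DT e') := T9a_TN_sub he (T9a_TN_DT he')
        obtain ⟨w, hw1, hw2⟩ := gb_lift S iI il ib hinj hsurj (by omega) hTN h3
        have h4 := T9a_ZT_DT S.anti (T9a_TN_P N' (T9a_TN_sub hTN (gb_TN S iI il ib N' w))).1 hw2
        rw [T9a_DT_P, T9a_DT_sub, T9a_DT_sub, T9a_DT_DT, sub_zero] at h4
        have h5 := T9a_ZT_P (N' + 1) (hDB w)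
        have h6 := T9a_ZT_add (T9a_ZT_add h0 h4) h5
        rw [← T9a_P_add, ← T9a_P_add] at h6
        have e1 : gb_Phi S iI il ib (N' + 1) c - DT e + (DT e - DT (gb_Phi S iI il ib N' w)) +
            (DT (gb_Phi S iI il ib N' w) - gb_Phi S iI il ib (N' + 1) (B.mulVec w)) =
            gb_Phi S iI il ib (N' + 1) (c - B.mulVec w) := by
          rw [map_sub]
          abel
        rw [e1, gb_P] at h6
        refine ⟨w, ?_⟩
        rw [Matrix.mulVecLin_apply]
        funext x
        by_cases hx : S.vld iI il ib (N' + 1) x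
        · have h7 := gb_vanish S iI il ib hinj (by omega) h6 hx
          rw [Pi.sub_apply, sub_eq_zero] at h7
          exact h7.symm
        · rw [hBsupp w x hx, ((hC c).1 hc).1 x hx]
      · rintro ⟨w, rfl⟩
        rw [Matrix.mulVecLin_apply]
        refine ⟨gb_Phi S iI il ib N' w, gb_TN S iI il ib N' w, ?_⟩
        have h1 := T9a_ZT_smul (-1) (T9a_ZT_P (N' + 1) (hDB w))
        rw [← T9a_P_smul, neg_one_smul, neg_sub] at h1
        exact h1) (fun c' hc' => by
      obtain ⟨hTN', hZ'⟩ := hc'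
      have h1 : S.inQ (N' + 1 + 1) (DT c') := by
        refine gb_inQ S iI il ib (v := 0) ?_
        rw [map_zero, sub_zero]
        exact T9a_ZT_P _ hZ'
      obtain ⟨e, he, h2⟩ := S.rel_acyc hN hTN' h1
      have hTN : TN (c' - DT e) := T9a_TN_sub hTN' (T9a_TN_DT he)
      obtain ⟨v, hv1, hv2⟩ := gb_lift S iI il ib hinj hsurj (by omega) hTN h2
      refine ⟨v, ⟨hv1, ?_⟩, ⟨e, he, ?_⟩⟩
      · funext x
        by_cases hx : S.vld iI il ib (N' + 1 + 1) x
        · refine gb_vanish S iI il ib hinj (N := N' + 1 + 1) (by omega) ?_ hx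
          have h4 := T9a_ZT_DT S.anti
            (T9a_TN_P (N' + 1) (T9a_TN_sub hTN (gb_TN S iI il ib (N' + 1) v))).1 hv2
          rw [T9a_DT_P, T9a_DT_sub, T9a_DT_sub, T9a_DT_DT, sub_zero] at h4
          have h5 := T9a_ZT_P (N' + 1 + 1) (hDA v)
          have h6 := T9a_ZT_P (N' + 1 + 1) hZ'
          have h7 := T9a_ZT_sub h6 (T9a_ZT_add h4 h5)
          rw [← T9a_P_add, ← T9a_P_sub] at h7
          have e1 : DT c' - (DT c' - DT (gb_Phi S iI il ib (N' + 1) v) +
              (DT (gb_Phi S iI il ib (N' + 1) v) -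
                gb_Phi S iI il ib (N' + 1 + 1) (A.mulVec v))) =
              gb_Phi S iI il ib (N' + 1 + 1) (A.mulVec v) := by
            abel
          rw [e1, gb_P] at h7
          exact h7
        · rw [hAsupp _ _ hx]
          rfl
      · have e1 : c' - gb_Phi S iI il ib (N' + 1) v - DT e =
            c' - DT e - gb_Phi S iI il ib (N' + 1) v := by abel
        show ZT k 𝓔 (T9a_P (N' + 1) (c' - gb_Phi S iI il ib (N' + 1) v - DT e))
        rw [e1]
        exact hv2)
  rw [← φ.finrank_eq]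
  exact hmain

end BU
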