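import Pool.Agent.Work.MP_4030f5_lc.U.RowDefs

/-! # The transfer principle

A quantity `Ψ` that depends on finitely many slots `sl` and on the parameters, that is compatible
with increasing relabellings of the items, and that is of bounded complexity for every fixed set
of items, is determined by the order pattern of the indices in the slots and by the signs of finitely
many expressions at the parameters of these items.
Proof: let `J` be the set of all indices `itx (sl t)` (as elements of `Fin n`; `n > 0`), `r` its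
cardinality, `ι : Fin r → Fin n` its increasing enumeration, `π t` the rank of `itx (sl t)`
(number of elements of `J` below it), `sec : Fin r → Fin N` with `itx (sl (sec i)) = ι i` (choose e.g. the least
`t` with `π t = i`). Then `sl = mapS ι ∘ sl₀` with `sl₀ t = (none or some (π t), (sl t).2)`, so
`Ψ n sl a = Ψ r sl₀ (a ∘ ι)` and `a (ι i) = a (itx (sl (sec i)))`. `r`, `π`, `sec`, `sl₀` are the same for
`sl'`. `H₁` = the union over `r ≤ N`, `sl₀ : Fin N → Step r L`, `sec : Fin r → Fin N` of the lists for
`Bdd C (Ψ r sl₀)` renamed by `z ↦ (sec z.1, z.2)`. -/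

namespace BU

private theorem Transfer_card {N n n' : ℕ} {f : Fin N → Fin n} {f' : Fin N → Fin n'}
    (h : ∀ t t', f t = f t' ↔ f' t = f' t') (A : Finset (Fin N)) :
    (A.image f).card = (A.image f').card := by
  have h1 : (A.image (fun t => (f t, f' t))).card = (A.image f).card := by
    rw [← Finset.card_image_of_injOn (f := Prod.fst) (s := A.image (fun t => (f t, f' t)))]
    · rw [Finset.image_image]
      rfl
    · intro x hx y hy hxy
      obtain ⟨t, _, rfl⟩ := Finset.mem_image.1 hx
      obtain ⟨t', _, rfl⟩ := Finset.mem_image.1 hy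
      exact Prod.ext hxy ((h t t').1 hxy)
  have h2 : (A.image (fun t => (f t, f' t))).card = (A.image f').card := by
    rw [← Finset.card_image_of_injOn (f := Prod.snd) (s := A.image (fun t => (f t, f' t)))]
    · rw [Finset.image_image]
      rfl
    · intro x hx y hy hxy
      obtain ⟨t, _, rfl⟩ := Finset.mem_image.1 hx
      obtain ⟨t', _, rfl⟩ := Finset.mem_image.1 hy
      exact Prod.ext ((h t t').2 hxy) hxy
  rw [← h1, h2]

private theorem Transfer_rank {n r : ℕ} (J : Finset (Fin n)) (h : J.card = r) (i : Fin r) :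
    (J.filter (· < J.orderEmbOfFin h i)).card = i := by
  have h1 : J.filter (· < J.orderEmbOfFin h i) =
      (Finset.univ.filter (· < i)).image (J.orderEmbOfFin h) := by
    ext x
    simp only [Finset.mem_filter, Finset.mem_image, Finset.mem_univ, true_and]
    constructor
    · rintro ⟨hx, hlt⟩
      obtain ⟨j, rfl⟩ : ∃ j, J.orderEmbOfFin h j = x := by
        have : x ∈ Set.range (J.orderEmbOfFin h) := by
          rw [Finset.range_orderEmbOfFin]
          exact hx
        exact this
      exact ⟨j, (J.orderEmbOfFin h).lt_iff_lt.1 hlt, rfl⟩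
    · rintro ⟨j, hj, rfl⟩
      exact ⟨J.orderEmbOfFin_mem h j, (J.orderEmbOfFin h).lt_iff_lt.2 hj⟩
  have h2 : (Finset.univ : Finset (Fin r)).filter (· < i) = Finset.Iio i := by
    ext j
    simp
  rw [h1, Finset.card_image_of_injective _ (J.orderEmbOfFin h).injective, h2, Fin.card_Iio]

private theorem Transfer_itx {n L : ℕ} (hn : 0 < n) (s : Step n L) : itx s < n := by
  unfold itx
  rcases hs : s.1 with _ | i
  · exact hn
  · exact i.2

theorem transfer {N m L : ℕ} {γ : Type}
    (Ψ : (n : ℕ) → (Fin N → Step n L) → (Fin n × Fin m → ℝ) → γ)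
    (hloc : ∀ (r n : ℕ) (ι : Fin r → Fin n), StrictMono ι → ∀ (sl : Fin N → Step r L)
      (a : Fin n × Fin m → ℝ), Ψ n (fun t => mapS ι (sl t)) a = Ψ r sl (fun z => a (ι z.1, z.2)))
    (hbdd : ∀ (r : ℕ) (sl : Fin N → Step r L), ∃ C, Bdd C (Ψ r sl)) :
    ∃ H₁ : List (Fm (Fin N × Fin m)), ∀ (n n' : ℕ), 0 < n → 0 < n' →
      ∀ (sl : Fin N → Step n L) (sl' : Fin N → Step n' L) (a a' : ℕ → Fin m → ℝ),
      (∀ t, (sl t).2 = (sl' t).2) → (∀ t, (sl t).1 = none ↔ (sl' t).1 = none) →
      (∀ t t', itx (sl t) < itx (sl t') ↔ itx (sl' t) < itx (sl' t')) →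
      SgnEq H₁ (fun z => a (itx (sl z.1)) z.2) (fun z => a' (itx (sl' z.1)) z.2) →
      Ψ n sl (fun z => a z.1 z.2) = Ψ n' sl' (fun z => a' z.1 z.2) := by
  classical
  choose C F hF hF' using hbdd
  let I : Type := (r : Fin (N + 1)) × ((Fin N → Step r L) × (Fin r → Fin N))
  refine ⟨(Finset.univ : Finset I).toList.flatMap fun x =>
    (F x.1 x.2.1).map (Fm.rename fun z => (x.2.2 z.1, z.2)), ?_⟩
  intro n n' hn hn' sl sl' a a' h2 h1 hlt hsgn
  let f : Fin N → Fin n := fun t => ⟨itx (sl t), Transfer_itx hn _⟩
  let f' : Fin N → Fin n' := fun t => ⟨itx (sl' t), Transfer_itx hn' _⟩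
  have hff : ∀ t t', f t = f t' ↔ f' t = f' t' := by
    intro t t'
    have ha := hlt t t'
    have hb := hlt t' t
    simp only [f, f', Fin.mk.injEq]
    omega
  set J : Finset (Fin n) := Finset.univ.image f with hJ
  set J' : Finset (Fin n') := Finset.univ.image f' with hJ'
  have hcard : J'.card = J.card := (Transfer_card hff Finset.univ).symm
  have hmem : ∀ t, f t ∈ J := fun t => Finset.mem_image_of_mem f (Finset.mem_univ t)
  have hmem' : ∀ t, f' t ∈ J' := fun t => Finset.mem_image_of_mem f' (Finset.mem_univ t)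
  have hex : ∀ t, ∃ i : Fin J.card, J.orderEmbOfFin rfl i = f t := by
    intro t
    have : f t ∈ Set.range (J.orderEmbOfFin rfl) := by
      rw [Finset.range_orderEmbOfFin]
      exact hmem t
    exact this
  have hex' : ∀ t, ∃ i : Fin J.card, J'.orderEmbOfFin hcard i = f' t := by
    intro t
    have : f' t ∈ Set.range (J'.orderEmbOfFin hcard) := by
      rw [Finset.range_orderEmbOfFin]
      exact hmem' t
    exact this
  choose π hπ using hex
  choose π' hπ' using hex'
  have hππ : ∀ t, π t = π' t := by
    intro t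
    apply Fin.ext
    rw [← Transfer_rank J rfl (π t), ← Transfer_rank J' hcard (π' t), hπ, hπ']
    have e1 : J.filter (· < f t) = (Finset.univ.filter (fun t' => f t' < f t)).image f := by
      rw [hJ, Finset.filter_image]
    have e2 : J'.filter (· < f' t) = (Finset.univ.filter (fun t' => f' t' < f' t)).image f' := by
      rw [hJ', Finset.filter_image]
    have e3 : (Finset.univ.filter (fun t' => f t' < f t)) =
        (Finset.univ.filter (fun t' => f' t' < f' t)) :=
      Finset.filter_congr fun t' _ => hlt t' t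
    rw [e1, e2, e3]
    exact Transfer_card hff _
  have hsec : ∀ i : Fin J.card, ∃ t, π t = i := by
    intro i
    obtain ⟨t, _, ht⟩ := Finset.mem_image.1 (J.orderEmbOfFin_mem rfl i)
    exact ⟨t, (J.orderEmbOfFin rfl).injective (by rw [hπ, ht])⟩
  choose sec hsec using hsec
  have hι : ∀ i, ((J.orderEmbOfFin rfl i : Fin n) : ℕ) = itx (sl (sec i)) := by
    intro i
    have := hπ (sec i)
    rw [hsec i] at this
    rw [this]
  have hι' : ∀ i, ((J'.orderEmbOfFin hcard i : Fin n') : ℕ) = itx (sl' (sec i)) := by
    intro i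
    have := hπ' (sec i)
    rw [← hππ, hsec i] at this
    rw [this]
  let sl₀ : Fin N → Step J.card L := fun t => ((sl t).1.map (fun _ => π t), (sl t).2)
  have hs : sl = fun t => mapS (J.orderEmbOfFin rfl) (sl₀ t) := by
    funext t
    refine Prod.ext ?_ rfl
    simp only [mapS, sl₀, Option.map_map]
    rcases hst : (sl t).1 with _ | i
    · rfl
    · simp only [Option.map_some, Function.comp]
      rw [hπ]
      simp only [f, itx, hst]
  have hs' : sl' = fun t => mapS (J'.orderEmbOfFin hcard) (sl₀ t) := by
    funext t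
    refine Prod.ext ?_ (h2 t).symm
    simp only [mapS, sl₀, Option.map_map]
    rcases hst : (sl' t).1 with _ | i
    · rw [(h1 t).2 hst]
      rfl
    · obtain ⟨j, hj⟩ : ∃ j, (sl t).1 = some j := by
        rcases hj : (sl t).1 with _ | j
        · rw [(h1 t).1 hj] at hst
          cases hst
        · exact ⟨j, rfl⟩
      rw [hj]
      simp only [Option.map_some, Function.comp]
      rw [hππ, hπ']
      simp only [f', itx, hst]
  have e1 : Ψ n sl (fun z => a z.1 z.2) =
      Ψ J.card sl₀ (fun z => a (itx (sl (sec z.1))) z.2) := by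
    conv_lhs => rw [hs]
    rw [hloc _ _ _ (J.orderEmbOfFin rfl).strictMono]
    congr 1
    funext z
    simp only
    rw [hι]
  have e2 : Ψ n' sl' (fun z => a' z.1 z.2) =
      Ψ J.card sl₀ (fun z => a' (itx (sl' (sec z.1))) z.2) := by
    conv_lhs => rw [hs']
    rw [hloc _ _ _ (J'.orderEmbOfFin hcard).strictMono]
    congr 1
    funext z
    simp only
    rw [hι']
  rw [e1, e2]
  apply hF'
  have hJN : J.card < N + 1 := by
    have : J.card ≤ N := by
      refine Finset.card_image_le.trans ?_
      simp
    omega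
  have hsub : (F J.card sl₀).map (Fm.rename fun z => (sec z.1, z.2)) ⊆
      (Finset.univ : Finset I).toList.flatMap fun x =>
        (F x.1 x.2.1).map (Fm.rename fun z => (x.2.2 z.1, z.2)) := by
    intro e he
    rw [List.mem_flatMap]
    exact ⟨⟨⟨J.card, hJN⟩, (sl₀, sec)⟩, Finset.mem_toList.2 (Finset.mem_univ _), he⟩
  exact SgnEq.rename.1 (SgnEq.mono hsub hsgn)

end BU
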