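import Pool.Agent.Work.MP_4030f5_lc.U.LowDefs
import Pool.Agent.Work.MP_4030f5_lc.U.Transfer

/-! # The types of the lists of indices are determined by the information

Apply `transfer` with `N = K + 2`, `L = 1`, `γ = Σ r, ..` as in `tyR`, to
`Ψ n sl a = tyR G a J J'`, where `J` is the set of the items of the slots `t < s` and `J'` the set of the
items of the slots `t < s`, `t ≠ j` (for every fixed `s ≤ K + 1` and `j ≤ s`, union of the finitely many lists
`H₁`). Slots of `(s, c)`: `sl t = (some (digit number min t (s - 1) of c), 0)`. `hloc`: for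
strictly increasing `ι` the sets are mapped by `ι`; `resJ (J.map ι) a = resJ J (a ∘ ι)` up to the equality of
cardinalities (equality in the sigma type: generalise the cardinality, or use that an increasing enumeration
is unique, `Finset.orderEmbOfFin_unique'`). `hbdd`: for fixed `J` the class `cls (G J.card) (resJ J a)`
depends only on the signs of the members of `G J.card` at `resJ J a`. Patterns and signs from `inf_eq`. -/

namespace BU

open Finset

private theorem LowB_ty {m n r r' : ℕ} (G : (r : ℕ) → List (Fm (Fin r × Fin m)))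
    (a : Fin n → Fin m → ℝ) (J J' : Finset (Fin n)) (h : J' ⊆ J) (e : Fin r → Fin n)
    (he : StrictMono e) (hJ : J = univ.image e) (e' : Fin r' → Fin n) (he' : StrictMono e')
    (hJ' : J' = univ.image e') (f : Fin r' → Fin r) (hf : ∀ i, e (f i) = e' i) :
    tyR G a J J' h = ⟨r, (cls (G r) (fun z => a (e z.1) z.2), ⟨r', f⟩)⟩ := by
  have hr : J.card = r := by
    rw [hJ, card_image_of_injective _ he.injective, card_univ, Fintype.card_fin]
  have hr' : J'.card = r' := by
    rw [hJ', card_image_of_injective _ he'.injective, card_univ, Fintype.card_fin]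
  subst hr hr'
  have h1 : e = J.orderEmbOfFin rfl := by
    refine Finset.orderEmbOfFin_unique rfl (fun x => ?_) he
    exact (Finset.ext_iff.1 hJ _).2 (mem_image_of_mem e (mem_univ x))
  have h2 : e' = J'.orderEmbOfFin rfl := by
    refine Finset.orderEmbOfFin_unique rfl (fun x => ?_) he'
    exact (Finset.ext_iff.1 hJ' _).2 (mem_image_of_mem e' (mem_univ x))
  have h3 : posJ J J' h = f := by
    funext i
    apply (J.orderEmbOfFin rfl).injective
    have h4 : J.orderEmbOfFin rfl (posJ J J' h i) = J'.orderEmbOfFin rfl i := by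
      have h5 := congrArg Subtype.val ((J.orderIsoOfFin rfl).apply_symm_apply
        ⟨J'.orderEmbOfFin rfl i, h (J'.orderEmbOfFin_mem rfl i)⟩)
      exact h5
    rw [h4, ← h1, ← h2, hf]
  unfold tyR resJ
  rw [h3, h1]

private noncomputable def LowB_J {K n : ℕ} (s j : ℕ) (sl : Fin (K + 2) → Step n 1) : Finset (Fin n) :=
  open Classical in
  univ.filter (fun i => ∃ t : Fin (K + 2), (t : ℕ) < s ∧ (t : ℕ) ≠ j ∧ (sl t).1 = some i)

private theorem LowB_sub {K n : ℕ} (s j : ℕ) (sl : Fin (K + 2) → Step n 1) :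
    LowB_J s j sl ⊆ LowB_J s s sl := by
  intro i hi
  simp only [LowB_J, mem_filter, mem_univ, true_and] at hi ⊢
  obtain ⟨t, h1, _, h3⟩ := hi
  exact ⟨t, h1, h1.ne, h3⟩

private theorem LowB_map {K n n' : ℕ} (s j : ℕ) (sl : Fin (K + 2) → Step n' 1)
    (ι : Fin n' → Fin n) :
    LowB_J s j (fun t => mapS ι (sl t)) = (LowB_J s j sl).image ι := by
  ext i
  simp only [LowB_J, mem_filter, mem_univ, true_and, mem_image, mapS, Option.map_eq_some_iff]
  constructor
  · rintro ⟨t, h1, h2, i₀, h3, h4⟩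
    exact ⟨i₀, ⟨t, h1, h2, h3⟩, h4⟩
  · rintro ⟨i₀, ⟨t, h1, h2, h3⟩, h4⟩
    exact ⟨t, h1, h2, i₀, h3, h4⟩

private theorem LowB_congr {m n : ℕ} (G : (r : ℕ) → List (Fm (Fin r × Fin m)))
    (a : Fin n → Fin m → ℝ) {J J' J₁ J₁' : Finset (Fin n)} (h : J' ⊆ J) (h₁ : J₁' ⊆ J₁)
    (e : J = J₁) (e' : J' = J₁') : tyR G a J J' h = tyR G a J₁ J₁' h₁ := by
  subst e e'
  rfl

private theorem LowB_Jd {K n : ℕ} (hn : 0 < n) (s j c : ℕ) (hs : s ≤ K + 1) :
    LowB_J s j (fun t : Fin (K + 2) =>
      ((some ⟨dig n c (min t (s - 1)), Nat.mod_lt _ hn⟩, 0) : Step n 1)) = Jd n hn s c j := by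
  ext i
  simp only [LowB_J, mem_filter, mem_univ, true_and, Jd, mem_image, mem_range, Option.some.injEq]
  constructor
  · rintro ⟨t, h1, h2, h3⟩
    refine ⟨t, ⟨h1, h2⟩, ?_⟩
    rw [← h3]
    have : min (t : ℕ) (s - 1) = t := by omega
    simp only [this]
  · rintro ⟨t, ⟨h1, h2⟩, h3⟩
    refine ⟨⟨t, by omega⟩, h1, h2, ?_⟩
    rw [← h3]
    have : min t (s - 1) = t := by omega
    simp only [this]

theorem type_transfer (K m : ℕ) (G : (r : ℕ) → List (Fm (Fin r × Fin m))) :
    ∃ H₂ : List (Fm (Fin (K + 2) × Fin m)), ∀ H, H₂ ⊆ H →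
      ∀ (n n' : ℕ) (hn : 0 < n) (hn' : 0 < n') (a a' : ℕ → Fin m → ℝ) (s j c c' : ℕ),
        1 ≤ s → s ≤ K + 1 → j ≤ s →
        iinf K n (pR H n a) s c = iinf K n' (pR H n' a') s c' →
        tyR G (fun i : Fin n => a i) (Jd n hn s c s) (Jd n hn s c j) (Jd_sub n hn s c j) =
          tyR G (fun i : Fin n' => a' i) (Jd n' hn' s c' s) (Jd n' hn' s c' j)
            (Jd_sub n' hn' s c' j) := by
  have key : ∀ s j : ℕ, ∃ H₁ : List (Fm (Fin (K + 2) × Fin m)), ∀ (n n' : ℕ), 0 < n → 0 < n' →
      ∀ (sl : Fin (K + 2) → Step n 1) (sl' : Fin (K + 2) → Step n' 1) (a a' : ℕ → Fin m → ℝ),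
      (∀ t, (sl t).2 = (sl' t).2) → (∀ t, (sl t).1 = none ↔ (sl' t).1 = none) →
      (∀ t t', itx (sl t) < itx (sl t') ↔ itx (sl' t) < itx (sl' t')) →
      SgnEq H₁ (fun z => a (itx (sl z.1)) z.2) (fun z => a' (itx (sl' z.1)) z.2) →
      tyR G (fun i : Fin n => a i) (LowB_J s s sl) (LowB_J s j sl) (LowB_sub s j sl) =
        tyR G (fun i : Fin n' => a' i) (LowB_J s s sl') (LowB_J s j sl') (LowB_sub s j sl') := by
    intro s j
    refine transfer (fun n sl a => tyR G (fun i j => a (i, j)) (LowB_J s s sl) (LowB_J s j sl)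
      (LowB_sub s j sl)) ?_ ?_
    · intro r n ι hι sl a
      have h1 := LowB_ty G (fun i j => a (i, j)) (LowB_J s s (fun t => mapS ι (sl t)))
        (LowB_J s j (fun t => mapS ι (sl t))) (LowB_sub s j _)
        (fun i => ι ((LowB_J s s sl).orderEmbOfFin rfl i))
        (hι.comp ((LowB_J s s sl).orderEmbOfFin rfl).strictMono) (by
          rw [LowB_map]
          ext i
          simp only [mem_image, mem_univ, true_and]
          constructor
          · rintro ⟨i₀, h1, h2⟩
            obtain ⟨x, hx⟩ : ∃ x, (LowB_J s s sl).orderEmbOfFin rfl x = i₀ := by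
              have : i₀ ∈ Set.range ((LowB_J s s sl).orderEmbOfFin rfl) := by
                rw [Finset.range_orderEmbOfFin]
                exact h1
              exact this
            exact ⟨x, by rw [hx, h2]⟩
          · rintro ⟨x, hx⟩
            exact ⟨_, (LowB_J s s sl).orderEmbOfFin_mem rfl x, hx⟩)
        (fun i => ι ((LowB_J s j sl).orderEmbOfFin rfl i))
        (hι.comp ((LowB_J s j sl).orderEmbOfFin rfl).strictMono) (by
          rw [LowB_map]
          ext i
          simp only [mem_image, mem_univ, true_and]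
          constructor
          · rintro ⟨i₀, h1, h2⟩
            obtain ⟨x, hx⟩ : ∃ x, (LowB_J s j sl).orderEmbOfFin rfl x = i₀ := by
              have : i₀ ∈ Set.range ((LowB_J s j sl).orderEmbOfFin rfl) := by
                rw [Finset.range_orderEmbOfFin]
                exact h1
              exact this
            exact ⟨x, by rw [hx, h2]⟩
          · rintro ⟨x, hx⟩
            exact ⟨_, (LowB_J s j sl).orderEmbOfFin_mem rfl x, hx⟩)
        (posJ (LowB_J s s sl) (LowB_J s j sl) (LowB_sub s j sl)) (fun i => by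
          have h5 := congrArg Subtype.val (((LowB_J s s sl).orderIsoOfFin rfl).apply_symm_apply
            ⟨(LowB_J s j sl).orderEmbOfFin rfl i,
              LowB_sub s j sl ((LowB_J s j sl).orderEmbOfFin_mem rfl i)⟩)
          exact congrArg ι h5)
      exact h1
    · intro r sl
      let J := LowB_J s s sl
      refine ⟨_, (G J.card).map (Fm.rename fun z => (J.orderEmbOfFin rfl z.1, z.2)), le_rfl,
        fun x y hxy => ?_⟩
      have h1 := SgnEq.rename.1 hxy
      have h2 : cls (G J.card) (resJ J (fun i j => x (i, j))) =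
          cls (G J.card) (resJ J (fun i j => y (i, j))) := by
        ext z
        exact ⟨fun h => SgnEq.trans h h1, fun h => SgnEq.trans h h1.symm⟩
      show tyR G (fun i j => x (i, j)) J (LowB_J s j sl) (LowB_sub s j sl) =
        tyR G (fun i j => y (i, j)) J (LowB_J s j sl) (LowB_sub s j sl)
      unfold tyR
      rw [h2]
  choose F hF using key
  refine ⟨(List.range (K + 2)).flatMap fun s => (List.range (K + 2)).flatMap fun j => F s j,
    fun H hH n n' hn hn' a a' s j c c' hs1 hs2 hj hinf => ?_⟩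
  obtain ⟨_, hi⟩ := Nat.pair_eq_pair.1 hinf
  obtain ⟨k1, k2⟩ := inf_eq (fun t _ => Nat.mod_lt _ hn) (fun t _ => Nat.mod_lt _ hn') hi
  have h1 := hF s j n n' hn hn'
    (fun t : Fin (K + 2) => ((some ⟨dig n c (min t (s - 1)), Nat.mod_lt _ hn⟩, 0) : Step n 1))
    (fun t : Fin (K + 2) => ((some ⟨dig n' c' (min t (s - 1)), Nat.mod_lt _ hn'⟩, 0) : Step n' 1))
    a a' (fun t => rfl) (fun t => by simp) (fun t t' => k1 t t.2 t' t'.2) (by
      refine SgnEq.mono (G := H) ?_ k2
      intro e he
      refine hH ?_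
      rw [List.mem_flatMap]
      refine ⟨s, List.mem_range.2 (by omega), ?_⟩
      rw [List.mem_flatMap]
      exact ⟨j, List.mem_range.2 (by omega), he⟩)
  rw [LowB_congr G _ (Jd_sub n hn s c j) (LowB_sub s j _) (LowB_Jd hn s s c hs2).symm
    (LowB_Jd hn s j c hs2).symm, h1]
  exact LowB_congr G _ _ _ (LowB_Jd hn' s s c' hs2) (LowB_Jd hn' s j c' hs2)

end BU
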