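import Pool.Agent.Work.MP_4030f5_lc.U.LowA
import Pool.Agent.Work.MP_4030f5_lc.U.LowB
import Pool.Agent.Work.MP_4030f5_lc.U.GlobB
import Pool.Agent.Work.MP_4030f5_lc.U.Balls
import Pool.Agent.Work.MP_4030f5_lc.U.Table

/-! # Low Betti numbers by tables

`types_exist` gives `G`, `balls_exist` gives `Cc`, `model_exists` gives the model `D`, `type_transfer` gives
`H₂`. Let `bm` bound all `D.be r W l` (`1 ≤ r ≤ K + 1`, `W` one of the finitely many classes, `l ≤ K + 2`), and let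
`N₀ > 0` be a common denominator of all `D.mA r W l b b'`, `D.mR r W r' ι l b b'` (`b, b' < bm`, `l ≤ K + 2`).
Tables by `table_exists`: `X` = all `(n, a, s, c, ...)` with `n ≥ 1`, `a` good, `1 ≤ s ≤ K + 1` and the
remaining arguments bounded; values `D.be`, `N₀ * D.mR`, `N₀ * D.mA` at the type `tyR` of
`Jd .. s`, `Jd .. j`. Given `n`, `a` take `finsys_exists` and `FinSys.finrank_HT` with `X = Fin (nX K T n)`,
`iI = iIC`, `il = xl`, `ib = xb`, `N = q + 2`: `validC K T n p N x ↔ S.vld .. N x`, `entC = N₀ * S.ent`;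
the rank of a nonzero multiple is the same. -/

namespace BU

open Finset

/-- inputs of the tables. -/
private structure LowCode_X (K m bm : ℕ) where
  n : ℕ
  hn : 0 < n
  a : ℕ → Fin m → ℝ
  s : ℕ
  j : ℕ
  c : ℕ
  l : ℕ
  b : ℕ
  b' : ℕ
  hs1 : 1 ≤ s
  hs2 : s ≤ K + 1
  hj : j ≤ s
  hl : l ≤ K + 2
  hb : b ≤ bm
  hb' : b' ≤ bm

private theorem LowCode_pair {a b A B : ℕ} (ha : a < A) (hb : b < B) :
    Nat.pair a b < (A + B) ^ 2 := by
  refine (Nat.pair_lt_max_add_one_sq a b).trans_le (Nat.pow_le_pow_left ?_ 2)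
  omega

private theorem LowCode_denom {S : Set ℚ} (hS : S.Finite) :
    ∃ N₀ : ℕ, 0 < N₀ ∧ ∀ x ∈ S, ∃ z : ℤ, (N₀ : ℚ) * x = z := by
  induction S, hS using Set.Finite.induction_on with
  | empty => exact ⟨1, one_pos, fun x hx => absurd hx (Set.notMem_empty x)⟩
  | @insert a s _ _ ih =>
    obtain ⟨N, hN, h⟩ := ih
    refine ⟨a.den * N, Nat.mul_pos a.den_pos hN, fun x hx => ?_⟩
    rcases hx with rfl | hx
    · refine ⟨x.num * N, ?_⟩
      push_cast
      have := Rat.den_mul_eq_num x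
      calc (x.den : ℚ) * N * x = ((x.den : ℚ) * x) * N := by ring
        _ = _ := by rw [this]
    · obtain ⟨z, hz⟩ := h x hx
      refine ⟨a.den * z, ?_⟩
      push_cast
      rw [mul_assoc, hz]

private theorem LowCode_rank {X : Type} [Fintype X] [DecidableEq X] (c : ℚ) (hc : c ≠ 0)
    (M M' : Matrix X X ℚ) (h : ∀ x x', M x x' = c * M' x x') : M.rank = M'.rank := by
  have h1 : M = c • M' := by
    ext x x'
    rw [h x x']
    rfl
  rw [h1, Matrix.rank_smul_of_mem_nonZeroDivisors]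
  exact mem_nonZeroDivisors_of_ne_zero hc

theorem low_code (K m : ℕ) (E : (Fin m → ℝ) → (Fin (K + 1) → ℝ) → Prop)
    (hE : SA {z : Fin m ⊕ Fin (K + 1) → ℝ | E (fun i => z (Sum.inl i)) (fun i => z (Sum.inr i))}) :
    ∃ (H₂ : List (Fm (Fin (K + 2) × Fin m))), ∀ H, H₂ ⊆ H →
      ∃ (bm : ℕ) (bt : List ℕ) (tR tA : List ℤ), ∀ T : Tabs, T.bm = bm → T.bt = bt →
        T.tR = tR → T.tA = tA → ∀ n, 1 ≤ n → ∀ a : ℕ → Fin m → ℝ,
        (∀ i < n, IsCompact {p | E (a i) p}) → ∀ q < K,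
          bC K T n (pR H n a) q =
            betti (⋃ i : Fin n, {p | E (a i) p} : Set (Fin (K + 1) → ℝ)) q := by
  classical
  obtain ⟨G, hG⟩ := types_exist E hE
  have hG' : TypesOK E G := hG
  obtain ⟨Cc, hC⟩ := balls_exist E G hG'
  obtain ⟨D, hD⟩ := model_exists E G hG' Cc hC
  obtain ⟨H₂, hH₂⟩ := type_transfer K m G
  -- bound for the dimensions
  obtain ⟨bm, hbm⟩ : ∃ bm, ∀ r ≤ K + 1, ∀ (y : Fin r × Fin m → ℝ), ∀ l ≤ K + 2,
      D.be r (cls (G r) y) l ≤ bm := by
    have h1 : ∀ r, ∃ b, ∀ (y : Fin r × Fin m → ℝ), ∀ l ≤ K + 2, D.be r (cls (G r) y) l ≤ b := by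
      intro r
      obtain ⟨b, hb⟩ := (((finite_cls (G r)).prod (Set.finite_Iic (K + 2))).image
        (fun p => D.be r p.1 p.2)).bddAbove
      exact ⟨b, fun y l hl => hb ⟨(cls (G r) y, l), ⟨⟨y, rfl⟩, hl⟩, rfl⟩⟩
    choose b hb using h1
    refine ⟨∑ r ∈ range (K + 2), b r, fun r hr y l hl => (hb r y l hl).trans ?_⟩
    exact Finset.single_le_sum (f := b) (fun i _ => Nat.zero_le _) (Finset.mem_range.2 (by omega))
  -- common denominator
  obtain ⟨N₀, hN₀, hNA, hNR⟩ : ∃ N₀ : ℕ, 0 < N₀ ∧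
      (∀ r ≤ K + 1, ∀ (y : Fin r × Fin m → ℝ) (l b b' : ℕ), l ≤ K + 2 → b ≤ bm → b' ≤ bm →
        ∃ z : ℤ, (N₀ : ℚ) * D.mA r (cls (G r) y) l b b' = z) ∧
      (∀ r ≤ K + 1, ∀ (y : Fin r × Fin m → ℝ), ∀ r' ≤ K + 1, ∀ (ι : Fin r' → Fin r) (l b b' : ℕ),
        l ≤ K + 2 → b ≤ bm → b' ≤ bm →
        ∃ z : ℤ, (N₀ : ℚ) * D.mR r (cls (G r) y) r' ι l b b' = z) := by
    have hI : ∀ N : ℕ, (Set.Iic N).Finite := fun N => Set.finite_Iic N
    let SA : ℕ → Set ℚ := fun r => (fun p : Set (Fin r × Fin m → ℝ) × ℕ × ℕ × ℕ =>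
      D.mA r p.1 p.2.1 p.2.2.1 p.2.2.2) '' ((Set.range fun y => cls (G r) y) ×ˢ
        (Set.Iic (K + 2) ×ˢ (Set.Iic bm ×ˢ Set.Iic bm)))
    let SR : ℕ → ℕ → Set ℚ := fun r r' =>
      (fun p : Set (Fin r × Fin m → ℝ) × (Fin r' → Fin r) × ℕ × ℕ × ℕ =>
      D.mR r p.1 r' p.2.1 p.2.2.1 p.2.2.2.1 p.2.2.2.2) '' ((Set.range fun y => cls (G r) y) ×ˢ
        (Set.univ ×ˢ (Set.Iic (K + 2) ×ˢ (Set.Iic bm ×ˢ Set.Iic bm))))
    have hSA : ∀ r, (SA r).Finite := fun r =>
      ((finite_cls (G r)).prod ((hI _).prod ((hI _).prod (hI _)))).image _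
    have hSR : ∀ r r', (SR r r').Finite := fun r r' =>
      ((finite_cls (G r)).prod (Set.finite_univ.prod ((hI _).prod ((hI _).prod (hI _))))).image _
    obtain ⟨N₀, hN₀, h⟩ := LowCode_denom
      (((hI (K + 1)).biUnion fun r _ => hSA r).union
        ((hI (K + 1)).biUnion fun r _ => (hI (K + 1)).biUnion fun r' _ => hSR r r'))
    refine ⟨N₀, hN₀, ?_, ?_⟩
    · intro r hr y l b b' hl hb hb'
      refine h _ (Or.inl (Set.mem_biUnion (show r ∈ Set.Iic (K + 1) from hr)
        ⟨(cls (G r) y, l, b, b'), ⟨⟨y, rfl⟩, hl, hb, hb'⟩, rfl⟩))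
    · intro r hr y r' hr' ι l b b' hl hb hb'
      refine h _ (Or.inr (Set.mem_biUnion (show r ∈ Set.Iic (K + 1) from hr)
        (Set.mem_biUnion (show r' ∈ Set.Iic (K + 1) from hr')
        ⟨(cls (G r) y, ι, l, b, b'), ⟨⟨y, rfl⟩, trivial, hl, hb, hb'⟩, rfl⟩)))
  have hfloor : ∀ x : ℚ, (∃ z : ℤ, (N₀ : ℚ) * x = z) → ((⌊(N₀ : ℚ) * x⌋ : ℤ) : ℚ) = N₀ * x := by
    rintro x ⟨z, hz⟩
    rw [hz, Int.floor_intCast]
  refine ⟨H₂, fun H hH => ?_⟩
  obtain ⟨B, hB⟩ := inf_lt H
  -- the types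
  let ty : LowCode_X K m bm → ℕ → Σ r : ℕ, (Set (Fin r × Fin m → ℝ) × Σ r' : ℕ, (Fin r' → Fin r)) :=
    fun x j => tyR G (fun i : Fin x.n => x.a i) (Jd x.n x.hn x.s x.c x.s) (Jd x.n x.hn x.s x.c j)
      (Jd_sub x.n x.hn x.s x.c j)
  let ic : LowCode_X K m bm → ℕ := fun x => iinf K x.n (pR H x.n x.a) x.s x.c
  have hic : ∀ x, ic x < (K + 2 + B) ^ 2 := fun x =>
    LowCode_pair (by have := x.hs2; omega) (hB _ _ _)
  have hty : ∀ x x' : LowCode_X K m bm, ic x = ic x' → ∀ j ≤ x.s, ty x j = ty x' j := by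
    rintro ⟨n, hn, a, s, j₀, c, l, b, b', h1, h2, h3, h4, h5, h6⟩
      ⟨n', hn', a', s', j₀', c', l', b₂, b₂', h1', h2', h3', h4', h5', h6'⟩ h j hj
    have hs : s = s' := (Nat.pair_eq_pair.1 h).1
    subst hs
    exact hH₂ H hH n n' hn hn' a a' s j c c' h1 h2 hj h
  obtain ⟨bt, hbt⟩ := table_exists (fun x : LowCode_X K m bm => Nat.pair x.l (ic x))
    ((K + 3 + (K + 2 + B) ^ 2) ^ 2) (fun x => LowCode_pair (by have := x.hl; omega) (hic x))
    (fun x => D.be (ty x x.s).1 (ty x x.s).2.1 x.l) 0 (by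
      intro x x' h
      obtain ⟨h1, h2⟩ := Nat.pair_eq_pair.1 h
      have hs : x.s = x'.s := (Nat.pair_eq_pair.1 h2).1
      rw [hty x x' h2 x.s le_rfl, h1, hs])
  obtain ⟨tA, htA⟩ := table_exists
    (fun x : LowCode_X K m bm => Nat.pair x.l (Nat.pair (Nat.pair x.b x.b') (ic x)))
    ((K + 3 + ((bm + 1 + (bm + 1)) ^ 2 + (K + 2 + B) ^ 2) ^ 2) ^ 2)
    (fun x => LowCode_pair (by have := x.hl; omega) (LowCode_pair (LowCode_pair
      (by have := x.hb; omega) (by have := x.hb'; omega)) (hic x)))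
    (fun x => ⌊(N₀ : ℚ) * D.mA (ty x x.s).1 (ty x x.s).2.1 x.l x.b x.b'⌋) 0 (by
      intro x x' h
      obtain ⟨h1, h2⟩ := Nat.pair_eq_pair.1 h
      obtain ⟨h3, h4⟩ := Nat.pair_eq_pair.1 h2
      obtain ⟨h5, h6⟩ := Nat.pair_eq_pair.1 h3
      have hs : x.s = x'.s := (Nat.pair_eq_pair.1 h4).1
      rw [hty x x' h4 x.s le_rfl, h1, hs, h5, h6])
  obtain ⟨tR, htR⟩ := table_exists
    (fun x : LowCode_X K m bm => Nat.pair (Nat.pair x.j x.l)
      (Nat.pair (Nat.pair x.b x.b') (ic x)))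
    (((K + 2 + (K + 3)) ^ 2 + ((bm + 1 + (bm + 1)) ^ 2 + (K + 2 + B) ^ 2) ^ 2) ^ 2)
    (fun x => LowCode_pair (LowCode_pair (by have := x.hj; have := x.hs2; omega)
      (by have := x.hl; omega)) (LowCode_pair (LowCode_pair
      (by have := x.hb; omega) (by have := x.hb'; omega)) (hic x)))
    (fun x => ⌊(N₀ : ℚ) * D.mR (ty x x.j).1 (ty x x.j).2.1 (ty x x.j).2.2.1 (ty x x.j).2.2.2
      x.l x.b x.b'⌋) 0 (by
      intro x x' h
      obtain ⟨h0, h2⟩ := Nat.pair_eq_pair.1 h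
      obtain ⟨hj, h1⟩ := Nat.pair_eq_pair.1 h0
      obtain ⟨h3, h4⟩ := Nat.pair_eq_pair.1 h2
      obtain ⟨h5, h6⟩ := Nat.pair_eq_pair.1 h3
      rw [hty x x' h4 x.j x.hj, h1, hj, h5, h6])
  refine ⟨bm, bt, tR, tA, ?_⟩
  intro T e1 e2 e3 e4 n hn1 a ha q hq
  subst e1 e2 e3 e4
  have hn : 0 < n := hn1
  obtain ⟨𝓔, S, hS0, hSbe, hSA, hSR⟩ := finsys_exists E G hG' Cc hC D hD n (fun i => a i)
    (fun i => ha i i.2)
  set p := pR H n a with hp
  -- facts about the indices
  have hxs : ∀ x, xs K x ≤ K + 1 := fun x => by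
    unfold xs
    have := Nat.mod_lt x (show 0 < K + 2 by omega)
    omega
  have hcard : ∀ x, 1 ≤ (iIC K n hn x).length → (iIC K n hn x).toFinset.Nonempty ∧
      (iIC K n hn x).toFinset.card ≤ K + 1 := by
    intro x hx
    constructor
    · rw [List.toFinset_nonempty_iff]
      intro h
      rw [h] at hx
      simp at hx
    · refine (List.toFinset_card_le _).trans ?_
      rw [(iIC_length hn hx).1]
      exact hxs x
  have hbe : ∀ x, 1 ≤ (iIC K n hn x).length → ∀ l ≤ K + 2,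
      T.bt.getD (Nat.pair l (iinf K n p (xs K x) (xc K n x))) 0 =
        S.be (iIC K n hn x).toFinset l := by
    intro x hx l hl
    have hl1 := iIC_length hn hx
    have h1 := hbt ⟨n, hn, a, xs K x, xs K x, xc K n x, l, 0, 0, by rw [← hl1.1]; exact hx, hxs x,
      le_rfl, hl, Nat.zero_le _, Nat.zero_le _⟩
    obtain ⟨hne, hcd⟩ := hcard x hx
    rw [hSbe _ hne hcd l, iIC_toFinset hn hx]
    exact h1
  have hV : ∀ N ≤ K + 2, ∀ x, validC K T n p N x ↔ (1 ≤ (iIC K n hn x).length ∧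
      1 ≤ xl K n x ∧ (iIC K n hn x).length + xl K n x = N ∧
      xb K n x < S.be (iIC K n hn x).toFinset (xl K n x)) := by
    intro N hN x
    constructor
    · rintro ⟨h1, h2, h3, h4, h5, h6⟩
      have hlen : (iIC K n hn x).length = xs K x := by
        unfold iIC
        rw [if_pos h3, List.length_ofFn]
      have hx : 1 ≤ (iIC K n hn x).length := by rw [hlen]; exact h1
      refine ⟨hx, h4, by rw [hlen]; exact h5, ?_⟩
      rw [hbe x hx _ (by omega)] at h6
      exact h6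
    · rintro ⟨h1, h2, h3, h4⟩
      obtain ⟨hlen, hdig⟩ := iIC_length hn h1
      refine ⟨by omega, hxs x, hdig, h2, by omega, ?_⟩
      rw [hbe x h1 _ (by omega)]
      exact h4
  let iI : Fin (nX K T n) → List (Fin n) := fun x => iIC K n hn x
  let il : Fin (nX K T n) → ℕ := fun x => xl K n x
  let ib : Fin (nX K T n) → ℕ := fun x => xb K n x
  have hent : ∀ N, N + 1 ≤ K + 2 → ∀ x x' : Fin (nX K T n),
      ((entC K T n p N x x' : ℤ) : ℚ) = (N₀ : ℚ) * S.ent iI il ib N x x' := by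
    intro N hN x x'
    unfold entC FinSys.ent
    by_cases h : validC K T n p (N + 1) x ∧ validC K T n p N x'
    · have hv : S.vld iI il ib (N + 1) x ∧ S.vld iI il ib N x' :=
        ⟨(hV _ hN x).1 h.1, (hV _ (by omega) x').1 h.2⟩
      rw [if_pos h, if_pos hv]
      obtain ⟨⟨a1, a2, a3, a4⟩, ⟨b1, b2, b3, b4⟩⟩ := hv
      have a1' : 1 ≤ (iIC K n hn x).length := a1
      have b1' : 1 ≤ (iIC K n hn x').length := b1
      have a2' : 1 ≤ xl K n x := a2
      have a3' : (iIC K n hn x).length + xl K n x = N + 1 := a3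
      have b3' : (iIC K n hn x').length + xl K n x' = N := b3
      have b2' : 1 ≤ xl K n x' := b2
      obtain ⟨hlx, _⟩ := iIC_length hn a1'
      obtain ⟨hlx', _⟩ := iIC_length hn b1'
      obtain ⟨hneJ, hcdJ⟩ := hcard x a1'
      obtain ⟨hneJ', hcdJ'⟩ := hcard x' b1'
      have a4' : xb K n x ≤ T.bm := by
        have h1 : xb K n x < S.be (iIC K n hn x).toFinset (xl K n x) := a4
        rw [hSbe _ hneJ hcdJ] at h1
        exact h1.le.trans (hbm _ hcdJ _ _ (by omega))
      have b4' : xb K n x' ≤ T.bm := by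
        have h1 : xb K n x' < S.be (iIC K n hn x').toFinset (xl K n x') := b4
        rw [hSbe _ hneJ' hcdJ'] at h1
        exact h1.le.trans (hbm _ hcdJ' _ _ (by omega))
      rw [Int.cast_add, Int.cast_sum, mul_add, Finset.mul_sum]
      have hlen : (iI x).length = xs K x := hlx
      rw [hlen]
      congr 1
      · refine Finset.sum_congr rfl fun j hj => ?_
        have hj' : j < xs K x := Finset.mem_range.1 hj
        have hiff : ((iI x).eraseIdx j = iI x' ∧ il x' = il x) ↔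
            (xs K x' + 1 = xs K x ∧ xc K n x' = era n (xs K x) (xc K n x) j ∧
              xl K n x' = xl K n x) := by
          rw [show ((iI x).eraseIdx j = iI x') ↔ _ from iIC_erase hn a1' b1' hj', and_assoc]
        by_cases hc : xs K x' + 1 = xs K x ∧ xc K n x' = era n (xs K x) (xc K n x) j ∧
              xl K n x' = xl K n x
        · rw [if_pos hc, if_pos (hiff.2 hc)]
          have hJ' : (iI x').toFinset = Jd n hn (xs K x) (xc K n x) j := by
            rw [← (hiff.2 hc).1]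
            exact iIC_erase_toFinset hn a1' j
          have hJ : (iI x).toFinset = Jd n hn (xs K x) (xc K n x) (xs K x) :=
            iIC_toFinset hn a1'
          have hneJd : (Jd n hn (xs K x) (xc K n x) j).Nonempty := by rw [← hJ']; exact hneJ'
          have hcdJd : (Jd n hn (xs K x) (xc K n x) (xs K x)).card ≤ K + 1 := by
            rw [← hJ]; exact hcdJ
          have hcdJd' : (Jd n hn (xs K x) (xc K n x) j).card ≤ K + 1 := by
            rw [← hJ']; exact hcdJ'
          have h1 := htR ⟨n, hn, a, xs K x, j, xc K n x, xl K n x, xb K n x, xb K n x',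
            by omega, hxs x, hj'.le, by omega, a4', b4'⟩
          have h2 : T.tR.getD (Nat.pair (Nat.pair j (xl K n x)) (Nat.pair
              (Nat.pair (xb K n x) (xb K n x')) (iinf K n p (xs K x) (xc K n x)))) 0 =
              ⌊(N₀ : ℚ) * D.mR (Jd n hn (xs K x) (xc K n x) (xs K x)).card
                (cls (G (Jd n hn (xs K x) (xc K n x) (xs K x)).card)
                  (resJ (Jd n hn (xs K x) (xc K n x) (xs K x)) (fun i => a i)))
                (Jd n hn (xs K x) (xc K n x) j).card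
                (posJ (Jd n hn (xs K x) (xc K n x) (xs K x)) (Jd n hn (xs K x) (xc K n x) j)
                  (Jd_sub n hn (xs K x) (xc K n x) j))
                (xl K n x) (xb K n x) (xb K n x')⌋ := h1
          rw [h2, Int.cast_mul, Int.cast_pow, Int.cast_neg, Int.cast_one,
            hfloor _ (hNR _ hcdJd _ _ hcdJd' _ _ _ _ (by omega) a4' b4'), hJ, hJ']
          rw [hSR _ _ (Jd_sub n hn (xs K x) (xc K n x) j) hneJd hcdJd]
          ring
        · rw [if_neg hc, if_neg (fun h' => hc (hiff.1 h'))]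
          simp
      · have hiff : (iI x' = iI x ∧ il x' + 1 = il x) ↔
            (xs K x' = xs K x ∧ xc K n x' = xc K n x ∧ xl K n x' + 1 = xl K n x) := by
          rw [show (iI x' = iI x) ↔ _ from iIC_eq hn a1' b1', and_assoc]
        by_cases hc : xs K x' = xs K x ∧ xc K n x' = xc K n x ∧ xl K n x' + 1 = xl K n x
        · rw [if_pos hc, if_pos (hiff.2 hc)]
          have hJ : (iI x).toFinset = Jd n hn (xs K x) (xc K n x) (xs K x) :=
            iIC_toFinset hn a1'
          have hcdJd : (Jd n hn (xs K x) (xc K n x) (xs K x)).card ≤ K + 1 := by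
            rw [← hJ]; exact hcdJ
          have hneJd : (Jd n hn (xs K x) (xc K n x) (xs K x)).Nonempty := by rw [← hJ]; exact hneJ
          have h1 := htA ⟨n, hn, a, xs K x, xs K x, xc K n x, xl K n x', xb K n x, xb K n x',
            by omega, hxs x, le_rfl, by omega, a4', b4'⟩
          have h2 : T.tA.getD (Nat.pair (xl K n x') (Nat.pair
              (Nat.pair (xb K n x) (xb K n x')) (iinf K n p (xs K x) (xc K n x)))) 0 =
              ⌊(N₀ : ℚ) * D.mA (Jd n hn (xs K x) (xc K n x) (xs K x)).card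
                (cls (G (Jd n hn (xs K x) (xc K n x) (xs K x)).card)
                  (resJ (Jd n hn (xs K x) (xc K n x) (xs K x)) (fun i => a i)))
                (xl K n x') (xb K n x) (xb K n x')⌋ := h1
          rw [h2, Int.cast_mul, Int.cast_pow, Int.cast_neg, Int.cast_one,
            hfloor _ (hNA _ hcdJd _ _ _ _ (by omega) a4' b4'), hJ]
          rw [hSA _ hneJd hcdJd]
          ring
        · rw [if_neg hc, if_neg (fun h' => hc (hiff.1 h'))]
          simp
    · have hv : ¬ (S.vld iI il ib (N + 1) x ∧ S.vld iI il ib N x') := fun hv =>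
        h ⟨(hV _ hN x).2 hv.1, (hV _ (by omega) x').2 hv.2⟩
      rw [if_neg h, if_neg hv]
      simp
  have hrank : ∀ N, N + 1 ≤ K + 2 →
      rankC K T n p N = (Matrix.of (S.ent iI il ib N)).rank := by
    intro N hN
    unfold rankC
    exact LowCode_rank (N₀ : ℚ) (by exact_mod_cast hN₀.ne') _ _ (fun x x' => hent N hN x x')
  have hfin := S.finrank_HT iI il ib
    (fun N x x' h1 _ h3 h4 h5 => Fin.ext (iIC_inj hn h1.1 h3 h4 h5))
    (fun I l b h1 h2 h3 h4 => by
      have hne : I.toFinset.Nonempty := by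
        rw [List.toFinset_nonempty_iff]
        intro h
        rw [h] at h1
        simp at h1
      have hI : I.length ≤ K + 1 := by omega
      have hcd : I.toFinset.card ≤ K + 1 := le_trans (List.toFinset_card_le I) hI
      have hb : b < T.bm := by
        rw [hSbe _ hne hcd] at h4
        exact h4.trans_le (hbm _ hcd _ l (by omega))
      obtain ⟨x, hx, e1, e2, e3⟩ := iIC_surj hn T I l b h1 (by omega) (by omega) hb
      exact ⟨⟨x, hx⟩, e1, e2, e3⟩)
    (N := q + 2) (by omega) (by omega)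
  have hq1 : q + 2 - 1 = q + 1 := by omega
  rw [hq1, ← hrank (q + 2) (by omega), ← hrank (q + 1) (by omega)] at hfin
  have hcount : ((range (nX K T n)).filter (validC K T n p (q + 2))).card =
      (Finset.univ.filter (S.vld iI il ib (q + 2))).card := by
    symm
    refine Finset.card_bij (fun x _ => (x : ℕ)) ?_ ?_ ?_
    · intro x hx
      rw [Finset.mem_filter] at hx ⊢
      exact ⟨Finset.mem_range.2 x.2, (hV _ (by omega) x).2 hx.2⟩
    · intro x _ x' _ h
      exact Fin.ext h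
    · intro x hx
      rw [Finset.mem_filter] at hx
      refine ⟨⟨x, Finset.mem_range.1 hx.1⟩, ?_, rfl⟩
      rw [Finset.mem_filter]
      exact ⟨Finset.mem_univ _, (hV _ (by omega) x).1 hx.2⟩
  unfold bC
  rw [hS0 q (by omega), hcount, ← hfin]
  omega

end BU
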