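import Pool.Agent.Work.MP_4030f5_lc.U.ChiCode
import Pool.Agent.Work.MP_4030f5_lc.U.LowCode

/-! # The tables -/

namespace BU

theorem tabs_exist (K m : ℕ) (E : (Fin m → ℝ) → (Fin (K + 1) → ℝ) → Prop)
    (hE : SA {z : Fin m ⊕ Fin (K + 1) → ℝ | E (fun i => z (Sum.inl i)) (fun i => z (Sum.inr i))}) :
    ∃ (H : List (Fm (Fin (K + 2) × Fin m))) (T : Tabs), ∀ n, 1 ≤ n → ∀ a : ℕ → Fin m → ℝ,
      (∀ i < n, IsCompact {p | E (a i) p}) →
        Cons K T n (pR H n a) ∧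
        Val K T n (pR H n a) =
          List.ofFn (fun q : Fin (K + 1) =>
            betti (⋃ i : Fin n, {p | E (a i) p} : Set (Fin (K + 1) → ℝ)) q) := by
  obtain ⟨H₁, L1, h1⟩ := chi_code K m E hE
  obtain ⟨H₂, h2⟩ := low_code K m E hE
  obtain ⟨cmp, ok, vl, vr, h1⟩ := h1 (H₁ ++ H₂) (List.subset_append_left _ _)
  obtain ⟨bm, bt, tR, tA, h2⟩ := h2 (H₁ ++ H₂) (List.subset_append_right _ _)
  refine ⟨H₁ ++ H₂, ⟨L1, cmp, ok, vl, vr, bm, bt, tR, tA⟩, fun n hn a ha => ?_⟩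
  set T : Tabs := ⟨L1, cmp, ok, vl, vr, bm, bt, tR, tA⟩ with hT
  obtain ⟨hc, hchi⟩ := h1 T rfl rfl rfl rfl rfl n hn a ha
  have hb := h2 T rfl rfl rfl rfl n hn a ha
  refine ⟨hc, ?_⟩
  set b : ℕ → ℕ := fun q => betti (⋃ i : Fin n, {p | E (a i) p} : Set (Fin (K + 1) → ℝ)) q
    with hbdef
  have htop : topC K T n (pR (H₁ ++ H₂) n a) = b K := by
    unfold topC
    rw [hchi, Finset.sum_range_succ]
    have e1 : ∑ q ∈ Finset.range K, (-1 : ℤ) ^ q * (bC K T n (pR (H₁ ++ H₂) n a) q : ℤ) =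
        ∑ q ∈ Finset.range K, (-1 : ℤ) ^ q * (b q : ℤ) :=
      Finset.sum_congr rfl fun q hq => by rw [hb q (Finset.mem_range.1 hq)]
    rw [e1, add_sub_cancel_left, ← mul_assoc, ← pow_add, ← two_mul, pow_mul]
    simp [b]
  unfold Val
  apply List.ext_getElem
  · simp
  · intro i h1 h2
    simp only [List.getElem_map, List.getElem_range, List.getElem_ofFn]
    split_ifs with hi
    · exact hb i hi
    · have : i = K := by
        simp only [List.length_map, List.length_range] at h1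
        omega
      subst this
      rw [htop]
      simp [b]

end BU
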