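import Pool.Agent.Work.MP_4030f5_lc.U.PrimCode

/-! # The matrix entries are primitive recursive

Compose `pc_iinf`, `pc_dig`, `pc_era`, `Primrec.list_getD`, `pl_sumZ`, `pl_int_mul`, `(-1) ^ j` (as a function of the
parity, or `Primrec.nat_rec`), `Primrec.ite`, `PrimrecPred.and`, `pl_ball`, `pl_imp`; powers `pl_pow`. -/

namespace BU

variable {α : Type} [Primcodable α]

theorem nX_primrec (K : ℕ) (T : Tabs) {n : α → ℕ} (hn : Primrec n) :
    Primrec fun a => nX K T (n a) := by
  unfold nX
  exact Primrec.nat_mul.comp (Primrec.nat_mul.comp (Primrec.nat_mul.comp (Primrec.const (K + 2))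
    (pl_pow.comp hn (Primrec.const (K + 1)))) (Primrec.const (K + 3))) (Primrec.const T.bm)

private theorem ep_xs (K : ℕ) {x : α → ℕ} (hx : Primrec x) : Primrec fun a => xs K (x a) := by
  unfold xs
  exact Primrec.nat_mod.comp hx (Primrec.const (K + 2))

private theorem ep_xc (K : ℕ) {n x : α → ℕ} (hn : Primrec n) (hx : Primrec x) :
    Primrec fun a => xc K (n a) (x a) := by
  unfold xc
  exact Primrec.nat_mod.comp (Primrec.nat_div.comp hx (Primrec.const (K + 2)))
    (pl_pow.comp hn (Primrec.const (K + 1)))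

private theorem ep_xl (K : ℕ) {n x : α → ℕ} (hn : Primrec n) (hx : Primrec x) :
    Primrec fun a => xl K (n a) (x a) := by
  unfold xl
  exact Primrec.nat_mod.comp (Primrec.nat_div.comp hx (Primrec.nat_mul.comp
    (Primrec.const (K + 2)) (pl_pow.comp hn (Primrec.const (K + 1))))) (Primrec.const (K + 3))

private theorem ep_xb (K : ℕ) {n x : α → ℕ} (hn : Primrec n) (hx : Primrec x) :
    Primrec fun a => xb K (n a) (x a) := by
  unfold xb
  exact Primrec.nat_div.comp hx (Primrec.nat_mul.comp (Primrec.nat_mul.comp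
    (Primrec.const (K + 2)) (pl_pow.comp hn (Primrec.const (K + 1)))) (Primrec.const (K + 3)))

private theorem ep_ii (K : ℕ) {n x : α → ℕ} {p : α → ℕ → ℕ} (hn : Primrec n) (hp : Primrec₂ p)
    (hx : Primrec x) : Primrec fun a => iinf K (n a) (p a) (xs K (x a)) (xc K (n a) (x a)) :=
  pc_iinf K hn hp (ep_xs K hx) (ep_xc K hn hx)

theorem validC_primrec (K : ℕ) (T : Tabs) {n N x : α → ℕ} {p : α → ℕ → ℕ} (hn : Primrec n)
    (hp : Primrec₂ p) (hN : Primrec N) (hx : Primrec x) :
    PrimrecPred fun a => validC K T (n a) (p a) (N a) (x a) := by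
  unfold validC
  have h1 := ep_xs K hx
  have h2 := ep_xc K hn hx
  have h3 := ep_xl K hn hx
  have h4 := ep_xb K hn hx
  have h5 := ep_ii K hn hp hx
  have hb : PrimrecRel fun (a : α) (t : ℕ) => xs K (x a) ≤ t → dig (n a) (xc K (n a) (x a)) t = 0 := by
    have g1 : PrimrecPred fun b : α × ℕ => xs K (x b.1) ≤ b.2 :=
      Primrec.nat_le.comp (h1.comp Primrec.fst) Primrec.snd
    have g2 : PrimrecPred fun b : α × ℕ => dig (n b.1) (xc K (n b.1) (x b.1)) b.2 = 0 :=
      Primrec.eq.comp (pc_dig (hn.comp Primrec.fst) (h2.comp Primrec.fst) Primrec.snd)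
        (Primrec.const 0)
    exact pl_imp g1 g2
  refine PrimrecPred.and (Primrec.nat_le.comp (Primrec.const 1) h1)
    (PrimrecPred.and (Primrec.nat_le.comp h1 (Primrec.const (K + 1)))
    (PrimrecPred.and (pl_ball (Primrec.const (K + 1)) hb)
    (PrimrecPred.and (Primrec.nat_le.comp (Primrec.const 1) h3)
    (PrimrecPred.and (Primrec.eq.comp (Primrec.nat_add.comp h1 h3) hN) ?_))))
  exact Primrec.nat_lt.comp h4 ((Primrec.list_getD 0).comp (Primrec.const T.bt)
    (Primrec₂.natPair.comp h3 h5))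

private theorem ep_sgn : Primrec fun j : ℕ => (-1 : ℤ) ^ j := by
  refine (Primrec.ite (c := fun j : ℕ => j % 2 = 0) (Primrec.eq.comp
    (Primrec.nat_mod.comp Primrec.id (Primrec.const 2)) (Primrec.const 0))
    (Primrec.const (1 : ℤ)) (Primrec.const (-1 : ℤ))).of_eq fun j => ?_
  split_ifs with h
  · exact (Even.neg_one_pow (Nat.even_iff.mpr h)).symm
  · exact (Odd.neg_one_pow (Nat.odd_iff.mpr (by omega))).symm

theorem entC_primrec (K : ℕ) (T : Tabs) {n N x x' : α → ℕ} {p : α → ℕ → ℕ} (hn : Primrec n)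
    (hp : Primrec₂ p) (hN : Primrec N) (hx : Primrec x) (hx' : Primrec x') :
    Primrec fun a => entC K T (n a) (p a) (N a) (x a) (x' a) := by
  unfold entC
  have v1 := validC_primrec K T hn hp (Primrec.succ.comp hN) hx
  have v2 := validC_primrec K T hn hp hN hx'
  have s1 := ep_xs K hx
  have s2 := ep_xs K hx'
  have c1 := ep_xc K hn hx
  have c2 := ep_xc K hn hx'
  have l1 := ep_xl K hn hx
  have l2 := ep_xl K hn hx'
  have b1 := ep_xb K hn hx
  have b2 := ep_xb K hn hx'
  have i1 := ep_ii K hn hp hx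
  refine Primrec.ite (PrimrecPred.and v1 v2) ?_ (Primrec.const 0)
  refine pl_int_add.comp ?_ ?_
  · have g : Primrec₂ fun (a : α) (j : ℕ) =>
        if xs K (x' a) + 1 = xs K (x a) ∧ xc K (n a) (x' a) =
            era (n a) (xs K (x a)) (xc K (n a) (x a)) j ∧ xl K (n a) (x' a) = xl K (n a) (x a) then
          (-1) ^ j * T.tR.getD (Nat.pair (Nat.pair j (xl K (n a) (x a))) (Nat.pair
            (Nat.pair (xb K (n a) (x a)) (xb K (n a) (x' a)))
            (iinf K (n a) (p a) (xs K (x a)) (xc K (n a) (x a))))) 0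
        else 0 := by
      unfold Primrec₂
      beta_reduce
      refine Primrec.ite ?_ ?_ (Primrec.const 0)
      · refine PrimrecPred.and ?_ (PrimrecPred.and ?_ ?_)
        · exact Primrec.eq.comp (Primrec.succ.comp (s2.comp Primrec.fst)) (s1.comp Primrec.fst)
        · exact Primrec.eq.comp (c2.comp Primrec.fst) (pc_era (hn.comp Primrec.fst)
            (s1.comp Primrec.fst) (c1.comp Primrec.fst) Primrec.snd)
        · exact Primrec.eq.comp (l2.comp Primrec.fst) (l1.comp Primrec.fst)
      · refine pl_int_mul.comp (ep_sgn.comp Primrec.snd) ?_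
        exact (Primrec.list_getD (0 : ℤ)).comp (Primrec.const T.tR) (Primrec₂.natPair.comp
          (Primrec₂.natPair.comp Primrec.snd (l1.comp Primrec.fst))
          (Primrec₂.natPair.comp (Primrec₂.natPair.comp (b1.comp Primrec.fst)
            (b2.comp Primrec.fst)) (i1.comp Primrec.fst)))
    exact pl_sumZ s1 g
  · refine Primrec.ite ?_ ?_ (Primrec.const 0)
    · refine PrimrecPred.and ?_ (PrimrecPred.and ?_ ?_)
      · exact Primrec.eq.comp s2 s1
      · exact Primrec.eq.comp c2 c1
      · exact Primrec.eq.comp (Primrec.succ.comp l2) l1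
    · refine pl_int_mul.comp (ep_sgn.comp s1) ?_
      exact (Primrec.list_getD (0 : ℤ)).comp (Primrec.const T.tA) (Primrec₂.natPair.comp l2
        (Primrec₂.natPair.comp (Primrec₂.natPair.comp b1 b2) i1))

end BU
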