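import Pool.Agent.Work.MP_4030f5_lc.U.RankComp
import Pool.Agent.Work.MP_4030f5_lc.U.ChiPrim
import Pool.Agent.Work.MP_4030f5_lc.U.EntPrim

/-! # The formula is computable

`Val` is a list of constant length `K + 1`: induct on the length of a constant list, or use
`Computable.list_ofFn`-like lemmas. Finite sums over `range K` with constant `K`: induction on `K`. -/

namespace BU

private theorem vp_rank {α : Type} [Primcodable α] (K : ℕ) (T : Tabs) {n : α → ℕ}
    {p : α → ℕ → ℕ} (hn : Primrec n) (hp : Primrec₂ p) (N : ℕ) :
    Computable fun a => rankC K T (n a) (p a) N := by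
  have h1 : Primrec fun z : (α × ℕ) × ℕ => entC K T (n z.1.1) (p z.1.1) N z.1.2 z.2 := by
    have hn' : Primrec fun z : (α × ℕ) × ℕ => n z.1.1 := hn.comp (Primrec.fst.comp Primrec.fst)
    have hp' : Primrec₂ fun (z : (α × ℕ) × ℕ) (q : ℕ) => p z.1.1 q :=
      (hp.comp (Primrec.fst.comp (Primrec.fst.comp Primrec.fst)) Primrec.snd).to₂
    exact entC_primrec K T hn' hp' (Primrec.const N) (Primrec.snd.comp Primrec.fst) Primrec.snd
  exact rank_computable (X := fun a => nX K T (n a))
    (ent := fun a i j => entC K T (n a) (p a) N i j) (nX_primrec K T hn) h1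

private theorem vp_bC {α : Type} [Primcodable α] (K : ℕ) (T : Tabs) {n : α → ℕ}
    {p : α → ℕ → ℕ} (hn : Primrec n) (hp : Primrec₂ p) (q : ℕ) :
    Computable fun a => bC K T (n a) (p a) q := by
  classical
  have h1 : Primrec fun a => ((Finset.range (nX K T (n a))).filter
      (validC K T (n a) (p a) (q + 2))).card := by
    have hp' : Primrec₂ fun (b : α × ℕ) (r : ℕ) => p b.1 r :=
      (hp.comp (Primrec.fst.comp Primrec.fst) Primrec.snd).to₂
    have g : PrimrecRel fun (a : α) (x : ℕ) => validC K T (n a) (p a) (q + 2) x :=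
      validC_primrec K T (hn.comp Primrec.fst) hp' (Primrec.const (q + 2)) Primrec.snd
    refine (pl_count (nX_primrec K T hn) g).of_eq fun a => ?_
    congr 1
    ext x
    simp only [Finset.mem_filter]
  unfold bC
  exact Primrec.nat_sub.to_comp.comp (Primrec.nat_sub.to_comp.comp h1.to_comp
    (vp_rank K T hn hp (q + 2))) (vp_rank K T hn hp (q + 1))

private theorem vp_sum {α : Type} [Primcodable α] {f : α → ℕ → ℤ}
    (hf : ∀ q, Computable fun a => f a q) (K : ℕ) :
    Computable fun a => ∑ q ∈ Finset.range K, f a q := by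
  induction K with
  | zero => simpa using Computable.const (0 : ℤ)
  | succ K ih =>
    refine (pl_int_add.to_comp.comp ih (hf K)).of_eq fun a => ?_
    rw [Finset.sum_range_succ]

private theorem vp_list {α : Type} [Primcodable α] {f : α → ℕ → ℕ}
    (hf : ∀ q, Computable fun a => f a q) (l : List ℕ) :
    Computable fun a => l.map (f a) := by
  induction l with
  | nil => simpa using Computable.const ([] : List ℕ)
  | cons q l ih => exact Primrec.list_cons.to_comp.comp (hf q) ih

theorem Val_computable {α : Type} [Primcodable α] (K : ℕ) (T : Tabs) {n : α → ℕ} {p : α → ℕ → ℕ}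
    (hn : Primrec n) (hp : Primrec₂ p) : Computable fun a => Val K T (n a) (p a) := by
  have hb := vp_bC K T hn hp
  have htop : Computable fun a => topC K T (n a) (p a) := by
    unfold topC
    have h1 : ∀ q, Computable fun a => (-1 : ℤ) ^ q * (bC K T (n a) (p a) q : ℤ) := fun q =>
      pl_int_mul.to_comp.comp (Computable.const _) (pl_int_cast.to_comp.comp (hb q))
    exact pl_int_mul.to_comp.comp (Computable.const _)
      (pl_int_sub.to_comp.comp (chiC_primrec K T hn hp).to_comp (vp_sum h1 K))
  unfold Val
  apply vp_list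
  intro q
  by_cases hq : q < K
  · simpa only [if_pos hq] using hb q
  · simpa only [if_neg hq] using pl_toNat.to_comp.comp htop

end BU
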