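import Pool.Agent.Work.MP_4030f5_lc.U.Tree
import Pool.Agent.Work.MP_4030f5_lc.U.Search
import Pool.Agent.Work.MP_4030f5_lc.U.Grid
import Pool.Agent.Work.MP_4030f5_lc.U.GridPrim
import Pool.Agent.Work.MP_4030f5_lc.U.ValPrim
import Pool.Agent.Work.MP_4030f5_lc.U.TabsEx

namespace BU

theorem core_uniform (K m : ℕ) (hK : 1 ≤ K) (E : (Fin m → ℝ) → (Fin (K + 1) → ℝ) → Prop)
    (hE : SA {z : Fin m ⊕ Fin (K + 1) → ℝ | E (fun i => z (Sum.inl i)) (fun i => z (Sum.inr i))}) :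
    ∃ (H : List (Fm (Fin (K + 2) × Fin m))) (C : ℕ) (next : ℕ × List ℕ → ℕ ⊕ List ℕ),
      Computable next ∧ ∀ n, 1 ≤ n → ∀ a : ℕ → Fin m → ℝ, (∀ i < n, IsCompact {p | E (a i) p}) →
        runQ (fun h => next (n, h)) (pR H n a) (C * n ^ (K + 1)) [] =
          some (List.ofFn (fun q : Fin (K + 1) =>
            betti (⋃ i : Fin n, {p | E (a i) p} : Set (Fin (K + 1) → ℝ)) q)) := by
  obtain ⟨H, T, hT⟩ := tabs_exist K m E hE
  obtain ⟨C, hC⟩ := tree_exists K m hK H T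
  obtain ⟨Bf, hBf, hgrid⟩ := real_to_grid H
  have hpow : Primrec₂ fun x y : ℕ => x ^ y := Primrec₂.unpaired'.1 Nat.Primrec.pow
  have hBd : Primrec fun n => (2 * Bf n + 1) ^ (n * m + 2) :=
    hpow.comp (Primrec.succ.comp (Primrec.nat_mul.comp (Primrec.const 2) hBf))
      (Primrec.succ.comp (Primrec.succ.comp (Primrec.nat_mul.comp Primrec.id (Primrec.const m))))
  have hLf : Primrec fun n => C * n ^ (K + 1) :=
    Primrec.nat_mul.comp (Primrec.const C) (hpow.comp Primrec.id (Primrec.const (K + 1)))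
  have hP : Primrec fun z : (ℕ × ℕ) × ℕ => pW H z.1.1 (Bf z.1.1) z.1.2 z.2 :=
    pW_primrec H (Primrec.fst.comp Primrec.fst) (hBf.comp (Primrec.fst.comp Primrec.fst))
      (Primrec.snd.comp Primrec.fst) Primrec.snd
  obtain ⟨next, hnext, hrun⟩ := search (P := fun n w q => pW H n (Bf n) w q)
    (Bd := fun n => (2 * Bf n + 1) ^ (n * m + 2)) (Lf := fun n => C * n ^ (K + 1))
    (good := fun n w => Cons K T n (pW H n (Bf n) w))
    (val := fun n w => Val K T n (pW H n (Bf n) w)) hP hBd hLf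
    (Cons_primrec K T Primrec.fst hP.to₂) (Val_computable K T Primrec.fst hP.to₂)
    (fun n hn => by
      obtain ⟨s, hs⟩ := hC n hn
      exact ⟨s, fun w _ hw => hs _ _ hw⟩)
  refine ⟨H, C, next, hnext, fun n hn a ha => ?_⟩
  obtain ⟨w, hw, hpw⟩ := hgrid n hn a
  have hfun : pR H n a = pW H n (Bf n) w := funext hpw
  obtain ⟨h1, h2⟩ := hT n hn a ha
  rw [← h2]
  rw [hfun] at h1 ⊢
  exact hrun n hn w hw h1

end BU
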