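import Pool.Agent.Work.MP_4030f5_lc.U.Defs

/-! # Low Betti numbers by finite matrices: definitions -/

namespace BU

open Finset

/-- functions on lists that vanish on all sufficiently small lists of length `l` of points of
`X`. -/
def ZS {M : Type} [PseudoMetricSpace M] (X : Set M) (l : ℕ) : Submodule ℚ (List M → ℚ) where
  carrier := {f | Z X (fun τ => if τ.length = l then f τ else 0)}
  add_mem' := by
    rintro f g ⟨η, hη, h⟩ ⟨η', hη', h'⟩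
    refine ⟨min η η', lt_min hη hη', fun τ h1 h2 => ?_⟩
    have e1 := h τ h1 (fun x hx y hy => (h2 x hx y hy).trans_le (min_le_left _ _))
    have e2 := h' τ h1 (fun x hx y hy => (h2 x hx y hy).trans_le (min_le_right _ _))
    simp only at e1 e2 ⊢
    split_ifs at e1 e2 ⊢
    · rw [Pi.add_apply, e1, e2, add_zero]
    · rfl
  zero_mem' := ⟨1, one_pos, fun τ _ _ => by simp⟩
  smul_mem' := by
    rintro c f ⟨η, hη, h⟩
    refine ⟨η, hη, fun τ h1 h2 => ?_⟩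
    have e1 := h τ h1 h2
    simp only at e1 ⊢
    split_ifs at e1 ⊢
    · rw [Pi.smul_apply, e1, smul_zero]
    · rfl

section types

variable {k m : ℕ}

/-- all fibres over the tuple `y` are compact. -/
def GoodP (E : (Fin m → ℝ) → (Fin k → ℝ) → Prop) {r : ℕ} (y : Fin r × Fin m → ℝ) : Prop :=
  ∀ j, IsCompact {p | E (fun i => y (j, i)) p}

/-- the property of the families of `types_exist`. -/
def TypesOK (E : (Fin m → ℝ) → (Fin k → ℝ) → Prop)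
    (G : (r : ℕ) → List (Fm (Fin r × Fin m))) : Prop :=
  ∀ (r : ℕ) (x : Fin r × Fin m → ℝ), (∀ j, IsCompact {p | E (fun i => x (j, i)) p}) →
    (∃ d : ℕ, Nonempty ((Fin d → ℝ) ≃ₜ cls (G r) x)) ∧
    (∀ y ∈ cls (G r) x, ∀ j, IsCompact {p | E (fun i => y (j, i)) p}) ∧
    Cyl k (cls (G r) x) (fun b p => ∀ j, E (fun i => (b : Fin r × Fin m → ℝ) (j, i)) p) ∧
    (0 < r → ∀ C ⊆ cls (G r) x, IsCompact C →
      IsCompact {p : (Fin r × Fin m → ℝ) × (Fin k → ℝ) |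
        p.1 ∈ C ∧ ∀ j, E (fun i => p.1 (j, i)) p.2}) ∧
    (∀ (r' : ℕ) (ι : Fin r' → Fin r), StrictMono ι → ∀ y ∈ cls (G r) x,
      (fun z : Fin r' × Fin m => y (ι z.1, z.2)) ∈
        cls (G r') (fun z : Fin r' × Fin m => x (ι z.1, z.2)))

/-- compatible compact balls `Cc r W` in the classes `W` of `r`-tuples, `r ≤ k`. -/
def BallsOK (E : (Fin m → ℝ) → (Fin k → ℝ) → Prop) (G : (r : ℕ) → List (Fm (Fin r × Fin m)))
    (Cc : (r : ℕ) → Set (Fin r × Fin m → ℝ) → Set (Fin r × Fin m → ℝ)) : Prop :=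
  ∀ r ≤ k, ∀ y : Fin r × Fin m → ℝ, GoodP E y →
    (∃ (d : ℕ) (e : (Fin d → ℝ) ≃ₜ cls (G r) y) (R : ℝ), 0 ≤ R ∧
      Cc r (cls (G r) y) = (fun u => (e u : Fin r × Fin m → ℝ)) '' Metric.closedBall 0 R) ∧
    ∀ (r' : ℕ) (ι : Fin r' → Fin r), StrictMono ι → ∀ y' ∈ Cc r (cls (G r) y),
      (fun z : Fin r' × Fin m => y' (ι z.1, z.2)) ∈
        Cc r' (cls (G r') (fun z : Fin r' × Fin m => y (ι z.1, z.2)))

/-- total space over a set `S` of `r`-tuples. -/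
def EW (E : (Fin m → ℝ) → (Fin k → ℝ) → Prop) {r : ℕ} (S : Set (Fin r × Fin m → ℝ)) :
    Set ((Fin r × Fin m → ℝ) × (Fin k → ℝ)) :=
  {p | p.1 ∈ S ∧ ∀ j, E (fun i => p.1 (j, i)) p.2}

/-- restriction to a subtuple. -/
def resI {r' r : ℕ} (ι : Fin r' → Fin r) (p : (Fin r × Fin m → ℝ) × (Fin k → ℝ)) :
    (Fin r' × Fin m → ℝ) × (Fin k → ℝ) := (fun z => p.1 (ι z.1, z.2), p.2)

/-- the subtuple with indices in `J`, in increasing order. -/
def resJ {n : ℕ} (J : Finset (Fin n)) (b : Fin n → Fin m → ℝ) : Fin J.card × Fin m → ℝ :=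
  fun z => b (J.orderEmbOfFin rfl z.1) z.2

/-- projection to the total space of subtuples. -/
def piJ {n : ℕ} (J : Finset (Fin n)) (p : (Fin n → Fin m → ℝ) × (Fin k → ℝ)) :
    (Fin J.card × Fin m → ℝ) × (Fin k → ℝ) := (resJ J p.1, p.2)

variable (k m)

/-- a finite model of the cochains over all types of `r`-tuples, `1 ≤ r ≤ k`: dimensions, basis
functions, matrices of the coboundary and of the restrictions. -/
structure Model where
  be : (r : ℕ) → Set (Fin r × Fin m → ℝ) → ℕ → ℕ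
  ph : (r : ℕ) → Set (Fin r × Fin m → ℝ) → ℕ → ℕ →
    List ((Fin r × Fin m → ℝ) × (Fin k → ℝ)) → ℚ
  mA : (r : ℕ) → Set (Fin r × Fin m → ℝ) → ℕ → ℕ → ℕ → ℚ
  mR : (r : ℕ) → Set (Fin r × Fin m → ℝ) → (r' : ℕ) → (Fin r' → Fin r) → ℕ → ℕ → ℕ → ℚ

variable {k m}

/-- the properties of the model. -/
def Model.OK (D : Model k m) (E : (Fin m → ℝ) → (Fin k → ℝ) → Prop)
    (G : (r : ℕ) → List (Fm (Fin r × Fin m)))
    (Cc : (r : ℕ) → Set (Fin r × Fin m → ℝ) → Set (Fin r × Fin m → ℝ)) : Prop :=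
  ∀ r, 1 ≤ r → r ≤ k → ∀ y : Fin r × Fin m → ℝ, GoodP E y →
    (∀ l b, D.ph r (cls (G r) y) l b [] = 0) ∧
    (∀ (l : ℕ) (c : ℕ → ℚ),
      (fun τ => ∑ b ∈ range (D.be r (cls (G r) y) l), c b * D.ph r (cls (G r) y) l b τ) ∈
        ZS (EW E (Cc r (cls (G r) y))) l → ∀ b < D.be r (cls (G r) y) l, c b = 0) ∧
    (∀ l, 1 ≤ l → ∀ b' < D.be r (cls (G r) y) l,
      (fun τ => BU.D (D.ph r (cls (G r) y) l b') τ -
        ∑ b ∈ range (D.be r (cls (G r) y) (l + 1)),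
          D.mA r (cls (G r) y) l b b' * D.ph r (cls (G r) y) (l + 1) b τ) ∈
        ZS (EW E (Cc r (cls (G r) y))) (l + 1)) ∧
    (∀ (r' : ℕ) (ι : Fin r' → Fin r), 1 ≤ r' → StrictMono ι → ∀ l, 1 ≤ l →
      ∀ b' < D.be r' (cls (G r') (fun z => y (ι z.1, z.2))) l,
      (fun τ => D.ph r' (cls (G r') (fun z => y (ι z.1, z.2))) l b' (τ.map (resI ι)) -
        ∑ b ∈ range (D.be r (cls (G r) y) l),
          D.mR r (cls (G r) y) r' ι l b b' * D.ph r (cls (G r) y) l b τ) ∈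
        ZS (EW E (Cc r (cls (G r) y))) l) ∧
    (∀ l, 1 ≤ l → l ≤ k → ∀ f : List ((Fin r × Fin m → ℝ) × (Fin k → ℝ)) → ℚ, f [] = 0 →
      (∃ c : ℕ → ℚ, (fun τ => BU.D f τ - ∑ b ∈ range (D.be r (cls (G r) y) (l + 1)),
        c b * D.ph r (cls (G r) y) (l + 1) b τ) ∈ ZS (EW E (Cc r (cls (G r) y))) (l + 1)) →
      ∃ (g : List ((Fin r × Fin m → ℝ) × (Fin k → ℝ)) → ℚ) (c : ℕ → ℚ), g [] = 0 ∧
        (fun τ => f τ - BU.D g τ - ∑ b ∈ range (D.be r (cls (G r) y) l),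
          c b * D.ph r (cls (G r) y) l b τ) ∈ ZS (EW E (Cc r (cls (G r) y))) l)

end types

/-- a finite model of a system of sets indexed by the finite subsets of `Fin n`. -/
structure FinSys (k n : ℕ) (M : Type) [MetricSpace M] (𝓔 : Finset (Fin n) → Set M) where
  be : Finset (Fin n) → ℕ → ℕ
  ps : Finset (Fin n) → ℕ → ℕ → List M → ℚ
  mA : Finset (Fin n) → ℕ → ℕ → ℕ → ℚ
  mR : Finset (Fin n) → Finset (Fin n) → ℕ → ℕ → ℕ → ℚ
  anti : ∀ J J', J ⊆ J' → 𝓔 J' ⊆ 𝓔 J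
  nil : ∀ J l b, ps J l b [] = 0
  indep : ∀ J : Finset (Fin n), J.Nonempty → J.card ≤ k → ∀ (l : ℕ) (c : ℕ → ℚ),
    (fun τ => ∑ b ∈ range (be J l), c b * ps J l b τ) ∈ ZS (𝓔 J) l → ∀ b < be J l, c b = 0
  dA : ∀ J : Finset (Fin n), J.Nonempty → J.card ≤ k → ∀ l, 1 ≤ l → ∀ b' < be J l,
    (fun τ => D (ps J l b') τ - ∑ b ∈ range (be J (l + 1)), mA J l b b' * ps J (l + 1) b τ) ∈
      ZS (𝓔 J) (l + 1)
  rR : ∀ J J' : Finset (Fin n), J' ⊆ J → J'.Nonempty → J.card ≤ k → ∀ l, 1 ≤ l →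
    ∀ b' < be J' l,
    (fun τ => ps J' l b' τ - ∑ b ∈ range (be J l), mR J J' l b b' * ps J l b τ) ∈ ZS (𝓔 J) l
  acyc : ∀ J : Finset (Fin n), J.Nonempty → J.card ≤ k → ∀ l, 1 ≤ l → l ≤ k →
    ∀ f : List M → ℚ, f [] = 0 →
    (∃ c : ℕ → ℚ, (fun τ => D f τ - ∑ b ∈ range (be J (l + 1)), c b * ps J (l + 1) b τ) ∈
      ZS (𝓔 J) (l + 1)) →
    ∃ (g : List M → ℚ) (c : ℕ → ℚ), g [] = 0 ∧
      (fun τ => f τ - D g τ - ∑ b ∈ range (be J l), c b * ps J l b τ) ∈ ZS (𝓔 J) l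

namespace FinSys

variable {k n : ℕ} {M : Type} [MetricSpace M] {𝓔 : Finset (Fin n) → Set M}
  (S : FinSys k n M 𝓔) {X : Type} (iI : X → List (Fin n)) (il ib : X → ℕ)

/-- the index `x` stands for a basis element of degree `N`. -/
def vld (N : ℕ) (x : X) : Prop :=
  1 ≤ (iI x).length ∧ 1 ≤ il x ∧ (iI x).length + il x = N ∧ ib x < S.be (iI x).toFinset (il x)

open Classical in
/-- matrix of the differential from degree `N` to degree `N + 1`. -/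
noncomputable def ent (N : ℕ) (x x' : X) : ℚ :=
  if S.vld iI il ib (N + 1) x ∧ S.vld iI il ib N x' then
    (∑ j ∈ range (iI x).length, if (iI x).eraseIdx j = iI x' ∧ il x' = il x then
      (-1) ^ j * S.mR (iI x).toFinset (iI x').toFinset (il x) (ib x) (ib x') else 0) +
    (if iI x' = iI x ∧ il x' + 1 = il x then
      (-1) ^ (iI x).length * S.mA (iI x).toFinset (il x') (ib x) (ib x') else 0)
  else 0

end FinSys

end BU
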