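import Pool.Agent.Work.MP_4030f5_lc.U.Stmt
import Pool.Agent.Work.MP_4030f5_lc.F5

/-! # Uniform version: internal definitions

`K + 1 = k` is the dimension, a query is (the code of) a tuple of `K + 2 = k + 1` indices `< n`, the
answer is (the code of) the sign vector of a fixed finite list `H` of expressions at the
corresponding `k + 1` parameter points. -/

namespace BU

open Finset

/-! ## codes -/

/-- digit number `t` of `c` in base `b`. -/
def dig (b c t : ℕ) : ℕ := c / b ^ t % b

/-- the number with digits `f 0, ..., f (K - 1)` in base `b`. -/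
def undig (b K : ℕ) (f : ℕ → ℕ) : ℕ := ∑ t ∈ range K, f t * b ^ t

/-- comparison code. -/
def c3 (x y : ℕ) : ℕ := if x < y then 0 else if x = y then 1 else 2

/-- the order pattern of `f 0, ..., f (K - 1)`. -/
def pat (K : ℕ) (f : ℕ → ℕ) : ℕ := undig 3 (K * K) (fun z => c3 (f (z / K)) (f (z % K)))

/-- pattern and answer for the tuple `f 0, ..., f (K - 1)` of numbers `< n`. -/
def inf (n K : ℕ) (p : ℕ → ℕ) (f : ℕ → ℕ) : ℕ := Nat.pair (pat K f) (p (undig n K f))

/-! ## strategies -/

/-- run a query strategy: `s` maps the list of answers so far to the next query or the output. -/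
def runQ (s : List ℕ → ℕ ⊕ List ℕ) (p : ℕ → ℕ) : ℕ → List ℕ → Option (List ℕ)
  | 0, h =>
    match s h with
    | .inl _ => none
    | .inr o => some o
  | t + 1, h =>
    match s h with
    | .inl q => runQ s p t (h ++ [p q])
    | .inr o => some o

/-! ## answers -/

section answers

variable {σ : Type}

/-- code of the sign vector of a list of expressions. -/
noncomputable def svc : List (Fm σ) → (σ → ℝ) → ℕ
  | [], _ => 0
  | e :: H, y => sgnCode (e.eval y) + 3 * svc H y

/-- sign with threshold. -/
noncomputable def thrCode (v ε : ℝ) : ℕ := if v < -ε then 0 else if ε < v then 2 else 1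

/-- code of the vector of the signs with threshold. -/
noncomputable def tvc : List (Fm σ) → (σ → ℝ) → ℝ → ℕ
  | [], _, _ => 0
  | e :: H, y, ε => thrCode (e.eval y) ε + 3 * tvc H y ε

variable {N m : ℕ}

/-- answers of the real input `a`. -/
noncomputable def pR (H : List (Fm (Fin N × Fin m))) (n : ℕ) (a : ℕ → Fin m → ℝ) (q : ℕ) : ℕ :=
  svc H (fun z => a (dig n q z.1) z.2)

/-- answers of the real input `y` with threshold `ε`. -/
noncomputable def pT (H : List (Fm (Fin N × Fin m))) (n : ℕ) (y : ℕ → Fin m → ℝ) (ε : ℝ)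
    (q : ℕ) : ℕ :=
  tvc H (fun z => y (dig n q z.1) z.2) ε

/-- integer digits of a world. -/
def gz (B w t : ℕ) : ℤ := (dig (2 * B + 1) w t : ℤ) - B

/-- denominator of a world. -/
def gQ (B w t : ℕ) : ℕ := dig (2 * B + 1) w t + 1

/-- answers of the rational world number `w`. -/
noncomputable def pW (H : List (Fm (Fin N × Fin m))) (n B w q : ℕ) : ℕ :=
  pT H n (fun i j => (gz B w (i * m + j) : ℝ) / gQ B w (n * m + 1))
    ((gz B w (n * m) : ℝ) / gQ B w (n * m + 1)) q

end answers

/-! ## the formula for the Betti numbers -/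

/-- finite tables of constants. -/
structure Tabs where
  /-- `L = L1 + 1` bounds the number of break points. -/
  L1 : ℕ
  cmp : List ℕ
  ok : List ℕ
  vl : List ℤ
  vr : List ℤ
  /-- bound for the entries of `bt`. -/
  bm : ℕ
  bt : List ℕ
  tR : List ℤ
  tA : List ℤ

def Tabs.L (T : Tabs) : ℕ := T.L1 + 1

section formula

variable (K : ℕ) (T : Tabs) (n : ℕ) (p : ℕ → ℕ)

/-- the slots of `(κ, u, v)`: `K` digits of `κ`, then `u`, then `v`. -/
def slot (U κ u v t : ℕ) : ℕ := if t < K then dig U κ t else if t = K then u else v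

/-- code of the flags (0: no item) and of the break point numbers of the slots. -/
def flc (L : ℕ) (s : ℕ → ℕ) : ℕ := undig (2 * L) (K + 2) (fun t => min 1 (s t / L) * L + s t % L)

/-- information about the items in the slots. -/
def rinf (L : ℕ) (s : ℕ → ℕ) : ℕ := Nat.pair (flc K L s) (inf n (K + 2) p (fun t => s t / L - 1))

/-- number of steps. -/
def nU : ℕ := (n + 1) * T.L

/-- comparison of the break points `u` and `v` in row `κ`. -/
def cmpC (κ u v : ℕ) : ℕ := T.cmp.getD (rinf K n p T.L (slot K (nU T n) κ u v)) 0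

/-- does the break point `u` exist in row `κ`? -/
def okC (κ u : ℕ) : ℕ := T.ok.getD (rinf K n p T.L (slot K (nU T n) κ u u)) 0

/-- value of function number `o` of row `κ` at the break point `u`. -/
def vC (tab : List ℤ) (κ u o : ℕ) : ℤ :=
  tab.getD (Nat.pair (undig 3 T.L (fun α => cmpC K T n p κ u (o * T.L + α)))
    (rinf K n p T.L (slot K (nU T n) κ (o * T.L) (o * T.L)))) 0

/-- the Euler characteristic. -/
def chiC : ℤ :=
  -∑ κ ∈ range (nU T n ^ K), ∑ u ∈ range (nU T n),
    if okC K T n p κ u = 1 ∧ ∀ u' < u, cmpC K T n p κ u' u ≠ 1 then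
      (∏ o ∈ range (n + 1), vC K T n p T.vl κ u o) - ∏ o ∈ range (n + 1), vC K T n p T.vr κ u o
    else 0

/-- rank of `u` in row `κ`. -/
def rkC (κ u : ℕ) : ℕ := ((range (nU T n)).filter (fun v => cmpC K T n p κ v u = 0)).card

/-- the comparison tables of all rows are total preorders. -/
def Cons : Prop :=
  ∀ κ < nU T n ^ K, ∀ u < nU T n, ∀ v < nU T n,
    cmpC K T n p κ u v = c3 (rkC K T n p κ u) (rkC K T n p κ v)

/-- the parts of an index `x`: length of the list of indices, the list, list length, number of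
the basis element. -/
def xs (x : ℕ) : ℕ := x % (K + 2)
def xc (x : ℕ) : ℕ := x / (K + 2) % n ^ (K + 1)
def xl (x : ℕ) : ℕ := x / ((K + 2) * n ^ (K + 1)) % (K + 3)
def xb (x : ℕ) : ℕ := x / ((K + 2) * n ^ (K + 1) * (K + 3))

/-- number of indices. -/
def nX : ℕ := (K + 2) * n ^ (K + 1) * (K + 3) * T.bm

/-- information about the list of the first `s` digits of `c`. -/
def iinf (s c : ℕ) : ℕ := Nat.pair s (inf n (K + 2) p (fun t => dig n c (min t (s - 1))))

/-- validity of an index of degree `N`. -/
def validC (N x : ℕ) : Prop :=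
  1 ≤ xs K x ∧ xs K x ≤ K + 1 ∧ (∀ t < K + 1, xs K x ≤ t → dig n (xc K n x) t = 0) ∧
    1 ≤ xl K n x ∧ xs K x + xl K n x = N ∧
    xb K n x < T.bt.getD (Nat.pair (xl K n x) (iinf K n p (xs K x) (xc K n x))) 0

instance (N x : ℕ) : Decidable (validC K T n p N x) := by
  unfold validC; infer_instance

/-- erase entry number `j` of the list. -/
def era (s c j : ℕ) : ℕ := undig n (s - 1) (fun t => dig n c (if t < j then t else t + 1))

/-- matrix entries (scaled to integers). -/
def entC (N x x' : ℕ) : ℤ :=
  if validC K T n p (N + 1) x ∧ validC K T n p N x' then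
    (∑ j ∈ range (xs K x),
      if xs K x' + 1 = xs K x ∧ xc K n x' = era n (xs K x) (xc K n x) j ∧ xl K n x' = xl K n x then
        (-1) ^ j * T.tR.getD (Nat.pair (Nat.pair j (xl K n x)) (Nat.pair
          (Nat.pair (xb K n x) (xb K n x')) (iinf K n p (xs K x) (xc K n x)))) 0
      else 0) +
    (if xs K x' = xs K x ∧ xc K n x' = xc K n x ∧ xl K n x' + 1 = xl K n x then
        (-1) ^ (xs K x) * T.tA.getD (Nat.pair (xl K n x') (Nat.pair
          (Nat.pair (xb K n x) (xb K n x')) (iinf K n p (xs K x) (xc K n x)))) 0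
      else 0)
  else 0

/-- rank of the matrix. -/
noncomputable def rankC (N : ℕ) : ℕ :=
  (Matrix.of fun (i j : Fin (nX K T n)) => ((entC K T n p N i j : ℤ) : ℚ)).rank

/-- the low Betti numbers. -/
noncomputable def bC (q : ℕ) : ℕ :=
  ((range (nX K T n)).filter (validC K T n p (q + 2))).card - rankC K T n p (q + 2) -
    rankC K T n p (q + 1)

/-- the last Betti number. -/
noncomputable def topC : ℤ :=
  (-1) ^ K * (chiC K T n p - ∑ q ∈ range K, (-1) ^ q * (bC K T n p q : ℤ))

/-- all Betti numbers. -/
noncomputable def Val : List ℕ :=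
  (List.range (K + 1)).map (fun q => if q < K then bC K T n p q else (topC K T n p).toNat)

end formula

end BU
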