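import Pool.Agent.Work.MP_4030f5_lc.U.CpDefs

/-! # Finite cohomology of the total spaces over the balls

`EW E (Cc r W)` is compact; by `Cyl.acyc_set` (base the ball, acyclic relative to a point `y₀` by
`Acyc.convex` and `Acyc.image`) it is acyclic relative to the fibre over `y₀`, which is the image of
the compact set `{p | ∀ j, E (y₀ j) p}`; this set is cylindrical (`Cyl.pullback` to `Unit`), so
`cyl_fincoh`, `HL_image`, `HL_of_acyc`. -/

namespace BU

theorem finite_EW {k m : ℕ} (E : (Fin m → ℝ) → (Fin k → ℝ) → Prop)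
    (G : (r : ℕ) → List (Fm (Fin r × Fin m))) (hG : TypesOK E G)
    (Cc : (r : ℕ) → Set (Fin r × Fin m → ℝ) → Set (Fin r × Fin m → ℝ)) (hC : BallsOK E G Cc)
    (r : ℕ) (h1 : 1 ≤ r) (hr : r ≤ k) (y : Fin r × Fin m → ℝ) (hy : GoodP E y) (q : ℕ) :
    Module.Finite ℚ (HL (EW E (Cc r (cls (G r) y))) (q + 1)) := by
  obtain ⟨⟨d, e, R, hR, hCe⟩, -⟩ := hC r hr y hy
  obtain ⟨-, hgood, hcyl, hcpt, -⟩ := hG r y hy
  set C : Set (Fin r × Fin m → ℝ) := Cc r (cls (G r) y) with hCdef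
  have hφ : Continuous (fun u => (e u : Fin r × Fin m → ℝ)) :=
    continuous_subtype_val.comp e.continuous
  have hφi : Function.Injective (fun u => (e u : Fin r × Fin m → ℝ)) :=
    Subtype.val_injective.comp e.injective
  have hCc : IsCompact C := by
    rw [hCe]
    exact (isCompact_closedBall _ _).image hφ
  have hCW : C ⊆ cls (G r) y := by
    rw [hCe]
    rintro _ ⟨u, -, rfl⟩
    exact (e u).2
  have h0 : (0 : Fin d → ℝ) ∈ Metric.closedBall (0 : Fin d → ℝ) R := by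
    simpa using hR
  have hac : Acyc C {(e 0 : Fin r × Fin m → ℝ)} := by
    have h2 := Acyc.image (isCompact_closedBall (0 : Fin d → ℝ) R)
      (Set.singleton_subset_iff.2 h0) hφ.continuousOn hφi.injOn
      (Acyc.convex (isCompact_closedBall (0 : Fin d → ℝ) R) (convex_closedBall _ _) h0)
    rw [← hCe, Set.image_singleton] at h2
    exact h2
  have hy0 : (e 0 : Fin r × Fin m → ℝ) ∈ C := by
    rw [hCe]
    exact ⟨0, h0, rfl⟩
  have hE : IsCompact {p : (Fin r × Fin m → ℝ) × (Fin k → ℝ) |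
      p.1 ∈ C ∧ ∀ j, E (fun i => p.1 (j, i)) p.2} := hcpt h1 C hCW hCc
  have hcylC : Cyl k C (fun b p => ∀ j, E (fun i => (b : Fin r × Fin m → ℝ) (j, i)) p) :=
    hcyl.pullback (fun b : C => (⟨b.1, hCW b.2⟩ : cls (G r) y))
      (continuous_subtype_val.subtype_mk _)
  have hA := Cyl.acyc_set (E := fun (b : Fin r × Fin m → ℝ) p => ∀ j, E (fun i => b (j, i)) p)
    hCc hy0 hac hE hcylC
  obtain ⟨e1⟩ := HL_of_acyc (by
    rintro ⟨b, p⟩ ⟨hb, hp⟩
    change b = _ at hb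
    subst hb
    exact ⟨hy0, hp⟩) hA (q + 1)
  -- the fibre
  have hX0 : IsCompact {p : Fin k → ℝ | ∀ j, E (fun i => (e 0 : Fin r × Fin m → ℝ) (j, i)) p} := by
    have h2 : ∀ j, IsCompact {p | E (fun i => (e 0 : Fin r × Fin m → ℝ) (j, i)) p} :=
      hgood _ (hCW hy0)
    have h3 : {p : Fin k → ℝ | ∀ j, E (fun i => (e 0 : Fin r × Fin m → ℝ) (j, i)) p} =
        {p | E (fun i => (e 0 : Fin r × Fin m → ℝ) (⟨0, h1⟩, i)) p} ∩
          ⋂ j, {p | E (fun i => (e 0 : Fin r × Fin m → ℝ) (j, i)) p} := by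
      ext p
      simp only [Set.mem_inter_iff, Set.mem_iInter, Set.mem_ofPred_eq]
      exact ⟨fun h => ⟨h _, h⟩, fun h => h.2⟩
    rw [h3]
    exact (h2 _).inter_right (isClosed_iInter fun j => (h2 j).isClosed)
  have hcyl0 : Cyl k Unit (fun _ p => p ∈ {p : Fin k → ℝ |
      ∀ j, E (fun i => (e 0 : Fin r × Fin m → ℝ) (j, i)) p}) :=
    hcyl.pullback (fun _ : Unit => (⟨(e 0 : Fin r × Fin m → ℝ), hCW hy0⟩ : cls (G r) y))
      continuous_const
  have hfin := (cyl_fincoh hX0 hcyl0).fin q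
  obtain ⟨e2⟩ := HL_image hX0 (φ := fun p => ((e 0 : Fin r × Fin m → ℝ), p))
    (Continuous.continuousOn (by fun_prop)) (fun p _ p' _ h => (Prod.mk.inj h).2) (q + 1)
  have h4 : (fun p => ((e 0 : Fin r × Fin m → ℝ), p)) '' {p : Fin k → ℝ |
      ∀ j, E (fun i => (e 0 : Fin r × Fin m → ℝ) (j, i)) p} =
      {p : (Fin r × Fin m → ℝ) × (Fin k → ℝ) | p.1 = (e 0 : Fin r × Fin m → ℝ) ∧
        ∀ j, E (fun i => p.1 (j, i)) p.2} := by
    ext ⟨b, p⟩
    constructor
    · rintro ⟨p', hp', h⟩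
      obtain ⟨rfl, rfl⟩ := Prod.mk.inj h
      exact ⟨rfl, hp'⟩
    · rintro ⟨hb, hp⟩
      change b = _ at hb
      subst hb
      exact ⟨p, hp, rfl⟩
  rw [h4] at e2
  exact Module.Finite.equiv (e2.trans e1.symm)

end BU
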