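import Pool.Agent.Work.MP_4030f5_lc.U.WtDefs
import Pool.Agent.Work.MP_4030f5_lc.A4
import Pool.Agent.Work.MP_4030f5_lc.Q0

/-! # Generic points are dense

`Fm.eval x` is the evaluation of a polynomial (`A4_poly`, A4.lean). For a polynomial function that
is not identically zero the zero set is closed with empty interior (a polynomial that vanishes on
an open box is zero, `MvPolynomial.funext_set` or the like), there are countably many
expressions (inject `Fm (Fin N)` into polynomials with integer coefficients: the condition depends
only on the polynomial `MvPolynomial (Fin N) ℤ`), Baire (`dense_iInter_of_isOpen`,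
`dense_biInter_of_isOpen`). -/

namespace BU

private theorem fm_countable_le {σ : Type} [Countable σ] (n : ℕ) :
    {e : Fm σ | e.size ≤ n}.Countable := by
  induction n with
  | zero =>
    refine Set.Countable.mono ?_ ((Set.countable_range (Fm.var (σ := σ))).union
      (Set.countable_range (Fm.const (σ := σ))))
    intro e he
    cases e with
    | var i => exact Or.inl ⟨i, rfl⟩
    | const c => exact Or.inr ⟨c, rfl⟩
    | add e f => simp [Fm.size] at he
    | mul e f => simp [Fm.size] at he
  | succ n ih =>
    refine Set.Countable.mono ?_ (((Set.countable_range (Fm.var (σ := σ))).union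
      (Set.countable_range (Fm.const (σ := σ)))).union
        ((ih.image2 ih Fm.add).union (ih.image2 ih Fm.mul)))
    intro e he
    cases e with
    | var i => exact Or.inl (Or.inl ⟨i, rfl⟩)
    | const c => exact Or.inl (Or.inr ⟨c, rfl⟩)
    | add e f =>
      simp only [Fm.size, Set.mem_setOf_eq] at he
      exact Or.inr (Or.inl ⟨e, by simp only [Set.mem_setOf_eq]; omega, f,
        by simp only [Set.mem_setOf_eq]; omega, rfl⟩)
    | mul e f =>
      simp only [Fm.size, Set.mem_setOf_eq] at he
      exact Or.inr (Or.inr ⟨e, by simp only [Set.mem_setOf_eq]; omega, f,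
        by simp only [Set.mem_setOf_eq]; omega, rfl⟩)

private theorem fm_countable {σ : Type} [Countable σ] : Countable (Fm σ) := by
  have h : (Set.univ : Set (Fm σ)) = ⋃ n : ℕ, {e : Fm σ | e.size ≤ n} := by
    ext e
    simp only [Set.mem_univ, Set.mem_iUnion, Set.mem_setOf_eq, true_iff]
    exact ⟨e.size, le_rfl⟩
  rw [← Set.countable_univ_iff, h]
  exact Set.countable_iUnion fm_countable_le

theorem gen_dense {N : ℕ} (U : Set (Fin N → ℝ)) (hU : IsOpen U) (hne : U.Nonempty) :
    ∃ x ∈ U, Gen x := by
  have : Countable (Fm (Fin N)) := fm_countable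
  let f : {e : Fm (Fin N) // ∃ y, e.eval y ≠ 0} → Set (Fin N → ℝ) := fun e => {x | e.1.eval x ≠ 0}
  have hopen : ∀ e, IsOpen (f e) := by
    intro e
    have h1 : Continuous fun x : Fin N → ℝ => e.1.eval x := by
      have h2 := MvPolynomial.continuous_eval (A4_poly e.1)
      have h3 : (fun x => (MvPolynomial.eval x) (A4_poly e.1)) = fun x => e.1.eval x := by
        funext x
        exact A4_poly_eval x e.1
      rwa [h3] at h2
    exact isOpen_ne_fun h1 continuous_const
  have hdense : ∀ e, Dense (f e) := by
    intro e
    rw [dense_iff_inter_open]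
    intro O hO hOne
    obtain ⟨x0, hx0⟩ := hOne
    by_contra hcon
    rw [Set.not_nonempty_iff_eq_empty] at hcon
    have h0 : ∀ x ∈ O, e.1.eval x = 0 := by
      intro x hx
      by_contra hx'
      have : x ∈ O ∩ f e := ⟨hx, hx'⟩
      rw [hcon] at this
      exact this
    obtain ⟨ε, hε, hb⟩ := Metric.isOpen_iff.1 hO x0 hx0
    rw [ball_pi x0 hε] at hb
    have h1 : A4_poly e.1 = 0 := by
      refine MvPolynomial.funext_set (fun i => Metric.ball (x0 i) ε) (fun i => ?_) fun x hx => ?_
      · rw [Real.ball_eq_Ioo]
        exact Set.Ioo_infinite (by linarith)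
      · rw [map_zero, A4_poly_eval]
        exact h0 x (hb hx)
    obtain ⟨y, hy⟩ := e.2
    apply hy
    rw [← A4_poly_eval, h1, map_zero]
  obtain ⟨x, hxU, hx⟩ := (dense_iInter_of_isOpen hopen hdense).inter_open_nonempty U hU hne
  refine ⟨x, hxU, fun e he y => ?_⟩
  by_contra hy
  exact Set.mem_iInter.1 hx ⟨e, ⟨y, hy⟩⟩ he

/-- the first coordinates of a generic point form a generic point. -/
theorem Gen.rename {σ τ : Type} {x : τ → ℝ} (hx : Gen x) {r : σ → τ}
    (hr : Function.Injective r) : Gen (fun i => x (r i)) := by
  intro e he y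
  have h1 : (e.rename r).eval x = 0 := by
    rw [Fm.eval_rename]
    exact he
  have h2 := hx (e.rename r) h1 (Function.extend r y 0)
  rw [Fm.eval_rename] at h2
  have h3 : (fun i => Function.extend r y 0 (r i)) = y := by
    funext i
    exact hr.extend_apply y 0 i
  rwa [h3] at h2

end BU
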