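import Pool.Agent.Work.MP_4030f5_lc.U.CpDefs

/-! # Global relative acyclicity

Induction on `s = |I|` as in `T9a_ker` (T9a.lean). Let `Q J l` be the set of `f` with
`f - ∑ c b ps J l b ∈ ZS (𝓔 J) l` for some `c`. If `DT c` lies in `Q` in degree `N + 1` and `c I ∈ Q` (length
`N - |I|`) for `|I| < s`, then for `|I| = s`: `(DT c) I = D c I + (-1)^s D (c I)`, and `D c I` is a signed sum of
`c (I.eraseIdx j)`, which lie in `Q (I.eraseIdx j).toFinset ⊆ Q I.toFinset` by `rR`; so `D (c I) ∈ Q`, and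
`acyc` gives `g` with `c I - D g ∈ Q`; subtract `DT e`, `e I = (-1)^s g` for `|I| = s`. -/

namespace BU

open Finset

/-- the total cochain `c` lies in the finite system in degree `N`. -/
def FinSys.inQ {k n : ℕ} {M : Type} [MetricSpace M] {𝓔 : Finset (Fin n) → Set M}
    (S : FinSys k n M 𝓔) (N : ℕ) (c : TC n M) : Prop :=
  ∀ (I : List (Fin n)) (l : ℕ), I ≠ [] → I.length ≤ k → 1 ≤ l → I.length + l = N →
    ∃ v : ℕ → ℚ, (fun τ => c I τ - ∑ b ∈ range (S.be I.toFinset l), v b * S.ps I.toFinset l b τ) ∈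
      ZS (𝓔 I.toFinset) l

variable {k n : ℕ} {M : Type} [MetricSpace M] {𝓔 : Finset (Fin n) → Set M}

/-- the functions in the finite system over `J` in length `l` -/
private def GlobA_Q (S : FinSys k n M 𝓔) (J : Finset (Fin n)) (l : ℕ) :
    Submodule ℚ (List M → ℚ) where
  carrier := {f | ∃ v : ℕ → ℚ,
    (fun τ => f τ - ∑ b ∈ range (S.be J l), v b * S.ps J l b τ) ∈ ZS (𝓔 J) l}
  add_mem' := by
    rintro f g ⟨v, hv⟩ ⟨w, hw⟩
    refine ⟨v + w, ?_⟩
    have h := add_mem hv hw
    have e : (fun τ => (f + g) τ - ∑ b ∈ range (S.be J l), (v + w) b * S.ps J l b τ) =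
        (fun τ => f τ - ∑ b ∈ range (S.be J l), v b * S.ps J l b τ) +
          (fun τ => g τ - ∑ b ∈ range (S.be J l), w b * S.ps J l b τ) := by
      funext τ
      simp only [Pi.add_apply, add_mul, sum_add_distrib]
      ring
    rw [e]
    exact h
  zero_mem' := by
    refine ⟨0, ?_⟩
    have e : (fun τ => (0 : List M → ℚ) τ - ∑ b ∈ range (S.be J l), (0 : ℕ → ℚ) b * S.ps J l b τ) =
        0 := by
      funext τ
      simp
    rw [e]
    exact zero_mem _
  smul_mem' := by
    rintro a f ⟨v, hv⟩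
    refine ⟨a • v, ?_⟩
    have h := (ZS (𝓔 J) l).smul_mem a hv
    have e : (fun τ => (a • f) τ - ∑ b ∈ range (S.be J l), (a • v) b * S.ps J l b τ) =
        a • (fun τ => f τ - ∑ b ∈ range (S.be J l), v b * S.ps J l b τ) := by
      funext τ
      simp only [Pi.smul_apply, smul_eq_mul, mul_sub, mul_sum, mul_assoc]
    rw [e]
    exact h

private theorem GlobA_mem (S : FinSys k n M 𝓔) (J : Finset (Fin n)) (l : ℕ) (f : List M → ℚ) :
    f ∈ GlobA_Q S J l ↔ ∃ v : ℕ → ℚ,
      (fun τ => f τ - ∑ b ∈ range (S.be J l), v b * S.ps J l b τ) ∈ ZS (𝓔 J) l := Iff.rfl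

private theorem GlobA_ZS_le (S : FinSys k n M 𝓔) (J : Finset (Fin n)) (l : ℕ) {f : List M → ℚ}
    (hf : f ∈ ZS (𝓔 J) l) : f ∈ GlobA_Q S J l := by
  refine ⟨0, ?_⟩
  have e : (fun τ => f τ - ∑ b ∈ range (S.be J l), (0 : ℕ → ℚ) b * S.ps J l b τ) = f := by
    funext τ
    simp
  rw [e]
  exact hf

private theorem GlobA_ps_mem (S : FinSys k n M 𝓔) (J : Finset (Fin n)) (l b : ℕ)
    (hb : b < S.be J l) : S.ps J l b ∈ GlobA_Q S J l := by
  classical
  refine ⟨fun b' => if b' = b then 1 else 0, ?_⟩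
  have e : (fun τ => S.ps J l b τ - ∑ b' ∈ range (S.be J l),
      (fun b' => if b' = b then (1 : ℚ) else 0) b' * S.ps J l b' τ) = 0 := by
    funext τ
    have : ∑ b' ∈ range (S.be J l), (fun b' => if b' = b then (1 : ℚ) else 0) b' * S.ps J l b' τ =
        S.ps J l b τ := by
      rw [sum_eq_single b]
      · simp
      · intro b' _ hb'
        simp [hb']
      · intro hb'
        exact absurd (mem_range.2 hb) hb'
    rw [this]
    simp
  rw [e]
  exact zero_mem _

/-- a criterion for membership in a submodule: equality up to a sum of elements -/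
private theorem GlobA_sum_mem (P : Submodule ℚ (List M → ℚ)) (r : ℕ) (v : ℕ → ℚ)
    (p : ℕ → List M → ℚ) (hp : ∀ b < r, p b ∈ P) :
    (fun τ => ∑ b ∈ range r, v b * p b τ) ∈ P := by
  have e : (fun τ => ∑ b ∈ range r, v b * p b τ) = ∑ b ∈ range r, v b • p b := by
    funext τ
    rw [Finset.sum_apply]
    rfl
  rw [e]
  exact sum_mem fun b hb => P.smul_mem _ (hp b (mem_range.1 hb))

private theorem GlobA_ZS_mono {X Y : Set M} (h : X ⊆ Y) (l : ℕ) {f : List M → ℚ}
    (hf : f ∈ ZS Y l) : f ∈ ZS X l := Z_mono h hf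

private theorem GlobA_ZS_D {X : Set M} {l : ℕ} {f : List M → ℚ} (hf : f ∈ ZS X l) :
    D f ∈ ZS X (l + 1) := by
  have h1 : Z X (D (fun τ => if τ.length = l then f τ else 0)) := Z_D hf
  have e : D (fun τ => if τ.length = l then f τ else 0) =
      fun τ => if τ.length = l + 1 then D f τ else 0 := by
    funext τ
    exact T6a_D_restrict f l τ
  rw [e] at h1
  exact h1

private theorem GlobA_mono (S : FinSys k n M 𝓔) {J J' : Finset (Fin n)} (h : J' ⊆ J)
    (hJ' : J'.Nonempty) (hJ : J.card ≤ k) {l : ℕ} (hl : 1 ≤ l) {f : List M → ℚ}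
    (hf : f ∈ GlobA_Q S J' l) : f ∈ GlobA_Q S J l := by
  obtain ⟨v, hv⟩ := hf
  have h1 : (fun τ => f τ - ∑ b ∈ range (S.be J' l), v b * S.ps J' l b τ) ∈ GlobA_Q S J l :=
    GlobA_ZS_le S J l (GlobA_ZS_mono (S.anti J' J h) l hv)
  have h2 : (fun τ => ∑ b ∈ range (S.be J' l), v b * S.ps J' l b τ) ∈ GlobA_Q S J l := by
    apply GlobA_sum_mem
    intro b hb
    exact ⟨fun b' => S.mR J J' l b' b, S.rR J J' h hJ' hJ l hl b hb⟩
  have h3 := add_mem h1 h2
  have e : (fun τ => f τ - ∑ b ∈ range (S.be J' l), v b * S.ps J' l b τ) +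
      (fun τ => ∑ b ∈ range (S.be J' l), v b * S.ps J' l b τ) = f := by
    funext τ
    simp
  rw [e] at h3
  exact h3

private theorem GlobA_D (S : FinSys k n M 𝓔) {J : Finset (Fin n)} (hJ0 : J.Nonempty)
    (hJ : J.card ≤ k) {l : ℕ} (hl : 1 ≤ l) {f : List M → ℚ} (hf : f ∈ GlobA_Q S J l) :
    D f ∈ GlobA_Q S J (l + 1) := by
  obtain ⟨v, hv⟩ := hf
  have h1 : D (fun τ => f τ - ∑ b ∈ range (S.be J l), v b * S.ps J l b τ) ∈ GlobA_Q S J (l + 1) :=
    GlobA_ZS_le S J (l + 1) (GlobA_ZS_D hv)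
  have h2 : (fun τ => ∑ b ∈ range (S.be J l), v b * D (S.ps J l b) τ) ∈ GlobA_Q S J (l + 1) := by
    apply GlobA_sum_mem
    intro b hb
    exact ⟨fun b' => S.mA J l b' b, S.dA J hJ0 hJ l hl b hb⟩
  have h3 := add_mem h1 h2
  have e : D (fun τ => f τ - ∑ b ∈ range (S.be J l), v b * S.ps J l b τ) +
      (fun τ => ∑ b ∈ range (S.be J l), v b * D (S.ps J l b) τ) = D f := by
    funext τ
    have e1 : D (fun τ => ∑ b ∈ range (S.be J l), v b * S.ps J l b τ) τ =
        ∑ b ∈ range (S.be J l), v b * D (S.ps J l b) τ := by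
      rw [D_sum (range (S.be J l)) (fun b τ => v b * S.ps J l b τ) τ]
      refine sum_congr rfl fun b _ => ?_
      exact D_map (AddMonoidHom.mulLeft (v b)) (S.ps J l b) τ
    rw [Pi.add_apply, D_sub f (fun τ => ∑ b ∈ range (S.be J l), v b * S.ps J l b τ) τ, e1]
    ring
  rw [e] at h3
  exact h3

private theorem GlobA_D_left (P : Submodule ℚ (List M → ℚ)) {α : Type} (c : List α → List M → ℚ)
    (I : List α) (h : ∀ I', I'.Sublist I → I'.length + 1 = I.length → c I' ∈ P) : D c I ∈ P := by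
  induction I generalizing c with
  | nil => exact zero_mem _
  | cons i l ih =>
    have h1 : c l ∈ P := h l (List.sublist_cons_self i l) (by simp)
    have h2 : D (fun l' => c (i :: l')) l ∈ P := by
      apply ih
      intro l' hl' hlen
      exact h (i :: l') (hl'.cons_cons i) (by simp [hlen])
    exact sub_mem h1 h2

private theorem GlobA_Dc (S : FinSys k n M 𝓔) {c : TC n M} (h0 : ∀ τ, c [] τ = 0)
    (I : List (Fin n)) (hk : I.length ≤ k) {l : ℕ} (hl : 1 ≤ l)
    (h : ∀ I', I' ≠ [] → I'.length + 1 = I.length → c I' ∈ GlobA_Q S I'.toFinset l) :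
    D c I ∈ GlobA_Q S I.toFinset l := by
  apply GlobA_D_left
  intro I' hI' hlen
  by_cases hn : I' = []
  · have : c I' = 0 := by
      funext τ
      rw [hn]
      exact h0 τ
    rw [this]
    exact zero_mem _
  · refine GlobA_mono S ?_ ?_ ((List.toFinset_card_le I).trans hk) hl (h I' hn hlen)
    · intro x hx
      rw [List.mem_toFinset] at hx ⊢
      exact hI'.subset hx
    · obtain ⟨a, ha⟩ := List.exists_mem_of_ne_nil I' hn
      exact ⟨a, List.mem_toFinset.2 ha⟩

theorem FinSys.rel_acyc {k n : ℕ} {M : Type} [MetricSpace M] {𝓔 : Finset (Fin n) → Set M}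
    (S : FinSys k n M 𝓔) {N : ℕ} (hN : N ≤ k) {c : TC n M} (hc : TN c)
    (h : S.inQ (N + 1) (DT c)) :
    ∃ e : TC n M, TN e ∧ S.inQ N (fun I τ => c I τ - DT e I τ) := by
  have main : ∀ s : ℕ, ∃ e : TC n M, TN e ∧
      ∀ (I : List (Fin n)) (l : ℕ), I ≠ [] → I.length ≤ k → I.length ≤ s → 1 ≤ l →
        I.length + l = N → (c - DT e) I ∈ GlobA_Q S I.toFinset l := by
    intro s
    induction s with
    | zero =>
      refine ⟨0, T9a_TN_zero, ?_⟩
      intro I l hI _ h0
      exact absurd (List.length_eq_zero_iff.1 (by omega)) hI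
    | succ s ih =>
      obtain ⟨e, he, heE⟩ := ih
      set c₁ : TC n M := c - DT e with hc₁
      have hN₁ : TN c₁ := T9a_TN_sub hc (T9a_TN_DT he)
      have hE₁ : ∀ (I : List (Fin n)) (l : ℕ), I ≠ [] → I.length ≤ k → 1 ≤ l →
          I.length + l = N + 1 → DT c₁ I ∈ GlobA_Q S I.toFinset l := by
        intro I l h1 h2 h3 h4
        rw [hc₁, T9a_DT_sub, T9a_DT_DT, sub_zero]
        exact h I l h1 h2 h3 h4
      have hex : ∀ I : List (Fin n), ∃ g : List M → ℚ, g [] = 0 ∧
          (I.length = s + 1 → I.length ≤ k → ∀ l, 1 ≤ l → I.length + l = N →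
            (fun τ => c₁ I τ - D g τ) ∈ GlobA_Q S I.toFinset l) := by
        intro I
        by_cases hIs : I.length = s + 1 ∧ I.length ≤ k ∧ I.length < N
        · obtain ⟨hs, hk, hlt⟩ := hIs
          have hI : I ≠ [] := by
            rintro rfl
            simp at hs
          obtain ⟨l, hl⟩ : ∃ l, I.length + l = N := ⟨N - I.length, by omega⟩
          have hl1 : 1 ≤ l := by omega
          have h1 : D c₁ I ∈ GlobA_Q S I.toFinset (l + 1) :=
            GlobA_Dc S hN₁.1 I hk (by omega)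
              (fun I' hI' hlen => heE I' (l + 1) hI' (by omega) (by omega) (by omega) (by omega))
          have h2 : DT c₁ I - D c₁ I ∈ GlobA_Q S I.toFinset (l + 1) :=
            sub_mem (hE₁ I (l + 1) hI hk (by omega) (by omega)) h1
          have h3 : D (c₁ I) ∈ GlobA_Q S I.toFinset (l + 1) := by
            have h4 := (GlobA_Q S I.toFinset (l + 1)).smul_mem ((-1) ^ I.length) h2
            have h5 : (-1 : ℚ) ^ I.length • (DT c₁ I - D c₁ I) = D (c₁ I) := by
              funext τ
              have : ((-1 : ℚ) ^ I.length) * ((-1 : ℚ) ^ I.length) = 1 := by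
                rw [← mul_pow]; simp
              simp only [DT, Pi.smul_apply, Pi.sub_apply, smul_eq_mul]
              linear_combination (D (c₁ I) τ) * this
            rw [h5] at h4
            exact h4
          have hJ : I.toFinset.Nonempty := by
            obtain ⟨a, ha⟩ := List.exists_mem_of_ne_nil I hI
            exact ⟨a, List.mem_toFinset.2 ha⟩
          have hJk : I.toFinset.card ≤ k := (List.toFinset_card_le I).trans hk
          obtain ⟨g, w, hg, hg'⟩ := S.acyc I.toFinset hJ hJk l hl1 (by omega) (c₁ I) (hN₁.2 I) h3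
          refine ⟨g, hg, fun _ _ l' _ hl' => ?_⟩
          have : l' = l := by omega
          subst this
          exact ⟨w, hg'⟩
        · refine ⟨fun _ => 0, rfl, fun ha hb l hl hl' => absurd ⟨ha, hb, by omega⟩ hIs⟩
      choose g hg0 hg using hex
      set e₁ : TC n M := fun I τ => if I.length = s + 1 ∧ I.length ≤ k then
        (-1) ^ (s + 1) * g I τ else 0 with he₁
      have hlow : ∀ I : List (Fin n), I.length ≠ s + 1 → e₁ I = 0 := by
        intro I hI
        funext τ
        simp [he₁, hI]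
      have hN₂ : TN e₁ := by
        constructor
        · intro τ
          simp [he₁]
        · intro I
          simp [he₁, hg0]
      refine ⟨e + e₁, T9a_TN_add he hN₂, ?_⟩
      intro I l hI hk hs hl hlN
      have hsub : (c - DT (e + e₁)) I = fun τ => c₁ I τ - DT e₁ I τ := by
        funext τ
        rw [T9a_DT_add]
        simp only [hc₁, Pi.sub_apply, Pi.add_apply]
        ring
      rw [hsub]
      rcases Nat.lt_or_ge I.length (s + 1) with hlt | hge
      · have h0 : (fun τ => c₁ I τ - DT e₁ I τ) = c₁ I := by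
          funext τ
          rw [T9a_DT_low hlow (by omega)]
          ring
        rw [h0]
        exact heE I l hI hk (by omega) hl hlN
      · have hlen : I.length = s + 1 := by omega
        have h0 : (fun τ => c₁ I τ - DT e₁ I τ) = fun τ => c₁ I τ - D (g I) τ := by
          funext τ
          rw [T9a_DT_top hlow hlen]
          have h2 : e₁ I = fun τ => (-1 : ℚ) ^ (s + 1) * g I τ := by
            funext τ
            simp only [he₁]
            rw [if_pos ⟨hlen, hk⟩]
          have h3 : D (e₁ I) τ = (-1 : ℚ) ^ (s + 1) * D (g I) τ := by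
            rw [h2]
            exact D_map (AddMonoidHom.mulLeft ((-1 : ℚ) ^ (s + 1))) (g I) τ
          have : ((-1 : ℚ) ^ (s + 1)) * ((-1 : ℚ) ^ (s + 1)) = 1 := by
            rw [← mul_pow]; simp
          rw [h3]
          linear_combination (- D (g I) τ) * this
        rw [h0]
        exact hg I hlen hk l hl hlN
  obtain ⟨e, he, heE⟩ := main k
  exact ⟨e, he, fun I l h0 h1 hl hlN => heE I l h0 h1 h1 hl hlN⟩

end BU
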