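import Pool.Agent.Work.MP_4030f5_lc.U.Transfer
import Pool.Agent.Work.MP_4030f5_lc.U.CodesR

/-! # Transfer in terms of the codes

`stepEquiv n L (sl t)` has quotient by `L` equal to `0` (no item) or `itx + 1`, and remainder
`(sl t).2`. Use `flc_eq`, `inf_eq` (with `f t = s t / L - 1`, which is `itx (sl t) < n`),
`transfer`, `pat_congr`. -/

namespace BU

theorem stepEquiv_div {n L : ℕ} (hL : 0 < L) (u : Step n L) :
    ((stepEquiv n L u : ℕ) / L = 0 ↔ u.1 = none) ∧ (stepEquiv n L u : ℕ) / L - 1 = itx u ∧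
      (stepEquiv n L u : ℕ) % L = u.2 := by
  have h1 : (stepEquiv n L u : ℕ) = (u.2 : ℕ) + L * ((finSuccEquiv n).symm u.1 : ℕ) := by
    simp [stepEquiv, finProdFinEquiv]
  have h2 : (stepEquiv n L u : ℕ) / L = ((finSuccEquiv n).symm u.1 : ℕ) := by
    rw [h1, Nat.add_mul_div_left _ _ hL, Nat.div_eq_of_lt u.2.2, zero_add]
  have h3 : (stepEquiv n L u : ℕ) % L = u.2 := by
    rw [h1, Nat.add_mul_mod_self_left, Nat.mod_eq_of_lt u.2.2]
  refine ⟨?_, ?_, h3⟩
  · rw [h2]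
    rcases hu : u.1 with _ | i
    · simp
    · simp
  · rw [h2]
    unfold itx
    rcases hu : u.1 with _ | i
    · simp
    · simp

theorem info_transfer {K m L : ℕ} (hL : 0 < L) {γ : Type}
    (Ψ : (n : ℕ) → (Fin (K + 2) → Step n L) → (Fin n × Fin m → ℝ) → γ)
    (hloc : ∀ (r n : ℕ) (ι : Fin r → Fin n), StrictMono ι → ∀ (sl : Fin (K + 2) → Step r L)
      (a : Fin n × Fin m → ℝ), Ψ n (fun t => mapS ι (sl t)) a = Ψ r sl (fun z => a (ι z.1, z.2)))
    (hbdd : ∀ (r : ℕ) (sl : Fin (K + 2) → Step r L), ∃ C, Bdd C (Ψ r sl)) :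
    ∃ H₁ : List (Fm (Fin (K + 2) × Fin m)), ∀ H, H₁ ⊆ H → ∀ (n n' : ℕ), 1 ≤ n → 1 ≤ n' →
      ∀ (sl : Fin (K + 2) → Step n L) (sl' : Fin (K + 2) → Step n' L) (a a' : ℕ → Fin m → ℝ)
        (s s' : ℕ → ℕ), (∀ t : Fin (K + 2), s t = stepEquiv n L (sl t)) →
        (∀ t : Fin (K + 2), s' t = stepEquiv n' L (sl' t)) →
        rinf K n (pR H n a) L s = rinf K n' (pR H n' a') L s' →
        Ψ n sl (fun z => a z.1 z.2) = Ψ n' sl' (fun z => a' z.1 z.2) := by
  obtain ⟨H₁, h₁⟩ := transfer Ψ hloc hbdd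
  refine ⟨H₁, fun H hH n n' hn hn' sl sl' a a' s s' hs hs' hinf => ?_⟩
  obtain ⟨hf, hi⟩ := Nat.pair_eq_pair.1 hinf
  have hfl := flc_eq hL hf
  have hlt : ∀ (n : ℕ), 1 ≤ n → ∀ (sl : Fin (K + 2) → Step n L) (s : ℕ → ℕ),
      (∀ t : Fin (K + 2), s t = stepEquiv n L (sl t)) →
      (∀ t : Fin (K + 2), s t / L - 1 = itx (sl t)) ∧ ∀ t < K + 2, s t / L - 1 < n := by
    intro n hn sl s hs
    have h1 : ∀ t : Fin (K + 2), s t / L - 1 = itx (sl t) := fun t => by
      rw [hs t]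
      exact (stepEquiv_div hL (sl t)).2.1
    refine ⟨h1, fun t ht => ?_⟩
    have h2 := h1 ⟨t, ht⟩
    simp only at h2
    rw [h2]
    unfold itx
    rcases (sl ⟨t, ht⟩).1 with _ | i
    · exact hn
    · exact i.2
  obtain ⟨g1, g2⟩ := hlt n hn sl s hs
  obtain ⟨g1', g2'⟩ := hlt n' hn' sl' s' hs'
  obtain ⟨k1, k2⟩ := inf_eq g2 g2' hi
  refine h₁ n n' hn hn' sl sl' a a' ?_ ?_ ?_ ?_
  · intro t
    have h := (hfl t t.2).2
    rw [hs t, hs' t, (stepEquiv_div hL (sl t)).2.2, (stepEquiv_div hL (sl' t)).2.2] at h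
    exact Fin.ext h
  · intro t
    have h := (hfl t t.2).1
    rw [hs t, hs' t, (stepEquiv_div hL (sl t)).1, (stepEquiv_div hL (sl' t)).1] at h
    exact h
  · intro t t'
    rw [← g1, ← g1, ← g1', ← g1']
    exact k1 t t.2 t' t'.2
  · refine SgnEq.mono hH ?_
    have e1 : (fun z : Fin (K + 2) × Fin m => a (itx (sl z.1)) z.2) =
        fun z => a (s z.1 / L - 1) z.2 := by
      funext z
      rw [g1]
    have e2 : (fun z : Fin (K + 2) × Fin m => a' (itx (sl' z.1)) z.2) =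
        fun z => a' (s' z.1 / L - 1) z.2 := by
      funext z
      rw [g1']
    rw [e1, e2]
    exact k2

/-- the slots of codes are the codes of the slots. -/
theorem slot_slT {K n L : ℕ} (κ : Fin K → Step n L) (u v : Step n L) (t : Fin (K + 2)) :
    slot K ((n + 1) * L) (kc κ) (stepEquiv n L u) (stepEquiv n L v) t =
      stepEquiv n L (slT κ u v t) := by
  unfold slot slT
  refine Fin.lastCases ?_ (fun t => ?_) t
  · rw [Fin.snoc_last (α := fun _ => Step n L)]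
    simp
  · rw [Fin.snoc_castSucc (α := fun _ => Step n L)]
    refine Fin.lastCases ?_ (fun t => ?_) t
    · rw [Fin.snoc_last (α := fun _ => Step n L)]
      simp
    · rw [Fin.snoc_castSucc (α := fun _ => Step n L)]
      have ht : ((t.castSucc.castSucc : Fin (K + 2)) : ℕ) < K := t.2
      rw [if_pos ht]
      have h1 := congrFun (finFunctionFinEquiv.symm_apply_apply (fun i => stepEquiv n L (κ i))) t
      have h2 := congrArg Fin.val h1
      rw [finFunctionFinEquiv_symm_apply_val] at h2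
      unfold dig kc
      exact h2

end BU
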