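import Pool.Agent.Work.MP_4030f5_lc.U.LowDefs

/-! # Coded lists of indices: bijection and erasure (elementary) -/

namespace BU

variable {K n : ℕ} (hn : 0 < n)

private theorem la_eq {x : ℕ} (h : 1 ≤ (iIC K n hn x).length) :
    (∀ t < K + 1, xs K x ≤ t → dig n (xc K n x) t = 0) ∧
    iIC K n hn x = List.ofFn (fun t : Fin (xs K x) =>
      (⟨dig n (xc K n x) t, Nat.mod_lt _ hn⟩ : Fin n)) := by
  unfold iIC at h ⊢
  split_ifs at h ⊢ with hc
  · exact ⟨hc, rfl⟩
  · simp at h

private theorem la_xs (x : ℕ) : xs K x < K + 2 := Nat.mod_lt _ (by omega)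

include hn in
private theorem la_xc (x : ℕ) : xc K n x < n ^ (K + 1) := Nat.mod_lt _ (by positivity)

include hn in
private theorem la_undig {x : ℕ} (h : ∀ t < K + 1, xs K x ≤ t → dig n (xc K n x) t = 0) :
    xc K n x = undig n (xs K x) (dig n (xc K n x)) := by
  have h1 := undig_dig (K := K + 1) (c := xc K n x) hn (la_xc hn x)
  conv_lhs => rw [← h1]
  unfold undig
  have h2 : Finset.range (xs K x) ⊆ Finset.range (K + 1) := by
    intro t ht
    rw [Finset.mem_range] at ht ⊢
    have := la_xs (K := K) x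
    omega
  symm
  apply Finset.sum_subset h2
  intro t ht ht'
  rw [Finset.mem_range] at ht ht'
  rw [h t ht (by omega), zero_mul]

private theorem la_recover {x x' : ℕ} (h0 : xs K x = xs K x') (h1 : xc K n x = xc K n x')
    (h2 : xl K n x = xl K n x') (h3 : xb K n x = xb K n x') : x = x' := by
  have key : ∀ y : ℕ, y = xs K y + (K + 2) * (xc K n y + n ^ (K + 1) * (xl K n y +
      (K + 3) * xb K n y)) := by
    intro y
    unfold xs xc xl xb
    have e1 := Nat.mod_add_div y (K + 2)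
    have e2 := Nat.mod_add_div (y / (K + 2)) (n ^ (K + 1))
    have e3 := Nat.mod_add_div (y / (K + 2) / n ^ (K + 1)) (K + 3)
    rw [Nat.div_div_eq_div_mul] at e2 e3
    rw [Nat.div_div_eq_div_mul] at e3
    rw [e3, e2, e1]
  rw [key x, key x', h0, h1, h2, h3]

theorem iIC_length {x : ℕ} (h : 1 ≤ (iIC K n hn x).length) :
    (iIC K n hn x).length = xs K x ∧ ∀ t < K + 1, xs K x ≤ t → dig n (xc K n x) t = 0 := by
  obtain ⟨h1, h2⟩ := la_eq hn h
  refine ⟨?_, h1⟩
  rw [h2]
  simp

theorem iIC_toFinset {x : ℕ} (h : 1 ≤ (iIC K n hn x).length) :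
    (iIC K n hn x).toFinset = Jd n hn (xs K x) (xc K n x) (xs K x) := by
  obtain ⟨h1, h2⟩ := la_eq hn h
  rw [h2]
  ext i
  simp only [List.mem_toFinset, List.mem_ofFn, Jd, Finset.mem_image, Finset.mem_filter,
    Finset.mem_range]
  constructor
  · rintro ⟨t, rfl⟩
    exact ⟨t, ⟨t.2, by have := t.2; omega⟩, rfl⟩
  · rintro ⟨t, ⟨ht, -⟩, rfl⟩
    exact ⟨⟨t, ht⟩, rfl⟩

theorem iIC_erase_toFinset {x : ℕ} (h : 1 ≤ (iIC K n hn x).length) (j : ℕ) :
    ((iIC K n hn x).eraseIdx j).toFinset = Jd n hn (xs K x) (xc K n x) j := by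
  obtain ⟨h1, h2⟩ := la_eq hn h
  rw [h2]
  ext i
  simp only [List.mem_toFinset, Jd, Finset.mem_image, Finset.mem_filter,
    Finset.mem_range, List.mem_eraseIdx_iff_getElem]
  constructor
  · rintro ⟨t, ht, htj, hi⟩
    have ht' : t < xs K x := by simpa using ht
    refine ⟨t, ⟨ht', htj⟩, ?_⟩
    rw [← hi]
    simp
  · rintro ⟨t, ⟨ht, htj⟩, hi⟩
    refine ⟨t, by simpa using ht, htj, ?_⟩
    rw [← hi]
    simp

private theorem la_ext {s s' c c' : ℕ} (h : List.ofFn (fun t : Fin s =>
      (⟨dig n c t, Nat.mod_lt _ hn⟩ : Fin n)) = List.ofFn (fun t : Fin s' =>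
      (⟨dig n c' t, Nat.mod_lt _ hn⟩ : Fin n))) :
    s = s' ∧ ∀ t < s, dig n c t = dig n c' t := by
  have hl : s = s' := by
    have := congrArg List.length h
    simpa using this
  subst hl
  refine ⟨rfl, fun t ht => ?_⟩
  have h1 := List.ofFn_injective h
  have h2 := congrFun h1 ⟨t, ht⟩
  simpa [Fin.ext_iff] using h2

theorem iIC_eq {x x' : ℕ} (h : 1 ≤ (iIC K n hn x).length)
    (h' : 1 ≤ (iIC K n hn x').length) :
    iIC K n hn x' = iIC K n hn x ↔ (xs K x' = xs K x ∧ xc K n x' = xc K n x) := by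
  obtain ⟨h1, h2⟩ := la_eq hn h
  obtain ⟨h1', h2'⟩ := la_eq hn h'
  constructor
  · intro he
    rw [h2, h2'] at he
    obtain ⟨e1, e2⟩ := la_ext hn he
    refine ⟨e1, ?_⟩
    rw [la_undig hn h1, la_undig hn h1', e1]
    exact undig_congr (fun t ht => e2 t (by omega))
  · rintro ⟨e1, e2⟩
    rw [h2, h2', e2, e1]

theorem iIC_inj {x x' : ℕ} (h : 1 ≤ (iIC K n hn x).length)
    (h1 : iIC K n hn x = iIC K n hn x') (h2 : xl K n x = xl K n x') (h3 : xb K n x = xb K n x') :
    x = x' := by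
  have h' : 1 ≤ (iIC K n hn x').length := by rw [← h1]; exact h
  obtain ⟨e1, e2⟩ := (iIC_eq hn h' h).1 h1
  exact la_recover e1 e2 h2 h3

theorem iIC_surj (T : Tabs) (I : List (Fin n)) (l b : ℕ) (h1 : 1 ≤ I.length)
    (h2 : I.length ≤ K + 1) (hl : l < K + 3) (hb : b < T.bm) :
    ∃ x < nX K T n, iIC K n hn x = I ∧ xl K n x = l ∧ xb K n x = b := by
  have hf : ∀ t < K + 1, (fun t : ℕ => if h : t < I.length then (I[t] : ℕ) else 0) t < n := by
    intro t _
    simp only
    split_ifs with h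
    · exact (I[t]).2
    · exact hn
  set f : ℕ → ℕ := fun t : ℕ => if h : t < I.length then (I[t] : ℕ) else 0 with hfdef
  set c := undig n (K + 1) f with hc
  have hcl : c < n ^ (K + 1) := undig_lt hf
  have hnp : 0 < n ^ (K + 1) := by positivity
  set x := I.length + (K + 2) * (c + n ^ (K + 1) * (l + (K + 3) * b)) with hx
  have e0 : xs K x = I.length := by
    unfold xs
    rw [hx, Nat.add_mul_mod_self_left, Nat.mod_eq_of_lt (by omega)]
  have d1 : x / (K + 2) = c + n ^ (K + 1) * (l + (K + 3) * b) := by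
    rw [hx, Nat.add_mul_div_left _ _ (by omega), Nat.div_eq_of_lt (by omega), zero_add]
  have e1 : xc K n x = c := by
    unfold xc
    rw [d1, Nat.add_mul_mod_self_left, Nat.mod_eq_of_lt hcl]
  have d2 : x / ((K + 2) * n ^ (K + 1)) = l + (K + 3) * b := by
    rw [← Nat.div_div_eq_div_mul, d1, Nat.add_mul_div_left _ _ hnp, Nat.div_eq_of_lt hcl, zero_add]
  have e2 : xl K n x = l := by
    unfold xl
    rw [d2, Nat.add_mul_mod_self_left, Nat.mod_eq_of_lt hl]
  have e3 : xb K n x = b := by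
    unfold xb
    rw [← Nat.div_div_eq_div_mul, d2, Nat.add_mul_div_left _ _ (by omega), Nat.div_eq_of_lt hl,
      zero_add]
  have hlt : x < nX K T n := by
    unfold nX
    have a1 : l + (K + 3) * b < (K + 3) * T.bm := by
      calc l + (K + 3) * b < (K + 3) + (K + 3) * b := by omega
        _ = (K + 3) * (b + 1) := by ring
        _ ≤ (K + 3) * T.bm := Nat.mul_le_mul_left _ hb
    have a2 : c + n ^ (K + 1) * (l + (K + 3) * b) < n ^ (K + 1) * ((K + 3) * T.bm) := by
      calc c + n ^ (K + 1) * (l + (K + 3) * b)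
          < n ^ (K + 1) + n ^ (K + 1) * (l + (K + 3) * b) := by omega
        _ = n ^ (K + 1) * (l + (K + 3) * b + 1) := by ring
        _ ≤ n ^ (K + 1) * ((K + 3) * T.bm) := Nat.mul_le_mul_left _ a1
    calc x < (K + 2) + (K + 2) * (c + n ^ (K + 1) * (l + (K + 3) * b)) := by omega
      _ = (K + 2) * (c + n ^ (K + 1) * (l + (K + 3) * b) + 1) := by ring
      _ ≤ (K + 2) * (n ^ (K + 1) * ((K + 3) * T.bm)) := Nat.mul_le_mul_left _ a2
      _ = (K + 2) * n ^ (K + 1) * (K + 3) * T.bm := by ring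
  refine ⟨x, hlt, ?_, e2, e3⟩
  have hd : ∀ t < K + 1, dig n c t = f t := fun t ht => dig_undig hf ht
  unfold iIC
  rw [if_pos]
  · apply List.ext_getElem
    · simp [e0]
    · intro t ht ht'
      simp only [List.getElem_ofFn]
      apply Fin.ext
      simp only
      rw [e1, hd t (by omega), hfdef]
      simp only
      rw [dif_pos ht']
  · intro t ht hst
    rw [e1, hd t ht, hfdef]
    simp only
    rw [dif_neg (by omega)]

theorem iIC_erase {x x' j : ℕ} (h : 1 ≤ (iIC K n hn x).length)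
    (h' : 1 ≤ (iIC K n hn x').length) (hj : j < xs K x) :
    (iIC K n hn x).eraseIdx j = iIC K n hn x' ↔
      (xs K x' + 1 = xs K x ∧ xc K n x' = era n (xs K x) (xc K n x) j) := by
  obtain ⟨h1, h2⟩ := la_eq hn h
  obtain ⟨h1', h2'⟩ := la_eq hn h'
  have hE : (List.ofFn (fun t : Fin (xs K x) =>
      (⟨dig n (xc K n x) t, Nat.mod_lt _ hn⟩ : Fin n))).eraseIdx j =
      List.ofFn (fun t : Fin (xs K x - 1) => (⟨dig n (xc K n x)
        (if (t : ℕ) < j then (t : ℕ) else (t : ℕ) + 1), Nat.mod_lt _ hn⟩ : Fin n)) := by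
    apply List.ext_getElem
    · rw [List.length_eraseIdx]
      simp [hj]
    · intro t ht ht'
      rw [List.getElem_eraseIdx]
      simp only [List.getElem_ofFn]
      split_ifs <;> rfl
  have hdg : ∀ t < xs K x - 1, (fun t => dig n (xc K n x) (if t < j then t else t + 1)) t < n :=
    fun t _ => dig_lt hn _ _
  constructor
  · intro he
    rw [h2, h2', hE] at he
    have hl : xs K x - 1 = xs K x' := by
      have := congrArg List.length he
      simpa using this
    refine ⟨by omega, ?_⟩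
    rw [la_undig hn h1', ← hl]
    unfold era
    apply undig_congr
    intro t ht
    have e1 : (List.ofFn (fun t : Fin (xs K x - 1) => (⟨dig n (xc K n x)
        (if (t : ℕ) < j then (t : ℕ) else (t : ℕ) + 1), Nat.mod_lt _ hn⟩ : Fin n)))[t]'(by
          simpa using ht) = (List.ofFn (fun t : Fin (xs K x') =>
      (⟨dig n (xc K n x') t, Nat.mod_lt _ hn⟩ : Fin n)))[t]'(by simpa [← hl] using ht) := by
      simp only [he]
    simp only [List.getElem_ofFn, Fin.mk.injEq] at e1
    exact e1.symm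
  · rintro ⟨e1, e2⟩
    rw [h2, h2', hE]
    have hl : xs K x - 1 = xs K x' := by omega
    apply List.ext_getElem
    · simp [hl]
    · intro t ht ht'
      simp only [List.getElem_ofFn]
      apply Fin.ext
      simp only
      have ht2 : t < xs K x - 1 := by simpa using ht
      rw [e2]
      unfold era
      rw [dig_undig hdg ht2]

end BU
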