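import Pool.Agent.Work.MP_4030f5_lc.U.SysB
import Pool.Agent.Work.MP_4030f5_lc.U.CodesR

/-! # Lists of indices and their types: definitions -/

namespace BU

/-- the list of indices coded by `x`; the empty list if the superfluous digits are not zero. -/
def iIC (K n : ℕ) (hn : 0 < n) (x : ℕ) : List (Fin n) :=
  if ∀ t < K + 1, xs K x ≤ t → dig n (xc K n x) t = 0 then
    List.ofFn (fun t : Fin (xs K x) => (⟨dig n (xc K n x) t, Nat.mod_lt _ hn⟩ : Fin n))
  else []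

/-- the set of the first `s` digits of `c`, without digit number `j`. -/
def Jd (n : ℕ) (hn : 0 < n) (s c j : ℕ) : Finset (Fin n) :=
  ((Finset.range s).filter (· ≠ j)).image (fun t => (⟨dig n c t, Nat.mod_lt _ hn⟩ : Fin n))

theorem Jd_sub (n : ℕ) (hn : 0 < n) (s c j : ℕ) : Jd n hn s c j ⊆ Jd n hn s c s := by
  intro i hi
  simp only [Jd, Finset.mem_image, Finset.mem_filter, Finset.mem_range] at hi ⊢
  obtain ⟨t, ⟨ht, _⟩, rfl⟩ := hi
  exact ⟨t, ⟨ht, ht.ne⟩, rfl⟩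

variable {m : ℕ}

/-- type of a set of indices. -/
noncomputable def tyA (G : (r : ℕ) → List (Fm (Fin r × Fin m))) {n : ℕ} (a : Fin n → Fin m → ℝ)
    (J : Finset (Fin n)) : Σ r : ℕ, Set (Fin r × Fin m → ℝ) :=
  ⟨J.card, cls (G J.card) (resJ J a)⟩

/-- type of a pair of sets of indices. -/
noncomputable def tyR (G : (r : ℕ) → List (Fm (Fin r × Fin m))) {n : ℕ} (a : Fin n → Fin m → ℝ)
    (J J' : Finset (Fin n)) (h : J' ⊆ J) :
    Σ r : ℕ, (Set (Fin r × Fin m → ℝ) × Σ r' : ℕ, (Fin r' → Fin r)) :=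
  ⟨J.card, (cls (G J.card) (resJ J a), ⟨J'.card, posJ J J' h⟩)⟩

end BU
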