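import Pool.Agent.Work.MP_4030f5_lc.U.MachDefs

/-! # Semantics of blocks -/

namespace BU

variable {σ : Type}

theorem compE_length (ρ : σ → Reg ⊕ ℤ) (e : Fm σ) (r : ℕ) : (compE ρ e r).length = lenE e := by
  induction e generalizing r with
  | var v =>
    simp only [compE, lenE]
    split <;> rfl
  | const c => rfl
  | add e f he hf => simp [compE, lenE, he, hf, add_assoc]
  | mul e f he hf => simp [compE, lenE, he, hf, add_assoc]

theorem compH_length (ρ : σ → Reg ⊕ ℤ) (H : List (Fm σ)) : (compH ρ H).length = lenH H := by
  induction H with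
  | nil => rfl
  | cons e H ih =>
    simp [compH, lenH, ih, compE_length]
    omega

private theorem MachA_compE_nohalt (ρ : σ → Reg ⊕ ℤ) (e : Fm σ) (r : ℕ) :
    ∀ i ∈ compE ρ e r, ∀ o, i ≠ .halt o := by
  induction e generalizing r with
  | var v =>
    simp only [compE]
    split <;> simp
  | const c => simp [compE]
  | add e f he hf =>
    intro i hi o
    simp only [compE, List.mem_append, List.mem_singleton] at hi
    rcases hi with (hi | hi) | hi
    · exact he r i hi o
    · exact hf (r + 1) i hi o
    · rw [hi]; simp
  | mul e f he hf =>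
    intro i hi o
    simp only [compE, List.mem_append, List.mem_singleton] at hi
    rcases hi with (hi | hi) | hi
    · exact he r i hi o
    · exact hf (r + 1) i hi o
    · rw [hi]; simp

theorem compH_nohalt (ρ : σ → Reg ⊕ ℤ) (H : List (Fm σ)) :
    ∀ i ∈ compH ρ H, ∀ o, i ≠ .halt o := by
  induction H with
  | nil => simp [compH]
  | cons e H ih =>
    intro i hi o
    simp only [compH, List.mem_append, List.mem_singleton] at hi
    rcases hi with (hi | hi) | hi
    · exact MachA_compE_nohalt ρ e 0 i hi o
    · rw [hi]; simp
    · exact ih i hi o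

private theorem MachA_execL_append (x : ℕ × ℕ → ℝ) (l l' : List Instr)
    (hl : ∀ i ∈ l, ∀ o, i ≠ .halt o) (s : ℕ → ℝ) :
    execL x (l ++ l') s =
      ((execL x l' (execL x l s).1).1, (execL x l s).2 ++ (execL x l' (execL x l s).1).2) := by
  induction l generalizing s with
  | nil => simp [execL]
  | cons i l ih =>
    have hl' : ∀ i ∈ l, ∀ o, i ≠ .halt o := fun i hi => hl i (List.mem_cons_of_mem _ hi)
    have hi := hl i List.mem_cons_self
    cases i with
    | const r z => simp only [List.cons_append, execL, ih hl']
    | op o r i j => simp only [List.cons_append, execL, ih hl']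
    | branch i => simp only [List.cons_append, execL, ih hl']
    | halt o => exact absurd rfl (hi o)

private theorem MachA_exec_compE (x : ℕ × ℕ → ℝ) (ρ : σ → Reg ⊕ ℤ)
    (hρ : ∀ v r, ρ v ≠ .inl (.inr r)) (e : Fm σ) (r : ℕ) (s : ℕ → ℝ) :
    (execL x (compE ρ e r) s).2.length = lenE e ∧
      (execL x (compE ρ e r) s).1 r = e.eval (fun v => rval x (ρ v)) ∧
      ∀ j < r, (execL x (compE ρ e r) s).1 j = s j := by
  induction e generalizing r s with
  | var v =>
    simp only [compE, lenE, Fm.eval]
    rcases hv : ρ v with (i | i) | z
    · simp only [execL, rval, Op.val, Sum.elim_inl, Sum.elim_inr, Function.update_self]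
      refine ⟨rfl, ?_, ?_⟩
      · simp
      · intro j hj
        rw [Function.update_of_ne (by omega), Function.update_of_ne (by omega)]
    · exact absurd hv (hρ v i)
    · simp only [execL, rval, Function.update_self]
      refine ⟨rfl, ?_, ?_⟩
      · trivial
      · intro j hj
        rw [Function.update_of_ne (by omega), Function.update_of_ne (by omega)]
  | const c =>
    simp only [compE, lenE, Fm.eval, execL, Function.update_self]
    refine ⟨rfl, trivial, ?_⟩
    intro j hj
    rw [Function.update_of_ne (by omega)]
  | add e f he hf =>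
    simp only [compE, lenE, Fm.eval]
    rw [MachA_execL_append x _ _ (by
      intro i hi o
      rw [List.mem_append] at hi
      rcases hi with hi | hi
      · exact MachA_compE_nohalt ρ e r i hi o
      · exact MachA_compE_nohalt ρ f (r + 1) i hi o) s,
      MachA_execL_append x _ _ (MachA_compE_nohalt ρ e r) s]
    obtain ⟨h1, h2, h3⟩ := he r s
    obtain ⟨h4, h5, h6⟩ := hf (r + 1) (execL x (compE ρ e r) s).1
    refine ⟨?_, ?_, ?_⟩
    · simp [execL, h1, h4, add_assoc]
    · simp only [execL, Op.val, Sum.elim_inr, Function.update_self]
      rw [h5, h6 r (by omega), h2]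
    · intro j hj
      simp only [execL]
      rw [Function.update_of_ne (by omega), h6 j (by omega), h3 j hj]
  | mul e f he hf =>
    simp only [compE, lenE, Fm.eval]
    rw [MachA_execL_append x _ _ (by
      intro i hi o
      rw [List.mem_append] at hi
      rcases hi with hi | hi
      · exact MachA_compE_nohalt ρ e r i hi o
      · exact MachA_compE_nohalt ρ f (r + 1) i hi o) s,
      MachA_execL_append x _ _ (MachA_compE_nohalt ρ e r) s]
    obtain ⟨h1, h2, h3⟩ := he r s
    obtain ⟨h4, h5, h6⟩ := hf (r + 1) (execL x (compE ρ e r) s).1
    refine ⟨?_, ?_, ?_⟩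
    · simp [execL, h1, h4, add_assoc]
    · simp only [execL, Op.val, Sum.elim_inr, Function.update_self]
      rw [h5, h6 r (by omega), h2]
    · intro j hj
      simp only [execL]
      rw [Function.update_of_ne (by omega), h6 j (by omega), h3 j hj]

/-- `ρ` never points to a scratch register: the value of the variable is `rval x (ρ v)`. -/
theorem exec_compH (x : ℕ × ℕ → ℝ) (ρ : σ → Reg ⊕ ℤ) (hρ : ∀ v r, ρ v ≠ .inl (.inr r))
    (H : List (Fm σ)) (s : ℕ → ℝ) :
    (execL x (compH ρ H) s).2.length = lenH H ∧
      readH H (execL x (compH ρ H) s).2 = svc H (fun v => rval x (ρ v)) := by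
  induction H generalizing s with
  | nil => simp [compH, lenH, execL, readH, svc]
  | cons e H ih =>
    obtain ⟨h1, h2, -⟩ := MachA_exec_compE x ρ hρ e 0 s
    have key : execL x (compH ρ (e :: H)) s =
        ((execL x (compH ρ H) (execL x (compE ρ e 0) s).1).1,
          (execL x (compE ρ e 0) s).2 ++ (sgnCode ((execL x (compE ρ e 0) s).1 0) ::
            (execL x (compH ρ H) (execL x (compE ρ e 0) s).1).2)) := by
      simp only [compH]
      rw [List.append_assoc, MachA_execL_append x _ _ (MachA_compE_nohalt ρ e 0) s]
      simp [execL]
    obtain ⟨h3, h4⟩ := ih (execL x (compE ρ e 0) s).1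
    rw [key]
    refine ⟨?_, ?_⟩
    · simp only [List.length_append, List.length_cons, lenH]
      rw [h1, h3]
      omega
    · simp only [readH, svc]
      rw [← h2, ← h4, ← h1]
      congr 1
      · simp
      · congr 2
        simp [List.drop_append]

/-- `readH` looks only at the first `lenH H` entries. -/
theorem readH_append (H : List (Fm σ)) (h h' : List ℕ) (hl : h.length = lenH H) :
    readH H (h ++ h') = readH H h := by
  induction H generalizing h with
  | nil => rfl
  | cons e H ih =>
    simp only [lenH] at hl
    simp only [readH]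
    congr 1
    · rw [List.getD_append _ _ _ _ (by omega)]
    · rw [List.drop_append_of_le_length (by omega), ih _ (by rw [List.length_drop]; omega)]

/-- running an algorithm over a list of (non halting) instructions. -/
theorem runM_block (A : List ℕ × List ℕ → Instr) (d : List ℕ) (x : ℕ × ℕ → ℝ) (l : List Instr)
    (hl : ∀ i ∈ l, ∀ o, i ≠ .halt o) (t : ℕ) (h : List ℕ) (s : ℕ → ℝ)
    (hA : ∀ h' : List ℕ, h'.length < l.length → A (d, h ++ h') = l.getD h'.length (.halt [])) :
    runM A d x (l.length + t) h s =
      runM A d x t (h ++ (execL x l s).2) (execL x l s).1 := by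
  induction l generalizing h s with
  | nil => simp [execL]
  | cons i l ih =>
    have hl' : ∀ i ∈ l, ∀ o, i ≠ .halt o := fun i hi => hl i (List.mem_cons_of_mem _ hi)
    have hi := hl i List.mem_cons_self
    have h0 : A (d, h) = i := by
      have := hA [] (by simp)
      simpa using this
    have hA' : ∀ a : ℕ, ∀ h' : List ℕ, h'.length < l.length →
        A (d, (h ++ [a]) ++ h') = l.getD h'.length (.halt []) := by
      intro a h' hh
      have := hA (a :: h') (by simpa using hh)
      simpa using this
    rw [show (i :: l).length + t = (l.length + t) + 1 by simp; omega]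
    cases i with
    | const r z =>
      simp only [runM, h0, execL]
      rw [ih hl' _ _ (hA' 0)]
      simp
    | op o r i j =>
      simp only [runM, h0, execL]
      rw [ih hl' _ _ (hA' 0)]
      simp
    | branch i =>
      simp only [runM, h0, execL]
      rw [ih hl' _ _ (hA' _)]
      simp
    | halt o => exact absurd rfl (hi o)

end BU
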