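import Pool.Agent.Work.MP_4030f5_lc.U.Defs

/-! # Compilation of queries into blocks of instructions of fixed length -/

namespace BU

variable {σ : Type}

/-- code that puts the value of `e` into scratch register `r`; `ρ` gives for every variable a
register or an integer constant. The length depends only on `e`. -/
def compE (ρ : σ → Reg ⊕ ℤ) : Fm σ → ℕ → List Instr
  | .var v, r =>
    match ρ v with
    | .inl i => [.const r 0, .op .add r i (.inr r)]
    | .inr z => [.const r z, .const r z]
  | .const c, r => [.const r c]
  | .add e f, r => compE ρ e r ++ compE ρ f (r + 1) ++ [.op .add r (.inr r) (.inr (r + 1))]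
  | .mul e f, r => compE ρ e r ++ compE ρ f (r + 1) ++ [.op .mul r (.inr r) (.inr (r + 1))]

/-- number of instructions of `compE`. -/
def lenE : Fm σ → ℕ
  | .var _ => 2
  | .const _ => 1
  | .add e f => lenE e + lenE f + 1
  | .mul e f => lenE e + lenE f + 1

/-- block: all expressions of `H` are evaluated and their signs are tested. -/
def compH (ρ : σ → Reg ⊕ ℤ) : List (Fm σ) → List Instr
  | [] => [.const 0 0]
  | e :: H => compE ρ e 0 ++ [.branch (.inr 0)] ++ compH ρ H

def lenH : List (Fm σ) → ℕ
  | [] => 1
  | e :: H => lenE e + 1 + lenH H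

/-- read the answer from the outcomes of a block. -/
def readH : List (Fm σ) → List ℕ → ℕ
  | [], _ => 0
  | e :: H, h => h.getD (lenE e) 0 + 3 * readH H (h.drop (lenE e + 1))

/-- execute a list of instructions: scratch content and outcomes. -/
noncomputable def execL (x : ℕ × ℕ → ℝ) : List Instr → (ℕ → ℝ) → (ℕ → ℝ) × List ℕ
  | [], s => (s, [])
  | .const r z :: l, s =>
    let w := execL x l (Function.update s r (z : ℝ))
    (w.1, 0 :: w.2)
  | .op o r i j :: l, s =>
    let w := execL x l (Function.update s r (o.val (Sum.elim x s i) (Sum.elim x s j)))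
    (w.1, 0 :: w.2)
  | .branch i :: l, s =>
    let w := execL x l s
    (w.1, sgnCode (Sum.elim x s i) :: w.2)
  | .halt _ :: _, s => (s, [])

/-- value of a variable. -/
noncomputable def rval (x : ℕ × ℕ → ℝ) : Reg ⊕ ℤ → ℝ
  | .inl (.inl i) => x i
  | .inl (.inr _) => 0
  | .inr z => (z : ℝ)

/-- the parameter values: coordinate `j` of the `i`-th item is input register `(i, l)` if
`src j = some l` and the discrete input `d_i` if `src j = none`. -/
noncomputable def parv {m : ℕ} (src : Fin m → Option ℕ) (d : List ℕ) (x : ℕ × ℕ → ℝ)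
    (i : ℕ) (j : Fin m) : ℝ :=
  match src j with
  | some l => x (i, l)
  | none => (d.getD i 0 : ℕ)

/-- the registers for query `q`. -/
def envQ {N m : ℕ} (src : Fin m → Option ℕ) (d : List ℕ) (q : ℕ) (z : Fin N × Fin m) : Reg ⊕ ℤ :=
  match src z.2 with
  | some l => .inl (.inl (dig d.length q z.1, l))
  | none => .inr (d.getD (dig d.length q z.1) 0 : ℕ)

/-- the answers recorded in a history consisting of blocks of length `B`. -/
def ansH (H : List (Fm σ)) (h : List ℕ) : List ℕ :=
  (List.range (h.length / lenH H)).map (fun b => readH H (h.drop (b * lenH H)))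

/-- the algorithm. -/
def algA {N m : ℕ} (H : List (Fm (Fin N × Fin m))) (src : Fin m → Option ℕ) (z : List ℕ)
    (next : ℕ × List ℕ → ℕ ⊕ List ℕ) (w : List ℕ × List ℕ) : Instr :=
  if w.1.length = 0 then .halt z
  else
    match next (w.1.length, ansH H w.2) with
    | .inl q => (compH (envQ src w.1 q) H).getD (w.2.length % lenH H) (.halt [])
    | .inr out => .halt out

end BU
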