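import Mathlib

/-! # Finite dimensional subfunctors (abstract linear algebra)

`A x` are the cochains of the object `x` (all degrees at once), `Zs x l` the negligible ones in
degree `l`, `N x` the normalised ones. Recursion on `l` from `L + 1` downwards: `P x l = Zs x l` for `l > L`.
Given `P · (l + 1)` (`= Zs ⊔ span` of a finite set, closed under `res`), `1 ≤ l ≤ L`, let
`S x = {f ∈ N x | d f ∈ P x (l + 1)}` and `B x = {f | ∃ g ∈ N x, f - d g ∈ Zs x l}`. `S x` modulo `B x` is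
finite dimensional: the kernel of `S x → P x (l + 1) / Zs x (l + 1)` consists of the `f ∈ N x` with
`d f ∈ Zs x (l + 1)`, for which `hfin` applies. Choose finite sets `T x ⊆ S x` that generate `S x` modulo
`B x` and put `P x l = Zs x l ⊔ span` of all `res g f`, `f ∈ T x'`, `g : Hom x' x` (a finite set, contained in `S x`
because `S` is closed under `res`; closed under `res` by `hcomp`; contains `T x` by `hid`).
For `l = 0` take `P x 0 = Zs x 0`. -/

namespace BU

private theorem SubF_fg {A : Type} [AddCommGroup A] [Module ℚ A] (Z S Q : Submodule ℚ A)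
    (d : A →ₗ[ℚ] A) (T : Finset A) (hQ : Q = Z ⊔ Submodule.span ℚ (T : Set A))
    (hS : ∀ f ∈ S, d f ∈ Q) :
    ∃ T1 : Finset A, (∀ f ∈ T1, f ∈ S) ∧
      ∀ f ∈ S, ∃ c ∈ Submodule.span ℚ (T1 : Set A), d (f - c) ∈ Z := by
  classical
  set φ : A →ₗ[ℚ] (A ⧸ Z) := Z.mkQ.comp d with hφ
  have h1 : S.map φ ≤ Submodule.span ℚ (Z.mkQ '' (T : Set A)) := by
    rintro _ ⟨f, hf, rfl⟩
    have h2 := hS f hf
    rw [hQ] at h2
    obtain ⟨z, hz, t, ht, hzt⟩ := Submodule.mem_sup.1 h2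
    have h3 : φ f = Z.mkQ t := by
      rw [hφ, LinearMap.comp_apply, ← hzt, map_add]
      have : Z.mkQ z = 0 := by simpa using hz
      rw [this, zero_add]
    rw [h3, ← Submodule.map_span]
    exact Submodule.mem_map_of_mem ht
  have h4 : (Submodule.span ℚ (Z.mkQ '' (T : Set A))).FG :=
    Submodule.fg_span (T.finite_toSet.image _)
  have h5 : (S.map φ).FG := by
    have : Module.Finite ℚ (Submodule.span ℚ (Z.mkQ '' (T : Set A))) :=
      Module.Finite.iff_fg.2 h4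
    have : Module.Finite ℚ (S.map φ) :=
      Submodule.finiteDimensional_of_le h1
    exact Module.Finite.iff_fg.1 this
  obtain ⟨s, hs⟩ := h5
  have h6 : ∀ r : (A ⧸ Z), r ∈ s → ∃ f ∈ S, φ f = r := by
    intro r hr
    have : r ∈ S.map φ := by
      rw [← hs]; exact Submodule.subset_span hr
    obtain ⟨f, hf, hfr⟩ := this
    exact ⟨f, hf, hfr⟩
  choose! g hg1 hg2 using h6
  refine ⟨s.image g, ?_, ?_⟩
  · intro f hf
    obtain ⟨r, hr, rfl⟩ := Finset.mem_image.1 hf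
    exact hg1 r hr
  · intro f hf
    have h7 : φ f ∈ (Submodule.span ℚ ((s.image g : Finset A) : Set A)).map φ := by
      have h8 : Submodule.span ℚ (s : Set (A ⧸ Z)) ≤
          (Submodule.span ℚ ((s.image g : Finset A) : Set A)).map φ := by
        rw [Submodule.span_le]
        intro r hr
        refine ⟨g r, Submodule.subset_span ?_, hg2 r hr⟩
        rw [Finset.coe_image]
        exact Set.mem_image_of_mem _ hr
      apply h8
      rw [hs]
      exact Submodule.mem_map_of_mem hf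
    obtain ⟨c, hc, hcf⟩ := h7
    refine ⟨c, hc, ?_⟩
    have h9 : φ (f - c) = 0 := by rw [map_sub, hcf, sub_self]
    exact (Submodule.Quotient.mk_eq_zero Z).1 h9

/-- the step of the recursion -/
private theorem SubF_step {O : Type} [Finite O] (Hom : O → O → Type) [∀ x y, Finite (Hom x y)]
    (A : O → Type) [∀ x, AddCommGroup (A x)] [∀ x, Module ℚ (A x)]
    (Zs : ∀ x, ℕ → Submodule ℚ (A x)) (N : ∀ x, Submodule ℚ (A x))
    (d : ∀ x, A x →ₗ[ℚ] A x) (res : ∀ {x y}, Hom x y → (A x →ₗ[ℚ] A y))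
    (hdZ : ∀ x l f, f ∈ Zs x l → d x f ∈ Zs x (l + 1))
    (hN : ∀ {x y} (g : Hom x y) f, f ∈ N x → res g f ∈ N y)
    (hres : ∀ {x y} (g : Hom x y) l f, f ∈ Zs x l → res g f ∈ Zs y l)
    (hcomm : ∀ {x y} (g : Hom x y) f, d y (res g f) = res g (d x f))
    (hid : ∀ x, ∃ g : Hom x x, ∀ f, res g f = f)
    (hcomp : ∀ {x y z} (g : Hom x y) (h : Hom y z), ∃ gh : Hom x z,
      ∀ f, res gh f = res h (res g f))
    (hfin : ∀ x l, 1 ≤ l → ∃ T : Finset (A x), (∀ f ∈ T, f ∈ N x ∧ d x f ∈ Zs x (l + 1)) ∧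
      ∀ f ∈ N x, d x f ∈ Zs x (l + 1) →
        ∃ c ∈ Submodule.span ℚ (T : Set (A x)), ∃ g ∈ N x, f - c - d x g ∈ Zs x l)
    (l : ℕ) (hl : 1 ≤ l) (Q : ∀ x, Submodule ℚ (A x))
    (hQ1 : ∀ x, ∃ T : Finset (A x), (∀ f ∈ T, f ∈ N x) ∧
        Q x = Zs x (l + 1) ⊔ Submodule.span ℚ (T : Set (A x)))
    (hQ2 : ∀ x y (g : Hom x y) f, f ∈ Q x → res g f ∈ Q y) :
    ∃ P : ∀ x, Submodule ℚ (A x),
      ((∀ x, ∃ T : Finset (A x), (∀ f ∈ T, f ∈ N x) ∧
        P x = Zs x l ⊔ Submodule.span ℚ (T : Set (A x))) ∧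
       (∀ x y (g : Hom x y) f, f ∈ P x → res g f ∈ P y)) ∧
      (∀ x, ∀ f ∈ P x, d x f ∈ Q x) ∧
      (∀ x, ∀ f ∈ N x, d x f ∈ Q x → ∃ g ∈ N x, f - d x g ∈ P x) := by
  classical
  have hZQ : ∀ x, Zs x (l + 1) ≤ Q x := by
    intro x
    obtain ⟨T, -, hT⟩ := hQ1 x
    rw [hT]; exact le_sup_left
  have h1 : ∀ x, ∃ T : Finset (A x), (∀ f ∈ T, f ∈ N x ∧ d x f ∈ Q x) ∧
      ∀ f ∈ N x, d x f ∈ Q x →
        ∃ c ∈ Submodule.span ℚ (T : Set (A x)), ∃ g ∈ N x, f - c - d x g ∈ Zs x l := by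
    intro x
    obtain ⟨T, -, hT⟩ := hQ1 x
    obtain ⟨T1, hT1, hT1'⟩ := SubF_fg (Zs x (l + 1)) (N x ⊓ (Q x).comap (d x)) (Q x) (d x) T hT
      (fun f hf => hf.2)
    obtain ⟨T0, hT0, hT0'⟩ := hfin x l hl
    refine ⟨T0 ∪ T1, ?_, ?_⟩
    · intro f hf
      rcases Finset.mem_union.1 hf with h | h
      · exact ⟨(hT0 f h).1, hZQ x (hT0 f h).2⟩
      · exact ⟨(hT1 f h).1, (hT1 f h).2⟩
    · intro f hf hdf
      obtain ⟨c1, hc1, hc1'⟩ := hT1' f ⟨hf, hdf⟩
      have hc1N : c1 ∈ N x := by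
        have : Submodule.span ℚ (T1 : Set (A x)) ≤ N x := by
          rw [Submodule.span_le]
          intro t ht
          exact (hT1 t ht).1
        exact this hc1
      obtain ⟨c2, hc2, g, hg, hg'⟩ := hT0' (f - c1) ((N x).sub_mem hf hc1N) hc1'
      refine ⟨c1 + c2, ?_, g, hg, ?_⟩
      · rw [Finset.coe_union, Submodule.span_union]
        exact Submodule.add_mem _ (Submodule.mem_sup_right hc1) (Submodule.mem_sup_left hc2)
      · have : f - (c1 + c2) - d x g = f - c1 - c2 - d x g := by abel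
        rw [this]; exact hg'
  choose T hT1 hT2 using h1
  -- generators
  let G : ∀ x, Set (A x) := fun x => ⋃ x' : O, ⋃ g : Hom x' x, (res g) '' (T x' : Set (A x'))
  have hGfin : ∀ x, (G x).Finite := by
    intro x
    exact Set.finite_iUnion (fun x' => Set.finite_iUnion
      (fun g => (T x').finite_toSet.image _))
  have hGmem : ∀ x f, f ∈ G x ↔ ∃ x', ∃ g : Hom x' x, ∃ t ∈ T x', res g t = f := by
    intro x f
    simp only [G, Set.mem_iUnion, Set.mem_image, Finset.mem_coe]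
  have hGN : ∀ x, ∀ f ∈ G x, f ∈ N x := by
    intro x f hf
    obtain ⟨x', g, t, ht, rfl⟩ := (hGmem x f).1 hf
    exact hN g t (hT1 x' t ht).1
  refine ⟨fun x => Zs x l ⊔ Submodule.span ℚ (G x), ⟨?_, ?_⟩, ?_, ?_⟩
  · intro x
    refine ⟨(hGfin x).toFinset, ?_, ?_⟩
    · intro f hf
      exact hGN x f ((hGfin x).mem_toFinset.1 hf)
    · rw [(hGfin x).coe_toFinset]
  · intro x y g
    have : Zs x l ⊔ Submodule.span ℚ (G x) ≤
        (Zs y l ⊔ Submodule.span ℚ (G y)).comap (res g) := by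
      refine sup_le ?_ ?_
      · intro f hf
        exact Submodule.mem_sup_left (hres g l f hf)
      · rw [Submodule.span_le]
        intro f hf
        obtain ⟨x', g', t, ht, rfl⟩ := (hGmem x f).1 hf
        obtain ⟨gh, hgh⟩ := hcomp g' g
        refine Submodule.mem_sup_right (Submodule.subset_span ?_)
        exact (hGmem y _).2 ⟨x', gh, t, ht, hgh t⟩
    intro f hf
    exact this hf
  · intro x
    have : Zs x l ⊔ Submodule.span ℚ (G x) ≤ (Q x).comap (d x) := by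
      refine sup_le ?_ ?_
      · intro f hf
        exact hZQ x (hdZ x l f hf)
      · rw [Submodule.span_le]
        intro f hf
        obtain ⟨x', g', t, ht, rfl⟩ := (hGmem x f).1 hf
        change d x (res g' t) ∈ Q x
        rw [hcomm g' t]
        exact hQ2 x' x g' _ (hT1 x' t ht).2
    intro f hf
    exact this hf
  · intro x f hf hdf
    obtain ⟨c, hc, g, hg, hg'⟩ := hT2 x f hf hdf
    refine ⟨g, hg, ?_⟩
    have h3 : f - d x g = (f - c - d x g) + c := by abel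
    rw [h3]
    refine Submodule.add_mem _ (Submodule.mem_sup_left hg') (Submodule.mem_sup_right ?_)
    refine Submodule.span_mono ?_ hc
    intro t ht
    obtain ⟨i, hi⟩ := hid x
    exact (hGmem x t).2 ⟨x, i, t, ht, hi t⟩

theorem subfunctor {O : Type} [Finite O] (Hom : O → O → Type) [∀ x y, Finite (Hom x y)]
    (A : O → Type) [∀ x, AddCommGroup (A x)] [∀ x, Module ℚ (A x)]
    (Zs : ∀ x, ℕ → Submodule ℚ (A x)) (N : ∀ x, Submodule ℚ (A x))
    (d : ∀ x, A x →ₗ[ℚ] A x) (res : ∀ {x y}, Hom x y → (A x →ₗ[ℚ] A y))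
    (hdZ : ∀ x l f, f ∈ Zs x l → d x f ∈ Zs x (l + 1))
    (hN : ∀ {x y} (g : Hom x y) f, f ∈ N x → res g f ∈ N y)
    (hres : ∀ {x y} (g : Hom x y) l f, f ∈ Zs x l → res g f ∈ Zs y l)
    (hcomm : ∀ {x y} (g : Hom x y) f, d y (res g f) = res g (d x f))
    (hid : ∀ x, ∃ g : Hom x x, ∀ f, res g f = f)
    (hcomp : ∀ {x y z} (g : Hom x y) (h : Hom y z), ∃ gh : Hom x z,
      ∀ f, res gh f = res h (res g f))
    (hfin : ∀ x l, 1 ≤ l → ∃ T : Finset (A x), (∀ f ∈ T, f ∈ N x ∧ d x f ∈ Zs x (l + 1)) ∧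
      ∀ f ∈ N x, d x f ∈ Zs x (l + 1) →
        ∃ c ∈ Submodule.span ℚ (T : Set (A x)), ∃ g ∈ N x, f - c - d x g ∈ Zs x l) (L : ℕ) :
    ∃ P : ∀ x, ℕ → Submodule ℚ (A x),
      (∀ x l, ∃ T : Finset (A x), (∀ f ∈ T, f ∈ N x) ∧
        P x l = Zs x l ⊔ Submodule.span ℚ (T : Set (A x))) ∧
      (∀ x l, 1 ≤ l → ∀ f ∈ P x l, d x f ∈ P x (l + 1)) ∧
      (∀ {x y} (g : Hom x y) l f, f ∈ P x l → res g f ∈ P y l) ∧
      (∀ x l, 1 ≤ l → l ≤ L → ∀ f ∈ N x, d x f ∈ P x (l + 1) →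
        ∃ g ∈ N x, f - d x g ∈ P x l) := by
  classical
  let Good : ℕ → (∀ x, Submodule ℚ (A x)) → Prop := fun l Q =>
    (∀ x, ∃ T : Finset (A x), (∀ f ∈ T, f ∈ N x) ∧
        Q x = Zs x l ⊔ Submodule.span ℚ (T : Set (A x))) ∧
      (∀ x y (g : Hom x y) f, f ∈ Q x → res g f ∈ Q y)
  let Rel : (∀ x, Submodule ℚ (A x)) → (∀ x, Submodule ℚ (A x)) → Prop := fun P Q =>
    (∀ x, ∀ f ∈ P x, d x f ∈ Q x) ∧
      (∀ x, ∀ f ∈ N x, d x f ∈ Q x → ∃ g ∈ N x, f - d x g ∈ P x)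
  have hstep : ∀ l Q, 1 ≤ l ∧ Good (l + 1) Q → ∃ P, Good l P ∧ Rel P Q := by
    rintro l Q ⟨hl, hQ1, hQ2⟩
    exact SubF_step Hom A Zs N d res hdZ hN hres hcomm hid hcomp hfin l hl Q hQ1 hQ2
  choose! F hF1 hF2 using hstep
  have hZgood : ∀ l, Good l (fun x => Zs x l) := by
    intro l
    refine ⟨fun x => ⟨∅, by simp, by simp⟩, fun x y g f hf => hres g l f hf⟩
  let R : ℕ → (∀ x, Submodule ℚ (A x)) := fun j =>
    Nat.rec (fun x => Zs x (L + 1)) (fun j Q => F (L - j) Q) j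
  have hR0 : R 0 = fun x => Zs x (L + 1) := rfl
  have hRs : ∀ j, R (j + 1) = F (L - j) (R j) := fun j => rfl
  have hRgood : ∀ j, j ≤ L → Good (L + 1 - j) (R j) := by
    intro j
    induction j with
    | zero => intro _; exact hZgood (L + 1)
    | succ j ih =>
      intro hj
      have h1 := ih (by omega)
      have h2 : L + 1 - (j + 1) = L - j := by omega
      have h3 : L + 1 - j = (L - j) + 1 := by omega
      rw [h3] at h1
      rw [h2, hRs]
      exact hF1 (L - j) (R j) ⟨by omega, h1⟩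
  have hRrel : ∀ j, j + 1 ≤ L → Rel (R (j + 1)) (R j) := by
    intro j hj
    have h1 := hRgood j (by omega)
    have h3 : L + 1 - j = (L - j) + 1 := by omega
    rw [h3] at h1
    rw [hRs]
    exact hF2 (L - j) (R j) ⟨by omega, h1⟩
  let P : ∀ x, ℕ → Submodule ℚ (A x) := fun x l =>
    if 1 ≤ l ∧ l ≤ L then R (L + 1 - l) x else Zs x l
  have hPa : ∀ x l, 1 ≤ l → l ≤ L → P x l = R (L + 1 - l) x := by
    intro x l h1 h2
    simp only [P]
    rw [if_pos ⟨h1, h2⟩]
  have hPb : ∀ x l, ¬ (1 ≤ l ∧ l ≤ L) → P x l = Zs x l := by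
    intro x l h1
    simp only [P]
    rw [if_neg h1]
  have hPc : ∀ x l, 1 ≤ l → l ≤ L → P x (l + 1) = R (L - l) x := by
    intro x l h1 h2
    by_cases h3 : l + 1 ≤ L
    · rw [hPa x (l + 1) (by omega) h3]
      have : L + 1 - (l + 1) = L - l := by omega
      rw [this]
    · have h4 : l = L := by omega
      subst h4
      rw [hPb x (l + 1) (by omega), Nat.sub_self, hR0]
  have hrel : ∀ l, 1 ≤ l → l ≤ L → Rel (R (L + 1 - l)) (R (L - l)) := by
    intro l h1 h2
    have h3 : L + 1 - l = (L - l) + 1 := by omega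
    rw [h3]
    exact hRrel (L - l) (by omega)
  have hgoodP : ∀ l, 1 ≤ l → l ≤ L → Good l (R (L + 1 - l)) := by
    intro l h1 h2
    have h3 := hRgood (L + 1 - l) (by omega)
    have h4 : L + 1 - (L + 1 - l) = l := by omega
    rw [h4] at h3
    exact h3
  refine ⟨P, ?_, ?_, ?_, ?_⟩
  · intro x l
    by_cases h : 1 ≤ l ∧ l ≤ L
    · rw [hPa x l h.1 h.2]
      exact (hgoodP l h.1 h.2).1 x
    · rw [hPb x l h]
      exact ⟨∅, by simp, by simp⟩
  · intro x l hl f hf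
    by_cases h : l ≤ L
    · rw [hPa x l hl h] at hf
      rw [hPc x l hl h]
      exact (hrel l hl h).1 x f hf
    · rw [hPb x l (by omega)] at hf
      rw [hPb x (l + 1) (by omega)]
      exact hdZ x l f hf
  · intro x y g l f hf
    by_cases h : 1 ≤ l ∧ l ≤ L
    · rw [hPa x l h.1 h.2] at hf
      rw [hPa y l h.1 h.2]
      exact (hgoodP l h.1 h.2).2 x y g f hf
    · rw [hPb x l h] at hf
      rw [hPb y l h]
      exact hres g l f hf
  · intro x l h1 h2 f hf hdf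
    rw [hPa x l h1 h2]
    rw [hPc x l h1 h2] at hdf
    exact (hrel l h1 h2).2 x f hf hdf

/-- a basis of `P` modulo `Z`. -/
theorem basis_mod {A : Type} [AddCommGroup A] [Module ℚ A] (Zs N : Submodule ℚ A) (T : Finset A)
    (hT : ∀ f ∈ T, f ∈ N) :
    ∃ (β : ℕ) (φ : ℕ → A), (∀ b, φ b ∈ N) ∧ (∀ b < β, φ b ∈ Zs ⊔ Submodule.span ℚ (T : Set A)) ∧
      (∀ f ∈ Zs ⊔ Submodule.span ℚ (T : Set A), ∃ c : ℕ → ℚ,
        f - ∑ b ∈ Finset.range β, c b • φ b ∈ Zs) ∧
      ∀ c : ℕ → ℚ, ∑ b ∈ Finset.range β, c b • φ b ∈ Zs → ∀ b < β, c b = 0 := by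
  classical
  obtain ⟨b, hb1, hb2, hb3⟩ := exists_linearIndependent ℚ (Zs.mkQ '' (T : Set A))
  have hbfin : b.Finite := (T.finite_toSet.image _).subset hb1
  have : Fintype b := hbfin.fintype
  have hpre : ∀ r : b, ∃ t ∈ T, Zs.mkQ t = (r : A ⧸ Zs) := by
    intro r
    obtain ⟨t, ht, htr⟩ := hb1 r.2
    exact ⟨t, ht, htr⟩
  choose g hg1 hg2 using hpre
  let e : Fin (Fintype.card b) ≃ b := (Fintype.equivFin b).symm
  let φ : ℕ → A := fun i => if h : i < Fintype.card b then g (e ⟨i, h⟩) else 0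
  have hφ : ∀ i : Fin (Fintype.card b), φ i = g (e i) := by
    intro i
    simp only [φ]
    rw [dif_pos i.2]
  have hφQ : ∀ i : Fin (Fintype.card b), Zs.mkQ (φ i) = (e i : A ⧸ Zs) := by
    intro i
    rw [hφ, hg2]
  have hli : LinearIndependent ℚ (fun i : Fin (Fintype.card b) => Zs.mkQ (φ i)) := by
    have h1 : (fun i : Fin (Fintype.card b) => Zs.mkQ (φ i)) =
        (fun r : b => (r : A ⧸ Zs)) ∘ e := by
      funext i
      exact hφQ i
    rw [h1]
    exact hb3.comp e e.injective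
  refine ⟨Fintype.card b, φ, ?_, ?_, ?_, ?_⟩
  · intro i
    by_cases h : i < Fintype.card b
    · simp only [φ]
      rw [dif_pos h]
      exact hT _ (hg1 _)
    · simp only [φ]
      rw [dif_neg h]
      exact N.zero_mem
  · intro i h
    simp only [φ]
    rw [dif_pos h]
    exact Submodule.mem_sup_right (Submodule.subset_span (hg1 _))
  · intro f hf
    obtain ⟨z, hz, t, ht, rfl⟩ := Submodule.mem_sup.1 hf
    have h1 : Zs.mkQ t ∈ Submodule.span ℚ (Set.range (fun i : Fin (Fintype.card b) =>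
        Zs.mkQ (φ i))) := by
      have h2 : Set.range (fun i : Fin (Fintype.card b) => Zs.mkQ (φ i)) = b := by
        ext r
        constructor
        · rintro ⟨i, rfl⟩
          change Zs.mkQ (φ i) ∈ b
          rw [hφQ]
          exact (e i).2
        · intro hr
          refine ⟨e.symm ⟨r, hr⟩, ?_⟩
          change Zs.mkQ (φ _) = r
          rw [hφQ, Equiv.apply_symm_apply]
      rw [h2, hb2, ← Submodule.map_span]
      exact Submodule.mem_map_of_mem ht
    obtain ⟨c, hc⟩ := (Submodule.mem_span_range_iff_exists_fun ℚ).1 h1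
    refine ⟨fun i => if h : i < Fintype.card b then c ⟨i, h⟩ else 0, ?_⟩
    rw [Finset.sum_range]
    have h3 : (∑ i : Fin (Fintype.card b),
        (if h : (i : ℕ) < Fintype.card b then c ⟨i, h⟩ else 0) • φ i) =
        ∑ i : Fin (Fintype.card b), c i • φ i := by
      refine Finset.sum_congr rfl (fun i _ => ?_)
      rw [dif_pos i.2]
    rw [h3]
    have h4 : Zs.mkQ (z + t - ∑ i : Fin (Fintype.card b), c i • φ i) = 0 := by
      rw [map_sub, map_add, map_sum]
      have h5 : Zs.mkQ z = 0 := by simpa using hz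
      rw [h5, zero_add, ← hc]
      simp only [map_smul, sub_self]
    exact (Submodule.Quotient.mk_eq_zero Zs).1 h4
  · intro c hc i hi
    rw [Finset.sum_range] at hc
    have h4 : Zs.mkQ (∑ i : Fin (Fintype.card b), c i • φ i) = 0 :=
      (Submodule.Quotient.mk_eq_zero Zs).2 hc
    rw [map_sum] at h4
    simp only [map_smul] at h4
    exact (Fintype.linearIndependent_iff.1 hli) (fun i => c i) h4 ⟨i, hi⟩

end BU
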