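import Pool.Agent.Work.MP_4030f5_lc.U.FinE
import Pool.Agent.Work.MP_4030f5_lc.U.SubF

/-! # Existence of the finite model

Objects: pairs `(r, W)` with `1 ≤ r ≤ k` and `W` a class `cls (G r) y`, `y` good (finitely many by
`finite_cls`). `Hom (r', W') (r, W)`: strictly increasing `ι : Fin r' → Fin r` with
`W' = cls (G r') (y ∘ ι)` for `y ∈ W`. `A (r, W) = List ((Fin r × Fin m → ℝ) × (Fin k → ℝ)) → ℚ`,
`Zs (r, W) l = ZS (EW E (Cc r W)) l`, `N = {f | f [] = 0}`, `d = BU.D`, `res ι f τ = f (τ.map (resI ι))`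
(`Z_comap`: `resI ι` is uniformly continuous and maps `EW E (Cc r W)` to `EW E (Cc r' W')` by
`BallsOK`; `D_comp_map`). `hdZ`: `D f` at lists of length `l + 1` involves `f` at the sublists of length
`l` (`D_eq_zero`, `T6a_D_restrict`). `hfin` from `finite_EW` (`HL X l` is a quotient of `cyc X`; for `f` with
`D f ∈ ZS (l + 1)` replace `f` by its restriction to lists of length `l`). Apply `subfunctor` with
`L = k`, then `basis_mod` for every object and `l`; the matrices are the coefficients. -/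

namespace BU

private theorem ModelEx_mem_ZS {M : Type} [PseudoMetricSpace M] {X : Set M} {l : ℕ}
    {f : List M → ℚ} :
    f ∈ ZS X l ↔ Z X (fun τ => if τ.length = l then f τ else 0) := Iff.rfl

private theorem ModelEx_D_ZS {M : Type} [MetricSpace M] {X : Set M} {l : ℕ}
    {f : List M → ℚ} (hf : f ∈ ZS X l) : D f ∈ ZS X (l + 1) := by
  have h := Z_D (ModelEx_mem_ZS.1 hf)
  refine ModelEx_mem_ZS.2 (cast (congrArg (Z X) ?_) h)
  funext τ
  exact T6a_D_restrict f l τ

private theorem ModelEx_ZS_of_Z {M : Type} [MetricSpace M] {X : Set M} {l : ℕ}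
    {f : List M → ℚ} (hf : Z X f) : f ∈ ZS X l := by
  obtain ⟨η, hη, h⟩ := hf
  refine ModelEx_mem_ZS.2 ⟨η, hη, fun τ h1 h2 => ?_⟩
  show (if τ.length = l then f τ else 0) = 0
  rw [h τ h1 h2]
  simp

/-- `D` as a linear map -/
private def ModelEx_d (M : Type) : (List M → ℚ) →ₗ[ℚ] (List M → ℚ) where
  toFun := D
  map_add' f g := by
    funext l
    exact D_add f g l
  map_smul' c f := by
    funext l
    exact D_map (AddMonoidHom.mulLeft c) f l

/-- functions vanishing at the empty list -/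
private def ModelEx_N (M : Type) : Submodule ℚ (List M → ℚ) where
  carrier := {f | f [] = 0}
  add_mem' := by
    intro f g hf hg
    change f [] = 0 at hf
    change g [] = 0 at hg
    change f [] + g [] = 0
    rw [hf, hg, add_zero]
  zero_mem' := rfl
  smul_mem' := by
    intro c f hf
    change f [] = 0 at hf
    change c * f [] = 0
    rw [hf, mul_zero]

/-- pull back as a linear map -/
private def ModelEx_pull {M N : Type} (φ : M → N) : (List N → ℚ) →ₗ[ℚ] (List M → ℚ) where
  toFun f := fun τ => f (τ.map φ)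
  map_add' f g := rfl
  map_smul' c f := rfl

private theorem ModelEx_fin {M : Type} [MetricSpace M] (X : Set M) (l : ℕ) (hl : 1 ≤ l)
    (h : Module.Finite ℚ (HL X l)) :
    ∃ T : Finset (List M → ℚ), (∀ f ∈ T, f ∈ ModelEx_N M ∧ ModelEx_d M f ∈ ZS X (l + 1)) ∧
      ∀ f ∈ ModelEx_N M, ModelEx_d M f ∈ ZS X (l + 1) →
        ∃ c ∈ Submodule.span ℚ (T : Set (List M → ℚ)), ∃ g ∈ ModelEx_N M,
          f - c - ModelEx_d M g ∈ ZS X l := by
  classical
  obtain ⟨s, hs⟩ := Module.finite_def.1 h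
  have hpre : ∀ r : HL X l, ∃ f : ↥(cyc X), ((bd X l).comap (cyc X).subtype).mkQ f = r :=
    fun r => Submodule.mkQ_surjective _ r
  choose g hg using hpre
  refine ⟨s.image (fun r => (g r : List M → ℚ)), ?_, ?_⟩
  · intro f hf
    obtain ⟨r, -, rfl⟩ := Finset.mem_image.1 hf
    exact ⟨(g r).2.1, ModelEx_ZS_of_Z (g r).2.2⟩
  · intro f hf hdf
    -- restriction to length `l`
    let f' : List M → ℚ := fun τ => if τ.length = l then f τ else 0
    have hf'0 : f' [] = 0 := by
      simp only [f']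
      rw [if_neg]
      simp only [List.length_nil]
      omega
    have hf'D : Z X (D f') := by
      refine cast (congrArg (Z X) ?_) (ModelEx_mem_ZS.1 hdf)
      funext τ
      exact (T6a_D_restrict f l τ).symm
    let F : ↥(cyc X) := ⟨f', hf'0, hf'D⟩
    have h1 : ((bd X l).comap (cyc X).subtype).mkQ F ∈
        (Submodule.span ℚ ((s.image g : Finset ↥(cyc X)) : Set ↥(cyc X))).map
          ((bd X l).comap (cyc X).subtype).mkQ := by
      have h2 : Submodule.span ℚ (s : Set (HL X l)) ≤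
          (Submodule.span ℚ ((s.image g : Finset ↥(cyc X)) : Set ↥(cyc X))).map
          ((bd X l).comap (cyc X).subtype).mkQ := by
        rw [Submodule.span_le]
        intro r hr
        refine ⟨g r, Submodule.subset_span ?_, hg r⟩
        rw [Finset.coe_image]
        exact Set.mem_image_of_mem _ hr
      apply h2
      rw [hs]
      exact Submodule.mem_top
    obtain ⟨c, hc, hcF⟩ := h1
    have h3 : ((bd X l).comap (cyc X).subtype).mkQ (F - c) = 0 := by
      rw [map_sub, hcF, sub_self]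
    have h4 : F - c ∈ (bd X l).comap (cyc X).subtype :=
      (Submodule.Quotient.mk_eq_zero _).1 h3
    obtain ⟨u, hu0, hu⟩ : f' - (c : List M → ℚ) ∈ bd X l := h4
    refine ⟨(c : List M → ℚ), ?_, u, hu0, ?_⟩
    · have h5 : (c : List M → ℚ) ∈ (Submodule.span ℚ
          ((s.image g : Finset ↥(cyc X)) : Set ↥(cyc X))).map (cyc X).subtype :=
        Submodule.mem_map_of_mem hc
      rw [Submodule.map_span] at h5
      refine Submodule.span_mono ?_ h5
      rintro _ ⟨w, hw, rfl⟩
      rw [Finset.coe_image] at hw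
      obtain ⟨r, hr, rfl⟩ := hw
      rw [Finset.coe_image]
      exact ⟨r, hr, rfl⟩
    · refine ModelEx_mem_ZS.2 (cast (congrArg (Z X) ?_) hu)
      funext τ
      change (if τ.length = l then (f' - (c : List M → ℚ)) τ - D u τ else 0) =
        if τ.length = l then (f - (c : List M → ℚ) - ModelEx_d M u) τ else 0
      split_ifs with hτ
      · change f' τ - (c : List M → ℚ) τ - D u τ = f τ - (c : List M → ℚ) τ - D u τ
        have : f' τ = f τ := by
          simp only [f']
          rw [if_pos hτ]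
        rw [this]
      · rfl

section objects

variable {k m : ℕ} (E : (Fin m → ℝ) → (Fin k → ℝ) → Prop)
    (G : (r : ℕ) → List (Fm (Fin r × Fin m)))

/-- the objects -/
private structure ModelEx_O where
  r : ℕ
  W : Set (Fin r × Fin m → ℝ)
  one_le : 1 ≤ r
  le : r ≤ k
  good : ∃ y, GoodP E y ∧ W = cls (G r) y

private theorem ModelEx_O_finite : Finite (ModelEx_O E G) := by
  have h1 : ∀ r : Fin (k + 1), Finite ↥(Set.range (fun x : Fin r × Fin m → ℝ => cls (G r) x)) :=
    fun r => (finite_cls (G r)).to_subtype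
  refine Finite.of_injective
    (β := Σ r : Fin (k + 1), ↥(Set.range (fun x : Fin r × Fin m → ℝ => cls (G r) x)))
    (fun o => ⟨⟨o.r, Nat.lt_succ_of_le o.le⟩, ⟨o.W, by
      obtain ⟨y, -, hy⟩ := o.good
      exact ⟨y, hy.symm⟩⟩⟩) ?_
  rintro ⟨r, W, h1, h2, h3⟩ ⟨r', W', h1', h2', h3'⟩ h
  simp only [Sigma.mk.injEq, Fin.mk.injEq] at h
  obtain ⟨rfl, h⟩ := h
  have h4 := eq_of_heq h
  simp only [Subtype.mk.injEq] at h4
  subst h4
  rfl

/-- the morphisms -/
private def ModelEx_Hom (x y : ModelEx_O E G) : Type :=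
  {ι : Fin x.r → Fin y.r // StrictMono ι ∧ ∃ v, GoodP E v ∧ y.W = cls (G y.r) v ∧
    x.W = cls (G x.r) (fun z => v (ι z.1, z.2))}

private theorem ModelEx_Hom_finite (x y : ModelEx_O E G) : Finite (ModelEx_Hom E G x y) :=
  Subtype.finite

end objects

private theorem ModelEx_cls_self {σ : Type} (F : List (Fm σ)) (x : σ → ℝ) : x ∈ cls F x :=
  SgnEq.refl F x

private theorem ModelEx_cls_eq {σ : Type} {F : List (Fm σ)} {x y : σ → ℝ} (h : y ∈ cls F x) :
    cls F y = cls F x := by
  ext z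
  exact ⟨fun hz => SgnEq.trans hz h, fun hz => SgnEq.trans hz (SgnEq.symm h)⟩

private theorem ModelEx_good_res {k m : ℕ} {E : (Fin m → ℝ) → (Fin k → ℝ) → Prop} {r r' : ℕ}
    {y : Fin r × Fin m → ℝ} (hy : GoodP E y) (ι : Fin r' → Fin r) :
    GoodP E (fun z : Fin r' × Fin m => y (ι z.1, z.2)) := fun j => hy (ι j)

private theorem ModelEx_resI_uc {k m r r' : ℕ} (ι : Fin r' → Fin r) :
    UniformContinuous (resI (k := k) (m := m) ι) := by
  have h : LipschitzWith 1 (resI (k := k) (m := m) ι) := by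
    refine LipschitzWith.of_dist_le_mul (fun p q => ?_)
    rw [NNReal.coe_one, one_mul]
    change max (dist (fun z : Fin r' × Fin m => p.1 (ι z.1, z.2))
      (fun z : Fin r' × Fin m => q.1 (ι z.1, z.2))) (dist p.2 q.2) ≤ max (dist p.1 q.1)
      (dist p.2 q.2)
    refine max_le_max ?_ le_rfl
    refine (dist_pi_le_iff dist_nonneg).2 (fun z => ?_)
    exact dist_le_pi_dist p.1 q.1 (ι z.1, z.2)
  exact h.uniformContinuous

theorem model_exists {k m : ℕ} (E : (Fin m → ℝ) → (Fin k → ℝ) → Prop)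
    (G : (r : ℕ) → List (Fm (Fin r × Fin m))) (hG : TypesOK E G)
    (Cc : (r : ℕ) → Set (Fin r × Fin m → ℝ) → Set (Fin r × Fin m → ℝ)) (hC : BallsOK E G Cc) :
    ∃ D : Model k m, D.OK E G Cc := by
  classical
  have : Finite (ModelEx_O E G) := ModelEx_O_finite E G
  have : ∀ x y, Finite (ModelEx_Hom E G x y) := ModelEx_Hom_finite E G
  -- the restriction maps send total spaces to total spaces
  have hmaps : ∀ {x y : ModelEx_O E G} (g : ModelEx_Hom E G x y),
      Set.MapsTo (resI (k := k) (m := m) g.1) (EW E (Cc y.r y.W)) (EW E (Cc x.r x.W)) := by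
    rintro x y ⟨ι, hι, v, hv, hyW, hxW⟩ p ⟨hp1, hp2⟩
    refine ⟨?_, fun j => hp2 (ι j)⟩
    have h1 := (hC y.r y.le v hv).2 x.r ι hι p.1 (by rw [← hyW]; exact hp1)
    rw [← hxW] at h1
    exact h1
  obtain ⟨P, hP1, hP2, hP3, hP4⟩ := subfunctor (ModelEx_Hom E G)
    (fun x => List ((Fin x.r × Fin m → ℝ) × (Fin k → ℝ)) → ℚ)
    (fun x l => ZS (EW E (Cc x.r x.W)) l) (fun x => ModelEx_N _) (fun x => ModelEx_d _)
    (fun {x y} g => ModelEx_pull (resI (k := k) (m := m) g.1))
    (fun x l f hf => ModelEx_D_ZS hf)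
    (fun {x y} g f hf => hf)
    (by
      intro x y g l f hf
      refine ModelEx_mem_ZS.2 ?_
      have h1 := Z_comap ((ModelEx_resI_uc (k := k) (m := m) g.1).uniformContinuousOn) (hmaps g)
        (ModelEx_mem_ZS.1 hf)
      refine cast (congrArg (Z _) ?_) h1
      funext τ
      change (if (τ.map (resI g.1)).length = l then f (τ.map (resI g.1)) else 0) = _
      rw [List.length_map]
      rfl)
    (by
      intro x y g f
      funext τ
      exact D_comp_map (resI (k := k) (m := m) g.1) f τ)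
    (by
      intro x
      obtain ⟨v, hv, hxv⟩ := x.good
      refine ⟨⟨id, strictMono_id, v, hv, hxv, hxv⟩, fun f => ?_⟩
      funext τ
      change f (τ.map (resI id)) = f τ
      have h1 : (resI (k := k) (m := m) (id : Fin x.r → Fin x.r)) = id := rfl
      rw [h1, List.map_id])
    (by
      rintro x y z ⟨ι, hι, v, hv, hyW, hxW⟩ ⟨κ, hκ, w, hw, hzW, hyW'⟩
      refine ⟨⟨κ ∘ ι, hκ.comp hι, w, hw, hzW, ?_⟩, fun f => ?_⟩
      · -- the restriction of `w` along `κ` lies in the class of `v`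
        have h1 : (fun t : Fin y.r × Fin m => w (κ t.1, t.2)) ∈ cls (G y.r) v := by
          rw [← hyW, hyW']
          exact ModelEx_cls_self _ _
        have h2 := (hG y.r v hv).2.2.2.2 x.r ι hι _ h1
        have h3 := ModelEx_cls_eq h2
        rw [hxW]
        exact h3.symm
      · funext τ
        change f (τ.map (resI (κ ∘ ι))) = f ((τ.map (resI κ)).map (resI ι))
        rw [List.map_map]
        rfl)
    (by
      intro x l hl
      obtain ⟨v, hv, hxv⟩ := x.good
      have h1 := finite_EW E G hG Cc hC x.r x.one_le x.le v hv (l - 1)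
      rw [← hxv, show l - 1 + 1 = l by omega] at h1
      exact ModelEx_fin _ l hl h1)
    k
  -- bases
  have hbas : ∀ (x : ModelEx_O E G) (l : ℕ), ∃ (β : ℕ)
      (φ : ℕ → (List ((Fin x.r × Fin m → ℝ) × (Fin k → ℝ)) → ℚ)),
      (∀ b, φ b ∈ ModelEx_N _) ∧ (∀ b < β, φ b ∈ P x l) ∧
      (∀ f ∈ P x l, ∃ c : ℕ → ℚ, f - ∑ b ∈ Finset.range β, c b • φ b ∈
        ZS (EW E (Cc x.r x.W)) l) ∧
      ∀ c : ℕ → ℚ, ∑ b ∈ Finset.range β, c b • φ b ∈ ZS (EW E (Cc x.r x.W)) l →
        ∀ b < β, c b = 0 := by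
    intro x l
    obtain ⟨T, hT1, hT2⟩ := hP1 x l
    rw [hT2]
    exact basis_mod _ _ T hT1
  choose β φ hφN hφP hφe hφi using hbas
  have hsum : ∀ {M : Type} (s : Finset ℕ) (c : ℕ → ℚ) (ψ : ℕ → (List M → ℚ)),
      (fun τ => ∑ b ∈ s, c b * ψ b τ) = ∑ b ∈ s, c b • ψ b := by
    intro M s c ψ
    funext τ
    rw [Finset.sum_apply]
    rfl
  let Val : (r : ℕ) → Set (Fin r × Fin m → ℝ) → Prop := fun r W =>
    1 ≤ r ∧ r ≤ k ∧ ∃ y, GoodP E y ∧ W = cls (G r) y
  let ob : (r : ℕ) → (W : Set (Fin r × Fin m → ℝ)) → Val r W → ModelEx_O E G :=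
    fun r W h => ⟨r, W, h.1, h.2.1, h.2.2⟩
  let be : (r : ℕ) → Set (Fin r × Fin m → ℝ) → ℕ → ℕ := fun r W l =>
    if h : Val r W then β (ob r W h) l else 0
  let ph : (r : ℕ) → Set (Fin r × Fin m → ℝ) → ℕ → ℕ →
      List ((Fin r × Fin m → ℝ) × (Fin k → ℝ)) → ℚ := fun r W l b =>
    if h : Val r W then φ (ob r W h) l b else 0
  let wof : (r : ℕ) → Set (Fin r × Fin m → ℝ) → (r' : ℕ) → (Fin r' → Fin r) →
      Set (Fin r' × Fin m → ℝ) := fun r W r' ι =>
    {v | ∃ w ∈ W, v ∈ cls (G r') (fun z => w (ι z.1, z.2))}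
  let mA : (r : ℕ) → Set (Fin r × Fin m → ℝ) → ℕ → ℕ → ℕ → ℚ := fun r W l b b' =>
    if h : ∃ c : ℕ → ℚ, (fun τ => D (ph r W l b') τ -
      ∑ b ∈ Finset.range (be r W (l + 1)), c b * ph r W (l + 1) b τ) ∈
        ZS (EW E (Cc r W)) (l + 1) then h.choose b else 0
  let mR : (r : ℕ) → Set (Fin r × Fin m → ℝ) → (r' : ℕ) → (Fin r' → Fin r) → ℕ → ℕ → ℕ → ℚ :=
    fun r W r' ι l b b' =>
    if h : ∃ c : ℕ → ℚ, (fun τ => ph r' (wof r W r' ι) l b' (τ.map (resI ι)) -
      ∑ b ∈ Finset.range (be r W l), c b * ph r W l b τ) ∈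
        ZS (EW E (Cc r W)) l then h.choose b else 0
  refine ⟨⟨be, ph, mA, mR⟩, ?_⟩
  intro r h1r hrk y hy
  have hval : Val r (cls (G r) y) := ⟨h1r, hrk, y, hy, rfl⟩
  have hbe : ∀ l, be r (cls (G r) y) l = β (ob _ _ hval) l := by
    intro l
    simp only [be]
    rw [dif_pos hval]
  have hph : ∀ l b, ph r (cls (G r) y) l b = φ (ob _ _ hval) l b := by
    intro l b
    simp only [ph]
    rw [dif_pos hval]
  refine ⟨?_, ?_, ?_, ?_, ?_⟩
  · intro l b
    change ph r (cls (G r) y) l b [] = 0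
    rw [hph]
    exact hφN (ob _ _ hval) l b
  · intro l c
    change (fun τ => ∑ b ∈ Finset.range (be r (cls (G r) y) l),
      c b * ph r (cls (G r) y) l b τ) ∈ ZS (EW E (Cc r (cls (G r) y))) l →
      ∀ b < be r (cls (G r) y) l, c b = 0
    rw [hbe, hsum]
    simp only [hph]
    exact hφi (ob _ _ hval) l c
  · intro l hl b' hb'
    have hex : ∃ c : ℕ → ℚ, (fun τ => D (ph r (cls (G r) y) l b') τ -
      ∑ b ∈ Finset.range (be r (cls (G r) y) (l + 1)), c b * ph r (cls (G r) y) (l + 1) b τ) ∈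
        ZS (EW E (Cc r (cls (G r) y))) (l + 1) := by
      change b' < be r (cls (G r) y) l at hb'
      rw [hbe] at hb'
      obtain ⟨c, hc⟩ := hφe (ob _ _ hval) (l + 1) (D (φ (ob _ _ hval) l b'))
        (hP2 (ob _ _ hval) l hl _ (hφP (ob _ _ hval) l b' hb'))
      refine ⟨c, ?_⟩
      have h2 : (fun τ => D (ph r (cls (G r) y) l b') τ -
        ∑ b ∈ Finset.range (be r (cls (G r) y) (l + 1)),
          c b * ph r (cls (G r) y) (l + 1) b τ) =
          D (φ (ob _ _ hval) l b') -
            ∑ b ∈ Finset.range (β (ob _ _ hval) (l + 1)), c b • φ (ob _ _ hval) (l + 1) b := by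
        rw [← hsum]
        funext τ
        simp only [Pi.sub_apply, hph, hbe]
      rw [h2]
      exact hc
    have h3 : (fun b => mA r (cls (G r) y) l b b') = hex.choose := by
      funext b
      simp only [mA]
      rw [dif_pos hex]
    have h4 := hex.choose_spec
    rw [← h3] at h4
    exact h4
  · intro r' ι hr' hι l hl b' hb'
    have hr'k : r' ≤ k := by
      have := Fintype.card_le_of_injective ι hι.injective
      simp only [Fintype.card_fin] at this
      omega
    set y' : Fin r' × Fin m → ℝ := fun z => y (ι z.1, z.2) with hy'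
    have hval' : Val r' (cls (G r') y') :=
      ⟨hr', hr'k, y', ModelEx_good_res hy ι, rfl⟩
    have hbe' : ∀ l, be r' (cls (G r') y') l = β (ob _ _ hval') l := by
      intro l
      simp only [be]
      rw [dif_pos hval']
    have hph' : ∀ l b, ph r' (cls (G r') y') l b = φ (ob _ _ hval') l b := by
      intro l b
      simp only [ph]
      rw [dif_pos hval']
    have hwof : wof r (cls (G r) y) r' ι = cls (G r') y' := by
      ext v
      constructor
      · rintro ⟨w, hw, hv⟩
        have h2 := (hG r y hy).2.2.2.2 r' ι hι w hw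
        rw [ModelEx_cls_eq h2] at hv
        exact hv
      · intro hv
        exact ⟨y, ModelEx_cls_self _ _, hv⟩
    have hex : ∃ c : ℕ → ℚ, (fun τ => ph r' (wof r (cls (G r) y) r' ι) l b' (τ.map (resI ι)) -
      ∑ b ∈ Finset.range (be r (cls (G r) y) l), c b * ph r (cls (G r) y) l b τ) ∈
        ZS (EW E (Cc r (cls (G r) y))) l := by
      change b' < be r' (cls (G r') y') l at hb'
      rw [hbe'] at hb'
      let g : ModelEx_Hom E G (ob _ _ hval') (ob _ _ hval) := ⟨ι, hι, y, hy, rfl, rfl⟩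
      obtain ⟨c, hc⟩ := hφe (ob _ _ hval) l _ (hP3 g l _ (hφP (ob _ _ hval') l b' hb'))
      refine ⟨c, ?_⟩
      rw [hwof]
      have h2 : (fun τ => ph r' (cls (G r') y') l b' (τ.map (resI ι)) -
        ∑ b ∈ Finset.range (be r (cls (G r) y) l),
          c b * ph r (cls (G r) y) l b τ) =
          ModelEx_pull (resI (k := k) (m := m) ι) (φ (ob _ _ hval') l b') -
            ∑ b ∈ Finset.range (β (ob _ _ hval) l), c b • φ (ob _ _ hval) l b := by
        rw [← hsum]
        funext τ
        simp only [Pi.sub_apply, hph, hbe, hph']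
        rfl
      rw [h2]
      exact hc
    have h3 : (fun b => mR r (cls (G r) y) r' ι l b b') = hex.choose := by
      funext b
      simp only [mR]
      rw [dif_pos hex]
    have h4 := hex.choose_spec
    rw [← h3, hwof] at h4
    exact h4
  · intro l hl hlk f hf0 hcf
    obtain ⟨c, hc⟩ := hcf
    change (fun τ => D f τ - ∑ b ∈ Finset.range (be r (cls (G r) y) (l + 1)),
      c b * ph r (cls (G r) y) (l + 1) b τ) ∈ ZS (EW E (Cc r (cls (G r) y))) (l + 1) at hc
    have h2 : (fun τ => D f τ -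
        ∑ b ∈ Finset.range (be r (cls (G r) y) (l + 1)),
          c b * ph r (cls (G r) y) (l + 1) b τ) =
          D f - ∑ b ∈ Finset.range (β (ob _ _ hval) (l + 1)),
            c b • φ (ob _ _ hval) (l + 1) b := by
      rw [← hsum]
      funext τ
      simp only [Pi.sub_apply, hph, hbe]
    rw [h2] at hc
    have hZP : ∀ l, ZS (EW E (Cc r (cls (G r) y))) l ≤ P (ob _ _ hval) l := by
      intro l
      obtain ⟨T, -, hT2⟩ := hP1 (ob _ _ hval) l
      rw [hT2]
      exact le_sup_left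
    have h3 : D f ∈ P (ob _ _ hval) (l + 1) := by
      have h4 : D f = (D f - ∑ b ∈ Finset.range (β (ob _ _ hval) (l + 1)),
            c b • φ (ob _ _ hval) (l + 1) b) + ∑ b ∈ Finset.range (β (ob _ _ hval) (l + 1)),
            c b • φ (ob _ _ hval) (l + 1) b := by
        rw [sub_add_cancel]
      rw [h4]
      refine Submodule.add_mem _ (hZP (l + 1) hc) (Submodule.sum_mem _ (fun b hb => ?_))
      exact Submodule.smul_mem _ _ (hφP (ob _ _ hval) (l + 1) b (Finset.mem_range.1 hb))
    obtain ⟨g, hg0, hg⟩ := hP4 (ob _ _ hval) l hl hlk f hf0 h3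
    obtain ⟨c', hc'⟩ := hφe (ob _ _ hval) l _ hg
    refine ⟨g, c', hg0, ?_⟩
    change (fun τ => f τ - D g τ - ∑ b ∈ Finset.range (be r (cls (G r) y) l),
      c' b * ph r (cls (G r) y) l b τ) ∈ ZS (EW E (Cc r (cls (G r) y))) l
    have h5 : (fun τ => f τ - D g τ -
        ∑ b ∈ Finset.range (be r (cls (G r) y) l),
          c' b * ph r (cls (G r) y) l b τ) =
          f - D g - ∑ b ∈ Finset.range (β (ob _ _ hval) l),
            c' b • φ (ob _ _ hval) l b := by
      rw [← hsum]
      funext τ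
      simp only [Pi.sub_apply, hph, hbe]
    rw [h5]
    exact hc'

end BU
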