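import Pool.Agent.Work.MP_4030f5_lc.U.WtDefs
import Pool.Agent.Work.MP_9d4f6b_lc.Sep

/-! # One variable: rational points of bounded height in the intervals between the roots

For `b i = z i / Q` the function `t ↦ Q^(size e) * e.eval (ext b t)` is an integer polynomial of
degree at most `e.size ≤ C` whose `L1` norm is at most `(Z + 2) ^ (3 * e.wt)` (induction on `e`, submultiplicativity
of `L1`, MP_9d4f6b_lc.Poly). The real roots of all nonzero members form a finite set; two different roots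
are separated by `1 / sepB D H` (MP_9d4f6b_lc.Sep, `sep`), and their absolute value is at most `H` (a root of an
integer polynomial `≠ 0` of `L1` norm `≤ H` is at most `H` in absolute value: leading coefficient `≥ 1`).
Choose `u / v` in the same gap as `t`: between two consecutive roots with denominator
`sepB D H + 1`, or beyond all roots with `u = ± (H + 1)`, `v = 1`. -/

namespace BU

open Polynomial
open Pool.Agent.Work.MP_9d4f6b_lc (L1 BP sepB detB sep L1_mul L1_add L1_C L1_X L1_C_mul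
  coeff_le_L1 one_le_detB detB_mono L1_eq)

/-- the numerator polynomial of an expression in one variable -/
private noncomputable def uniP {N : ℕ} (z : Fin N → ℤ) (Q : ℕ) : Fm (Option (Fin N)) → ℤ[X]
  | .var none => C (Q : ℤ) * X
  | .var (some i) => C (z i)
  | .const c => C ((Q : ℤ) * c)
  | .add e f => C ((Q : ℤ) ^ (f.size + 1)) * uniP z Q e + C ((Q : ℤ) ^ (e.size + 1)) * uniP z Q f
  | .mul e f => C (Q : ℤ) * (uniP z Q e * uniP z Q f)

private theorem uniP_eval {N : ℕ} (z : Fin N → ℤ) {Q : ℕ} (hQ : 1 ≤ Q) (t : ℝ)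
    (e : Fm (Option (Fin N))) :
    aeval t (uniP z Q e) = (Q : ℝ) ^ e.size * e.eval (ext (fun i => (z i : ℝ) / Q) t) := by
  have hQ0 : (Q : ℝ) ≠ 0 := by
    have : 0 < Q := hQ
    positivity
  induction e with
  | var o =>
    cases o with
    | none => simp [uniP, Fm.size, Fm.eval, ext]
    | some i =>
      simp only [uniP, Fm.size, Fm.eval, ext, aeval_C, pow_one]
      rw [mul_div_cancel₀ _ hQ0]
      simp
  | const c => simp [uniP, Fm.size, Fm.eval]
  | add e f he hf =>
    simp only [uniP, Fm.size, Fm.eval, map_add, map_mul, aeval_C, he, hf, map_pow]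
    simp only [eq_intCast, Int.cast_natCast]
    ring
  | mul e f he hf =>
    simp only [uniP, Fm.size, Fm.eval, map_mul, aeval_C, he, hf]
    simp only [eq_intCast, Int.cast_natCast]
    ring

private theorem uni_size {σ : Type} (e : Fm σ) : e.size ≤ e.wt := by
  induction e with
  | var i => exact le_rfl
  | const c =>
    simp only [Fm.size, Fm.wt]
    omega
  | add e f he hf =>
    simp only [Fm.size, Fm.wt]
    omega
  | mul e f he hf =>
    simp only [Fm.size, Fm.wt]
    omega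

private theorem uniP_deg {N : ℕ} (z : Fin N → ℤ) (Q : ℕ) (e : Fm (Option (Fin N))) :
    (uniP z Q e).natDegree ≤ e.wt := by
  induction e with
  | var o =>
    cases o with
    | none =>
      simp only [uniP, Fm.wt]
      exact (natDegree_C_mul_le _ _).trans natDegree_X_le
    | some i => simp [uniP, Fm.wt]
  | const c =>
    simp only [uniP, Fm.wt]
    rw [natDegree_C]
    omega
  | add e f he hf =>
    simp only [uniP, Fm.wt]
    refine (natDegree_add_le _ _).trans (max_le ?_ ?_)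
    · exact ((natDegree_C_mul_le _ _).trans he).trans (by omega)
    · exact ((natDegree_C_mul_le _ _).trans hf).trans (by omega)
  | mul e f he hf =>
    simp only [uniP, Fm.wt]
    have h1 := natDegree_C_mul_le (Q : ℤ) (uniP z Q e * uniP z Q f)
    have h2 := natDegree_mul_le (p := uniP z Q e) (q := uniP z Q f)
    omega

private theorem uniP_L1 {N : ℕ} (z : Fin N → ℤ) (Q Z : ℕ) (hQZ : Q ≤ Z)
    (hz : ∀ i, |z i| ≤ Z) (e : Fm (Option (Fin N))) :
    L1 (uniP z Q e) ≤ (Z + 2) ^ (3 * e.wt) := by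
  set W := Z + 2 with hW
  have hW1 : 1 ≤ W := by omega
  have hQW : Q ≤ W := by omega
  have h3 : W ≤ W ^ 3 := by
    calc W = W ^ 1 := (pow_one W).symm
      _ ≤ W ^ 3 := Nat.pow_le_pow_right hW1 (by norm_num)
  induction e with
  | var o =>
    cases o with
    | none =>
      simp only [uniP, Fm.wt, mul_one]
      refine (L1_C_mul _ _).trans ?_
      rw [L1_X, mul_one, Int.natAbs_natCast]
      exact hQW.trans h3
    | some i =>
      simp only [uniP, Fm.wt, mul_one]
      rw [L1_C]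
      have h1 := hz i
      have h2 : (z i).natAbs ≤ Z := by
        rw [Int.abs_eq_natAbs] at h1
        exact_mod_cast h1
      exact (h2.trans (by omega)).trans h3
  | const c =>
    simp only [uniP, Fm.wt]
    rw [L1_C, Int.natAbs_mul, Int.natAbs_natCast]
    have h1 : c.natAbs ≤ W ^ c.natAbs := by
      have := Nat.lt_pow_self (n := c.natAbs) (show 1 < W by omega)
      exact this.le
    calc Q * c.natAbs ≤ W * W ^ c.natAbs := Nat.mul_le_mul hQW h1
      _ = W ^ (c.natAbs + 1) := by rw [pow_succ]; ring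
      _ ≤ W ^ (3 * (c.natAbs + 1)) := Nat.pow_le_pow_right hW1 (by omega)
  | add e f he hf =>
    simp only [uniP, Fm.wt]
    have hse := uni_size e
    have hsf := uni_size f
    have h1 : L1 (C ((Q : ℤ) ^ (f.size + 1)) * uniP z Q e) ≤ W ^ (3 * (e.wt + f.wt) + 1) := by
      refine (L1_C_mul _ _).trans ?_
      rw [Int.natAbs_pow, Int.natAbs_natCast]
      calc Q ^ (f.size + 1) * L1 (uniP z Q e) ≤ W ^ (f.size + 1) * W ^ (3 * e.wt) :=
            Nat.mul_le_mul (Nat.pow_le_pow_left hQW _) he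
        _ = W ^ (f.size + 1 + 3 * e.wt) := by rw [← pow_add]
        _ ≤ W ^ (3 * (e.wt + f.wt) + 1) := Nat.pow_le_pow_right hW1 (by omega)
    have h2 : L1 (C ((Q : ℤ) ^ (e.size + 1)) * uniP z Q f) ≤ W ^ (3 * (e.wt + f.wt) + 1) := by
      refine (L1_C_mul _ _).trans ?_
      rw [Int.natAbs_pow, Int.natAbs_natCast]
      calc Q ^ (e.size + 1) * L1 (uniP z Q f) ≤ W ^ (e.size + 1) * W ^ (3 * f.wt) :=
            Nat.mul_le_mul (Nat.pow_le_pow_left hQW _) hf
        _ = W ^ (e.size + 1 + 3 * f.wt) := by rw [← pow_add]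
        _ ≤ W ^ (3 * (e.wt + f.wt) + 1) := Nat.pow_le_pow_right hW1 (by omega)
    calc _ ≤ _ := L1_add _ _
      _ ≤ W ^ (3 * (e.wt + f.wt) + 1) + W ^ (3 * (e.wt + f.wt) + 1) := Nat.add_le_add h1 h2
      _ = 2 * W ^ (3 * (e.wt + f.wt) + 1) := by ring
      _ ≤ W * W ^ (3 * (e.wt + f.wt) + 1) := Nat.mul_le_mul_right _ (by omega)
      _ = W ^ (3 * (e.wt + f.wt) + 2) := by rw [pow_succ W (3 * (e.wt + f.wt) + 1)]; ring
      _ ≤ W ^ (3 * (e.wt + f.wt + 1)) := Nat.pow_le_pow_right hW1 (by omega)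
  | mul e f he hf =>
    simp only [uniP, Fm.wt]
    refine (L1_C_mul _ _).trans ?_
    rw [Int.natAbs_natCast]
    calc Q * L1 (uniP z Q e * uniP z Q f) ≤ W * (W ^ (3 * e.wt) * W ^ (3 * f.wt)) :=
          Nat.mul_le_mul hQW ((L1_mul _ _).trans (Nat.mul_le_mul he hf))
      _ = W ^ (3 * (e.wt + f.wt) + 1) := by rw [← pow_add, pow_succ]; ring
      _ ≤ W ^ (3 * (e.wt + f.wt + 1)) := Nat.pow_le_pow_right hW1 (by omega)

/-- the roots of an integer polynomial are bounded by its norm -/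
private theorem uni_root (P : ℤ[X]) (hP : P ≠ 0) (r : ℝ) (h : aeval r P = 0) :
    |r| ≤ L1 P := by
  have hlc : (1 : ℝ) ≤ |(P.coeff P.natDegree : ℝ)| := by
    have h1 : (1 : ℤ) ≤ |P.coeff P.natDegree| := Int.one_le_abs (leadingCoeff_ne_zero.2 hP)
    exact_mod_cast h1
  have hL : (1 : ℝ) ≤ L1 P := by
    have h1 := coeff_le_L1 P P.natDegree
    have h2 : P.coeff P.natDegree ≠ 0 := leadingCoeff_ne_zero.2 hP
    have h3 : 1 ≤ L1 P := by omega
    exact_mod_cast h3
  by_contra hcon
  push Not at hcon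
  have hr1 : 1 < |r| := lt_of_le_of_lt hL hcon
  obtain ⟨d, hd⟩ : ∃ d, P.natDegree = d := ⟨_, rfl⟩
  rw [aeval_eq_sum_range, hd, Finset.sum_range_succ] at h
  simp only [zsmul_eq_mul] at h
  rw [hd] at hlc
  cases d with
  | zero =>
    rw [Finset.sum_range_zero, zero_add, pow_zero, mul_one] at h
    rw [h, abs_zero] at hlc
    linarith
  | succ d =>
    have h1 : |(P.coeff (d + 1) : ℝ) * r ^ (d + 1)| ≤
        ∑ i ∈ Finset.range (d + 1), |(P.coeff i : ℝ)| * |r| ^ d := by
      have h2 : (P.coeff (d + 1) : ℝ) * r ^ (d + 1) =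
          -∑ i ∈ Finset.range (d + 1), (P.coeff i : ℝ) * r ^ i := by linarith
      rw [h2, abs_neg]
      refine (Finset.abs_sum_le_sum_abs _ _).trans (Finset.sum_le_sum fun i hi => ?_)
      rw [abs_mul, abs_pow]
      refine mul_le_mul_of_nonneg_left ?_ (abs_nonneg _)
      exact pow_le_pow_right₀ hr1.le (by have := Finset.mem_range.1 hi; omega)
    have h3 : ∑ i ∈ Finset.range (d + 1), |(P.coeff i : ℝ)| * |r| ^ d ≤ L1 P * |r| ^ d := by
      rw [← Finset.sum_mul]
      refine mul_le_mul_of_nonneg_right ?_ (by positivity)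
      have h4 : ∑ i ∈ Finset.range (d + 1), (P.coeff i).natAbs ≤ L1 P := by
        rw [L1_eq P (d + 1 + 1) (by omega),
          Finset.sum_range_succ (fun i => (P.coeff i).natAbs) (d + 1)]
        exact Nat.le_add_right _ _
      calc ∑ i ∈ Finset.range (d + 1), |(P.coeff i : ℝ)| =
            ((∑ i ∈ Finset.range (d + 1), (P.coeff i).natAbs : ℕ) : ℝ) := by
            push_cast
            refine Finset.sum_congr rfl fun i _ => ?_
            rw [Nat.cast_natAbs]
            push_cast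
            rfl
        _ ≤ L1 P := by exact_mod_cast h4
    have h5 : |r| ^ (d + 1) ≤ |(P.coeff (d + 1) : ℝ) * r ^ (d + 1)| := by
      rw [abs_mul, abs_pow]
      have := pow_pos (lt_trans one_pos hr1) (d + 1)
      nlinarith
    have h6 : (L1 P : ℝ) * |r| ^ d < |r| * |r| ^ d := by
      have := pow_pos (lt_trans one_pos hr1) d
      nlinarith
    rw [pow_succ'] at h5
    linarith

private theorem uni_detB {K K' n n' : ℕ} (hK : 1 ≤ K) (h : K ≤ K') (hn : n ≤ n') :
    detB K n ≤ detB K' n' := by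
  rcases Nat.eq_zero_or_pos n with h0 | h0
  · have h1 : detB K n = 1 := by
      subst h0
      simp [detB]
    rw [h1]
    exact one_le_detB (hK.trans h) n'
  · exact detB_mono hK h hn h0

private theorem uni_sepB {D D' H H' : ℕ} (hD : D ≤ D') (hH : H ≤ H') : sepB D H ≤ sepB D' H' := by
  unfold sepB
  have h1 : H ^ 2 ≤ H' ^ 2 := Nat.pow_le_pow_left hH 2
  exact Nat.mul_le_mul h1 (uni_detB (by omega) (by omega) (Nat.pow_le_pow_left hD 2))

/-- same gap, no root: same sign -/
private theorem uni_sign {g : ℝ → ℝ} (hg : Continuous g) {a b : ℝ}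
    (h : ∀ s ∈ Set.uIcc a b, g s ≠ 0) : SignType.sign (g a) = SignType.sign (g b) := by
  have ha := h a Set.left_mem_uIcc
  have hb := h b Set.right_mem_uIcc
  rcases lt_or_gt_of_ne ha with ha | ha
  · rcases lt_or_gt_of_ne hb with hb | hb
    · rw [sign_neg ha, sign_neg hb]
    · exfalso
      obtain ⟨s, hs, hs0⟩ := intermediate_value_uIcc (a := a) (b := b) (f := g) hg.continuousOn
        (show (0 : ℝ) ∈ Set.uIcc (g a) (g b) from Set.mem_uIcc.2 (Or.inl ⟨ha.le, hb.le⟩))
      exact h s hs hs0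
  · rcases lt_or_gt_of_ne hb with hb | hb
    · exfalso
      obtain ⟨s, hs, hs0⟩ := intermediate_value_uIcc (a := a) (b := b) (f := g) hg.continuousOn
        (show (0 : ℝ) ∈ Set.uIcc (g a) (g b) from Set.mem_uIcc.2 (Or.inr ⟨hb.le, ha.le⟩))
      exact h s hs hs0
    · rw [sign_pos ha, sign_pos hb]

/-- a rational number in the same gap of a finite set -/
private theorem uni_gap (R : Set ℝ) (hR : R.Finite) (H s : ℕ) (hH : ∀ r ∈ R, |r| ≤ H)
    (hs : ∀ r ∈ R, ∀ r' ∈ R, r ≠ r' → 1 ≤ |r - r'| * s) (t : ℝ) (ht : t ∉ R) :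
    ∃ (u : ℤ) (v : ℕ), 1 ≤ v ∧ v ≤ (H + 1) * (s + 1) ∧ |u| ≤ ((H + 1) * (s + 1) : ℕ) ∧
      ∀ r ∈ R, r ≠ (u : ℝ) / v ∧ (r < t ↔ r < (u : ℝ) / v) := by
  classical
  have hv : 1 ≤ (H + 1) * (s + 1) := Nat.mul_pos (by omega) (by omega)
  have hs1 : s + 1 ≤ (H + 1) * (s + 1) := Nat.le_mul_of_pos_left _ (by omega)
  have hH1 : H + 1 ≤ (H + 1) * (s + 1) := Nat.le_mul_of_pos_right _ (by omega)
  by_cases hU : ∃ r ∈ R, t < r
  · by_cases hL : ∃ r ∈ R, r < t
    · -- between two roots
      obtain ⟨a, ⟨haR, hat⟩, hamax⟩ := Set.exists_max_image {r | r ∈ R ∧ r < t} id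
        (hR.subset fun r hr => hr.1) hL
      obtain ⟨b, ⟨hbR, hbt⟩, hbmin⟩ := Set.exists_min_image {r | r ∈ R ∧ t < r} id
        (hR.subset fun r hr => hr.1) hU
      have hab : a < b := hat.trans hbt
      have h1 := hs b hbR a haR hab.ne'
      rw [abs_of_pos (sub_pos.2 hab)] at h1
      have h2 : 1 < (b - a) * ((s : ℝ) + 1) := by nlinarith [sub_pos.2 hab]
      have hsp : (0 : ℝ) < (s : ℝ) + 1 := by positivity
      set u : ℤ := ⌊a * ((s : ℝ) + 1)⌋ + 1 with hu
      have h3 : a * ((s : ℝ) + 1) < u := by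
        rw [hu]
        push_cast
        exact Int.lt_floor_add_one _
      have h4 : (u : ℝ) ≤ a * ((s : ℝ) + 1) + 1 := by
        rw [hu]
        push_cast
        have := Int.floor_le (a * ((s : ℝ) + 1))
        linarith
      have h5 : (u : ℝ) < b * ((s : ℝ) + 1) := by nlinarith
      have hqa : a < (u : ℝ) / ((s + 1 : ℕ) : ℝ) := by
        push_cast
        rw [lt_div_iff₀ hsp]
        exact h3
      have hqb : (u : ℝ) / ((s + 1 : ℕ) : ℝ) < b := by
        push_cast
        rw [div_lt_iff₀ hsp]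
        exact h5
      refine ⟨u, s + 1, by omega, hs1, ?_, fun r hr => ?_⟩
      · have h6 := abs_le.1 (hH a haR)
        have h7 := abs_le.1 (hH b hbR)
        have h8 : |(u : ℝ)| ≤ H * ((s : ℝ) + 1) := by
          rw [abs_le]
          constructor
          · nlinarith [h6.1]
          · nlinarith [h7.2]
        have h9 : |(u : ℝ)| ≤ (((H + 1) * (s + 1) : ℕ) : ℝ) := by
          push_cast
          nlinarith
        exact_mod_cast h9
      · rcases lt_trichotomy r t with hrt | hrt | hrt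
        · have h10 : r ≤ a := hamax r ⟨hr, hrt⟩
          have h11 := h10.trans_lt hqa
          exact ⟨h11.ne, fun _ => h11, fun _ => hrt⟩
        · exact absurd (hrt ▸ hr) ht
        · have h10 : b ≤ r := hbmin r ⟨hr, hrt⟩
          have h11 := hqb.trans_le h10
          exact ⟨h11.ne', fun h => absurd h (not_lt.2 hrt.le), fun h => absurd h (not_lt.2 h11.le)⟩
    · -- below all roots
      push Not at hL
      refine ⟨-((H : ℤ) + 1), 1, le_rfl, hv, ?_, fun r hr => ?_⟩
      · rw [abs_neg, abs_of_nonneg (by positivity)]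
        exact_mod_cast hH1
      · have h1 := (abs_le.1 (hH r hr)).1
        have h2 : ((-((H : ℤ) + 1) : ℤ) : ℝ) / ((1 : ℕ) : ℝ) < r := by
          push_cast
          linarith
        exact ⟨h2.ne', fun h => absurd h (not_lt.2 (hL r hr)), fun h => absurd h (not_lt.2 h2.le)⟩
  · -- above all roots
    push Not at hU
    refine ⟨(H : ℤ) + 1, 1, le_rfl, hv, ?_, fun r hr => ?_⟩
    · rw [abs_of_nonneg (by positivity)]
      exact_mod_cast hH1
    · have h1 := (abs_le.1 (hH r hr)).2
      have h2 : r < (((H : ℤ) + 1 : ℤ) : ℝ) / ((1 : ℕ) : ℝ) := by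
        push_cast
        linarith
      have h3 : r < t := lt_of_le_of_ne (hU r hr) (fun h => ht (h ▸ hr))
      exact ⟨h2.ne, fun _ => h2, fun _ => h3⟩

private theorem uni_mem_wt {σ : Type} {F : List (Fm σ)} {e : Fm σ} (he : e ∈ F) :
    e.wt ≤ twt F := by
  unfold twt
  exact List.single_le_sum (fun _ _ => Nat.zero_le _) _ (List.mem_map_of_mem he)

private theorem uni_eval_cont {N : ℕ} (b : Fin N → ℝ) (e : Fm (Option (Fin N))) :
    Continuous fun s => e.eval (ext b s) := by
  induction e with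
  | var o =>
    cases o with
    | none => exact continuous_id
    | some i => exact continuous_const
  | const c => exact continuous_const
  | add e f he hf => exact he.add hf
  | mul e f he hf => exact he.mul hf

theorem uni_sample : ∃ f : ℕ → ℕ → ℕ, Primrec₂ f ∧ (∀ Z, Monotone (f Z)) ∧
    (∀ C, Monotone (fun Z => f Z C)) ∧
    ∀ (N C Z : ℕ) (F : List (Fm (Option (Fin N)))) (z : Fin N → ℤ) (Q : ℕ), 1 ≤ Q → Q ≤ Z →
      (∀ i, |z i| ≤ Z) → twt F ≤ C → ∀ t : ℝ,
      (∀ e ∈ F, e.eval (ext (fun i => (z i : ℝ) / Q) t) ≠ 0 ∨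
        ∀ s, e.eval (ext (fun i => (z i : ℝ) / Q) s) = 0) →
      ∃ (u : ℤ) (v : ℕ), 1 ≤ v ∧ v ≤ f Z C ∧ |u| ≤ f Z C ∧
        ∀ e ∈ F, e.sgn (ext (fun i => (z i : ℝ) / Q) t) =
          e.sgn (ext (fun i => (z i : ℝ) / Q) ((u : ℝ) / v)) := by
  refine ⟨fun Z C => ((Z + 2) ^ (3 * C) + 1) * (sepB C ((Z + 2) ^ (3 * C)) + 1), ?_, ?_, ?_, ?_⟩
  · have pw : ∀ {f g : ℕ × ℕ → ℕ}, Primrec f → Primrec g → Primrec fun a => f a ^ g a :=
      fun hf hg => (Primrec₂.unpaired'.1 Nat.Primrec.pow).comp hf hg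
    have pH : Primrec fun a : ℕ × ℕ => (a.1 + 2) ^ (3 * a.2) :=
      pw (Primrec.nat_add.comp Primrec.fst (Primrec.const 2))
        (Primrec.nat_mul.comp (Primrec.const 3) Primrec.snd)
    have pH2 : Primrec fun a : ℕ × ℕ => ((a.1 + 2) ^ (3 * a.2)) ^ 2 := pw pH (Primrec.const 2)
    have pK : Primrec fun a : ℕ × ℕ => 2 * ((a.1 + 2) ^ (3 * a.2)) ^ 2 + 1 :=
      Primrec.nat_add.comp (Primrec.nat_mul.comp (Primrec.const 2) pH2) (Primrec.const 1)
    have pC : Primrec fun a : ℕ × ℕ => a.2 ^ 2 := pw Primrec.snd (Primrec.const 2)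
    have pS : Primrec fun a : ℕ × ℕ => sepB a.2 ((a.1 + 2) ^ (3 * a.2)) := by
      unfold sepB detB
      exact Primrec.nat_mul.comp pH2 (Primrec.nat_mul.comp (pw pC pC) (pw pK pC))
    exact Primrec.nat_mul.comp (Primrec.nat_add.comp pH (Primrec.const 1))
      (Primrec.nat_add.comp pS (Primrec.const 1))
  · intro Z C C' h
    have h1 : (Z + 2) ^ (3 * C) ≤ (Z + 2) ^ (3 * C') := Nat.pow_le_pow_right (by omega) (by omega)
    exact Nat.mul_le_mul (by omega) (Nat.add_le_add_right (uni_sepB h h1) 1)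
  · intro C Z Z' h
    have h1 : (Z + 2) ^ (3 * C) ≤ (Z' + 2) ^ (3 * C) := Nat.pow_le_pow_left (by omega) _
    exact Nat.mul_le_mul (by omega) (Nat.add_le_add_right (uni_sepB le_rfl h1) 1)
  · intro N C Z F z Q hQ hQZ hz hF t ht
    set H := (Z + 2) ^ (3 * C) with hH
    have hQ0 : (Q : ℝ) ≠ 0 := by
      have : 0 < Q := hQ
      positivity
    have hBP : ∀ e ∈ F, BP C H (uniP z Q e) := fun e he =>
      ⟨((uniP_deg z Q e).trans (uni_mem_wt he)).trans hF,
        (uniP_L1 z Q Z hQZ hz e).trans (Nat.pow_le_pow_right (by omega)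
          (Nat.mul_le_mul_left 3 ((uni_mem_wt he).trans hF)))⟩
    let R : Set ℝ := {r | ∃ e ∈ F, uniP z Q e ≠ 0 ∧ aeval r (uniP z Q e) = 0}
    have hRf : R.Finite := by
      have h1 : R ⊆ ⋃ e ∈ {e | e ∈ F}, {r : ℝ | uniP z Q e ≠ 0 ∧ aeval r (uniP z Q e) = 0} := by
        rintro r ⟨e, he, hr⟩
        exact Set.mem_biUnion he hr
      refine (Set.Finite.biUnion (List.finite_toSet F) fun e _ => ?_).subset h1
      by_cases hP : uniP z Q e = 0
      · refine (Set.finite_empty).subset ?_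
        rintro r ⟨h2, -⟩
        exact absurd hP h2
      · refine ((uniP z Q e).map (algebraMap ℤ ℝ)).roots.toFinset.finite_toSet.subset ?_
        rintro r ⟨-, h2⟩
        rw [Finset.mem_coe, Multiset.mem_toFinset, mem_roots
          ((Polynomial.map_ne_zero_iff (algebraMap ℤ ℝ).injective_int).2 hP)]
        rw [IsRoot.def, eval_map, ← aeval_def]
        exact h2
    have hRH : ∀ r ∈ R, |r| ≤ H := by
      rintro r ⟨e, he, hP, hr⟩
      have h1 := uni_root _ hP r hr
      have h2 : ((L1 (uniP z Q e) : ℕ) : ℝ) ≤ (H : ℝ) := by exact_mod_cast (hBP e he).2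
      exact h1.trans h2
    have hRs : ∀ r ∈ R, ∀ r' ∈ R, r ≠ r' → 1 ≤ |r - r'| * (sepB C H : ℕ) := by
      rintro r ⟨e, he, hP, hr⟩ r' ⟨e', he', hP', hr'⟩ hne
      exact sep C H _ _ hP hP' (hBP e he) (hBP e' he') r r' hr hr' hne
    have htR : t ∉ R := by
      rintro ⟨e, he, hP, hr⟩
      rw [uniP_eval z hQ] at hr
      rcases ht e he with h1 | h1
      · rcases mul_eq_zero.1 hr with h2 | h2
        · exact pow_ne_zero _ hQ0 h2
        · exact h1 h2
      · apply hP
        have h2 : (uniP z Q e).map (algebraMap ℤ ℝ) = 0 := by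
          refine Polynomial.funext fun s => ?_
          rw [eval_map, ← aeval_def, uniP_eval z hQ, h1, mul_zero, eval_zero]
        exact (Polynomial.map_eq_zero_iff (algebraMap ℤ ℝ).injective_int).1 h2
    obtain ⟨u, v, hv1, hv2, hu, hgap⟩ := uni_gap R hRf H (sepB C H) hRH hRs t htR
    refine ⟨u, v, hv1, hv2, hu, fun e he => ?_⟩
    by_cases hP : uniP z Q e = 0
    · have h1 : ∀ s, e.eval (ext (fun i => (z i : ℝ) / Q) s) = 0 := by
        intro s
        have h2 := uniP_eval z hQ s e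
        rw [hP, map_zero] at h2
        exact (mul_eq_zero.1 h2.symm).resolve_left (pow_ne_zero _ hQ0)
      unfold Fm.sgn
      rw [h1, h1]
    · refine uni_sign (uni_eval_cont _ e) fun s hs h0 => ?_
      have hsR : s ∈ R := ⟨e, he, hP, by rw [uniP_eval z hQ, h0, mul_zero]⟩
      obtain ⟨h1, h2⟩ := hgap s hsR
      have h3 : s ≠ t := fun h => htR (h ▸ hsR)
      rw [Set.mem_uIcc] at hs
      rcases hs with ⟨h4, h5⟩ | ⟨h4, h5⟩
      · exact absurd (h2.2 (lt_of_le_of_ne h5 h1)) (not_lt.2 h4)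
      · exact absurd (h2.1 (lt_of_le_of_ne h5 h3)) (not_lt.2 h4)

end BU
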