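import Pool.Agent.Work.MP_4030f5_lc.U.WtC
import Pool.Agent.Work.MP_4030f5_lc.U.GenD
import Pool.Agent.Work.MP_4030f5_lc.U.Uni

/-! # Rational sample points of bounded height

Induction on `N`. Rename the last coordinate to `none` (`Fin (N + 1)` and `Option (Fin N)`), apply
`wt_qe` to get `G`, the induction hypothesis (with `C` replaced by `f C`) to the generic point
`Fin.init x` (`Gen.rename`): a rational point `b'` with `SgnEq G (init x) b'`; the order isomorphism
gives a real `t'` with the same signs at `(b', t')` as at `x`; a member of `F` with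
`e.eval (ext b' t') = 0` has `e.eval x = 0`, so it is identically zero; apply `uni_sample`. Common denominator:
`Q * v`. Bound: `B 0 C = 1`, `B (N + 1) C = g (B N (f C)) C` with
`g Z C = (Z + 1) * (u Z C + 1)`; as a primitive recursive function of `(N, C)`: recursion on `i` from `0` to
`N`, step `b ↦ g b (f^[N - i - 1] C)`. -/

namespace BU

private def Multi_B (f : ℕ → ℕ) (g : ℕ → ℕ → ℕ) : ℕ → ℕ → ℕ
  | 0, _ => 1
  | N + 1, C => g (Multi_B f g N (f C)) C

private def Multi_R (f : ℕ → ℕ) (g : ℕ → ℕ → ℕ) (N C : ℕ) (i : ℕ) : ℕ :=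
  Nat.rec 1 (fun i b => g b (f^[N - (i + 1)] C)) i

private theorem Multi_R_succ (f : ℕ → ℕ) (g : ℕ → ℕ → ℕ) (N C : ℕ) :
    ∀ i ≤ N, Multi_R f g (N + 1) C i = Multi_R f g N (f C) i := by
  intro i
  induction i with
  | zero => intro _; rfl
  | succ i ih =>
    intro hi
    have h1 := ih (by omega)
    show g (Multi_R f g (N + 1) C i) (f^[N + 1 - (i + 1)] C) =
      g (Multi_R f g N (f C) i) (f^[N - (i + 1)] (f C))
    rw [h1, show N + 1 - (i + 1) = (N - (i + 1)) + 1 by omega, Function.iterate_succ_apply]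

private theorem Multi_R_eq (f : ℕ → ℕ) (g : ℕ → ℕ → ℕ) (N : ℕ) :
    ∀ C, Multi_R f g N C N = Multi_B f g N C := by
  induction N with
  | zero => intro C; rfl
  | succ N ih =>
    intro C
    show g (Multi_R f g (N + 1) C N) (f^[N + 1 - (N + 1)] C) = _
    rw [Multi_R_succ f g N C N le_rfl, ih, Nat.sub_self]
    rfl

private theorem Multi_primrec {f : ℕ → ℕ} {g : ℕ → ℕ → ℕ} (hf : Primrec f) (hg : Primrec₂ g) :
    Primrec₂ (Multi_B f g) := by
  have h1 : Primrec₂ fun (a : ℕ × ℕ) (n : ℕ) =>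
      (Nat.rec 1 (fun i b => g b (f^[a.1 - (i + 1)] a.2)) n : ℕ) := by
    refine Primrec.nat_rec (f := fun _ : ℕ × ℕ => 1)
      (g := fun (a : ℕ × ℕ) (p : ℕ × ℕ) => g p.2 (f^[a.1 - (p.1 + 1)] a.2)) (Primrec.const 1) ?_
    have e1 : Primrec fun q : (ℕ × ℕ) × (ℕ × ℕ) => f^[q.1.1 - (q.2.1 + 1)] q.1.2 :=
      Primrec.nat_iterate (h := fun _ b => f b)
        (Primrec.nat_sub.comp (Primrec.fst.comp Primrec.fst)
          (Primrec.succ.comp (Primrec.fst.comp Primrec.snd)))
        (Primrec.snd.comp Primrec.fst) (hf.comp Primrec.snd).to₂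
    exact (hg.comp (Primrec.snd.comp Primrec.snd) e1).to₂
  have h2 : Primrec fun a : ℕ × ℕ => Multi_B f g a.1 a.2 := by
    refine (h1.comp Primrec.id Primrec.fst).of_eq fun a => ?_
    rw [← Multi_R_eq]
    rfl
  exact h2

private theorem Multi_wt {σ τ : Type} (r : σ → τ) (e : Fm σ) : (e.rename r).wt = e.wt := by
  induction e with
  | var i => rfl
  | const c => rfl
  | add e f he hf => simp only [Fm.rename, Fm.wt, he, hf]
  | mul e f he hf => simp only [Fm.rename, Fm.wt, he, hf]

private theorem Multi_twt {σ τ : Type} (r : σ → τ) (F : List (Fm σ)) :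
    twt (F.map (Fm.rename r)) = twt F := by
  unfold twt
  rw [List.map_map]
  congr 1
  exact List.map_congr_left fun e _ => Multi_wt r e

/-- last coordinate to `none`. -/
private def Multi_r {N : ℕ} : Fin (N + 1) → Option (Fin N) :=
  Fin.lastCases none some

private theorem Multi_ext {N : ℕ} (b : Fin N → ℝ) (t : ℝ) (i : Fin (N + 1)) :
    ext b t (Multi_r i) = (Fin.snoc b t : Fin (N + 1) → ℝ) i := by
  refine Fin.lastCases ?_ (fun i => ?_) i
  · unfold Multi_r
    rw [Fin.lastCases_last, Fin.snoc_last (α := fun _ => ℝ)]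
    rfl
  · unfold Multi_r
    rw [Fin.lastCases_castSucc, Fin.snoc_castSucc (α := fun _ => ℝ)]
    rfl

theorem sample_multi : ∃ B : ℕ → ℕ → ℕ, Primrec₂ B ∧
    ∀ (N C : ℕ) (F : List (Fm (Fin N))), twt F ≤ C → ∀ x : Fin N → ℝ, Gen x →
      ∃ (z : Fin N → ℤ) (Q : ℕ), 1 ≤ Q ∧ Q ≤ B N C ∧ (∀ i, |z i| ≤ B N C) ∧
        SgnEq F x (fun i => (z i : ℝ) / Q) := by
  obtain ⟨f, hf, _, hqe⟩ := wt_qe
  obtain ⟨u, hu, _, _, huni⟩ := uni_sample
  let g : ℕ → ℕ → ℕ := fun Z C => (Z + 1) * (u Z C + 1)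
  have hg : Primrec₂ g := Primrec.nat_mul.comp (Primrec.succ.comp Primrec.fst)
    (Primrec.succ.comp hu)
  refine ⟨Multi_B f g, Multi_primrec hf hg, fun N => ?_⟩
  induction N with
  | zero =>
    intro C F _ x _
    refine ⟨fun i => i.elim0, 1, le_rfl, le_rfl, fun i => i.elim0, ?_⟩
    have : x = fun i : Fin 0 => (((fun i => i.elim0 : Fin 0 → ℤ) i : ℤ) : ℝ) / ((1 : ℕ) : ℝ) := by
      funext i
      exact i.elim0
    rw [this]
    exact SgnEq.refl _ _
  | succ N ih =>
    intro C F hF x hx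
    set F' := F.map (Fm.rename Multi_r) with hF'
    obtain ⟨G, hG, hGψ⟩ := hqe C (Fin N) F' (by rw [hF', Multi_twt]; exact hF)
    have hx' : Gen (fun i : Fin N => x i.castSucc) := hx.rename (Fin.castSucc_injective N)
    obtain ⟨z, Q, hQ1, hQ, hz, hsgn⟩ := ih (f C) G hG _ hx'
    set Z := Multi_B f g N (f C) with hZ
    obtain ⟨ψ, hψ⟩ := hGψ _ _ hsgn
    have hxe : (fun i => ext (fun i : Fin N => x i.castSucc) (x (Fin.last N)) (Multi_r i)) = x := by
      funext i
      rw [Multi_ext]
      refine Fin.lastCases ?_ (fun i => ?_) i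
      · rw [Fin.snoc_last (α := fun _ => ℝ)]
      · rw [Fin.snoc_castSucc (α := fun _ => ℝ)]
    obtain ⟨w, v, hv1, hv, hw, hvs⟩ := huni N C Z F' z Q hQ1 hQ hz
      (by rw [hF', Multi_twt]; exact hF) (ψ (x (Fin.last N))) (by
        intro e he
        by_cases h0 : e.eval (ext (fun i => (z i : ℝ) / Q) (ψ (x (Fin.last N)))) = 0
        · right
          intro s
          have h1 := hψ e he (x (Fin.last N))
          have h2 : e.sgn (ext (fun i => (z i : ℝ) / Q) (ψ (x (Fin.last N)))) = 0 := by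
            unfold Fm.sgn
            rw [h0, sign_zero]
          rw [h2] at h1
          have h3 : e.eval (ext (fun i : Fin N => x i.castSucc) (x (Fin.last N))) = 0 :=
            sign_eq_zero_iff.1 h1
          obtain ⟨e₀, he₀, rfl⟩ := List.mem_map.1 he
          rw [Fm.eval_rename, hxe] at h3
          rw [Fm.eval_rename]
          exact hx e₀ h3 _
        · exact Or.inl h0)
    have hZv : Z * u Z C ≤ Multi_B f g (N + 1) C := by
      show Z * u Z C ≤ (Z + 1) * (u Z C + 1)
      nlinarith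
    have hQv : 0 < Q * v := Nat.mul_pos hQ1 hv1
    refine ⟨Fin.snoc (fun i => z i * v) (w * Q), Q * v, hQv, ?_, ?_, ?_⟩
    · exact (Nat.mul_le_mul hQ hv).trans hZv
    · have hZv' : ((Z : ℤ)) * (u Z C : ℤ) ≤ ((Multi_B f g (N + 1) C : ℕ) : ℤ) := by
        exact_mod_cast hZv
      intro i
      refine Fin.lastCases ?_ (fun i => ?_) i
      · rw [Fin.snoc_last (α := fun _ => ℤ), abs_mul]
        refine le_trans ?_ hZv'
        have h1 : |(Q : ℤ)| ≤ Z := by
          rw [abs_of_nonneg (by positivity)]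
          exact_mod_cast hQ
        calc |w| * |(Q : ℤ)| ≤ (u Z C : ℤ) * Z :=
              mul_le_mul hw h1 (abs_nonneg _) (by positivity)
          _ = _ := mul_comm _ _
      · rw [Fin.snoc_castSucc (α := fun _ => ℤ), abs_mul]
        refine le_trans ?_ hZv'
        have h1 : |(v : ℤ)| ≤ u Z C := by
          rw [abs_of_nonneg (by positivity)]
          exact_mod_cast hv
        exact mul_le_mul (hz i) h1 (abs_nonneg _) (by positivity)
    · intro e he
      have he' : e.rename Multi_r ∈ F' := List.mem_map_of_mem he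
      have h1 := hψ _ he' (x (Fin.last N))
      have h2 := hvs _ he'
      unfold Fm.sgn at h1 h2 ⊢
      rw [Fm.eval_rename, hxe] at h1
      rw [h1, h2, Fm.eval_rename]
      congr 2
      funext i
      rw [Multi_ext]
      have hQ' : (Q : ℝ) ≠ 0 := by
        have : 0 < Q := hQ1
        exact_mod_cast this.ne'
      have hv' : (v : ℝ) ≠ 0 := by
        have : 0 < v := hv1
        exact_mod_cast this.ne'
      refine Fin.lastCases ?_ (fun i => ?_) i
      · rw [Fin.snoc_last (α := fun _ => ℝ), Fin.snoc_last (α := fun _ => ℤ)]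
        push_cast
        field_simp
      · rw [Fin.snoc_castSucc (α := fun _ => ℝ), Fin.snoc_castSucc (α := fun _ => ℤ)]
        push_cast
        field_simp

end BU
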