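import Mathlib

/-! # Certificates for the rank of an integer matrix

Rank `≤ r` iff (up to a nonzero factor) the matrix factors through dimension `r`; rank `≥ r` iff
`A M B` is a nonzero multiple of the identity for some `A`, `B`. Over `ℚ` both are standard linear
algebra (basis of the range, `Matrix.rank_mul_le`); clear denominators. -/

namespace BU

private theorem rc_clear {ι κ : Type} [Fintype ι] [Fintype κ] (A : Matrix ι κ ℚ) :
    ∃ (c : ℤ) (B : Matrix ι κ ℤ), c ≠ 0 ∧
      B.map (Int.castRingHom ℚ) = (c : ℚ) • A := by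
  classical
  set c : ℕ := ∏ i, ∏ j, (A i j).den with hc
  have hc0 : c ≠ 0 := by
    rw [hc]
    refine Finset.prod_ne_zero_iff.mpr fun i _ => Finset.prod_ne_zero_iff.mpr fun j _ => ?_
    exact (A i j).den_nz
  have hdvd : ∀ i j, (A i j).den ∣ c := fun i j =>
    (Finset.dvd_prod_of_mem (fun j => (A i j).den) (Finset.mem_univ j)).trans
      (Finset.dvd_prod_of_mem (fun i => ∏ j, (A i j).den) (Finset.mem_univ i))
  refine ⟨(c : ℤ), fun i j => ((c / (A i j).den : ℕ) : ℤ) * (A i j).num, by exact_mod_cast hc0, ?_⟩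
  ext i j
  obtain ⟨t, ht⟩ := hdvd i j
  have hd0 : (A i j).den ≠ 0 := (A i j).den_nz
  have h1 : c / (A i j).den = t := by rw [ht, Nat.mul_div_cancel_left _ (Nat.pos_of_ne_zero hd0)]
  rw [Matrix.map_apply, Matrix.smul_apply, h1]
  have h3 : (c : ℚ) = (A i j).den * t := by exact_mod_cast ht
  have h4 : (((c : ℕ) : ℤ) : ℚ) * A i j = (t : ℚ) * (A i j).num := by
    rw [Int.cast_natCast, h3]
    linear_combination (t : ℚ) * Rat.mul_den_eq_num (A i j)
  rw [smul_eq_mul, h4]
  simp

theorem rank_cert {X : ℕ} (M : Matrix (Fin X) (Fin X) ℤ) (r : ℕ) :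
    (M.map (fun z : ℤ => (z : ℚ))).rank = r ↔
      (∃ (d : ℤ) (U : Matrix (Fin X) (Fin r) ℤ) (V : Matrix (Fin r) (Fin X) ℤ),
        d ≠ 0 ∧ d • M = U * V) ∧
      (∃ (e : ℤ) (A : Matrix (Fin r) (Fin X) ℤ) (B : Matrix (Fin X) (Fin r) ℤ),
        e ≠ 0 ∧ A * M * B = e • (1 : Matrix (Fin r) (Fin r) ℤ)) := by
  classical
  have hmap : M.map (fun z : ℤ => (z : ℚ)) = M.map (Int.castRingHom ℚ) := rfl
  rw [hmap]
  have hinj : ∀ {a b : ℕ}, Function.Injective
      (fun N : Matrix (Fin a) (Fin b) ℤ => N.map (Int.castRingHom ℚ)) :=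
    fun {a b} => Matrix.map_injective (Int.cast_injective (α := ℚ))
  have hsm : ∀ {a b : ℕ} (d : ℤ) (N : Matrix (Fin a) (Fin b) ℤ),
      (d • N).map (Int.castRingHom ℚ) = (d : ℚ) • N.map (Int.castRingHom ℚ) := by
    intro a b d N
    ext i j
    simp
  constructor
  · intro hr
    set M' := M.map (Int.castRingHom ℚ) with hM'
    have hfin : Module.finrank ℚ (LinearMap.range M'.mulVecLin) = r := hr
    let b := Module.finBasisOfFinrankEq ℚ (LinearMap.range M'.mulVecLin) hfin
    set f : (Fin X → ℚ) →ₗ[ℚ] (Fin r → ℚ) :=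
      b.equivFun.toLinearMap ∘ₗ M'.mulVecLin.rangeRestrict with hf
    set h : (Fin r → ℚ) →ₗ[ℚ] (Fin X → ℚ) :=
      (LinearMap.range M'.mulVecLin).subtype ∘ₗ b.equivFun.symm.toLinearMap with hh
    have hfs : Function.Surjective f := by
      rw [hf, LinearMap.coe_comp]
      exact b.equivFun.surjective.comp (LinearMap.surjective_rangeRestrict _)
    have hhi : Function.Injective h := by
      rw [hh, LinearMap.coe_comp]
      exact (Submodule.subtype_injective _).comp b.equivFun.symm.injective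
    have hcomp : h ∘ₗ f = M'.mulVecLin := by
      ext1 x
      ext i
      simp [hh, hf]
    obtain ⟨g, hg⟩ := f.exists_rightInverse_of_surjective (LinearMap.range_eq_top.mpr hfs)
    obtain ⟨l, hl⟩ := h.exists_leftInverse_of_injective (LinearMap.ker_eq_bot.mpr hhi)
    have hMh : M' = LinearMap.toMatrix' h * LinearMap.toMatrix' f := by
      rw [← LinearMap.toMatrix'_comp, hcomp]
      exact (LinearMap.toMatrix'_toLin' M').symm
    have hone : LinearMap.toMatrix' l * M' * LinearMap.toMatrix' g = 1 := by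
      have h1 : M' = LinearMap.toMatrix' (h ∘ₗ f) := by rw [LinearMap.toMatrix'_comp]; exact hMh
      rw [h1, ← LinearMap.toMatrix'_comp, ← LinearMap.toMatrix'_comp]
      have h2 : (l ∘ₗ h ∘ₗ f) ∘ₗ g = LinearMap.id := by
        rw [← LinearMap.comp_assoc, hl, LinearMap.id_comp, hg]
      rw [h2, LinearMap.toMatrix'_id]
    obtain ⟨c1, U, hc1, hU⟩ := rc_clear (LinearMap.toMatrix' h)
    obtain ⟨c2, V, hc2, hV⟩ := rc_clear (LinearMap.toMatrix' f)
    obtain ⟨c3, A, hc3, hA⟩ := rc_clear (LinearMap.toMatrix' l)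
    obtain ⟨c4, B, hc4, hB⟩ := rc_clear (LinearMap.toMatrix' g)
    refine ⟨⟨c1 * c2, U, V, mul_ne_zero hc1 hc2, ?_⟩, ⟨c3 * c4, A, B, mul_ne_zero hc3 hc4, ?_⟩⟩
    · apply hinj
      simp only
      rw [hsm, Matrix.map_mul, hU, hV, Matrix.smul_mul, Matrix.mul_smul, ← hMh, smul_smul]
      push_cast
      rfl
    · apply hinj
      simp only
      rw [hsm, Matrix.map_mul, Matrix.map_mul, hA, hB, Matrix.smul_mul, Matrix.smul_mul,
        Matrix.mul_smul, ← hM', hone, smul_smul]
      push_cast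
      congr 1
      ext i j
      simp [Matrix.one_apply]
  · rintro ⟨⟨d, U, V, hd, h1⟩, ⟨e, A, B, he, h2⟩⟩
    apply le_antisymm
    · have h3 : (d : ℚ) • M.map (Int.castRingHom ℚ) =
          U.map (Int.castRingHom ℚ) * V.map (Int.castRingHom ℚ) := by
        rw [← hsm, h1, Matrix.map_mul]
      have hd' : (d : ℚ) ≠ 0 := by exact_mod_cast hd
      have h4 : M.map (Int.castRingHom ℚ) =
          U.map (Int.castRingHom ℚ) * ((d : ℚ)⁻¹ • V.map (Int.castRingHom ℚ)) := by
        rw [Matrix.mul_smul, ← h3, smul_smul, inv_mul_cancel₀ hd', one_smul]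
      rw [h4]
      refine (Matrix.rank_mul_le_left _ _).trans ?_
      refine (Matrix.rank_le_width _).trans ?_
      exact le_rfl
    · have h3 : A.map (Int.castRingHom ℚ) * M.map (Int.castRingHom ℚ) * B.map (Int.castRingHom ℚ) =
          (e : ℚ) • (1 : Matrix (Fin r) (Fin r) ℚ) := by
        rw [← Matrix.map_mul, ← Matrix.map_mul, h2, hsm]
        congr 1
        ext i j
        simp [Matrix.one_apply]
      have he' : (e : ℚ) ≠ 0 := by exact_mod_cast he
      have h4 : ((e : ℚ)⁻¹ • A.map (Int.castRingHom ℚ)) * M.map (Int.castRingHom ℚ) *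
          B.map (Int.castRingHom ℚ) = 1 := by
        rw [Matrix.smul_mul, Matrix.smul_mul, h3, smul_smul, inv_mul_cancel₀ he', one_smul]
      have h5 : (1 : Matrix (Fin r) (Fin r) ℚ).rank = r := by
        rw [Matrix.rank_one, Fintype.card_fin]
      calc r = (1 : Matrix (Fin r) (Fin r) ℚ).rank := h5.symm
        _ = (((e : ℚ)⁻¹ • A.map (Int.castRingHom ℚ)) * M.map (Int.castRingHom ℚ) *
          B.map (Int.castRingHom ℚ)).rank := by rw [h4]
        _ ≤ (((e : ℚ)⁻¹ • A.map (Int.castRingHom ℚ)) * M.map (Int.castRingHom ℚ)).rank :=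
            Matrix.rank_mul_le_left _ _
        _ ≤ (M.map (Int.castRingHom ℚ)).rank := Matrix.rank_mul_le_right _ _

end BU
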