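import Pool.Agent.Work.MP_4030f5_lc.U.RankCert
import Pool.Agent.Work.MP_4030f5_lc.U.PrimLib

/-! # The rank is computable

Unbounded search (`Nat.rfind`, `Partrec.rfind`, or `Computable` version) for the certificate of
`rank_cert`: integer matrices are coded by lists of integers (`getD (i * r + j) 0`); the conditions
are finitely many equations, i.e. bounded quantifiers over sums. The certificate exists for
exactly one `r`. -/

namespace BU

/-- unbounded search -/
private theorem rk_search {α β γ : Type} [Primcodable α] [Primcodable β] [Primcodable γ]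
    {R : α → β → Prop} (hR : PrimrecRel R) {f : α → γ} {g : β → γ} (hg : Primrec g)
    (hex : ∀ a, ∃ b, R a b) (hun : ∀ a b, R a b → g b = f a) : Computable f := by
  classical
  have hF : Primrec₂ fun (a : α) (n : ℕ) =>
      (Encodable.decode (α := β) n).bind fun b => if R a b then some (g b) else none := by
    refine Primrec.option_bind (Primrec.decode.comp Primrec.snd) ?_
    refine Primrec.ite (c := fun z : (α × ℕ) × β => R z.1.1 z.2) ?_ ?_ (Primrec.const none)
    · exact hR.comp (Primrec.fst.comp Primrec.fst) Primrec.snd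
    · exact Primrec.option_some.comp (hg.comp Primrec.snd)
  have hP := Partrec.rfindOpt hF.to_comp
  refine hP.of_eq_tot fun a => ?_
  have hval : ∀ n x, x ∈ ((Encodable.decode (α := β) n).bind fun b =>
      if R a b then some (g b) else none) → x = f a := by
    intro n x hx
    rw [Option.mem_def, Option.bind_eq_some_iff] at hx
    obtain ⟨b, -, hb⟩ := hx
    split_ifs at hb with h
    rw [Option.some.injEq] at hb
    rw [← hb]
    exact hun a b h
  have hdom : (Nat.rfindOpt fun n => (Encodable.decode (α := β) n).bind fun b =>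
      if R a b then some (g b) else none).Dom := by
    rw [Nat.rfindOpt_dom]
    obtain ⟨b, hb⟩ := hex a
    refine ⟨Encodable.encode b, g b, ?_⟩
    rw [Encodable.encodek]
    simp [hb]
  obtain ⟨y, hy⟩ := Part.dom_iff_mem.mp hdom
  obtain ⟨n, hn⟩ := Nat.rfindOpt_spec hy
  rw [← hval n y hn]
  exact hy

private theorem rk_list (a r : ℕ) (u : ℕ → ℕ → ℤ) :
    ∃ L : List ℤ, ∀ i < a, ∀ t < r, L.getD (i * r + t) 0 = u i t := by
  refine ⟨(List.range (a * r)).map fun k => u (k / r) (k % r), fun i hi t ht => ?_⟩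
  have h1 : i * r + t < a * r := by
    calc i * r + t < i * r + r := by omega
      _ = (i + 1) * r := by ring
      _ ≤ a * r := Nat.mul_le_mul_right r hi
  have hr : 0 < r := by omega
  rw [List.getD_eq_getElem _ _ (by simpa using h1)]
  simp only [List.getElem_map, List.getElem_range]
  have h2 : (i * r + t) / r = i := by
    rw [add_comm, Nat.add_mul_div_right _ _ hr, Nat.div_eq_of_lt ht, zero_add]
  have h3 : (i * r + t) % r = t := by
    rw [add_comm, Nat.add_mul_mod_self_right, Nat.mod_eq_of_lt ht]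
  rw [h2, h3]

/-- type of the certificates -/
private abbrev CT : Type := ℕ × ((ℤ × (List ℤ × List ℤ)) × (ℤ × (List ℤ × List ℤ)))

private def RC (X : ℕ) (ent : ℕ → ℕ → ℤ) (b : CT) : Prop :=
  (b.2.1.1 ≠ 0 ∧ ∀ i < X, ∀ j < X, b.2.1.1 * ent i j =
    ∑ t ∈ Finset.range b.1, b.2.1.2.1.getD (i * b.1 + t) 0 * b.2.1.2.2.getD (t * X + j) 0) ∧
  (b.2.2.1 ≠ 0 ∧ ∀ i < b.1, ∀ j < b.1,
    ∑ s ∈ Finset.range X, ∑ t ∈ Finset.range X,
      b.2.2.2.1.getD (i * X + s) 0 * ent s t * b.2.2.2.2.getD (t * b.1 + j) 0 =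
        if i = j then b.2.2.1 else 0)

private theorem rk_tri (X r : ℕ) (A : ℕ → ℕ → ℤ) (ent : ℕ → ℕ → ℤ) (B : ℕ → ℕ → ℤ) (i j : Fin r) :
    ((Matrix.of fun (i : Fin r) (s : Fin X) => A i s) * (Matrix.of fun (s t : Fin X) => ent s t) *
      (Matrix.of fun (t : Fin X) (j : Fin r) => B t j)) i j =
    ∑ s ∈ Finset.range X, ∑ t ∈ Finset.range X, A i s * ent s t * B t j := by
  have h1 : ∀ s : ℕ, ∑ t ∈ Finset.range X, A i s * ent s t * B t j =
      ∑ t : Fin X, A i s * ent s t * B t j := fun s => Finset.sum_range _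
  simp only [h1]
  rw [Finset.sum_range, Finset.sum_comm, Matrix.mul_apply]
  refine Finset.sum_congr rfl fun t _ => ?_
  rw [Matrix.mul_apply, Finset.sum_mul]
  rfl

private theorem rk_one (r : ℕ) (e : ℤ) (i j : Fin r) :
    (e • (1 : Matrix (Fin r) (Fin r) ℤ)) i j = if (i : ℕ) = j then e else 0 := by
  rw [Matrix.smul_apply, Matrix.one_apply, smul_eq_mul, mul_ite, mul_one, mul_zero]
  by_cases h : i = j
  · rw [if_pos h, if_pos (by rw [h])]
  · rw [if_neg h, if_neg (fun h' => h (Fin.ext h'))]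

private theorem RC_iff (X : ℕ) (ent : ℕ → ℕ → ℤ) (r : ℕ) :
    (∃ b : CT, RC X ent b ∧ b.1 = r) ↔
      (Matrix.of fun (i j : Fin X) => ((ent i j : ℤ) : ℚ)).rank = r := by
  have hM : (Matrix.of fun (i j : Fin X) => ((ent i j : ℤ) : ℚ)) =
      (Matrix.of fun (i j : Fin X) => ent i j).map (fun z : ℤ => (z : ℚ)) := rfl
  rw [hM, rank_cert]
  constructor
  · rintro ⟨⟨r', ⟨d, U, V⟩, ⟨e, A, B⟩⟩, ⟨⟨hd, h1⟩, ⟨he, h2⟩⟩, rfl⟩
    simp only at hd h1 he h2 ⊢
    refine ⟨⟨d, Matrix.of fun i t => U.getD (i * r' + t) 0, Matrix.of fun t j => V.getD (t * X + j) 0,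
      hd, ?_⟩, ⟨e, Matrix.of fun i s => A.getD (i * X + s) 0,
      Matrix.of fun t j => B.getD (t * r' + j) 0, he, ?_⟩⟩
    · ext i j
      rw [Matrix.mul_apply, Matrix.smul_apply]
      simp only [Matrix.of_apply, smul_eq_mul]
      rw [h1 i i.2 j j.2, Finset.sum_range]
    · ext i j
      rw [rk_tri X r' (fun i s => A.getD (i * X + s) 0) ent (fun t j => B.getD (t * r' + j) 0) i j,
        rk_one]
      exact h2 i i.2 j j.2
  · rintro ⟨⟨d, U, V, hd, h1⟩, ⟨e, A, B, he, h2⟩⟩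
    obtain ⟨LU, hU⟩ := rk_list X r fun i t => if h : i < X ∧ t < r then U ⟨i, h.1⟩ ⟨t, h.2⟩ else 0
    obtain ⟨LV, hV⟩ := rk_list r X fun i t => if h : i < r ∧ t < X then V ⟨i, h.1⟩ ⟨t, h.2⟩ else 0
    obtain ⟨LA, hA⟩ := rk_list r X fun i t => if h : i < r ∧ t < X then A ⟨i, h.1⟩ ⟨t, h.2⟩ else 0
    obtain ⟨LB, hB⟩ := rk_list X r fun i t => if h : i < X ∧ t < r then B ⟨i, h.1⟩ ⟨t, h.2⟩ else 0
    refine ⟨⟨r, ⟨d, LU, LV⟩, ⟨e, LA, LB⟩⟩, ⟨⟨hd, ?_⟩, ⟨he, ?_⟩⟩, rfl⟩
    · intro i hi j hj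
      simp only
      have h3 := congrFun (congrFun h1 ⟨i, hi⟩) ⟨j, hj⟩
      rw [Matrix.mul_apply, Matrix.smul_apply] at h3
      simp only [Matrix.of_apply, smul_eq_mul] at h3
      rw [h3, Finset.sum_range]
      refine Finset.sum_congr rfl fun t _ => ?_
      rw [hU i hi t t.2, hV t t.2 j hj, dif_pos ⟨hi, t.2⟩, dif_pos ⟨t.2, hj⟩]
    · intro i hi j hj
      simp only
      have h3 := congrFun (congrFun h2 ⟨i, hi⟩) ⟨j, hj⟩
      rw [rk_one r e ⟨i, hi⟩ ⟨j, hj⟩] at h3
      have h4 := rk_tri X r (fun i s => LA.getD (i * X + s) 0) ent (fun t j => LB.getD (t * r + j) 0)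
        ⟨i, hi⟩ ⟨j, hj⟩
      simp only at h4
      rw [← h4, ← h3]
      have e1 : (Matrix.of fun (i : Fin r) (s : Fin X) => LA.getD ((i : ℕ) * X + s) 0) = A := by
        ext x y
        rw [Matrix.of_apply, hA x x.2 y y.2, dif_pos ⟨x.2, y.2⟩]
      have e2 : (Matrix.of fun (t : Fin X) (j : Fin r) => LB.getD ((t : ℕ) * r + j) 0) = B := by
        ext x y
        rw [Matrix.of_apply, hB x x.2 y y.2, dif_pos ⟨x.2, y.2⟩]
      rw [e1, e2]

theorem rank_computable {α : Type} [Primcodable α] {X : α → ℕ} {ent : α → ℕ → ℕ → ℤ}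
    (hX : Primrec X) (hent : Primrec fun z : (α × ℕ) × ℕ => ent z.1.1 z.1.2 z.2) :
    Computable fun a =>
      (Matrix.of fun (i j : Fin (X a)) => ((ent a i j : ℤ) : ℚ)).rank := by
  have hR : PrimrecRel fun (a : α) (b : CT) => RC (X a) (ent a) b := by
    unfold RC PrimrecRel
    have h0 : Primrec fun _ : α × CT => (0 : ℤ) := Primrec.const 0
    have hr : Primrec fun z : α × CT => z.2.1 := Primrec.fst.comp Primrec.snd
    have hXz : Primrec fun z : α × CT => X z.1 := hX.comp Primrec.fst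
    have hd : Primrec fun z : α × CT => z.2.2.1.1 :=
      Primrec.fst.comp (Primrec.fst.comp (Primrec.snd.comp Primrec.snd))
    have hU : Primrec fun z : α × CT => z.2.2.1.2.1 :=
      Primrec.fst.comp (Primrec.snd.comp (Primrec.fst.comp (Primrec.snd.comp Primrec.snd)))
    have hV : Primrec fun z : α × CT => z.2.2.1.2.2 :=
      Primrec.snd.comp (Primrec.snd.comp (Primrec.fst.comp (Primrec.snd.comp Primrec.snd)))
    have he : Primrec fun z : α × CT => z.2.2.2.1 :=
      Primrec.fst.comp (Primrec.snd.comp (Primrec.snd.comp Primrec.snd))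
    have hA : Primrec fun z : α × CT => z.2.2.2.2.1 :=
      Primrec.fst.comp (Primrec.snd.comp (Primrec.snd.comp (Primrec.snd.comp Primrec.snd)))
    have hB : Primrec fun z : α × CT => z.2.2.2.2.2 :=
      Primrec.snd.comp (Primrec.snd.comp (Primrec.snd.comp (Primrec.snd.comp Primrec.snd)))
    refine ((Primrec.eq.comp hd h0).not.and ?_).and ((Primrec.eq.comp he h0).not.and ?_)
    · refine pl_ball (α := α × CT) (K := fun z => X z.1)
        (p := fun z i => ∀ j < X z.1, z.2.2.1.1 * ent z.1 i j = ∑ t ∈ Finset.range z.2.1,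
          z.2.2.1.2.1.getD (i * z.2.1 + t) 0 * z.2.2.1.2.2.getD (t * X z.1 + j) 0) hXz ?_
      refine pl_ball (α := (α × CT) × ℕ) (K := fun w => X w.1.1)
        (p := fun w j => w.1.2.2.1.1 * ent w.1.1 w.2 j = ∑ t ∈ Finset.range w.1.2.1,
          w.1.2.2.1.2.1.getD (w.2 * w.1.2.1 + t) 0 * w.1.2.2.1.2.2.getD (t * X w.1.1 + j) 0)
        (hXz.comp Primrec.fst) ?_
      have q1 : Primrec fun v : ((α × CT) × ℕ) × ℕ => v.1.1 := Primrec.fst.comp Primrec.fst
      have q2 : Primrec fun v : ((α × CT) × ℕ) × ℕ => v.1.2 := Primrec.snd.comp Primrec.fst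
      have q3 : Primrec fun v : ((α × CT) × ℕ) × ℕ => v.2 := Primrec.snd
      refine Primrec.eq.comp ?_ ?_
      · exact pl_int_mul.comp (hd.comp q1)
          (hent.comp (Primrec.pair (Primrec.pair (Primrec.fst.comp q1) q2) q3))
      · refine pl_sumZ (hr.comp q1) ?_
        have p1 : Primrec fun v : (((α × CT) × ℕ) × ℕ) × ℕ => v.1.1.1 := q1.comp Primrec.fst
        have p2 : Primrec fun v : (((α × CT) × ℕ) × ℕ) × ℕ => v.1.1.2 := q2.comp Primrec.fst
        have p3 : Primrec fun v : (((α × CT) × ℕ) × ℕ) × ℕ => v.1.2 := q3.comp Primrec.fst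
        have p4 : Primrec fun v : (((α × CT) × ℕ) × ℕ) × ℕ => v.2 := Primrec.snd
        refine pl_int_mul.comp ?_ ?_
        · exact (Primrec.list_getD (0 : ℤ)).comp (hU.comp p1)
            (Primrec.nat_add.comp (Primrec.nat_mul.comp p2 (hr.comp p1)) p4)
        · exact (Primrec.list_getD (0 : ℤ)).comp (hV.comp p1)
            (Primrec.nat_add.comp (Primrec.nat_mul.comp p4 (hXz.comp p1)) p3)
    · refine pl_ball (α := α × CT) (K := fun z => z.2.1)
        (p := fun z i => ∀ j < z.2.1, ∑ s ∈ Finset.range (X z.1), ∑ t ∈ Finset.range (X z.1),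
          z.2.2.2.2.1.getD (i * X z.1 + s) 0 * ent z.1 s t * z.2.2.2.2.2.getD (t * z.2.1 + j) 0 =
            if i = j then z.2.2.2.1 else 0) hr ?_
      refine pl_ball (α := (α × CT) × ℕ) (K := fun w => w.1.2.1)
        (p := fun w j => ∑ s ∈ Finset.range (X w.1.1), ∑ t ∈ Finset.range (X w.1.1),
          w.1.2.2.2.2.1.getD (w.2 * X w.1.1 + s) 0 * ent w.1.1 s t *
            w.1.2.2.2.2.2.getD (t * w.1.2.1 + j) 0 = if w.2 = j then w.1.2.2.2.1 else 0)
        (hr.comp Primrec.fst) ?_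
      have q1 : Primrec fun v : ((α × CT) × ℕ) × ℕ => v.1.1 := Primrec.fst.comp Primrec.fst
      have q2 : Primrec fun v : ((α × CT) × ℕ) × ℕ => v.1.2 := Primrec.snd.comp Primrec.fst
      have q3 : Primrec fun v : ((α × CT) × ℕ) × ℕ => v.2 := Primrec.snd
      refine Primrec.eq.comp ?_ ?_
      · refine pl_sumZ (hXz.comp q1) ?_
        have p1 : Primrec fun v : (((α × CT) × ℕ) × ℕ) × ℕ => v.1.1.1 := q1.comp Primrec.fst
        have p2 : Primrec fun v : (((α × CT) × ℕ) × ℕ) × ℕ => v.1.1.2 := q2.comp Primrec.fst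
        have p3 : Primrec fun v : (((α × CT) × ℕ) × ℕ) × ℕ => v.1.2 := q3.comp Primrec.fst
        have p4 : Primrec fun v : (((α × CT) × ℕ) × ℕ) × ℕ => v.2 := Primrec.snd
        refine pl_sumZ (hXz.comp p1) ?_
        have r1 : Primrec fun v : ((((α × CT) × ℕ) × ℕ) × ℕ) × ℕ => v.1.1.1.1 := p1.comp Primrec.fst
        have r2 : Primrec fun v : ((((α × CT) × ℕ) × ℕ) × ℕ) × ℕ => v.1.1.1.2 := p2.comp Primrec.fst
        have r3 : Primrec fun v : ((((α × CT) × ℕ) × ℕ) × ℕ) × ℕ => v.1.1.2 := p3.comp Primrec.fst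
        have r4 : Primrec fun v : ((((α × CT) × ℕ) × ℕ) × ℕ) × ℕ => v.1.2 := p4.comp Primrec.fst
        have r5 : Primrec fun v : ((((α × CT) × ℕ) × ℕ) × ℕ) × ℕ => v.2 := Primrec.snd
        refine pl_int_mul.comp (pl_int_mul.comp ?_ ?_) ?_
        · exact (Primrec.list_getD (0 : ℤ)).comp (hA.comp r1)
            (Primrec.nat_add.comp (Primrec.nat_mul.comp r2 (hXz.comp r1)) r4)
        · exact hent.comp (Primrec.pair (Primrec.pair (Primrec.fst.comp r1) r4) r5)
        · exact (Primrec.list_getD (0 : ℤ)).comp (hB.comp r1)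
            (Primrec.nat_add.comp (Primrec.nat_mul.comp r5 (hr.comp r1)) r3)
      · exact Primrec.ite (Primrec.eq.comp q2 q3) (he.comp q1) (Primrec.const 0)
  refine rk_search hR (g := fun b => b.1) Primrec.fst ?_ ?_
  · intro a
    obtain ⟨b, hb, -⟩ := (RC_iff (X a) (ent a) _).mpr rfl
    exact ⟨b, hb⟩
  · intro a b hb
    exact ((RC_iff (X a) (ent a) b.1).mp ⟨b, hb, rfl⟩).symm

end BU
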