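import Pool.Agent.Work.MP_4030f5_lc.U.Defs

/-! # Rows: definitions -/

namespace BU

/-- number of a step: `item * L + α`, item `0` for `none`, `i + 1` for `some i`. -/
def stepEquiv (n L : ℕ) : Step n L ≃ Fin ((n + 1) * L) :=
  ((finSuccEquiv n).symm.prodCongr (Equiv.refl (Fin L))).trans finProdFinEquiv

/-- relabelling of the items. -/
def mapS {n' n L : ℕ} (ι : Fin n' → Fin n) (s : Step n' L) : Step n L := (s.1.map ι, s.2)

/-- index of the item of a step; `0` if there is no item. -/
def itx {n L : ℕ} (s : Step n L) : ℕ :=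
  match s.1 with
  | none => 0
  | some i => i

/-- `(value at, value right after)` a point `b`, for a function with local data `d`, where
`c α` is the comparison of `b` with the break point number `α`. -/
noncomputable def evL {L : ℕ} (d : ℤ × (Fin L → Option (ℤ × ℤ))) (c : Fin L → Ordering) : ℤ × ℤ :=
  open Classical in
  if h : (Finset.univ.filter (fun α => c α ≠ .lt)).Nonempty then
    if c ((Finset.univ.filter (fun α => c α ≠ .lt)).max' h) = .eq then
      (d.2 ((Finset.univ.filter (fun α => c α ≠ .lt)).max' h)).getD (0, 0)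
    else
      (((d.2 ((Finset.univ.filter (fun α => c α ≠ .lt)).max' h)).getD (0, 0)).2,
        ((d.2 ((Finset.univ.filter (fun α => c α ≠ .lt)).max' h)).getD (0, 0)).2)
  else (d.1, d.1)

/-- code of a comparison. -/
def oc : Ordering → ℕ
  | .lt => 0
  | .eq => 1
  | .gt => 2

/-- code of a row index. -/
def kc {K n L : ℕ} (κ : Fin K → Step n L) : ℕ :=
  (finFunctionFinEquiv (fun i => stepEquiv n L (κ i)) : ℕ)

/-- the slots of `(κ, u, v)`. -/
def slT {K n L : ℕ} (κ : Fin K → Step n L) (u v : Step n L) : Fin (K + 2) → Step n L :=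
  Fin.snoc (Fin.snoc κ u : Fin (K + 1) → Step n L) v

end BU
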