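import Pool.Agent.Work.MP_4030f5_lc.QDefs

/-! # MP_4030f5_lc, uniform version: real RAM with computable control

One algorithm for all `n`: a computable function `A` (in the sense of `Computable`, Turing
computability) chooses the next instruction from the discrete input (the list of the codes of the
formulas) and the history (the outcomes of the comparisons made so far). The real numbers are only
accessible through the instructions. -/

namespace BU

/-- Registers: `Sum.inl (i, l)` is input register number `l` of the `i`-th formula (read only),
`Sum.inr r` is scratch register number `r`. -/
abbrev Reg : Type := (ℕ × ℕ) ⊕ ℕ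

/-- Instructions: load an integer constant into a scratch register; perform one arithmetic
operation on two registers and store the result in a scratch register; test the sign of a
register; stop with a list of natural numbers as output. -/
inductive Instr : Type
  | const : ℕ → ℤ → Instr
  | op : Op → ℕ → Reg → Reg → Instr
  | branch : Reg → Instr
  | halt : List ℕ → Instr

/-- The four operations as the numbers `0, 1, 2, 3`. -/
def opEquiv : Op ≃ Fin 4 where
  toFun
    | .add => 0
    | .sub => 1
    | .mul => 2
    | .div => 3
  invFun
    | 0 => .add
    | 1 => .sub
    | 2 => .mul
    | 3 => .div
  left_inv o := by cases o <;> rfl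
  right_inv i := by
    match i with
    | 0 => rfl
    | 1 => rfl
    | 2 => rfl
    | 3 => rfl

/-- Instructions as elements of a sum type (this fixes their Gödel numbering). -/
def instrEquiv : Instr ≃ ((ℕ × ℤ) ⊕ (Fin 4 × ℕ × Reg × Reg)) ⊕ (Reg ⊕ List ℕ) where
  toFun
    | .const r z => .inl (.inl (r, z))
    | .op o r i j => .inl (.inr (opEquiv o, r, i, j))
    | .branch i => .inr (.inl i)
    | .halt l => .inr (.inr l)
  invFun
    | .inl (.inl (r, z)) => .const r z
    | .inl (.inr (o, r, i, j)) => .op (opEquiv.symm o) r i j
    | .inr (.inl i) => .branch i
    | .inr (.inr l) => .halt l
  left_inv a := by cases a <;> simp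
  right_inv a := by
    rcases a with (⟨r, z⟩ | ⟨o, r, i, j⟩) | (i | l) <;> simp

instance : Primcodable Instr := Primcodable.ofEquiv _ instrEquiv

/-- Outcome of a sign test: `0` for negative, `1` for zero, `2` for positive. -/
noncomputable def sgnCode (v : ℝ) : ℕ := if v < 0 then 0 else if v = 0 then 1 else 2

/-- Run the algorithm `A` on the discrete input `d` and the real input `x` for at most `t` steps,
starting with history `h` and scratch content `s`. The history records the outcomes of the sign
tests in the order in which they were made (and a `0` for every other instruction).
The result is the output if the algorithm has stopped, and `none` otherwise. -/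
noncomputable def runM (A : List ℕ × List ℕ → Instr) (d : List ℕ) (x : ℕ × ℕ → ℝ) :
    ℕ → List ℕ → (ℕ → ℝ) → Option (List ℕ)
  | 0, h, _ =>
    match A (d, h) with
    | .halt out => some out
    | _ => none
  | t + 1, h, s =>
    match A (d, h) with
    | .const r z => runM A d x t (h ++ [0]) (Function.update s r (z : ℝ))
    | .op o r i j =>
        runM A d x t (h ++ [0]) (Function.update s r (o.val (Sum.elim x s i) (Sum.elim x s j)))
    | .branch i => runM A d x t (h ++ [sgnCode (Sum.elim x s i)]) s
    | .halt out => some out

/-- The Betti numbers of the unions of `n` sets of description complexity `c` in `ℝ^k` are computed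
by one algorithm with `O(n^k)` operations on real numbers. `e` is a numbering of the finitely many
formulas (combinatorial parts), `ν` a numbering of the finitely many coefficients; the discrete
input is the list of the codes of the `n` formulas, and the `i`-th formula has its coefficient `z`
in input register `(i, ν z)`. The algorithm is a computable function `A`; it stops after at most
`C * n ^ k` operations, and its output is the list of the Betti numbers `b_0, ..., b_(k-1)`. The
initial content of the scratch registers and of the other input registers is arbitrary. -/
def UniformFastBetti (k c : ℕ) : Prop :=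
  ∀ (e : Formula c → ℕ) (ν : Fin c × Mon (k + c) c → ℕ),
    Function.Injective e → Function.Injective ν →
    ∃ (A : List ℕ × List ℕ → Instr) (C : ℕ), Computable A ∧
      ∀ (n : ℕ) (F : Fin n → Formula c) (a : Fin n → Coef (k + c) c), Arr k F a →
        ∀ (x : ℕ × ℕ → ℝ) (s : ℕ → ℝ), (∀ (i : Fin n) z, x ((i : ℕ), ν z) = a i z) →
          runM A (List.ofFn fun i => e (F i)) x (C * n ^ k) [] s =
            some (List.ofFn fun q : Fin k => betti (uni k F a) q)

end BU
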