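import Pool.Agent.Work.MP_4030f5_lc.U.CpDefs

/-! # The systems of total spaces over the parameter space of an input

Two systems over `(Fin n → Fin m → ℝ) × (Fin k → ℝ)`, as in `sys_exists` (T10a.lean; all auxiliary
statements there are public: `T10a_res`, `T10a_glue`, `T10a_base`, `T10a_base_acyc`, `T10a_total_acyc`, ...;
`T10a_res J b` and `resJ J b` agree: `orderIsoOfFin` against `orderEmbOfFin`).
Large system `𝓔a`: balls `CJ ⊆ W_J = cls (G J.card) (resJ J a)` containing `resJ J a` and the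
compact set `Cc J.card W_J`, compatible with restriction (repeat `T10a_choose` with the second
point `a'` replaced by the compact sets). Small system `𝓔`: `{p | resJ J p.1 ∈ Cc J.card W_J,
‖p.1 i‖ ≤ ρ (i ∉ J), E (p.1 j) p.2 (j ∈ J)}` for `1 ≤ J.card ≤ k` (`univ` for `J = ∅`, `∅` for `J.card > k`),
same `ρ ≥ 0`, larger than all norms of the points of all balls and of `a`.
By `T10a_total_acyc` both are acyclic relative to the fibre over any point of the base, so
`Acyc (𝓔a J) (𝓔 J)` (`Acyc.of_trans`), and `Acyc (𝓔a J) (𝓔a J ∩ {p | p.1 = a})`. `T10b_aux` for `𝓔a` and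
`HT_of_acyc` for `𝓔 ⊆ 𝓔a`. Section `s z = (glue J z.1 0, z.2)`; `s '' EW ..` is the image of a compact set,
acyclic relative to the fibre over `(y₀, 0)` (`Cyl.acyc_set`, `Acyc.image`), and so is `𝓔 J`. -/

namespace BU

private theorem sysA_res {n m : ℕ} (J : Finset (Fin n)) (b : Fin n → Fin m → ℝ) :
    resJ J b = T10a_res J b := by
  funext z
  simp [resJ, T10a_res]

/-- The compact sets `C J`, chosen from large `J` to small `J`.  `W J` is the type class, `B J` a
compact subset of `W J` which must be contained in `C J`. -/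
private theorem sysA_choose {n m : ℕ} (k : ℕ)
    (W : (J : Finset (Fin n)) → Set (Fin J.card × Fin m → ℝ))
    (hch : ∀ J : Finset (Fin n), J.card ≤ k → ∃ d : ℕ, Nonempty ((Fin d → ℝ) ≃ₜ W J))
    (hres : ∀ J J' : Finset (Fin n), J ⊆ J' → J'.card ≤ k → ∀ b : Fin n → Fin m → ℝ,
      T10a_res J' b ∈ W J' → T10a_res J b ∈ W J)
    (B : (J : Finset (Fin n)) → Set (Fin J.card × Fin m → ℝ))
    (hB : ∀ J : Finset (Fin n), J.card ≤ k → B J ⊆ W J)
    (hBc : ∀ J : Finset (Fin n), J.card ≤ k → IsCompact (B J)) (s : ℕ) :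
    ∃ C : (J : Finset (Fin n)) → Set (Fin J.card × Fin m → ℝ),
      ∀ J : Finset (Fin n), J.card ≤ k → k < s + J.card →
        C J ⊆ W J ∧ B J ⊆ C J ∧
        (∃ (d : ℕ) (e : (Fin d → ℝ) ≃ₜ W J) (R : ℝ),
          C J = (fun u => (e u : Fin J.card × Fin m → ℝ)) '' Metric.closedBall 0 R) ∧
        ∀ J' : Finset (Fin n), J ⊆ J' → J'.card ≤ k → ∀ b : Fin n → Fin m → ℝ,
          T10a_res J' b ∈ C J' → T10a_res J b ∈ C J := by
  classical
  induction s with
  | zero => exact ⟨fun J => ∅, fun J h1 h2 => by omega⟩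
  | succ s ih =>
    obtain ⟨C, hC⟩ := ih
    -- the compact set to be covered
    let K : (J : Finset (Fin n)) → Set (Fin J.card × Fin m → ℝ) := fun J =>
      B J ∪ ⋃ J' ∈ {J' : Finset (Fin n) | J ⊆ J' ∧ J'.card ≤ k ∧ J ≠ J'},
        T10a_res J '' {b | T10a_res J' b ∈ C J'}
    have hKcomp : ∀ J : Finset (Fin n), J.card ≤ k → k < s + 1 + J.card → IsCompact (K J) := by
      intro J hJ1 hJ2
      refine IsCompact.union (hBc J hJ1) ?_
      refine Set.Finite.isCompact_biUnion (Set.toFinite _) ?_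
      rintro J' ⟨hJJ', hJ'k, hne⟩
      have hlt : J.card < J'.card := Finset.card_lt_card (Finset.ssubset_iff_subset_ne.2 ⟨hJJ', hne⟩)
      obtain ⟨-, -, ⟨d, e, R, hCe⟩, -⟩ := hC J' hJ'k (by omega)
      obtain ⟨ι, -, hι⟩ := T10a_res_res (m := m) hJJ'
      have : T10a_res J '' {b : Fin n → Fin m → ℝ | T10a_res J' b ∈ C J'} =
          (fun y : Fin J'.card × Fin m → ℝ => fun z : Fin J.card × Fin m => y (ι z.1, z.2)) ''
            (C J') := by
        ext y
        constructor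
        · rintro ⟨b, hb, rfl⟩
          exact ⟨T10a_res J' b, hb, (hι b).symm⟩
        · rintro ⟨y, hy, rfl⟩
          refine ⟨T10a_glue J' y 0, ?_, ?_⟩
          · simpa [T10a_res_glue] using hy
          · rw [hι, T10a_res_glue]
      rw [this, hCe]
      refine ((isCompact_closedBall _ _).image ?_).image ?_
      · exact continuous_subtype_val.comp e.continuous
      · fun_prop
    have hKW : ∀ J : Finset (Fin n), J.card ≤ k → k < s + 1 + J.card → K J ⊆ W J := by
      intro J hJ1 hJ2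
      refine Set.union_subset (hB J hJ1) ?_
      refine Set.iUnion₂_subset ?_
      rintro J' ⟨hJJ', hJ'k, hne⟩ y ⟨b, hb, rfl⟩
      have hlt : J.card < J'.card :=
        Finset.card_lt_card (Finset.ssubset_iff_subset_ne.2 ⟨hJJ', hne⟩)
      exact hres J J' hJJ' hJ'k b ((hC J' hJ'k (by omega)).1 hb)
    have hex : ∀ J : Finset (Fin n), ∃ CJ : Set (Fin J.card × Fin m → ℝ),
        J.card ≤ k → k < s + 1 + J.card →
        CJ ⊆ W J ∧ K J ⊆ CJ ∧ (∃ (d : ℕ) (e : (Fin d → ℝ) ≃ₜ W J) (R : ℝ),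
          CJ = (fun u => (e u : Fin J.card × Fin m → ℝ)) '' Metric.closedBall 0 R) := by
      intro J
      by_cases hJ1 : J.card ≤ k
      · by_cases hJ2 : k < s + 1 + J.card
        · obtain ⟨d, ⟨e⟩⟩ := hch J hJ1
          have hc : IsCompact (e.symm '' {w : W J | (w : Fin J.card × Fin m → ℝ) ∈ K J}) := by
            refine IsCompact.image ?_ e.symm.continuous
            rw [Topology.IsInducing.subtypeVal.isCompact_iff]
            have : (Subtype.val '' {w : W J | (w : Fin J.card × Fin m → ℝ) ∈ K J}) = K J := by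
              ext y
              constructor
              · rintro ⟨w, hw, rfl⟩
                exact hw
              · intro hy
                exact ⟨⟨y, hKW J hJ1 hJ2 hy⟩, hy, rfl⟩
            rw [this]
            exact hKcomp J hJ1 hJ2
          obtain ⟨R, hR⟩ := hc.isBounded.subset_closedBall 0
          refine ⟨(fun u => (e u : Fin J.card × Fin m → ℝ)) '' Metric.closedBall 0 R,
            fun _ _ => ⟨?_, ?_, d, e, R, rfl⟩⟩
          · rintro y ⟨u, -, rfl⟩
            exact (e u).2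
          · intro y hy
            refine ⟨e.symm ⟨y, hKW J hJ1 hJ2 hy⟩, hR ⟨_, hy, rfl⟩, ?_⟩
            simp
        · exact ⟨∅, fun _ h => absurd h hJ2⟩
      · exact ⟨∅, fun h => absurd h hJ1⟩
    choose C' hC' using hex
    refine ⟨fun J => if k < s + J.card then C J else C' J, fun J hJ1 hJ2 => ?_⟩
    by_cases hJs : k < s + J.card
    · simp only [if_pos hJs]
      obtain ⟨h1, h2, h4, h5⟩ := hC J hJ1 hJs
      refine ⟨h1, h2, h4, fun J' hJJ' hJ'k b hb => ?_⟩
      have hle := Finset.card_le_card hJJ'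
      rw [if_pos (by omega)] at hb
      exact h5 J' hJJ' hJ'k b hb
    · simp only [if_neg hJs]
      obtain ⟨h1, h2, h3⟩ := hC' J hJ1 hJ2
      refine ⟨h1, Set.subset_union_left.trans h2, h3,
        fun J' hJJ' hJ'k b hb => ?_⟩
      by_cases hne : J = J'
      · subst hne
        rw [if_neg hJs] at hb
        exact hb
      · have hlt : J.card < J'.card :=
          Finset.card_lt_card (Finset.ssubset_iff_subset_ne.2 ⟨hJJ', hne⟩)
        rw [if_pos (by omega)] at hb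
        exact h2 (Or.inr (Set.mem_iUnion₂.2 ⟨J', ⟨hJJ', hJ'k, hne⟩, b, hb, rfl⟩))

private theorem sysA_EW {k m : ℕ} (E : (Fin m → ℝ) → (Fin k → ℝ) → Prop)
    (G : (r : ℕ) → List (Fm (Fin r × Fin m))) (hG : TypesOK E G)
    (Cc : (r : ℕ) → Set (Fin r × Fin m → ℝ) → Set (Fin r × Fin m → ℝ)) (hC : BallsOK E G Cc)
    (r : ℕ) (h1 : 1 ≤ r) (hr : r ≤ k) (y : Fin r × Fin m → ℝ) (hy : GoodP E y) :
    ∃ y₀ ∈ Cc r (cls (G r) y), IsCompact (EW E (Cc r (cls (G r) y))) ∧
      Acyc (EW E (Cc r (cls (G r) y)))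
        {p : (Fin r × Fin m → ℝ) × (Fin k → ℝ) | p.1 = y₀ ∧ ∀ j, E (fun i => p.1 (j, i)) p.2} := by
  obtain ⟨⟨d, e, R, hR, hCe⟩, -⟩ := hC r hr y hy
  obtain ⟨-, hgood, hcyl, hcpt, -⟩ := hG r y hy
  set C : Set (Fin r × Fin m → ℝ) := Cc r (cls (G r) y) with hCdef
  have hφ : Continuous (fun u => (e u : Fin r × Fin m → ℝ)) :=
    continuous_subtype_val.comp e.continuous
  have hφi : Function.Injective (fun u => (e u : Fin r × Fin m → ℝ)) :=
    Subtype.val_injective.comp e.injective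
  have hCc : IsCompact C := by
    rw [hCe]
    exact (isCompact_closedBall _ _).image hφ
  have hCW : C ⊆ cls (G r) y := by
    rw [hCe]
    rintro _ ⟨u, -, rfl⟩
    exact (e u).2
  have h0 : (0 : Fin d → ℝ) ∈ Metric.closedBall (0 : Fin d → ℝ) R := by
    simpa using hR
  have hac : Acyc C {(e 0 : Fin r × Fin m → ℝ)} := by
    have h2 := Acyc.image (isCompact_closedBall (0 : Fin d → ℝ) R)
      (Set.singleton_subset_iff.2 h0) hφ.continuousOn hφi.injOn
      (Acyc.convex (isCompact_closedBall (0 : Fin d → ℝ) R) (convex_closedBall _ _) h0)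
    rw [← hCe, Set.image_singleton] at h2
    exact h2
  have hy0 : (e 0 : Fin r × Fin m → ℝ) ∈ C := by
    rw [hCe]
    exact ⟨0, h0, rfl⟩
  have hE : IsCompact {p : (Fin r × Fin m → ℝ) × (Fin k → ℝ) |
      p.1 ∈ C ∧ ∀ j, E (fun i => p.1 (j, i)) p.2} := hcpt h1 C hCW hCc
  have hcylC : Cyl k C (fun b p => ∀ j, E (fun i => (b : Fin r × Fin m → ℝ) (j, i)) p) :=
    hcyl.pullback (fun b : C => (⟨b.1, hCW b.2⟩ : cls (G r) y))
      (continuous_subtype_val.subtype_mk _)
  exact ⟨_, hy0, hE, Cyl.acyc_set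
    (E := fun (b : Fin r × Fin m → ℝ) p => ∀ j, E (fun i => b (j, i)) p)
    hCc hy0 hac hE hcylC⟩

private theorem sysA_glue_lip {n m : ℕ} (J : Finset (Fin n)) (y y' : Fin J.card × Fin m → ℝ) :
    dist (T10a_glue J y 0) (T10a_glue J y' 0) ≤ dist y y' := by
  rw [dist_pi_le_iff dist_nonneg]
  intro i
  by_cases hi : i ∈ J
  · rw [dist_pi_le_iff dist_nonneg]
    intro c
    simp only [T10a_glue, dif_pos hi]
    exact dist_le_pi_dist y y' _
  · rw [T10a_glue_not J _ _ hi, T10a_glue_not J _ _ hi, dist_self]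
    exact dist_nonneg

theorem sys_types {k m : ℕ} (E : (Fin m → ℝ) → (Fin k → ℝ) → Prop)
    (G : (r : ℕ) → List (Fm (Fin r × Fin m))) (hG : TypesOK E G)
    (Cc : (r : ℕ) → Set (Fin r × Fin m → ℝ) → Set (Fin r × Fin m → ℝ)) (hC : BallsOK E G Cc)
    (n : ℕ) (a : Fin n → Fin m → ℝ) (ha : ∀ i, IsCompact {p | E (a i) p}) :
    ∃ 𝓔 : Finset (Fin n) → Set ((Fin n → Fin m → ℝ) × (Fin k → ℝ)),
      (∀ J J', J ⊆ J' → 𝓔 J' ⊆ 𝓔 J) ∧
      (∀ q, q + 2 ≤ k → betti (⋃ i, {p | E (a i) p} : Set (Fin k → ℝ)) q =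
        Module.finrank ℚ (HT k 𝓔 (q + 2))) ∧
      ∀ J : Finset (Fin n), J.Nonempty → J.card ≤ k →
        Set.MapsTo (piJ J) (𝓔 J) (EW E (Cc J.card (cls (G J.card) (resJ J a)))) ∧
        ∃ s : (Fin J.card × Fin m → ℝ) × (Fin k → ℝ) → (Fin n → Fin m → ℝ) × (Fin k → ℝ),
          (∀ z, piJ J (s z) = z) ∧ LipschitzWith 1 s ∧
          Set.MapsTo s (EW E (Cc J.card (cls (G J.card) (resJ J a)))) (𝓔 J) ∧
          Acyc (𝓔 J) (s '' EW E (Cc J.card (cls (G J.card) (resJ J a))))  := by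
  classical
  simp only [sysA_res]
  let W : (J : Finset (Fin n)) → Set (Fin J.card × Fin m → ℝ) :=
    fun J => cls (G J.card) (T10a_res J a)
  have hgood : ∀ J : Finset (Fin n), GoodP E (T10a_res J a) := fun J j =>
    ha (J.orderIsoOfFin rfl j : Fin n)
  have hGJ := fun J : Finset (Fin n) => hG J.card (T10a_res J a) (hgood J)
  have haW : ∀ J : Finset (Fin n), T10a_res J a ∈ W J := fun J e _ => rfl
  have hres : ∀ J J' : Finset (Fin n), J ⊆ J' → J'.card ≤ k → ∀ b : Fin n → Fin m → ℝ,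
      T10a_res J' b ∈ W J' → T10a_res J b ∈ W J := by
    intro J J' hJJ' _ b hb
    obtain ⟨ι, hι, hιr⟩ := T10a_res_res (m := m) hJJ'
    have := (hGJ J').2.2.2.2 J.card ι hι (T10a_res J' b) hb
    show T10a_res J b ∈ cls (G J.card) (T10a_res J a)
    rw [hιr b, hιr a]
    exact this
  -- the small balls
  let B : (J : Finset (Fin n)) → Set (Fin J.card × Fin m → ℝ) := fun J => Cc J.card (W J)
  have hBe : ∀ J : Finset (Fin n), J.card ≤ k → ∃ (d : ℕ) (e : (Fin d → ℝ) ≃ₜ W J) (R : ℝ),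
      0 ≤ R ∧ B J = (fun u => (e u : Fin J.card × Fin m → ℝ)) '' Metric.closedBall 0 R :=
    fun J hJ => (hC J.card hJ (T10a_res J a) (hgood J)).1
  have hBres : ∀ J J' : Finset (Fin n), J ⊆ J' → J'.card ≤ k → ∀ b : Fin n → Fin m → ℝ,
      T10a_res J' b ∈ B J' → T10a_res J b ∈ B J := by
    intro J J' hJJ' hJ' b hb
    obtain ⟨ι, hι, hιr⟩ := T10a_res_res (m := m) hJJ'
    have := (hC J'.card hJ' (T10a_res J' a) (hgood J')).2 J.card ι hι (T10a_res J' b) hb
    show T10a_res J b ∈ Cc J.card (cls (G J.card) (T10a_res J a))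
    rw [hιr b, hιr a]
    exact this
  have hBW : ∀ J : Finset (Fin n), J.card ≤ k → B J ⊆ W J := by
    intro J hJ
    obtain ⟨d, e, R, -, he⟩ := hBe J hJ
    rw [he]
    rintro y ⟨u, -, rfl⟩
    exact (e u).2
  have hBc : ∀ J : Finset (Fin n), J.card ≤ k → IsCompact (B J) := by
    intro J hJ
    obtain ⟨d, e, R, -, he⟩ := hBe J hJ
    rw [he]
    exact (isCompact_closedBall _ _).image (continuous_subtype_val.comp e.continuous)
  obtain ⟨C, hC1⟩ := sysA_choose k W (fun J _ => (hGJ J).1) hres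
    (fun J => B J ∪ {T10a_res J a})
    (fun J hJ => Set.union_subset (hBW J hJ) (Set.singleton_subset_iff.2 (haW J)))
    (fun J hJ => (hBc J hJ).union isCompact_singleton) (k + 1)
  have hC' := fun (J : Finset (Fin n)) (hJ : J.card ≤ k) => hC1 J hJ (by omega)
  -- the bound for the remaining coordinates
  have hρ : ∀ J : Finset (Fin n), ∃ ρ : ℝ, J.card ≤ k → ∀ b : Fin n → Fin m → ℝ,
      T10a_res J b ∈ C J → ∀ i ∈ J, ‖b i‖ ≤ ρ := by
    intro J
    by_cases hJ : J.card ≤ k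
    · obtain ⟨-, -, ⟨d, e, R, hCe⟩, -⟩ := hC' J hJ
      have hcomp : IsCompact (C J) := by
        rw [hCe]
        exact (isCompact_closedBall _ _).image (continuous_subtype_val.comp e.continuous)
      obtain ⟨ρ, hρ⟩ := hcomp.isBounded.exists_norm_le
      exact ⟨ρ, fun _ b hb i hi => (T10a_norm_le J b hi).trans (hρ _ hb)⟩
    · exact ⟨0, fun h => absurd h hJ⟩
  choose ρJ hρJ using hρ
  let ρ : ℝ := ‖a‖ + ∑ J : Finset (Fin n), |ρJ J|
  have hsum : (0 : ℝ) ≤ ∑ J : Finset (Fin n), |ρJ J| := Finset.sum_nonneg fun _ _ => abs_nonneg _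
  have hρ0 : 0 ≤ ρ := add_nonneg (norm_nonneg _) hsum
  have hρa : ∀ i, ‖a i‖ ≤ ρ := fun i => by
    have h1 := norm_le_pi_norm a i
    simp only [ρ]
    linarith
  have hρle : ∀ J : Finset (Fin n), ρJ J ≤ ρ := fun J => by
    have h1 := Finset.single_le_sum (f := fun J => |ρJ J|) (fun _ _ => abs_nonneg _)
      (Finset.mem_univ J)
    have h2 := norm_nonneg a
    have h4 := le_abs_self (ρJ J)
    simp only [ρ]
    linarith
  -- systems
  let 𝓢 : ((J : Finset (Fin n)) → Set (Fin J.card × Fin m → ℝ)) →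
      Finset (Fin n) → Set ((Fin n → Fin m → ℝ) × (Fin k → ℝ)) := fun S J =>
    if J = ∅ then Set.univ else if J.card ≤ k then
      {p | p.1 ∈ T10a_base J (S J) ρ ∧ ∀ j ∈ J, E (p.1 j) p.2} else ∅
  have hSeq : ∀ (S : (J : Finset (Fin n)) → Set (Fin J.card × Fin m → ℝ)) (J : Finset (Fin n)),
      J.Nonempty → J.card ≤ k →
      𝓢 S J = {p | p.1 ∈ T10a_base J (S J) ρ ∧ ∀ j ∈ J, E (p.1 j) p.2} := by
    intro S J hJ hJk
    simp only [𝓢]
    rw [if_neg hJ.ne_empty, if_pos hJk]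
  have hSanti : ∀ S : (J : Finset (Fin n)) → Set (Fin J.card × Fin m → ℝ),
      (∀ J J' : Finset (Fin n), J ⊆ J' → J'.card ≤ k → ∀ b : Fin n → Fin m → ℝ,
        T10a_res J' b ∈ S J' → T10a_res J b ∈ S J) →
      (∀ J : Finset (Fin n), J.card ≤ k → S J ⊆ C J) →
      ∀ J J', J ⊆ J' → 𝓢 S J' ⊆ 𝓢 S J := by
    intro S hS1 hS2 J J' hJJ'
    simp only [𝓢]
    by_cases hJ0 : J = ∅
    · rw [if_pos hJ0]
      exact Set.subset_univ _
    have hJ'0 : J' ≠ ∅ := by
      rintro rfl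
      exact hJ0 (Finset.subset_empty.1 hJJ')
    rw [if_neg hJ0, if_neg hJ'0]
    by_cases hJ'k : J'.card ≤ k
    · have hJk : J.card ≤ k := (Finset.card_le_card hJJ').trans hJ'k
      rw [if_pos hJ'k, if_pos hJk]
      rintro ⟨b, p⟩ ⟨⟨hb1, hb2⟩, hp⟩
      refine ⟨⟨hS1 J J' hJJ' hJ'k b hb1, fun i hi => ?_⟩, fun j hj => hp j (hJJ' hj)⟩
      by_cases hi' : i ∈ J'
      · exact (hρJ J' hJ'k b (hS2 J' hJ'k hb1) i hi').trans (hρle J')
      · exact hb2 i hi'
    · rw [if_neg hJ'k]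
      exact Set.empty_subset _
  have hBC : ∀ J : Finset (Fin n), J.card ≤ k → B J ⊆ C J := fun J hJ =>
    Set.subset_union_left.trans (hC' J hJ).2.1
  have hCres : ∀ J J' : Finset (Fin n), J ⊆ J' → J'.card ≤ k → ∀ b : Fin n → Fin m → ℝ,
      T10a_res J' b ∈ C J' → T10a_res J b ∈ C J := fun J J' hJJ' hJ' b hb =>
    (hC' J ((Finset.card_le_card hJJ').trans hJ')).2.2.2 J' hJJ' hJ' b hb
  have hanti := hSanti B hBres hBC
  have hantia := hSanti C hCres (fun J _ => subset_rfl)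
  have hsub : ∀ J, 𝓢 B J ⊆ 𝓢 C J := by
    intro J
    simp only [𝓢]
    by_cases hJ0 : J = ∅
    · rw [if_pos hJ0, if_pos hJ0]
    rw [if_neg hJ0, if_neg hJ0]
    by_cases hJk : J.card ≤ k
    · rw [if_pos hJk, if_pos hJk]
      rintro ⟨b, p⟩ ⟨⟨hb1, hb2⟩, hp⟩
      exact ⟨⟨hBC J hJk hb1, hb2⟩, hp⟩
    · rw [if_neg hJk]
      exact Set.empty_subset _
  -- acyclicity relative to a fibre
  have hfibC : ∀ J : Finset (Fin n), J.Nonempty → J.card ≤ k →
      ∀ b : Fin n → Fin m → ℝ, b ∈ T10a_base J (C J) ρ →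
        Acyc (𝓢 C J) {p : (Fin n → Fin m → ℝ) × (Fin k → ℝ) |
          p.1 = b ∧ ∀ j ∈ J, E (p.1 j) p.2} := by
    intro J hJ hJk b hb
    rw [hSeq C J hJ hJk]
    obtain ⟨hCW, -, ⟨d, e, R, hCe⟩, -⟩ := hC' J hJk
    have hcomp : IsCompact (C J) := by
      rw [hCe]
      exact (isCompact_closedBall _ _).image (continuous_subtype_val.comp e.continuous)
    exact T10a_total_acyc E J e R ρ hCe (hGJ J).2.2.1
        ((hGJ J).2.2.2.1 (Finset.card_pos.2 hJ) (C J) hCW hcomp) hb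
  have hfibB : ∀ J : Finset (Fin n), J.Nonempty → J.card ≤ k →
      ∀ b : Fin n → Fin m → ℝ, b ∈ T10a_base J (B J) ρ →
        Acyc (𝓢 B J) {p : (Fin n → Fin m → ℝ) × (Fin k → ℝ) |
          p.1 = b ∧ ∀ j ∈ J, E (p.1 j) p.2} := by
    intro J hJ hJk b hb
    rw [hSeq B J hJ hJk]
    obtain ⟨d, e, R, -, he⟩ := hBe J hJk
    exact T10a_total_acyc E J e R ρ he (hGJ J).2.2.1
        ((hGJ J).2.2.2.1 (Finset.card_pos.2 hJ) (B J) (hBW J hJk) (hBc J hJk)) hb
  have hfibsub : ∀ (S : (J : Finset (Fin n)) → Set (Fin J.card × Fin m → ℝ))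
      (J : Finset (Fin n)), J.Nonempty → J.card ≤ k →
      ∀ b : Fin n → Fin m → ℝ, b ∈ T10a_base J (S J) ρ →
        {p : (Fin n → Fin m → ℝ) × (Fin k → ℝ) |
          p.1 = b ∧ ∀ j ∈ J, E (p.1 j) p.2} ⊆ 𝓢 S J := by
    intro S J hJ hJk b hb
    rw [hSeq S J hJ hJk]
    rintro ⟨b', p⟩ ⟨h1, h2⟩
    simp only at h1
    subst h1
    exact ⟨hb, h2⟩
  -- existence of a point
  have hpt : ∀ J : Finset (Fin n), J.card ≤ k → ∀ y ∈ B J,
      T10a_glue J y 0 ∈ T10a_base J (B J) ρ := by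
    intro J hJk y hy
    refine ⟨?_, fun i hi => ?_⟩
    · rw [T10a_res_glue]
      exact hy
    · rw [T10a_glue_not J _ _ hi]
      simpa using hρ0
  have hBne : ∀ J : Finset (Fin n), J.card ≤ k → (B J).Nonempty := by
    intro J hJk
    obtain ⟨d, e, R, hR, he⟩ := hBe J hJk
    rw [he]
    exact ⟨_, 0, by simpa using hR, rfl⟩
  have hiff : ∀ (J : Finset (Fin n)) (b : Fin n → Fin m → ℝ) (p : Fin k → ℝ),
      (∀ j, E (fun i => T10a_res J b (j, i)) p) ↔ ∀ j ∈ J, E (b j) p := by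
    intro J b p
    constructor
    · intro h j hj
      have := h ((J.orderIsoOfFin rfl).symm ⟨j, hj⟩)
      simpa [T10a_res] using this
    · intro h j
      exact h _ (J.orderIsoOfFin rfl j).2
  refine ⟨𝓢 B, hanti, ?_, ?_⟩
  · intro q hq
    rw [T10b_aux E a ha (𝓢 C) hantia ?_ q hq]
    · have hac : ∀ J : Finset (Fin n), J.Nonempty → J.card ≤ k → Acyc (𝓢 C J) (𝓢 B J) := by
        intro J hJ hJk
        obtain ⟨y, hy⟩ := hBne J hJk
        have hb := hpt J hJk y hy
        have hb' : T10a_glue J y 0 ∈ T10a_base J (C J) ρ := ⟨hBC J hJk hb.1, hb.2⟩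
        exact Acyc.of_trans (hsub J) (hfibsub B J hJ hJk _ hb) (hfibC J hJ hJk _ hb')
          (hfibB J hJ hJk _ hb)
      obtain ⟨e5⟩ := HT_of_acyc k (𝓔 := 𝓢 C) (𝓕 := 𝓢 B) hantia hanti hsub hac (q + 2)
      exact e5.finrank_eq
    · intro J hJ hJk
      have haC : a ∈ T10a_base J (C J) ρ :=
        ⟨(hC' J hJk).2.1 (Or.inr rfl), fun i _ => hρa i⟩
      have h1 : 𝓢 C J ∩ {p | p.1 = a} = {p | p.1 = a ∧ ∀ j ∈ J, E (a j) p.2} := by
        rw [hSeq C J hJ hJk]
        ext ⟨b', p⟩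
        constructor
        · rintro ⟨⟨-, h2⟩, h3⟩
          change b' = a at h3
          subst h3
          exact ⟨rfl, h2⟩
        · rintro ⟨h2, h3⟩
          simp only at h2
          subst h2
          exact ⟨⟨haC, h3⟩, rfl⟩
      refine ⟨h1, ?_⟩
      rw [h1]
      have h2 := hfibC J hJ hJk a haC
      convert h2 using 1
      ext ⟨b', p⟩
      constructor
      · rintro ⟨h3, h4⟩
        simp only at h3
        subst h3
        exact ⟨rfl, h4⟩
      · rintro ⟨h3, h4⟩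
        simp only at h3
        subst h3
        exact ⟨rfl, h4⟩
  · intro J hJ hJk
    have hEB : ∀ z : (Fin J.card × Fin m → ℝ) × (Fin k → ℝ),
        z ∈ EW E (Cc J.card (cls (G J.card) (T10a_res J a))) →
          (T10a_glue J z.1 0, z.2) ∈ 𝓢 B J := by
      rintro ⟨y, p⟩ ⟨hy, hp⟩
      rw [hSeq B J hJ hJk]
      refine ⟨hpt J hJk y hy, ?_⟩
      refine (hiff J _ p).1 ?_
      simp only [T10a_res_glue]
      exact hp
    have hmaps : Set.MapsTo (piJ J) (𝓢 B J)
        (EW E (Cc J.card (cls (G J.card) (T10a_res J a)))) := by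
      rintro ⟨b, p⟩ hb
      rw [hSeq B J hJ hJk] at hb
      obtain ⟨⟨h1, -⟩, h2⟩ := hb
      refine ⟨?_, ?_⟩
      · show resJ J b ∈ _
        rw [sysA_res]
        exact h1
      · intro j
        show E (fun i => resJ J b (j, i)) p
        rw [sysA_res]
        exact (hiff J b p).2 h2 j
    refine ⟨hmaps, fun z => (T10a_glue J z.1 0, z.2), ?_, ?_, ?_, ?_⟩
    · rintro ⟨y, p⟩
      show (resJ J (T10a_glue J y 0), p) = (y, p)
      rw [sysA_res, T10a_res_glue]
    · refine LipschitzWith.of_dist_le_mul fun z z' => ?_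
      rw [NNReal.coe_one, one_mul, Prod.dist_eq, Prod.dist_eq]
      exact max_le_max (sysA_glue_lip J z.1 z'.1) le_rfl
    · exact fun z hz => hEB z hz
    · obtain ⟨y₀, hy₀, hEc, hEa⟩ := sysA_EW E G hG Cc hC J.card (Finset.card_pos.2 hJ) hJk
        (T10a_res J a) (hgood J)
      have hcont : Continuous (fun z : (Fin J.card × Fin m → ℝ) × (Fin k → ℝ) =>
          (T10a_glue J z.1 (0 : Fin n → Fin m → ℝ), z.2)) := by
        refine Continuous.prodMk ?_ continuous_snd
        exact (T10a_glue_continuous J).comp (continuous_fst.prodMk continuous_const)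
      have hinj : Function.Injective (fun z : (Fin J.card × Fin m → ℝ) × (Fin k → ℝ) =>
          (T10a_glue J z.1 (0 : Fin n → Fin m → ℝ), z.2)) := by
        rintro ⟨y, p⟩ ⟨y', p'⟩ h
        obtain ⟨h1, h2⟩ := Prod.mk.inj h
        have h3 := congrArg (T10a_res J) h1
        rw [T10a_res_glue, T10a_res_glue] at h3
        exact Prod.ext h3 h2
      have hfibEW : {p : (Fin J.card × Fin m → ℝ) × (Fin k → ℝ) |
          p.1 = y₀ ∧ ∀ j, E (fun i => p.1 (j, i)) p.2} ⊆
          EW E (Cc J.card (cls (G J.card) (T10a_res J a))) := by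
        rintro ⟨y, p⟩ ⟨h1, h2⟩
        change y = y₀ at h1
        subst h1
        exact ⟨hy₀, h2⟩
      have h5 := Acyc.image hEc hfibEW hcont.continuousOn hinj.injOn hEa
      have h6 : (fun z : (Fin J.card × Fin m → ℝ) × (Fin k → ℝ) =>
          (T10a_glue J z.1 (0 : Fin n → Fin m → ℝ), z.2)) ''
          {p : (Fin J.card × Fin m → ℝ) × (Fin k → ℝ) |
            p.1 = y₀ ∧ ∀ j, E (fun i => p.1 (j, i)) p.2} =
          {p : (Fin n → Fin m → ℝ) × (Fin k → ℝ) |
            p.1 = T10a_glue J y₀ 0 ∧ ∀ j ∈ J, E (p.1 j) p.2} := by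
        ext ⟨b, p⟩
        constructor
        · rintro ⟨⟨y, p'⟩, ⟨h1, h2⟩, h3⟩
          change y = y₀ at h1
          subst h1
          obtain ⟨rfl, rfl⟩ := Prod.mk.inj h3
          refine ⟨rfl, ?_⟩
          refine (hiff J _ p').1 ?_
          simp only [T10a_res_glue]
          exact h2
        · rintro ⟨h1, h2⟩
          change b = _ at h1
          subst h1
          refine ⟨(y₀, p), ⟨rfl, ?_⟩, rfl⟩
          have h3 := (hiff J _ p).2 h2
          simp only [T10a_res_glue] at h3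
          exact h3
      rw [h6] at h5
      refine Acyc.of_trans ?_ ?_ (hfibB J hJ hJk _ (hpt J hJk y₀ hy₀)) h5
      · rintro _ ⟨z, hz, rfl⟩
        exact hEB z hz
      · rw [← h6]
        exact Set.image_mono hfibEW

end BU
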