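import Pool.Agent.Work.MP_4030f5_lc.U.SysA
import Pool.Agent.Work.MP_4030f5_lc.U.ModelEx

/-! # The finite system of an input

`ps J l b τ = D.ph r W_J l b (τ.map (piJ J))`, `W_J = cls (G J.card) (resJ J a)`. For `J' ⊆ J` let
`posJ J J' : Fin J'.card → Fin J.card` be the strictly increasing map with
`J.orderEmbOfFin rfl (posJ J J' i) = J'.orderEmbOfFin rfl i`; `resI (posJ J J') (piJ J p) = piJ J' p`.
`indep`: pull back along the section `s` (`piJ J (s z) = z`, Lipschitz, maps `EW` to `𝓔 J`).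
`acyc`: `f` with `D f ≡ ∑ c ps` mod `ZS (𝓔 J)`; apply the property of the model to `f ∘ s`; the difference
`f - ∑ c' ps - D (g ∘ piJ)` (restricted to lists of length `l`) is a cocycle modulo `ZS (𝓔 J)` up to a
combination of the `ps (l + 1)` which is zero by `indep`, and vanishes on small lists in
`s '' EW`, so `Acyc (𝓔 J) (s '' EW)` applies. (`Acyc` is a statement about functions on all lists: use
restrictions `if τ.length = l then .. else 0`.) -/

namespace BU

/-- position of the elements of `J'` in `J`. -/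
noncomputable def posJ {n : ℕ} (J J' : Finset (Fin n)) (h : J' ⊆ J) (i : Fin J'.card) :
    Fin J.card :=
  (J.orderIsoOfFin rfl).symm ⟨J'.orderEmbOfFin rfl i, h (J'.orderEmbOfFin_mem rfl i)⟩

open Finset

private theorem SysB_comap {M N : Type} [MetricSpace M] [MetricSpace N] {X : Set M} {Y : Set N}
    {φ : M → N} (hφ : UniformContinuousOn φ X) (hXY : Set.MapsTo φ X Y) {l : ℕ} {f : List N → ℚ}
    (hf : f ∈ ZS Y l) : (fun τ => f (τ.map φ)) ∈ ZS X l := by
  have h := Z_comap hφ hXY (f := fun τ => if τ.length = l then f τ else 0) hf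
  have e : (fun τ : List M => (fun τ => if τ.length = l then f τ else 0) (τ.map φ)) =
      fun τ => if τ.length = l then (fun τ => f (τ.map φ)) τ else 0 := by
    funext τ
    simp only [List.length_map]
  rw [e] at h
  exact h

private theorem SysB_ZS_D {M : Type} [MetricSpace M] {X : Set M} {l : ℕ} {f : List M → ℚ}
    (hf : f ∈ ZS X l) : D f ∈ ZS X (l + 1) := by
  have h1 : Z X (D (fun τ => if τ.length = l then f τ else 0)) := Z_D hf
  have e : D (fun τ => if τ.length = l then f τ else 0) =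
      fun τ => if τ.length = l + 1 then D f τ else 0 := by
    funext τ
    exact T6a_D_restrict f l τ
  rw [e] at h1
  exact h1

private theorem SysB_ZS_mono {M : Type} [MetricSpace M] {X Y : Set M} (h : X ⊆ Y) {l : ℕ}
    {f : List M → ℚ} (hf : f ∈ ZS Y l) : f ∈ ZS X l := Z_mono h hf

private theorem SysB_D_sum {M : Type} (r : ℕ) (v : ℕ → ℚ) (p : ℕ → List M → ℚ) (τ : List M) :
    D (fun τ => ∑ b ∈ range r, v b * p b τ) τ = ∑ b ∈ range r, v b * D (p b) τ := by
  rw [D_sum (range r) (fun b τ => v b * p b τ) τ]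
  refine sum_congr rfl fun b _ => ?_
  exact D_map (AddMonoidHom.mulLeft (v b)) (p b) τ

private theorem SysB_sum_mem {M : Type} [MetricSpace M] {X : Set M} {l : ℕ} (r : ℕ) (v : ℕ → ℚ)
    (p : ℕ → List M → ℚ) (hp : ∀ b < r, p b ∈ ZS X l) :
    (fun τ => ∑ b ∈ range r, v b * p b τ) ∈ ZS X l := by
  have e : (fun τ => ∑ b ∈ range r, v b * p b τ) = ∑ b ∈ range r, v b • p b := by
    funext τ
    rw [Finset.sum_apply]
    rfl
  rw [e]
  exact sum_mem fun b hb => (ZS X l).smul_mem _ (hp b (mem_range.1 hb))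

private theorem SysB_acyc {M N : Type} [MetricSpace M] [MetricSpace N] {X : Set M} {Y : Set N}
    (π : M → N) (s : N → M) (hπ : UniformContinuous π) (hs : UniformContinuous s)
    (hπs : ∀ z, π (s z) = z) (hXY : Set.MapsTo π X Y) (hYX : Set.MapsTo s Y X)
    (hA : Acyc X (s '' Y)) (l r1 r0 : ℕ) (P0 P1 : ℕ → List N → ℚ) (mA : ℕ → ℕ → ℚ)
    (hind : ∀ c : ℕ → ℚ, (fun τ => ∑ b ∈ range r1, c b * P1 b τ) ∈ ZS Y (l + 1) →
      ∀ b < r1, c b = 0)
    (hdA : ∀ b' < r0, (fun τ => D (P0 b') τ - ∑ b ∈ range r1, mA b b' * P1 b τ) ∈ ZS Y (l + 1))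
    (hac : ∀ f : List N → ℚ, f [] = 0 →
      (∃ c : ℕ → ℚ, (fun τ => D f τ - ∑ b ∈ range r1, c b * P1 b τ) ∈ ZS Y (l + 1)) →
      ∃ (g : List N → ℚ) (c : ℕ → ℚ), g [] = 0 ∧
        (fun τ => f τ - D g τ - ∑ b ∈ range r0, c b * P0 b τ) ∈ ZS Y l)
    (f : List M → ℚ) (hf : f [] = 0) (c : ℕ → ℚ)
    (hc : (fun τ => D f τ - ∑ b ∈ range r1, c b * P1 b (τ.map π)) ∈ ZS X (l + 1)) :
    ∃ (g : List M → ℚ) (c' : ℕ → ℚ), g [] = 0 ∧
      (fun τ => f τ - D g τ - ∑ b ∈ range r0, c' b * P0 b (τ.map π)) ∈ ZS X l := by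
  have hmap : ∀ τ : List N, (τ.map s).map π = τ := by
    intro τ
    rw [List.map_map]
    have : π ∘ s = id := funext hπs
    rw [this, List.map_id]
  -- the pull back of `f` to `Y`
  obtain ⟨g', c', hg', hgc⟩ := hac (fun τ => f (τ.map s)) hf ⟨c, by
    have h := SysB_comap hs.uniformContinuousOn hYX hc
    have e : (fun τ : List N => (fun τ => D f τ - ∑ b ∈ range r1, c b * P1 b (τ.map π)) (τ.map s))
        = fun τ => D (fun τ => f (τ.map s)) τ - ∑ b ∈ range r1, c b * P1 b τ := by
      funext τ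
      simp only [hmap, D_comp_map]
    rw [e] at h
    exact h⟩
  -- the difference
  set h : List M → ℚ := fun τ => f τ - D (fun τ => g' (τ.map π)) τ -
    ∑ b ∈ range r0, c' b * P0 b (τ.map π) with hh
  -- `h` vanishes on `s '' Y`
  have h1 : h ∈ ZS (s '' Y) l := by
    have hm : Set.MapsTo π (s '' Y) Y := by
      rintro _ ⟨z, hz, rfl⟩
      rw [hπs]
      exact hz
    obtain ⟨η, hη, h2⟩ := SysB_comap hπ.uniformContinuousOn hm hgc
    refine ⟨η, hη, fun τ hτ hd => ?_⟩
    have h3 := h2 τ hτ hd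
    have hτs : (τ.map π).map s = τ := by
      rw [List.map_map]
      have : ∀ x ∈ τ, (s ∘ π) x = x := by
        intro x hx
        obtain ⟨z, _, rfl⟩ := hτ x hx
        simp [hπs]
      rw [List.map_congr_left this]
      simp
    simp only at h3 ⊢
    split_ifs at h3 ⊢ with h4
    · rw [← h3]
      simp only [hh, hτs]
      rw [D_comp_map]
    · rfl
  -- the coboundary of `h`
  have h2 : ∃ e : ℕ → ℚ, (fun τ => D h τ - ∑ b ∈ range r1, e b * P1 b (τ.map π)) ∈
      ZS X (l + 1) := by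
    refine ⟨fun b => c b - ∑ b' ∈ range r0, c' b' * mA b b', ?_⟩
    have h3 : (fun τ => ∑ b' ∈ range r0, c' b' *
        (fun τ : List M => D (P0 b') (τ.map π) - ∑ b ∈ range r1, mA b b' * P1 b (τ.map π)) τ) ∈
          ZS X (l + 1) := by
      apply SysB_sum_mem
      intro b' hb'
      exact SysB_comap hπ.uniformContinuousOn hXY (hdA b' hb')
    have h4 := sub_mem hc h3
    have e : (fun τ => D f τ - ∑ b ∈ range r1, c b * P1 b (τ.map π)) -
        (fun τ => ∑ b' ∈ range r0, c' b' *
        (fun τ : List M => D (P0 b') (τ.map π) - ∑ b ∈ range r1, mA b b' * P1 b (τ.map π)) τ) =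
        fun τ => D h τ - ∑ b ∈ range r1,
          (fun b => c b - ∑ b' ∈ range r0, c' b' * mA b b') b * P1 b (τ.map π) := by
      funext τ
      have e1 : D h τ = D f τ - ∑ b' ∈ range r0, c' b' * D (P0 b') (τ.map π) := by
        rw [hh]
        rw [D_sub (fun τ => f τ - D (fun τ => g' (τ.map π)) τ)
          (fun τ => ∑ b ∈ range r0, c' b * P0 b (τ.map π)) τ,
          D_sub f (D (fun τ => g' (τ.map π))) τ, D_D, sub_zero,
          SysB_D_sum r0 c' (fun b τ => P0 b (τ.map π)) τ]
        congr 1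
        refine sum_congr rfl fun b _ => ?_
        rw [D_comp_map]
      rw [e1]
      simp only [Pi.sub_apply, sub_mul, sum_sub_distrib, mul_sub, sum_mul, mul_sum]
      rw [sum_comm (s := range r0) (t := range r1)]
      simp only [mul_assoc]
      ring
    rw [e] at h4
    exact h4
  obtain ⟨e, he⟩ := h2
  -- the combination is zero
  have he0 : ∀ b < r1, e b = 0 := by
    apply hind
    have hsub : s '' Y ⊆ X := by
      rintro _ ⟨z, hz, rfl⟩
      exact hYX hz
    have h3 := SysB_ZS_mono hsub he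
    have h4 := sub_mem (SysB_ZS_D h1) h3
    have h5 := SysB_comap hs.uniformContinuousOn (Set.mapsTo_image s Y) h4
    have e' : (fun τ : List N => (D h - fun τ => D h τ - ∑ b ∈ range r1, e b * P1 b (τ.map π))
        (τ.map s)) = fun τ => ∑ b ∈ range r1, e b * P1 b τ := by
      funext τ
      simp only [Pi.sub_apply, hmap]
      ring
    rw [e'] at h5
    exact h5
  have h3 : D h ∈ ZS X (l + 1) := by
    have e' : (fun τ => D h τ - ∑ b ∈ range r1, e b * P1 b (τ.map π)) = D h := by
      funext τ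
      rw [sum_eq_zero, sub_zero]
      intro b hb
      rw [he0 b (mem_range.1 hb), zero_mul]
    rw [e'] at he
    exact he
  -- acyclicity
  obtain ⟨g₂, hg₂, hg₂'⟩ := hA (fun τ => if τ.length = l then h τ else 0) h1 (by
    have e' : D (fun τ => if τ.length = l then h τ else 0) =
        fun τ => if τ.length = l + 1 then D h τ else 0 := by
      funext τ
      exact T6a_D_restrict h l τ
    rw [e']
    exact h3)
  refine ⟨fun τ => g' (τ.map π) + g₂ τ, c', ?_, ?_⟩
  · have := Z_nil hg₂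
    simp [hg', this]
  · obtain ⟨η, hη, h4⟩ := hg₂'
    refine ⟨η, hη, fun τ hτ hd => ?_⟩
    have h5 := h4 τ hτ hd
    simp only at h5 ⊢
    split_ifs at h5 ⊢ with h6
    · rw [← h5]
      simp only [hh]
      rw [D_add (fun τ => g' (τ.map π)) g₂ τ]
      ring
    · rfl

private theorem SysB_pi_uc {n m k : ℕ} (J : Finset (Fin n)) :
    UniformContinuous (piJ (m := m) (k := k) J) := by
  unfold piJ resJ
  refine UniformContinuous.prodMk ?_ uniformContinuous_snd
  rw [uniformContinuous_pi]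
  intro z
  have h1 : UniformContinuous (fun f : Fin m → ℝ => f z.2) :=
    Pi.uniformContinuous_proj (fun _ : Fin m => ℝ) z.2
  have h2 : UniformContinuous (fun f : Fin n → Fin m → ℝ => f (J.orderEmbOfFin rfl z.1)) :=
    Pi.uniformContinuous_proj (fun _ : Fin n => Fin m → ℝ) (J.orderEmbOfFin rfl z.1)
  exact h1.comp (h2.comp uniformContinuous_fst)

private theorem SysB_pos {n : ℕ} (J J' : Finset (Fin n)) (h : J' ⊆ J) (i : Fin J'.card) :
    J.orderEmbOfFin rfl (posJ J J' h i) = J'.orderEmbOfFin rfl i := by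
  unfold posJ
  have h1 := (J.orderIsoOfFin rfl).apply_symm_apply
    ⟨J'.orderEmbOfFin rfl i, h (J'.orderEmbOfFin_mem rfl i)⟩
  have h2 := congrArg Subtype.val h1
  rw [Finset.coe_orderIsoOfFin_apply] at h2
  exact h2

private theorem SysB_pos_mono {n : ℕ} (J J' : Finset (Fin n)) (h : J' ⊆ J) :
    StrictMono (posJ J J' h) := by
  intro i j hij
  rw [← (J.orderEmbOfFin rfl).lt_iff_lt, SysB_pos, SysB_pos]
  exact (J'.orderEmbOfFin rfl).lt_iff_lt.2 hij

private theorem SysB_res {n m : ℕ} (J J' : Finset (Fin n)) (h : J' ⊆ J) (b : Fin n → Fin m → ℝ) :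
    (fun z : Fin J'.card × Fin m => resJ J b (posJ J J' h z.1, z.2)) = resJ J' b := by
  funext z
  simp only [resJ]
  rw [SysB_pos]

private theorem SysB_resI {n m k : ℕ} (J J' : Finset (Fin n)) (h : J' ⊆ J)
    (p : (Fin n → Fin m → ℝ) × (Fin k → ℝ)) : resI (posJ J J' h) (piJ J p) = piJ J' p := by
  unfold resI piJ
  exact Prod.ext (SysB_res J J' h p.1) rfl

theorem finsys_exists {k m : ℕ} (E : (Fin m → ℝ) → (Fin k → ℝ) → Prop)
    (G : (r : ℕ) → List (Fm (Fin r × Fin m))) (hG : TypesOK E G)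
    (Cc : (r : ℕ) → Set (Fin r × Fin m → ℝ) → Set (Fin r × Fin m → ℝ)) (hC : BallsOK E G Cc)
    (D : Model k m) (hD : D.OK E G Cc)
    (n : ℕ) (a : Fin n → Fin m → ℝ) (ha : ∀ i, IsCompact {p | E (a i) p}) :
    ∃ (𝓔 : Finset (Fin n) → Set ((Fin n → Fin m → ℝ) × (Fin k → ℝ)))
      (S : FinSys k n ((Fin n → Fin m → ℝ) × (Fin k → ℝ)) 𝓔),
      (∀ q, q + 2 ≤ k → betti (⋃ i, {p | E (a i) p} : Set (Fin k → ℝ)) q =
        Module.finrank ℚ (HT k 𝓔 (q + 2))) ∧
      (∀ J : Finset (Fin n), J.Nonempty → J.card ≤ k → ∀ l,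
        S.be J l = D.be J.card (cls (G J.card) (resJ J a)) l) ∧
      (∀ J : Finset (Fin n), J.Nonempty → J.card ≤ k → ∀ l b b',
        S.mA J l b b' = D.mA J.card (cls (G J.card) (resJ J a)) l b b') ∧
      (∀ (J J' : Finset (Fin n)) (h : J' ⊆ J), J'.Nonempty → J.card ≤ k → ∀ l b b',
        S.mR J J' l b b' =
          D.mR J.card (cls (G J.card) (resJ J a)) J'.card (posJ J J' h) l b b') := by
  classical
  obtain ⟨𝓔, hanti, hbetti, hsec⟩ := sys_types E G hG Cc hC n a ha
  have hgood : ∀ J : Finset (Fin n), GoodP E (resJ J a) := by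
    intro J j
    exact ha (J.orderEmbOfFin rfl j)
  refine ⟨𝓔,
    { be := fun J l => D.be J.card (cls (G J.card) (resJ J a)) l
      ps := fun J l b τ => if J.Nonempty ∧ J.card ≤ k then
        D.ph J.card (cls (G J.card) (resJ J a)) l b (τ.map (piJ J)) else 0
      mA := fun J l b b' => D.mA J.card (cls (G J.card) (resJ J a)) l b b'
      mR := fun J J' l b b' => if h : J' ⊆ J then
        D.mR J.card (cls (G J.card) (resJ J a)) J'.card (posJ J J' h) l b b' else 0
      anti := hanti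
      nil := ?_
      indep := ?_
      dA := ?_
      rR := ?_
      acyc := ?_ }, hbetti, fun J _ _ l => rfl, fun J _ _ l b b' => rfl,
      fun J J' h _ _ l b b' => dif_pos h⟩
  · intro J l b
    split_ifs with h
    · exact (hD J.card (Finset.card_pos.2 h.1) h.2 (resJ J a) (hgood J)).1 l b
    · rfl
  · intro J hJ hJk l c hc
    simp only [if_pos (And.intro hJ hJk)] at hc
    obtain ⟨hmaps, s, hs1, hs2, hs3, hs4⟩ := hsec J hJ hJk
    refine (hD J.card (Finset.card_pos.2 hJ) hJk (resJ J a) (hgood J)).2.1 l c ?_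
    have h := SysB_comap hs2.uniformContinuous.uniformContinuousOn hs3 hc
    have hmap : ∀ τ : List ((Fin J.card × Fin m → ℝ) × (Fin k → ℝ)),
        (τ.map s).map (piJ J) = τ := by
      intro τ
      rw [List.map_map]
      have : piJ J ∘ s = id := funext hs1
      rw [this, List.map_id]
    simp only [hmap] at h
    exact h
  · intro J hJ hJk l hl b' hb'
    simp only [if_pos (And.intro hJ hJk)]
    obtain ⟨hmaps, s, hs1, hs2, hs3, hs4⟩ := hsec J hJ hJk
    have h := SysB_comap (SysB_pi_uc J).uniformContinuousOn hmaps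
      ((hD J.card (Finset.card_pos.2 hJ) hJk (resJ J a) (hgood J)).2.2.1 l hl b' hb')
    have e : (fun τ : List ((Fin n → Fin m → ℝ) × (Fin k → ℝ)) =>
        BU.D (fun τ => D.ph J.card (cls (G J.card) (resJ J a)) l b' (τ.map (piJ J))) τ -
          ∑ b ∈ range (D.be J.card (cls (G J.card) (resJ J a)) (l + 1)),
            D.mA J.card (cls (G J.card) (resJ J a)) l b b' *
              D.ph J.card (cls (G J.card) (resJ J a)) (l + 1) b (τ.map (piJ J))) =
        fun τ => (fun τ => BU.D (D.ph J.card (cls (G J.card) (resJ J a)) l b') τ -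
          ∑ b ∈ range (D.be J.card (cls (G J.card) (resJ J a)) (l + 1)),
            D.mA J.card (cls (G J.card) (resJ J a)) l b b' *
              D.ph J.card (cls (G J.card) (resJ J a)) (l + 1) b τ) (τ.map (piJ J)) := by
      funext τ
      simp only [D_comp_map]
    rw [← e] at h
    exact h
  · intro J J' hJJ hJ' hJk l hl b' hb'
    have hJ : J.Nonempty := hJ'.mono hJJ
    have hJ'k : J'.card ≤ k := (Finset.card_le_card hJJ).trans hJk
    simp only [if_pos (And.intro hJ hJk), if_pos (And.intro hJ' hJ'k), dif_pos hJJ]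
    obtain ⟨hmaps, s, hs1, hs2, hs3, hs4⟩ := hsec J hJ hJk
    have h0 := (hD J.card (Finset.card_pos.2 hJ) hJk (resJ J a) (hgood J)).2.2.2.1 J'.card
      (posJ J J' hJJ) (Finset.card_pos.2 hJ') (SysB_pos_mono J J' hJJ) l hl b'
    rw [SysB_res J J' hJJ a] at h0
    have h := SysB_comap (SysB_pi_uc J).uniformContinuousOn hmaps (h0 hb')
    have e : ∀ τ : List ((Fin n → Fin m → ℝ) × (Fin k → ℝ)),
        (τ.map (piJ J)).map (resI (posJ J J' hJJ)) = τ.map (piJ J') := by
      intro τ
      rw [List.map_map]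
      refine List.map_congr_left fun p _ => ?_
      exact SysB_resI J J' hJJ p
    simp only [e] at h
    exact h
  · intro J hJ hJk l hl hlk f hf hfc
    obtain ⟨c, hc⟩ := hfc
    simp only [if_pos (And.intro hJ hJk)] at hc ⊢
    obtain ⟨hmaps, s, hs1, hs2, hs3, hs4⟩ := hsec J hJ hJk
    have hDJ := hD J.card (Finset.card_pos.2 hJ) hJk (resJ J a) (hgood J)
    exact SysB_acyc (piJ J) s (SysB_pi_uc J) hs2.uniformContinuous hs1 hmaps hs3 hs4 l
      (D.be J.card (cls (G J.card) (resJ J a)) (l + 1))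
      (D.be J.card (cls (G J.card) (resJ J a)) l)
      (D.ph J.card (cls (G J.card) (resJ J a)) l) (D.ph J.card (cls (G J.card) (resJ J a)) (l + 1))
      (D.mA J.card (cls (G J.card) (resJ J a)) l)
      (hDJ.2.1 (l + 1)) (hDJ.2.2.1 l hl) (hDJ.2.2.2.2 l hl hlk) f hf c hc

end BU
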