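import Pool.Agent.Work.MP_4030f5_lc.U.TreeA
import Pool.Agent.Work.MP_4030f5_lc.F2

/-! # Encoded answers

The answers (natural numbers `< 3 ^ H.length`) are encoded as real inputs of an algebraic
computation tree. `cost_coord`: for `q < n ^ (K + 2)` the signs of `x q - j`, `j < 3 ^ H.length` (`Cost.sgn`,
`Cost.pi`, `Cost.comp`, `Cost.mono`) determine the natural number `x q < 3 ^ H.length` (`tvc_lt`); other `q`: constant.
`count_tables`: the tables are those of the points `(y, ε)`; with `z : (Fin n × Fin m) ⊕ Unit → ℝ`,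
`y i j = if h : i < n then z (.inl (⟨i, h⟩, j)) else 0` (for `q < n ^ (K + 2)` the answer depends only on `y i`, `i < n`;
`dig_lt`), the function `cmpC K T n (pT H n y ε) κ u v = g (pT H n y ε q)` (`cmpC_query`) is of bounded
complexity (`tvc_bdd` and `Bdd.rename`, `Bdd.comp` or directly), the bound independent of `n`, `κ`, `u`, `v`;
`warren_bdd` and the arithmetic of `F2_log_bound` (F2.lean) with `D = n * m + 1`, `n * D ≤ n ^ 2 * (m + 1)`. -/

namespace BU

/-- consistent answer functions, encoded as points. -/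
def encD (K : ℕ) (T : Tabs) {m : ℕ} (H : List (Fm (Fin (K + 2) × Fin m))) (n : ℕ) :
    Set (Fin (n ^ (K + 2)) → ℝ) :=
  {x | ∃ (y : ℕ → Fin m → ℝ) (ε : ℝ), Cons K T n (pT H n y ε) ∧
    ∀ q : Fin (n ^ (K + 2)), x q = (pT H n y ε q : ℝ)}

/-- decode. -/
noncomputable def decP {Q : ℕ} (x : Fin Q → ℝ) (q : ℕ) : ℕ :=
  if h : q < Q then ⌊x ⟨q, h⟩⌋₊ else 0

theorem decP_eq {Q : ℕ} {x : Fin Q → ℝ} {p : ℕ → ℕ} (h : ∀ q : Fin Q, x q = (p q : ℝ)) :
    ∀ q < Q, decP x q = p q := by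
  intro q hq
  unfold decP
  rw [dif_pos hq, h ⟨q, hq⟩, Nat.floor_natCast]

private theorem TreeB_bdd {Q : ℕ} (B : ℕ) (q : Fin Q) :
    Bdd (3 * B) (fun x : Fin Q → ℝ => ∑ j ∈ Finset.range B, if x q = (j : ℝ) then j else 0) := by
  refine ⟨(List.range B).map (fun j : ℕ => Fm.add (Fm.var q) (Fm.const (-(j : ℤ)))), ?_, ?_⟩
  · unfold tsize
    rw [List.map_map]
    have : (Fm.size ∘ fun j : ℕ => Fm.add (Fm.var q) (Fm.const (-(j : ℤ)))) = fun _ => 3 := by
      funext j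
      rfl
    rw [this]
    simp
    omega
  · intro x y hxy
    refine Finset.sum_congr rfl fun j hj => ?_
    have h1 := hxy (Fm.add (Fm.var q) (Fm.const (-(j : ℤ))))
      (List.mem_map.mpr ⟨j, List.mem_range.mpr (Finset.mem_range.mp hj), rfl⟩)
    unfold Fm.sgn at h1
    simp only [Fm.eval] at h1
    have h2 : ∀ v : ℝ, v = (j : ℝ) ↔ SignType.sign (v + ((-(j : ℤ) : ℤ) : ℝ)) = 0 := by
      intro v
      rw [sign_eq_zero_iff]
      push_cast
      constructor <;> intro h <;> linarith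
    have h3 : x q = (j : ℝ) ↔ y q = (j : ℝ) := by
      rw [h2, h2, h1]
    simp only [h3]

/-- one answer is read with boundedly many sign tests. -/
theorem cost_coord (K : ℕ) (T : Tabs) {m : ℕ} (H : List (Fm (Fin (K + 2) × Fin m))) :
    ∃ c : ℕ, ∀ n q : ℕ, Cost (encD K T H n) c (fun x => decP x q) := by
  refine ⟨3 * (3 * 3 ^ H.length), fun n q => ?_⟩
  by_cases hq : q < n ^ (K + 2)
  · have h1 := (Cost.of_bdd (TreeB_bdd (3 ^ H.length) (⟨q, hq⟩ : Fin (n ^ (K + 2))))).mono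
      (Set.subset_univ (encD K T H n)) le_rfl
    refine h1.congr ?_
    rintro x ⟨y, ε, -, hx⟩
    rw [decP_eq hx q hq, hx ⟨q, hq⟩]
    have hlt : pT H n y ε q < 3 ^ H.length := tvc_lt _ _ _
    simp only [Nat.cast_inj]
    rw [Finset.sum_ite_eq, if_pos (Finset.mem_range.mpr hlt)]
  · refine ((Cost.const (encD K T H n) 0).mono le_rfl (Nat.zero_le _)).congr ?_
    intro x _
    unfold decP
    rw [dif_neg hq]

/-- number of comparison tables (Warren). -/
theorem count_tables (K : ℕ) (T : Tabs) {m : ℕ} (H : List (Fm (Fin (K + 2) × Fin m))) :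
    ∃ Γ : ℕ, ∀ n : ℕ, 1 ≤ n →
      ((fun x => (fun (κ : Fin (nU T n ^ K)) (u v : Fin (nU T n)) =>
        cmpC K T n (decP x) κ u v)) '' encD K T H n).ncard ≤ 2 ^ (Γ * n ^ 2) := by
  obtain ⟨C, hC⟩ := tvc_bdd H
  refine ⟨(3 + (T.L + 1) * (K + 2) + 2 * C) * (m + 1), fun n hn => ?_⟩
  -- the functions
  set yz : ((Fin n × Fin m) ⊕ Unit → ℝ) → ℕ → Fin m → ℝ := fun z i j =>
    if h : i < n then z (Sum.inl (⟨i, h⟩, j)) else 0 with hyz
  set φ : Fin (nU T n ^ K) × (Fin (nU T n) × Fin (nU T n)) → ((Fin n × Fin m) ⊕ Unit → ℝ) → ℕ :=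
    fun w z => cmpC K T n (pT H n (yz z) (z (Sum.inr ()))) w.1 w.2.1 w.2.2 with hφ
  have hbdd : ∀ w, Bdd C (φ w) := by
    intro w
    obtain ⟨q, hq, g, hg⟩ := cmpC_query K T hn w.1 w.2.1 w.2.2 w.2.1.2 w.2.2.2
    have h1 := (hC.rename (Sum.map (fun t : Fin (K + 2) × Fin m =>
      ((⟨dig n q t.1, dig_lt hn q t.1⟩ : Fin n), t.2)) (id : Unit → Unit))).comp g
    have h2 : φ w = fun z : (Fin n × Fin m) ⊕ Unit → ℝ => g (tvc H (fun i => z (Sum.map
        (fun t : Fin (K + 2) × Fin m => ((⟨dig n q t.1, dig_lt hn q t.1⟩ : Fin n), t.2))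
        (id : Unit → Unit) (Sum.inl i))) (z (Sum.map (fun t : Fin (K + 2) × Fin m =>
      ((⟨dig n q t.1, dig_lt hn q t.1⟩ : Fin n), t.2)) (id : Unit → Unit) (Sum.inr ())))) := by
      funext z
      rw [hφ]
      simp only
      rw [hg]
      unfold pT
      congr 2
      funext t
      rw [hyz]
      simp only
      rw [dif_pos (dig_lt hn q t.1)]
      rfl
    rw [h2]
    exact h1
  have hw := warren_bdd φ hbdd Set.univ
  have hcard : Fintype.card (Fin (nU T n ^ K) × (Fin (nU T n) × Fin (nU T n))) =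
      ((n + 1) * T.L) ^ K * (((n + 1) * T.L) * ((n + 1) * T.L)) := by
    rw [Fintype.card_prod, Fintype.card_prod, Fintype.card_fin, Fintype.card_fin]
    rfl
  have hcard' : Fintype.card ((Fin n × Fin m) ⊕ Unit) = n * m + 1 := by simp
  rw [hcard, hcard'] at hw
  have hfin : ((fun (x : (Fin n × Fin m) ⊕ Unit → ℝ) i => φ i x) '' Set.univ).Finite := by
    have hr : ∀ w, (Set.range (φ w)).Finite := by
      intro w
      obtain ⟨q, hq, g, hg⟩ := cmpC_query K T hn w.1 w.2.1 w.2.2 w.2.1.2 w.2.2.2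
      refine ((Set.finite_Iio (3 ^ H.length)).image g).subset ?_
      rintro _ ⟨z, rfl⟩
      exact ⟨pT H n (yz z) (z (Sum.inr ())) q, tvc_lt H _ _,
        (hg (pT H n (yz z) (z (Sum.inr ())))).symm⟩
    refine (Set.Finite.pi' hr).subset ?_
    rintro _ ⟨x, -, rfl⟩
    exact fun w => ⟨x, rfl⟩
  have hsub : ((fun x => (fun (κ : Fin (nU T n ^ K)) (u v : Fin (nU T n)) =>
        cmpC K T n (decP x) κ u v)) '' encD K T H n) ⊆
      (fun (f : Fin (nU T n ^ K) × (Fin (nU T n) × Fin (nU T n)) → ℕ) (κ : Fin (nU T n ^ K))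
        (u v : Fin (nU T n)) => f (κ, (u, v))) ''
        ((fun (x : (Fin n × Fin m) ⊕ Unit → ℝ) i => φ i x) '' Set.univ) := by
    rintro _ ⟨x, ⟨y, ε, -, hx⟩, rfl⟩
    set z : (Fin n × Fin m) ⊕ Unit → ℝ := Sum.elim (fun t => y t.1 t.2) (fun _ => ε) with hz
    refine ⟨_, ⟨z, Set.mem_univ _, rfl⟩, ?_⟩
    funext κ u v
    simp only [hφ]
    obtain ⟨q, hq, g, hg⟩ := cmpC_query K T hn κ u v u.2 v.2
    rw [hg, hg, decP_eq hx q hq]
    congr 1
    unfold pT
    congr 1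
    funext t
    rw [hyz]
    simp only
    rw [dif_pos (dig_lt hn q t.1)]
    rfl
  have h3 := (Set.ncard_le_ncard hsub (hfin.image _)).trans (Set.ncard_image_le hfin)
  refine h3.trans (hw.trans ((F2_log_bound K n T.L C (n * m + 1) hn).trans ?_))
  refine Nat.pow_le_pow_right (by norm_num) ?_
  have h4 : n * (n * m + 1) ≤ (m + 1) * n ^ 2 := by nlinarith
  calc (3 + (T.L + 1) * (K + 2) + 2 * C) * (n * (n * m + 1))
      ≤ (3 + (T.L + 1) * (K + 2) + 2 * C) * ((m + 1) * n ^ 2) := Nat.mul_le_mul_left _ h4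
    _ = _ := by ring

end BU
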