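import Pool.Agent.Work.MP_4030f5_lc.F2
import Pool.Agent.Work.MP_4030f5_lc.U.Act
import Pool.Agent.Work.MP_4030f5_lc.U.TreeB

/-! # Existence of fast strategies (Fredman)

`D = encD K T H n`, `Q = n ^ (K + 2)`. Rows `κ : Fin (nU ^ K)`, items `u : Fin nU`, `val κ u x = some (rkC K T n (decP x) κ u)`.
On `D`: `decP x` agrees with `pT H n y ε` on `q < Q` (`decP_eq`), hence `cmpC` agrees (`cmpC_query`), and `Cons`
gives `ocmp (val κ u x) (val κ v x) = ` the comparison coded by `cmpC K T n (decP x) κ u v`: cost bounded by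
`cost_coord` and `cmpC_query`; number of tables bounded by `count_tables` (image); so `fredman` gives all tables
with `c * (4 * nU ^ K * nU + 4 * Γ * n ^ 2 + 4) ≤ C₁ * n ^ (K + 1)` comparisons (`K ≥ 1`). The `n ^ (K + 1)` answers at the
`q < Q` with equal digits `K`, `K + 1` cost `c` each (`Cost.pi`, over `c' < n ^ (K + 1)`, `q = c' + n ^ (K + 1) * (c' / n ^ K)`).
`Val K T n (decP x)` is determined by these data on `D` (`Val_congr`, `F2_determined`). Then
`strat_of_act`; at the real point `x q = pT H n y ε q` of `D` the run of the strategy is the run of the tree. -/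

namespace BU

private def Tree_ord : ℕ → Ordering
  | 0 => .lt
  | 1 => .eq
  | _ => .gt

private theorem Tree_ocmp (a b : ℕ) :
    ocmp (some (a : ℝ)) (some (b : ℝ)) = Tree_ord (c3 a b) := by
  unfold ocmp c3
  simp only [Nat.cast_lt, Nat.cast_inj]
  split_ifs <;> rfl

private theorem Tree_ord_inj {a b : ℕ} (ha : a < 3) (hb : b < 3) (h : Tree_ord a = Tree_ord b) :
    a = b := by
  interval_cases a <;> interval_cases b <;> simp_all [Tree_ord]

/-- the query with the digits of `c`, the last one repeated. -/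
private def Tree_q (n K c : ℕ) : ℕ := c + n ^ (K + 1) * (c / n ^ K)

private theorem Tree_q_eq {n K q : ℕ} (hn : 1 ≤ n) (hq : q < n ^ (K + 2))
    (h : dig n q K = dig n q (K + 1)) : q = Tree_q n K (q % n ^ (K + 1)) := by
  unfold Tree_q
  unfold dig at h
  have hpos : 0 < n ^ (K + 1) := Nat.pow_pos hn
  have hposK : 0 < n ^ K := Nat.pow_pos hn
  have hd : q / n ^ (K + 1) < n := by
    rw [Nat.div_lt_iff_lt_mul hpos]
    calc q < n ^ (K + 2) := hq
      _ = n * n ^ (K + 1) := by ring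
  rw [Nat.mod_eq_of_lt hd] at h
  have h1 : q % n ^ (K + 1) / n ^ K = q / n ^ K % n := by
    rw [pow_succ, Nat.mod_mul_right_div_self]
  rw [h1, h]
  exact (Nat.mod_add_div q (n ^ (K + 1))).symm

theorem tree_exists (K m : ℕ) (hK : 1 ≤ K) (H : List (Fm (Fin (K + 2) × Fin m))) (T : Tabs) :
    ∃ C : ℕ, ∀ n : ℕ, 1 ≤ n → ∃ s : List ℕ → ℕ ⊕ List ℕ, ∀ (y : ℕ → Fin m → ℝ) (ε : ℝ),
      Cons K T n (pT H n y ε) →
        runQ s (pT H n y ε) (C * n ^ (K + 1)) [] = some (Val K T n (pT H n y ε)) := by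
  classical
  obtain ⟨c, hc⟩ := cost_coord K T H
  obtain ⟨Γ, hΓ⟩ := count_tables K T H
  refine ⟨2 * (c * (4 * (2 * (T.L1 + 1)) ^ (K + 1) + 4 * Γ + 4) + c), fun n hn => ?_⟩
  set D := encD K T H n with hD
  have hcmp : ∀ (p p' : ℕ → ℕ), (∀ q < n ^ (K + 2), p q = p' q) →
      ∀ κ, ∀ u < nU T n, ∀ v < nU T n, cmpC K T n p κ u v = cmpC K T n p' κ u v := by
    intro p p' hp κ u hu v hv
    obtain ⟨q, hq, g, hg⟩ := cmpC_query K T hn κ u v hu hv
    rw [hg, hg, hp q hq]
  have hrk : ∀ (p p' : ℕ → ℕ), (∀ q < n ^ (K + 2), p q = p' q) →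
      ∀ κ, ∀ u < nU T n, rkC K T n p κ u = rkC K T n p' κ u := by
    intro p p' hp κ u hu
    unfold rkC
    congr 1
    refine Finset.filter_congr fun v hv => ?_
    rw [hcmp p p' hp κ v (Finset.mem_range.1 hv) u hu]
  have hCons : ∀ x ∈ D, Cons K T n (decP x) := by
    rintro x ⟨y, ε, hcons, hx⟩
    have hp := decP_eq hx
    intro κ hκ u hu v hv
    rw [hcmp _ _ hp κ u hu v hv, hcons κ hκ u hu v hv, hrk _ _ hp κ u hu, hrk _ _ hp κ v hv]
  -- the tables of comparisons
  let val : Fin (nU T n ^ K) → Fin (nU T n) → (Fin (n ^ (K + 2)) → ℝ) → Option ℝ :=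
    fun κ u x => some ((rkC K T n (decP x) κ u : ℕ) : ℝ)
  have hval : ∀ x ∈ D, ∀ κ u v, ocmp (val κ u x) (val κ v x) =
      Tree_ord (cmpC K T n (decP x) κ u v) := by
    intro x hx κ u v
    simp only [val]
    rw [Tree_ocmp, hCons x hx κ κ.2 u u.2 v v.2]
  have hcost : ∀ κ u v, Cost D c (fun x => ocmp (val κ u x) (val κ v x)) := by
    intro κ u v
    obtain ⟨q, _, g, hg⟩ := cmpC_query K T hn κ u v u.2 v.2
    refine ((hc n q).comp (fun z => Tree_ord (g z))).congr fun x hx => ?_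
    rw [hval x hx, hg]
  have hfin : ((fun x => (fun (κ : Fin (nU T n ^ K)) (u v : Fin (nU T n)) =>
      cmpC K T n (decP x) κ u v)) '' D).Finite := by
    refine (Set.finite_Icc (0 : Fin (nU T n ^ K) → Fin (nU T n) → Fin (nU T n) → ℕ)
      (fun _ _ _ => 2)).subset ?_
    rintro _ ⟨x, hx, rfl⟩
    refine ⟨fun κ u v => Nat.zero_le _, fun κ u v => ?_⟩
    have h1 := hCons x hx κ κ.2 u u.2 v v.2
    have h2 := c3_lt (rkC K T n (decP x) κ u) (rkC K T n (decP x) κ v)
    show cmpC K T n (decP x) κ u v ≤ 2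
    omega
  have hcount : ((fun x => (fun (κ : Fin (nU T n ^ K)) (u v : Fin (nU T n)) =>
      ocmp (val κ u x) (val κ v x))) '' D).ncard ≤ 2 ^ (Γ * n ^ 2) := by
    refine le_trans ?_ (hΓ n hn)
    refine le_trans ?_ (Set.ncard_image_le (f := fun g κ u v => Tree_ord (g κ u v)) hfin)
    refine Set.ncard_le_ncard ?_ (hfin.image _)
    rintro _ ⟨x, hx, rfl⟩
    refine ⟨_, ⟨x, hx, rfl⟩, ?_⟩
    funext κ u v
    exact (hval x hx κ u v).symm
  have htab := fredman D c (Γ * n ^ 2) val hcost hcount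
  -- the remaining answers
  have hans : Cost D (Fintype.card (Fin (n ^ (K + 1))) * c)
      (fun x (i : Fin (n ^ (K + 1))) => decP x (Tree_q n K i)) :=
    Cost.pi fun i => hc n _
  have hall := htab.prod hans
  have hdet := F2_determined hall (fun x => Val K T n (decP x)) (by
    intro x hx x' hx' h
    have h1 := congrArg Prod.fst h
    have h2 := congrArg Prod.snd h
    refine Val_congr K T hn ?_ ?_
    · intro q hq hdig
      have h3 := congrFun h2 ⟨q % n ^ (K + 1), Nat.mod_lt _ (Nat.pow_pos hn)⟩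
      have h4 := Tree_q_eq hn hq hdig
      simp only at h3
      rw [← h4] at h3
      exact h3
    · intro κ hκ u hu v hv
      have h3 := congrFun (congrFun (congrFun h1 ⟨κ, hκ⟩) ⟨u, hu⟩) ⟨v, hv⟩
      simp only at h3
      rw [hval x hx, hval x' hx'] at h3
      refine Tree_ord_inj ?_ ?_ h3
      · rw [hCons x hx κ hκ u hu v hv]
        exact c3_lt _ _
      · rw [hCons x' hx' κ hκ u hu v hv]
        exact c3_lt _ _)
  obtain ⟨T', hT', hrun⟩ := hdet
  obtain ⟨s, hs⟩ := strat_of_act T'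
  refine ⟨s, fun y ε hcons => ?_⟩
  set x : Fin (n ^ (K + 2)) → ℝ := fun q => (pT H n y ε q : ℝ) with hx
  have hxD : x ∈ D := ⟨y, ε, hcons, fun q => rfl⟩
  have hp : ∀ q < n ^ (K + 2), decP x q = pT H n y ε q := decP_eq fun q => rfl
  have hV : Val K T n (decP x) = Val K T n (pT H n y ε) :=
    Val_congr K T hn (fun q hq _ => hp q hq) (fun κ _ u hu v hv => hcmp _ _ hp κ u hu v hv)
  rw [hs (pT H n y ε) _ ?_, ← hV]
  · congr 1
    exact hrun x hxD _
  · -- the bound
    have hn1 : 1 ≤ n ^ (K + 1) := Nat.one_le_pow _ _ hn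
    have hn2 : n ^ 2 ≤ n ^ (K + 1) := Nat.pow_le_pow_right hn (by omega)
    have hU : nU T n ≤ 2 * (T.L1 + 1) * n := by
      unfold nU Tabs.L
      nlinarith
    have hU2 : nU T n ^ K * nU T n ≤ (2 * (T.L1 + 1)) ^ (K + 1) * n ^ (K + 1) := by
      rw [← pow_succ, ← Nat.mul_pow]
      exact Nat.pow_le_pow_left hU _
    simp only [Fintype.card_fin] at hT'
    calc 2 * T'.depth ≤ 2 * (c * (4 * (nU T n ^ K * nU T n) + 4 * (Γ * n ^ 2) + 4) +
          n ^ (K + 1) * c) := Nat.mul_le_mul_left _ hT'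
      _ ≤ 2 * (c * (4 * ((2 * (T.L1 + 1)) ^ (K + 1) * n ^ (K + 1)) + 4 * (Γ * n ^ (K + 1)) +
          4 * n ^ (K + 1)) + n ^ (K + 1) * c) := by
        have h1 : Γ * n ^ 2 ≤ Γ * n ^ (K + 1) := Nat.mul_le_mul_left _ hn2
        gcongr
        omega
      _ = _ := by ring

end BU
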