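import Pool.Agent.Work.MP_4030f5_lc.U.CodesR

/-! # The formula depends only on `n^(K+1)` answers and on the comparison tables

All queries occurring in `Val`, except those in `cmpC`, are tuples whose last two entries agree:
`inf n (K + 2) p f` asks `undig n (K + 2) f < n ^ (K + 2)` if all `f t < n` (`undig_lt`; here `f t = s t / L - 1 < n` for
`s t < nU = (n + 1) * L`, `n ≥ 1`, or digits in base `n`), and its digits are `f t` (`dig_undig`). In `okC`, `vC` the
last two slots are equal; in `iinf` with `s ≤ K + 1`: `min K (s - 1) = min (K + 1) (s - 1)` (`xs x = x % (K + 2) ≤ K + 1`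
always; `validC` and `entC` only use `iinf` for `s = xs x`). In `vC` with `o < n + 1`, `α < L` the index
`o * L + α` is `< nU`; in `chiC` all `κ < nU ^ K`, `u < nU`, `u' < u`. Then congruence through `okC`, `vC`, `chiC`,
`validC`, `entC`, `rankC` (matrix entries equal), `bC`, `topC`, `Val`. -/

namespace BU

private theorem ta_inf {K n : ℕ} {p p' : ℕ → ℕ}
    (h1 : ∀ q < n ^ (K + 2), dig n q K = dig n q (K + 1) → p q = p' q) {f : ℕ → ℕ}
    (hf : ∀ t < K + 2, f t < n) (he : f K = f (K + 1)) :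
    inf n (K + 2) p f = inf n (K + 2) p' f := by
  unfold inf
  rw [h1 _ (undig_lt hf) (by rw [dig_undig hf (by omega), dig_undig hf (by omega), he])]

private theorem ta_slot {T : Tabs} {n x : ℕ} (hn : 1 ≤ n) (hx : x < nU T n) : x / T.L - 1 < n := by
  have hL : 0 < T.L := Nat.succ_pos _
  have h1 : x / T.L < n + 1 := by
    unfold nU at hx
    exact Nat.div_lt_of_lt_mul (by rw [mul_comm]; exact hx)
  omega

private theorem ta_rinf {K : ℕ} {T : Tabs} {n : ℕ} (hn : 1 ≤ n) {p p' : ℕ → ℕ}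
    (h1 : ∀ q < n ^ (K + 2), dig n q K = dig n q (K + 1) → p q = p' q) (κ : ℕ) {u : ℕ}
    (hu : u < nU T n) :
    rinf K n p T.L (slot K (nU T n) κ u u) = rinf K n p' T.L (slot K (nU T n) κ u u) := by
  unfold rinf
  rw [ta_inf h1 (fun t _ => ta_slot hn (slot_lt hu hu t)) (by simp [slot])]

private theorem ta_ok {K : ℕ} {T : Tabs} {n : ℕ} (hn : 1 ≤ n) {p p' : ℕ → ℕ}
    (h1 : ∀ q < n ^ (K + 2), dig n q K = dig n q (K + 1) → p q = p' q) (κ : ℕ) {u : ℕ}
    (hu : u < nU T n) : okC K T n p κ u = okC K T n p' κ u := by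
  unfold okC
  rw [ta_rinf hn h1 κ hu]

private theorem ta_v {K : ℕ} {T : Tabs} {n : ℕ} (hn : 1 ≤ n) {p p' : ℕ → ℕ}
    (h1 : ∀ q < n ^ (K + 2), dig n q K = dig n q (K + 1) → p q = p' q)
    (h2 : ∀ κ < nU T n ^ K, ∀ u < nU T n, ∀ v < nU T n,
      cmpC K T n p κ u v = cmpC K T n p' κ u v) (tab : List ℤ) {κ u o : ℕ}
    (hκ : κ < nU T n ^ K) (hu : u < nU T n) (ho : o < n + 1) :
    vC K T n p tab κ u o = vC K T n p' tab κ u o := by
  have hL : 0 < T.L := Nat.succ_pos _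
  have hlt : ∀ α < T.L, o * T.L + α < nU T n := by
    intro α hα
    unfold nU
    calc o * T.L + α < o * T.L + T.L := by omega
      _ = (o + 1) * T.L := by ring
      _ ≤ (n + 1) * T.L := Nat.mul_le_mul_right _ ho
  unfold vC
  rw [undig_congr (fun α hα => h2 κ hκ u hu _ (hlt α hα)),
    ta_rinf hn h1 κ (by simpa using hlt 0 hL)]

private theorem ta_chi {K : ℕ} {T : Tabs} {n : ℕ} (hn : 1 ≤ n) {p p' : ℕ → ℕ}
    (h1 : ∀ q < n ^ (K + 2), dig n q K = dig n q (K + 1) → p q = p' q)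
    (h2 : ∀ κ < nU T n ^ K, ∀ u < nU T n, ∀ v < nU T n,
      cmpC K T n p κ u v = cmpC K T n p' κ u v) : chiC K T n p = chiC K T n p' := by
  unfold chiC
  congr 1
  refine Finset.sum_congr rfl fun κ hκ => Finset.sum_congr rfl fun u hu => ?_
  rw [Finset.mem_range] at hκ hu
  have hc : (okC K T n p κ u = 1 ∧ ∀ u' < u, cmpC K T n p κ u' u ≠ 1) ↔
      (okC K T n p' κ u = 1 ∧ ∀ u' < u, cmpC K T n p' κ u' u ≠ 1) := by
    rw [ta_ok hn h1 κ hu]
    refine and_congr Iff.rfl (forall_congr' fun u' => ?_)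
    constructor
    · intro h hu'
      rw [← h2 κ hκ u' (by omega) u hu]
      exact h hu'
    · intro h hu'
      rw [h2 κ hκ u' (by omega) u hu]
      exact h hu'
  have hl : ∏ o ∈ Finset.range (n + 1), vC K T n p T.vl κ u o =
      ∏ o ∈ Finset.range (n + 1), vC K T n p' T.vl κ u o :=
    Finset.prod_congr rfl fun o ho => ta_v hn h1 h2 _ hκ hu (Finset.mem_range.mp ho)
  have hr : ∏ o ∈ Finset.range (n + 1), vC K T n p T.vr κ u o =
      ∏ o ∈ Finset.range (n + 1), vC K T n p' T.vr κ u o :=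
    Finset.prod_congr rfl fun o ho => ta_v hn h1 h2 _ hκ hu (Finset.mem_range.mp ho)
  rw [hl, hr]
  by_cases h : okC K T n p κ u = 1 ∧ ∀ u' < u, cmpC K T n p κ u' u ≠ 1
  · rw [if_pos h, if_pos (hc.mp h)]
  · rw [if_neg h, if_neg fun h' => h (hc.mpr h')]

private theorem ta_iinf {K n : ℕ} (hn : 1 ≤ n) {p p' : ℕ → ℕ}
    (h1 : ∀ q < n ^ (K + 2), dig n q K = dig n q (K + 1) → p q = p' q) (s c : ℕ)
    (hs : s ≤ K + 1) : iinf K n p s c = iinf K n p' s c := by
  unfold iinf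
  rw [ta_inf h1 (fun t _ => dig_lt hn _ _) (by
    rw [min_eq_right (by omega), min_eq_right (by omega)])]

private theorem ta_xs (K x : ℕ) : xs K x ≤ K + 1 := by
  unfold xs
  have := Nat.mod_lt x (show 0 < K + 2 by omega)
  omega

private theorem ta_valid {K : ℕ} {T : Tabs} {n : ℕ} (hn : 1 ≤ n) {p p' : ℕ → ℕ}
    (h1 : ∀ q < n ^ (K + 2), dig n q K = dig n q (K + 1) → p q = p' q) (N x : ℕ) :
    validC K T n p N x ↔ validC K T n p' N x := by
  unfold validC
  rw [ta_iinf hn h1 _ _ (ta_xs K x)]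

private theorem ta_ent {K : ℕ} {T : Tabs} {n : ℕ} (hn : 1 ≤ n) {p p' : ℕ → ℕ}
    (h1 : ∀ q < n ^ (K + 2), dig n q K = dig n q (K + 1) → p q = p' q) (N x x' : ℕ) :
    entC K T n p N x x' = entC K T n p' N x x' := by
  unfold entC
  rw [ta_iinf hn h1 _ _ (ta_xs K x)]
  by_cases h : validC K T n p (N + 1) x ∧ validC K T n p N x'
  · have h' : validC K T n p' (N + 1) x ∧ validC K T n p' N x' :=
      ⟨(ta_valid hn h1 _ _).mp h.1, (ta_valid hn h1 _ _).mp h.2⟩
    rw [if_pos h, if_pos h']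
  · have h' : ¬ (validC K T n p' (N + 1) x ∧ validC K T n p' N x') :=
      fun h' => h ⟨(ta_valid hn h1 _ _).mpr h'.1, (ta_valid hn h1 _ _).mpr h'.2⟩
    rw [if_neg h, if_neg h']

private theorem ta_rank {K : ℕ} {T : Tabs} {n : ℕ} (hn : 1 ≤ n) {p p' : ℕ → ℕ}
    (h1 : ∀ q < n ^ (K + 2), dig n q K = dig n q (K + 1) → p q = p' q) (N : ℕ) :
    rankC K T n p N = rankC K T n p' N := by
  unfold rankC
  congr 1
  ext i j
  rw [Matrix.of_apply, Matrix.of_apply, ta_ent hn h1]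

private theorem ta_b {K : ℕ} {T : Tabs} {n : ℕ} (hn : 1 ≤ n) {p p' : ℕ → ℕ}
    (h1 : ∀ q < n ^ (K + 2), dig n q K = dig n q (K + 1) → p q = p' q) (q : ℕ) :
    bC K T n p q = bC K T n p' q := by
  unfold bC
  rw [ta_rank hn h1, ta_rank hn h1,
    Finset.filter_congr fun x _ => ta_valid (T := T) hn h1 (q + 2) x]

theorem Val_congr (K : ℕ) (T : Tabs) {n : ℕ} (hn : 1 ≤ n) {p p' : ℕ → ℕ}
    (h1 : ∀ q < n ^ (K + 2), dig n q K = dig n q (K + 1) → p q = p' q)
    (h2 : ∀ κ < nU T n ^ K, ∀ u < nU T n, ∀ v < nU T n,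
      cmpC K T n p κ u v = cmpC K T n p' κ u v) :
    Val K T n p = Val K T n p' := by
  have hb : bC K T n p = bC K T n p' := funext fun q => ta_b hn h1 q
  have ht : topC K T n p = topC K T n p' := by
    unfold topC
    rw [ta_chi hn h1 h2, hb]
  unfold Val
  rw [hb, ht]

/-- a comparison needs one query. -/
theorem cmpC_query (K : ℕ) (T : Tabs) {n : ℕ} (hn : 1 ≤ n) (κ u v : ℕ) (hu : u < nU T n)
    (hv : v < nU T n) : ∃ q < n ^ (K + 2), ∃ g : ℕ → ℕ, ∀ p : ℕ → ℕ,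
      cmpC K T n p κ u v = g (p q) := by
  refine ⟨undig n (K + 2) (fun t => slot K (nU T n) κ u v t / T.L - 1),
    undig_lt fun t _ => ta_slot hn (slot_lt hu hv t),
    fun a => T.cmp.getD (Nat.pair (flc K T.L (slot K (nU T n) κ u v))
      (Nat.pair (pat (K + 2) (fun t => slot K (nU T n) κ u v t / T.L - 1)) a)) 0, fun p => ?_⟩
  rfl

end BU
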