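import Pool.Agent.Work.MP_4030f5_lc.U.WtDefs

/-! # Effective bounds: derivative, symbolic polynomials, pseudo remainders

Copy of the proofs of `SP.exists_der`, `SP.exists_of_fm` (Q2a.lean) and `SP.exists_prem` (Q2b.lean)
with `tsize` replaced by `twt` and explicit primitive recursive bounds. The constants that are
introduced are `0, 1, -1` and, in `Q2a_derAux k f`, `k, k + 1, ...`: twt (Q2a_derAux k f) ≤
(k + f.length + 3) * twt f. `f.length ≤ twt f`.
For `wt_prem` the recursion in the existing proof is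
B (0, C) = C, B (n + 1, C) = C + B (n, g C) with g C = C + 2 (C (2C + 3) + (C + C (2C + 5))) + ... ;
use f C := (C + 2) * g^[C + 1] C or `∑ i ∈ range (C + 1), g^[i] C` (Primrec.nat_iterate). -/

namespace BU

open Polynomial

section

variable {σ : Type}

theorem WtA_wt_pos (e : Fm σ) : 1 ≤ e.wt := by
  cases e <;> simp [Fm.wt]

theorem WtA_twt_nil : twt ([] : List (Fm σ)) = 0 := rfl

theorem WtA_twt_cons (c : Fm σ) (f : List (Fm σ)) : twt (c :: f) = c.wt + twt f := by
  simp [twt]

theorem WtA_length_le (f : List (Fm σ)) : f.length ≤ twt f := by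
  induction f with
  | nil => simp
  | cons c f ih =>
    rw [WtA_twt_cons, List.length_cons]
    have := WtA_wt_pos c
    omega

theorem WtA_derAux_twt (k : ℕ) (f : List (Fm σ)) :
    twt (Q2a_derAux k f) ≤ (k + f.length + 3) * twt f := by
  induction f generalizing k with
  | nil => simp [Q2a_derAux, WtA_twt_nil]
  | cons c f ih =>
    rw [Q2a_derAux, WtA_twt_cons, WtA_twt_cons, List.length_cons]
    have h1 := ih (k + 1)
    have h2 := WtA_wt_pos c
    have h3 : (Fm.mul (Fm.const (k : ℤ)) c).wt = k + 1 + c.wt + 1 := by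
      simp [Fm.wt]
    rw [h3, mul_add]
    have h4 : k + 1 + c.wt + 1 ≤ (k + (f.length + 1) + 3) * c.wt := by nlinarith
    have h5 : (k + 1 + f.length + 3) * twt f = (k + (f.length + 1) + 3) * twt f := by ring
    omega

theorem WtA_add_twt (f g : List (Fm σ)) :
    twt (Q2a_add f g) ≤ 2 * (twt f + twt g) := by
  induction f generalizing g with
  | nil =>
    rw [Q2a_add, WtA_twt_nil]
    omega
  | cons c f ih =>
    cases g with
    | nil =>
      rw [Q2a_add]
      omega
    | cons d g =>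
      rw [Q2a_add, WtA_twt_cons, WtA_twt_cons, WtA_twt_cons]
      have h1 := ih g
      have h2 : (Fm.add c d).wt = c.wt + d.wt + 1 := rfl
      have h3 := WtA_wt_pos c
      omega

theorem WtA_scale_twt (c : Fm σ) (f : List (Fm σ)) :
    twt (Q2a_scale c f) ≤ twt f * (c.wt + 2) := by
  induction f with
  | nil => simp [Q2a_scale, WtA_twt_nil]
  | cons d f ih =>
    have h0 : Q2a_scale c (d :: f) = Fm.mul c d :: Q2a_scale c f := rfl
    have h2 : (Fm.mul c d).wt = c.wt + d.wt + 1 := rfl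
    have h3 := WtA_wt_pos d
    rw [h0, WtA_twt_cons, WtA_twt_cons, h2, add_mul]
    have h4 : c.wt + d.wt + 1 ≤ d.wt * (c.wt + 2) := by nlinarith
    omega

theorem WtA_mul_twt (f g : List (Fm σ)) :
    twt (Q2a_mul f g) ≤ 4 ^ f.length * ((twt f + 2) * (twt g + 1)) := by
  induction f with
  | nil => simp [Q2a_mul, WtA_twt_nil]
  | cons c f ih =>
    rw [Q2a_mul]
    refine (WtA_add_twt _ _).trans ?_
    have h1 := WtA_scale_twt c g
    have h2 : (Fm.const 0 : Fm σ).wt = 1 := rfl
    rw [WtA_twt_cons, WtA_twt_cons, h2, List.length_cons, pow_succ]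
    have h3 : 1 ≤ 4 ^ f.length := Nat.one_le_pow _ _ (by norm_num)
    have h4 : (twt g + 1) * (c.wt + 2) ≤
        4 ^ f.length * ((twt g + 1) * (c.wt + 2)) := Nat.le_mul_of_pos_left _ h3
    have h5 : 4 ^ f.length * 4 * ((c.wt + twt f + 2) * (twt g + 1)) =
        2 * (4 ^ f.length * ((twt f + 2) * (twt g + 1))) +
        2 * (4 ^ f.length * ((twt g + 1) * (c.wt + 2))) +
        2 * (4 ^ f.length * ((twt g + 1) * (c.wt + twt f))) := by ring
    have h6 : twt g * (c.wt + 2) + 1 ≤ (twt g + 1) * (c.wt + 2) := by nlinarith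
    rw [h5]
    omega

/-- one step of the bound for symbolic polynomials -/
def WtA_g (B : ℕ) : ℕ := B + 3 + 4 * B + 4 ^ B * ((B + 2) * (B + 1))

theorem WtA_g_mono : Monotone WtA_g := by
  intro a b hab
  unfold WtA_g
  have h1 : 4 ^ a ≤ 4 ^ b := Nat.pow_le_pow_right (by norm_num) hab
  have h2 : 4 ^ a * ((a + 2) * (a + 1)) ≤ 4 ^ b * ((b + 2) * (b + 1)) :=
    Nat.mul_le_mul h1 (Nat.mul_le_mul (by omega) (by omega))
  omega

theorem WtA_g_le (B : ℕ) : B ≤ WtA_g B := by
  unfold WtA_g
  omega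

theorem WtA_iter_mono {a b C D : ℕ} (hab : a ≤ b) (hCD : C ≤ D) :
    WtA_g^[a] C ≤ WtA_g^[b] D :=
  (Monotone.monotone_iterate_of_le_map WtA_g_mono (WtA_g_le C) hab).trans
    (WtA_g_mono.iterate b hCD)

theorem WtA_sp_twt (C : ℕ) (e : Fm (Option σ)) (he : e.wt ≤ C) :
    twt (Q2a_sp e) ≤ WtA_g^[e.wt] C := by
  have hstep : ∀ (n : ℕ) (D : ℕ), WtA_g (WtA_g^[n] D) = WtA_g^[n + 1] D := fun n D =>
    (Function.iterate_succ_apply' WtA_g n D).symm
  have h3 : ∀ (n : ℕ), 3 ≤ WtA_g^[n + 1] C := by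
    intro n
    rw [← hstep]
    unfold WtA_g
    omega
  have hC : ∀ (n : ℕ), C ≤ WtA_g^[n] C := fun n =>
    WtA_iter_mono (a := 0) (Nat.zero_le n) (le_refl C)
  induction e with
  | var i =>
    cases i with
    | none =>
      have h1 : twt (Q2a_sp (Fm.var (none : Option σ))) = 3 := rfl
      rw [h1]
      exact h3 0
    | some i =>
      have h1 : twt (Q2a_sp (Fm.var (some i))) = 1 := rfl
      rw [h1]
      have := h3 0
      have h2 : (Fm.var (some i)).wt = 0 + 1 := rfl
      rw [h2]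
      omega
  | const c =>
    have h1 : twt (Q2a_sp (Fm.const c : Fm (Option σ))) = c.natAbs + 1 := rfl
    have h2 : (Fm.const c : Fm (Option σ)).wt = c.natAbs + 1 := rfl
    rw [h1]
    rw [h2] at he ⊢
    exact he.trans (hC _)
  | add e f ihe ihf =>
    have h0 : (Fm.add e f).wt = e.wt + f.wt + 1 := rfl
    rw [h0] at he ⊢
    have h1 := (ihe (by omega)).trans (WtA_iter_mono (show e.wt ≤ e.wt + f.wt by omega)
      (le_refl C))
    have h2 := (ihf (by omega)).trans (WtA_iter_mono (show f.wt ≤ e.wt + f.wt by omega)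
      (le_refl C))
    rw [← hstep, Q2a_sp]
    generalize WtA_g^[e.wt + f.wt] C = B at h1 h2
    have h4 := WtA_add_twt (Q2a_sp e) (Q2a_sp f)
    unfold WtA_g
    omega
  | mul e f ihe ihf =>
    have h0 : (Fm.mul e f).wt = e.wt + f.wt + 1 := rfl
    rw [h0] at he ⊢
    have h1 := (ihe (by omega)).trans (WtA_iter_mono (show e.wt ≤ e.wt + f.wt by omega)
      (le_refl C))
    have h2 := (ihf (by omega)).trans (WtA_iter_mono (show f.wt ≤ e.wt + f.wt by omega)
      (le_refl C))
    rw [← hstep, Q2a_sp]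
    generalize WtA_g^[e.wt + f.wt] C = B at h1 h2
    have h4 := WtA_mul_twt (Q2a_sp e) (Q2a_sp f)
    have h5 := WtA_length_le (Q2a_sp e)
    have h6 : 4 ^ (Q2a_sp e).length * ((twt (Q2a_sp e) + 2) * (twt (Q2a_sp f) + 1)) ≤
        4 ^ B * ((B + 2) * (B + 1)) := by
      apply Nat.mul_le_mul
      · exact Nat.pow_le_pow_right (by norm_num) (by omega)
      · exact Nat.mul_le_mul (by omega) (by omega)
    unfold WtA_g
    omega

theorem WtA_g_primrec : Primrec WtA_g := by
  have hpow : Primrec₂ fun x y : ℕ => x ^ y := Primrec₂.unpaired'.1 Nat.Primrec.pow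
  have h1 : Primrec fun B : ℕ => B + 3 := Primrec.nat_add.comp Primrec.id (Primrec.const 3)
  have h2 : Primrec fun B : ℕ => 4 * B := Primrec.nat_mul.comp (Primrec.const 4) Primrec.id
  have h3 : Primrec fun B : ℕ => 4 ^ B := hpow.comp (Primrec.const 4) Primrec.id
  have h4 : Primrec fun B : ℕ => (B + 2) * (B + 1) :=
    Primrec.nat_mul.comp (Primrec.nat_add.comp Primrec.id (Primrec.const 2))
      (Primrec.nat_add.comp Primrec.id (Primrec.const 1))
  exact Primrec.nat_add.comp (Primrec.nat_add.comp h1 h2) (Primrec.nat_mul.comp h3 h4)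

end

theorem wt_der : ∃ f : ℕ → ℕ, Primrec f ∧ Monotone f ∧
    ∀ (C : ℕ) (σ : Type) (F : List (Fm σ)), twt F ≤ C →
      ∃ g : List (Fm σ), twt g ≤ f C ∧ g.length = F.length - 1 ∧
        ∀ b : σ → ℝ, SP.at b g = derivative (SP.at b F) := by
  refine ⟨fun C => (C + 4) * C, ?_, ?_, fun C σ F hF => ⟨Q2a_derAux 1 F.tail, ?_, ?_, ?_⟩⟩
  · exact Primrec.nat_mul.comp (Primrec.nat_add.comp Primrec.id (Primrec.const 4)) Primrec.id
  · intro a b hab
    exact Nat.mul_le_mul (by omega) hab
  · refine (WtA_derAux_twt 1 F.tail).trans ?_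
    have h1 : twt F.tail ≤ twt F := by
      cases F with
      | nil => simp
      | cons c F =>
        rw [List.tail_cons, WtA_twt_cons]
        omega
    have h2 := WtA_length_le F.tail
    exact Nat.mul_le_mul (by omega) (by omega)
  · rw [Q2a_derAux_length, List.length_tail]
  · intro b
    cases F with
    | nil => simp [Q2a_derAux, SP.at]
    | cons c f =>
      rw [List.tail_cons, Q2a_derAux_at, SP.at, derivative_add, derivative_mul, derivative_C,
        derivative_X]
      simp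

theorem wt_of_fm : ∃ f : ℕ → ℕ, Primrec f ∧ Monotone f ∧
    ∀ (C : ℕ) (σ : Type) (e : Fm (Option σ)), e.wt ≤ C →
      ∃ F : List (Fm σ), twt F ≤ f C ∧
        ∀ (b : σ → ℝ) (t : ℝ), (SP.at b F).eval t = e.eval (ext b t) := by
  refine ⟨fun C => WtA_g^[C] C, ?_, ?_, fun C σ e he => ⟨Q2a_sp e, ?_, fun b t =>
    Q2a_sp_eval b t e⟩⟩
  · exact Primrec.nat_iterate Primrec.id Primrec.id (WtA_g_primrec.comp Primrec.snd).to₂
  · intro a b hab
    exact WtA_iter_mono hab hab
  · exact (WtA_sp_twt C e he).trans (WtA_iter_mono he (le_refl C))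

end BU
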