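import Pool.Agent.Work.MP_4030f5_lc.U.WtP

/-! # Effective bounds: closure under truncation and pseudo remainders

Copy of the proof of `Q3a_closure` (Q3a.lean), with weights. Recursion of the bound:
B (0, C) = C, B (e + 1, C) = C + B (e, h C), h C = C (C + 1) + C C (P C + 1) + C with P from
`wt_prem`; so f e C := ∑ i ∈ range (e + 1), h^[i] C. -/

namespace BU

private theorem WtB_twt_append {σ : Type} (f g : List (Fm σ)) :
    twt (f ++ g) = twt f + twt g := by
  unfold twt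
  rw [List.map_append, List.sum_append]

private theorem WtB_twt_trunc_le {σ : Type} (f : List (Fm σ)) : twt (SP.trunc f) ≤ twt f := by
  by_cases hne : f = []
  · subst hne
    exact le_rfl
  · have : twt (SP.trunc f) + (SP.lead f).wt = twt f := by
      conv_rhs => rw [← Q2a_split f hne]
      rw [WtB_twt_append]
      rfl
    omega

private theorem WtB_twt_le {σ : Type} {C : ℕ} {P : List (List (Fm σ))} (h : WBd C P)
    {p : List (Fm σ)} (hp : p ∈ P) : twt p ≤ C :=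
  (List.single_le_sum (fun _ _ => Nat.zero_le _) _ (List.mem_map_of_mem hp)).trans h.1

private theorem WtB_Bd_append {σ : Type} {C C' : ℕ} {P P' : List (List (Fm σ))} (h : WBd C P)
    (h' : WBd C' P') : WBd (C + C') (P ++ P') := by
  obtain ⟨h1, h2⟩ := h
  obtain ⟨h3, h4⟩ := h'
  refine ⟨?_, ?_⟩
  · rw [List.map_append, List.sum_append]
    omega
  · rw [List.length_append]
    omega

/-- a map with bounded values -/
private theorem WtB_Bd_map {σ α : Type} {C B : ℕ} (l : List α) (hl : l.length ≤ C)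
    (g : α → List (Fm σ)) (hg : ∀ a ∈ l, twt (g a) ≤ B) : WBd (C * (B + 1)) (l.map g) := by
  have h1 : ((l.map g).map twt).sum ≤ l.length * B := by
    clear hl
    induction l with
    | nil => simp
    | cons a l ih =>
      rw [List.map_cons, List.map_cons, List.sum_cons, List.length_cons, add_mul, one_mul]
      have h2 := hg a List.mem_cons_self
      have h3 := ih (fun b hb => hg b (List.mem_cons_of_mem _ hb))
      omega
  refine ⟨?_, ?_⟩
  · calc _ ≤ l.length * B := h1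
      _ ≤ C * (B + 1) := Nat.mul_le_mul hl (by omega)
  · rw [List.length_map]
    calc l.length ≤ C := hl
      _ = C * 1 := (mul_one _).symm
      _ ≤ C * (B + 1) := Nat.mul_le_mul_left _ (by omega)

private def WtB_h (fP : ℕ → ℕ) (C : ℕ) : ℕ := C * (C + 1) + C * C * (fP C + 1) + C

private theorem WtB_h_prim {fP : ℕ → ℕ} (hP : Primrec fP) : Primrec (WtB_h fP) := by
  have h1 : Primrec (fun C : ℕ => C) := Primrec.id
  have h2 : Primrec (fun C : ℕ => C * (C + 1)) := Primrec.nat_mul.comp h1 (Primrec.succ.comp h1)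
  have h4 : Primrec (fun C : ℕ => C * C * (fP C + 1)) :=
    Primrec.nat_mul.comp (Primrec.nat_mul.comp h1 h1) (Primrec.succ.comp hP)
  exact Primrec.nat_add.comp (Primrec.nat_add.comp h2 h4) h1

private theorem WtB_h_mono {fP : ℕ → ℕ} (hP : Monotone fP) : Monotone (WtB_h fP) := by
  intro a b hab
  have h2 := hP hab
  unfold WtB_h
  gcongr

private theorem WtB_h_ge (fP : ℕ → ℕ) (C : ℕ) : C ≤ WtB_h fP C := by
  unfold WtB_h
  omega

/-- the step -/
private theorem WtB_step {fP : ℕ → ℕ}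
    (hB : ∀ (C : ℕ) (σ : Type) (F p : List (Fm σ)), twt F ≤ C → twt p ≤ C → p ≠ [] →
      ∃ r : List (Fm σ), twt r ≤ fP C ∧ r.length < p.length ∧
        ∀ b : σ → ℝ, (SP.lead p).eval b ≠ 0 → ∀ t, (SP.at b p).eval t = 0 →
          SignType.sign ((SP.at b F).eval t) = SignType.sign ((SP.at b r).eval t))
    (e C C2 : ℕ)
    (hC2 : ∀ (σ : Type) (T P : List (List (Fm σ))),
      WBd (WtB_h fP C) T → WBd (WtB_h fP C) P → (∀ p ∈ P, p.length ≤ e) →
      ∃ P' : List (List (Fm σ)), WBd C2 P' ∧ (∀ p ∈ P, p ∈ P') ∧ (∀ p ∈ P', p.length ≤ e) ∧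
        ∀ p ∈ P', p ≠ [] → SP.trunc p ∈ P' ∧ ∀ q ∈ T, ∃ r ∈ P', Q3a_Prem q p r)
    (σ : Type) (T P : List (List (Fm σ))) (hT : WBd C T) (hP : WBd C P)
    (he : ∀ p ∈ P, p.length ≤ e + 1) :
    ∃ P' : List (List (Fm σ)), WBd (C + C2) P' ∧ (∀ p ∈ P, p ∈ P') ∧
      (∀ p ∈ P', p.length ≤ e + 1) ∧
      ∀ p ∈ P', p ≠ [] → SP.trunc p ∈ P' ∧ ∀ q ∈ T, ∃ r ∈ P', Q3a_Prem q p r := by
  have hex : ∀ f p : List (Fm σ), ∃ r : List (Fm σ), twt r ≤ fP C ∧ r.length ≤ e ∧
      (f ∈ T → p ∈ P → p ≠ [] → Q3a_Prem f p r) := by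
    intro f p
    by_cases h : f ∈ T ∧ p ∈ P ∧ p ≠ []
    · obtain ⟨h1, h2, h3⟩ := h
      obtain ⟨r, hr1, hr2, hr3⟩ := hB C σ f p (WtB_twt_le hT h1) (WtB_twt_le hP h2) h3
      have h4 := he p h2
      exact ⟨r, hr1, by omega, fun _ _ _ => hr3⟩
    · exact ⟨[], Nat.zero_le _, Nat.zero_le _, fun h1 h2 h3 => absurd ⟨h1, h2, h3⟩ h⟩
  choose r hr1 hr2 hr3 using hex
  let P1 : List (List (Fm σ)) := P.map SP.trunc ++ (P ×ˢ T).map (fun x => r x.2 x.1)
  have hP1 : WBd (WtB_h fP C) P1 := by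
    have h1 : WBd (C * (C + 1)) (P.map SP.trunc) :=
      WtB_Bd_map P hP.2 SP.trunc (fun p hp =>
        (WtB_twt_trunc_le p).trans (WtB_twt_le hP hp))
    have h2 : WBd (C * C * (fP C + 1)) ((P ×ˢ T).map (fun x => r x.2 x.1)) := by
      refine WtB_Bd_map (P ×ˢ T) ?_ _ (fun x _ => hr1 _ _)
      rw [List.length_product]
      exact Nat.mul_le_mul hP.2 hT.2
    obtain ⟨h3, h4⟩ := WtB_Bd_append h1 h2
    exact ⟨h3.trans (Nat.le_add_right _ _), h4.trans (Nat.le_add_right _ _)⟩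
  obtain ⟨P', hP'1, hP'2, hP'3, hP'4⟩ := hC2 σ T P1
    ⟨hT.1.trans (Nat.le_add_left _ _), hT.2.trans (Nat.le_add_left _ _)⟩ hP1 (by
      intro p hp
      rcases List.mem_append.mp hp with h | h
      · obtain ⟨p0, hp0, rfl⟩ := List.mem_map.mp h
        have h1 := he p0 hp0
        rw [SP.trunc, List.length_dropLast]
        omega
      · obtain ⟨x, _, rfl⟩ := List.mem_map.mp h
        exact hr2 _ _)
  refine ⟨P ++ P', WtB_Bd_append hP hP'1, fun p hp => List.mem_append_left _ hp, ?_, ?_⟩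
  · intro p hp
    rcases List.mem_append.mp hp with h | h
    · exact he p h
    · exact (hP'3 p h).trans (Nat.le_succ _)
  · intro p hp hne
    by_cases hpP : p ∈ P
    · refine ⟨List.mem_append_right _ (hP'2 _ (List.mem_append_left _
        (List.mem_map_of_mem hpP))), fun f hf => ⟨r f p, ?_, hr3 f p hf hpP hne⟩⟩
      refine List.mem_append_right _ (hP'2 _ (List.mem_append_right _ ?_))
      exact List.mem_map.mpr ⟨(p, f), List.pair_mem_product.mpr ⟨hpP, hf⟩, rfl⟩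
    · have hpP' : p ∈ P' := (List.mem_append.mp hp).resolve_left hpP
      obtain ⟨h1, h2⟩ := hP'4 p hpP' hne
      refine ⟨List.mem_append_right _ h1, fun f hf => ?_⟩
      obtain ⟨r', hr', hr''⟩ := h2 f hf
      exact ⟨r', List.mem_append_right _ hr', hr''⟩

theorem wt_closure : ∃ f : ℕ → ℕ → ℕ, Primrec₂ f ∧ (∀ e, Monotone (f e)) ∧
    (∀ e e' C, e ≤ e' → f e C ≤ f e' C) ∧ (∀ e C, C ≤ f e C) ∧
    ∀ (e C : ℕ) (σ : Type) (T P : List (List (Fm σ))),
      WBd C T → WBd C P → (∀ p ∈ P, p.length ≤ e) →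
      ∃ P' : List (List (Fm σ)), WBd (f e C) P' ∧ (∀ p ∈ P, p ∈ P') ∧ (∀ p ∈ P', p.length ≤ e) ∧
        ∀ p ∈ P', p ≠ [] → SP.trunc p ∈ P' ∧ ∀ q ∈ T, ∃ r ∈ P', Q3a_Prem q p r := by
  obtain ⟨fP, hP1, hP2, hP3⟩ := wt_prem
  have hm := WtB_h_mono hP2
  have hge := WtB_h_ge fP
  have key : ∀ (e C : ℕ) (σ : Type) (T P : List (List (Fm σ))),
      WBd C T → WBd C P → (∀ p ∈ P, p.length ≤ e) →
      ∃ P' : List (List (Fm σ)), WBd ((e + 1) * (WtB_h fP)^[e] C) P' ∧ (∀ p ∈ P, p ∈ P') ∧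
        (∀ p ∈ P', p.length ≤ e) ∧
        ∀ p ∈ P', p ≠ [] → SP.trunc p ∈ P' ∧ ∀ q ∈ T, ∃ r ∈ P', Q3a_Prem q p r := by
    intro e
    induction e with
    | zero =>
      intro C σ T P hT hP he
      refine ⟨P, ?_, fun p hp => hp, he, fun p hp hne => ?_⟩
      · rw [Function.iterate_zero, id, zero_add, one_mul]
        exact hP
      · have h1 := he p hp
        exact absurd (List.length_eq_zero_iff.mp (Nat.le_zero.mp h1)) hne
    | succ e ih =>
      intro C σ T P hT hP he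
      obtain ⟨P', h1, h2, h3, h4⟩ := WtB_step hP3 e C ((e + 1) * (WtB_h fP)^[e] (WtB_h fP C))
        (fun σ T P hT hP he => ih (WtB_h fP C) σ T P hT hP he) σ T P hT hP he
      refine ⟨P', ?_, h2, h3, h4⟩
      have h5 : C + (e + 1) * (WtB_h fP)^[e] (WtB_h fP C) ≤
          (e + 1 + 1) * (WtB_h fP)^[e + 1] C := by
        rw [Function.iterate_succ_apply]
        have h6 : C ≤ (WtB_h fP)^[e] (WtB_h fP C) :=
          (hge C).trans (Function.id_le_iterate_of_id_le (f := WtB_h fP) hge e (WtB_h fP C))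
        nlinarith
      exact ⟨h1.1.trans h5, h1.2.trans h5⟩
  refine ⟨fun e C => (e + 1) * (WtB_h fP)^[e] C, ?_, ?_, ?_, ?_, key⟩
  · have h1 : Primrec (fun x : ℕ × ℕ => (WtB_h fP)^[x.1] x.2) :=
      Primrec.nat_iterate Primrec.fst Primrec.snd ((WtB_h_prim hP1).comp Primrec.snd)
    exact Primrec.nat_mul.comp (Primrec.succ.comp Primrec.fst) h1
  · intro e a b hab
    exact Nat.mul_le_mul_left _ ((hm.iterate e) hab)
  · intro e e' C h
    exact Nat.mul_le_mul (by omega)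
      (Function.monotone_iterate_of_id_le (f := WtB_h fP) hge h C)
  · intro e C
    have h6 : C ≤ (WtB_h fP)^[e] C :=
      Function.id_le_iterate_of_id_le (f := WtB_h fP) hge e C
    nlinarith

end BU
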