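import Pool.Agent.Work.MP_4030f5_lc.U.WtA
import Pool.Agent.Work.MP_4030f5_lc.U.WtB

/-! # Effective quantifier elimination

Copy of the proofs of `qe_sp` (Q3a.lean) and `qe` (Q3b.lean) with weights. For `wt_qe_sp` the
recursion of the bound is B (0, C) = C, B (d + 1, C) = B (d, c) + 2 c + 2 C,
c = f d (2 C + C (C + 1) + C (D C + 1) + C C (P C + 1)) with f from `wt_closure`, D from `wt_der`, P from
`wt_prem`; for all d ≤ d₀ one can use f d₀ instead of f d, so the bound at d₀ is a sum of iterates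
of one monotone function g with C ≤ g C. -/

namespace BU

open Polynomial

private theorem WtC_twt_cons {σ : Type} (c : Fm σ) (f : List (Fm σ)) :
    twt (c :: f) = c.wt + twt f := rfl

private theorem WtC_twt_append {σ : Type} (f g : List (Fm σ)) :
    twt (f ++ g) = twt f + twt g := by
  unfold twt
  rw [List.map_append, List.sum_append]

private theorem WtC_wt_pos {σ : Type} (e : Fm σ) : 1 ≤ e.wt := by
  cases e <;> simp [Fm.wt]

private theorem WtC_length_le {σ : Type} (f : List (Fm σ)) : f.length ≤ twt f := by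
  induction f with
  | nil => simp
  | cons c f ih =>
    rw [WtC_twt_cons, List.length_cons]
    have := WtC_wt_pos c
    omega

private theorem WtC_twt_trunc {σ : Type} (f : List (Fm σ)) (hne : f ≠ []) :
    twt (SP.trunc f) + (SP.lead f).wt = twt f := by
  conv_rhs => rw [← Q2a_split f hne]
  rw [WtC_twt_append]
  rfl

private theorem WtC_twt_trunc_le {σ : Type} (f : List (Fm σ)) : twt (SP.trunc f) ≤ twt f := by
  by_cases hne : f = []
  · subst hne
    exact le_rfl
  · have := WtC_twt_trunc f hne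
    omega

private theorem WtC_twt_le {σ : Type} {C : ℕ} {P : List (List (Fm σ))} (h : WBd C P)
    {p : List (Fm σ)} (hp : p ∈ P) : twt p ≤ C :=
  (List.single_le_sum (fun _ _ => Nat.zero_le _) _ (List.mem_map_of_mem hp)).trans h.1

private theorem WtC_Bd_append {σ : Type} {C C' : ℕ} {P P' : List (List (Fm σ))} (h : WBd C P)
    (h' : WBd C' P') : WBd (C + C') (P ++ P') := by
  obtain ⟨h1, h2⟩ := h
  obtain ⟨h3, h4⟩ := h'
  refine ⟨?_, ?_⟩
  · rw [List.map_append, List.sum_append]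
    omega
  · rw [List.length_append]
    omega

/-- a map with bounded values -/
private theorem WtC_Bd_map {σ α : Type} {C B : ℕ} (l : List α) (hl : l.length ≤ C)
    (g : α → List (Fm σ)) (hg : ∀ a ∈ l, twt (g a) ≤ B) : WBd (C * (B + 1)) (l.map g) := by
  have h1 : ((l.map g).map twt).sum ≤ l.length * B := by
    clear hl
    induction l with
    | nil => simp
    | cons a l ih =>
      rw [List.map_cons, List.map_cons, List.sum_cons, List.length_cons, add_mul, one_mul]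
      have h2 := hg a List.mem_cons_self
      have h3 := ih (fun b hb => hg b (List.mem_cons_of_mem _ hb))
      omega
  refine ⟨?_, ?_⟩
  · calc _ ≤ l.length * B := h1
      _ ≤ C * (B + 1) := Nat.mul_le_mul hl (by omega)
  · rw [List.length_map]
    calc l.length ≤ C := hl
      _ = C * 1 := (mul_one _).symm
      _ ≤ C * (B + 1) := Nat.mul_le_mul_left _ (by omega)

private theorem WtC_lead_wt {σ : Type} (f : List (Fm σ)) : (SP.lead f).wt ≤ twt f + 1 := by
  by_cases hne : f = []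
  · subst hne
    exact le_rfl
  · have := WtC_twt_trunc f hne
    omega

private theorem WtC_leads {σ : Type} (P : List (List (Fm σ))) :
    twt (P.map SP.lead) ≤ (P.map twt).sum + P.length := by
  induction P with
  | nil => simp [twt]
  | cons p P ih =>
    rw [List.map_cons, WtC_twt_cons, List.map_cons, List.sum_cons, List.length_cons]
    have := WtC_lead_wt p
    omega

private theorem WtC_flatten {σ : Type} (F : List (List (Fm σ))) :
    twt F.flatten = (F.map twt).sum := by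
  induction F with
  | nil => rfl
  | cons f F ih => rw [List.flatten_cons, WtC_twt_append, ih, List.map_cons, List.sum_cons]

/-- the argument of the closure function -/
private def WtC_arg (fD fP : ℕ → ℕ) (C : ℕ) : ℕ :=
  C + (C + C * (C + 1) + C * (fD C + 1) + C * C * (fP C + 1))

private theorem WtC_arg_prim {fD fP : ℕ → ℕ} (hD : Primrec fD) (hP : Primrec fP) :
    Primrec (WtC_arg fD fP) := by
  have h1 : Primrec (fun C : ℕ => C) := Primrec.id
  have h2 : Primrec (fun C : ℕ => C * (C + 1)) := Primrec.nat_mul.comp h1 (Primrec.succ.comp h1)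
  have h3 : Primrec (fun C : ℕ => C * (fD C + 1)) :=
    Primrec.nat_mul.comp h1 (Primrec.succ.comp hD)
  have h4 : Primrec (fun C : ℕ => C * C * (fP C + 1)) :=
    Primrec.nat_mul.comp (Primrec.nat_mul.comp h1 h1) (Primrec.succ.comp hP)
  exact Primrec.nat_add.comp h1 (Primrec.nat_add.comp (Primrec.nat_add.comp
    (Primrec.nat_add.comp h1 h2) h3) h4)

private theorem WtC_arg_mono {fD fP : ℕ → ℕ} (hD : Monotone fD) (hP : Monotone fP) :
    Monotone (WtC_arg fD fP) := by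
  intro a b hab
  have h1 := hD hab
  have h2 := hP hab
  unfold WtC_arg
  gcongr

private theorem WtC_arg_ge (fD fP : ℕ → ℕ) (C : ℕ) : C ≤ WtC_arg fD fP C := by
  unfold WtC_arg
  omega

/-- the step, for one level -/
private theorem WtC_step {fc : ℕ → ℕ → ℕ} {fD fP : ℕ → ℕ}
    (hcl : ∀ (e C : ℕ) (σ : Type) (T P : List (List (Fm σ))),
      WBd C T → WBd C P → (∀ p ∈ P, p.length ≤ e) →
      ∃ P' : List (List (Fm σ)), WBd (fc e C) P' ∧ (∀ p ∈ P, p ∈ P') ∧
        (∀ p ∈ P', p.length ≤ e) ∧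
        ∀ p ∈ P', p ≠ [] → SP.trunc p ∈ P' ∧ ∀ q ∈ T, ∃ r ∈ P', Q3a_Prem q p r)
    (hder : ∀ (C : ℕ) (σ : Type) (F : List (Fm σ)), twt F ≤ C →
      ∃ g : List (Fm σ), twt g ≤ fD C ∧ g.length = F.length - 1 ∧
        ∀ b : σ → ℝ, SP.at b g = derivative (SP.at b F))
    (hprem : ∀ (C : ℕ) (σ : Type) (F p : List (Fm σ)), twt F ≤ C → twt p ≤ C → p ≠ [] →
      ∃ r : List (Fm σ), twt r ≤ fP C ∧ r.length < p.length ∧
        ∀ b : σ → ℝ, (SP.lead p).eval b ≠ 0 → ∀ t, (SP.at b p).eval t = 0 →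
          SignType.sign ((SP.at b F).eval t) = SignType.sign ((SP.at b r).eval t))
    (d C Ci : ℕ) (hd0 : d ≠ 0)
    (ih : ∀ (σ : Type) (F : List (List (Fm σ))),
      (F.map twt).sum ≤ fc d (WtC_arg fD fP C) → F.length ≤ fc d (WtC_arg fD fP C) →
      (∀ f ∈ F, f.length ≤ d) →
      ∃ G : List (Fm σ), twt G ≤ Ci ∧ ∀ b b' : σ → ℝ, SgnEq G b b' →
        ∃ ψ : ℝ ≃o ℝ, ∀ f ∈ F, ∀ t,
          SignType.sign ((SP.at b f).eval t) = SignType.sign ((SP.at b' f).eval (ψ t)))
    (σ : Type) (F : List (List (Fm σ))) (hF : (F.map twt).sum ≤ C) (hFl : F.length ≤ C)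
    (hd : ∀ f ∈ F, f.length ≤ d + 1) :
    ∃ G : List (Fm σ), twt G ≤ Ci + (fc d (WtC_arg fD fP C) + fc d (WtC_arg fD fP C)) + (C + C) ∧
      ∀ b b' : σ → ℝ, SgnEq G b b' →
      ∃ ψ : ℝ ≃o ℝ, ∀ f ∈ F, ∀ t,
        SignType.sign ((SP.at b f).eval t) = SignType.sign ((SP.at b' f).eval (ψ t)) := by
  have hFBd : WBd C F := ⟨hF, hFl⟩
  let T : List (List (Fm σ)) := F.filter fun f => decide (f.length = d + 1)
  let F0 : List (List (Fm σ)) := F.filter fun f => decide (f.length ≤ d)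
  have hsub : ∀ (q : List (Fm σ) → Bool), WBd C (F.filter q) := by
    intro q
    refine ⟨?_, (List.length_filter_le _ _).trans hFl⟩
    refine le_trans ?_ hF
    exact ((List.filter_sublist).map twt).sum_le_sum (fun _ _ => Nat.zero_le _)
  have hT : WBd C T := hsub _
  have hF0 : WBd C F0 := hsub _
  have hTlen : ∀ f ∈ T, f.length = d + 1 := by
    intro f hf
    have h1 := (List.mem_filter.mp hf).2
    simpa using h1
  have hTne : ∀ f ∈ T, f ≠ [] := by
    intro f hf h1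
    have := hTlen f hf
    rw [h1] at this
    simp at this
  -- the derivatives
  have hexd : ∀ f : List (Fm σ), ∃ g : List (Fm σ), twt g ≤ fD C ∧ g.length ≤ d ∧
      (f ∈ T → ∀ b : σ → ℝ, SP.at b g = derivative (SP.at b f)) := by
    intro f
    by_cases hf : f ∈ T
    · obtain ⟨g, hg1, hg2, hg3⟩ := hder C σ f (WtC_twt_le hT hf)
      have h1 := hTlen f hf
      exact ⟨g, hg1, by omega, fun _ => hg3⟩
    · exact ⟨[], Nat.zero_le _, Nat.zero_le _, fun h => absurd h hf⟩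
  choose der hder1 hder2 hder3 using hexd
  have hexp : ∀ f p : List (Fm σ), ∃ r : List (Fm σ), twt r ≤ fP C ∧ r.length ≤ d ∧
      (f ∈ T → p ∈ T → Q3a_Prem f p r) := by
    intro f p
    by_cases h : f ∈ T ∧ p ∈ T
    · obtain ⟨h1, h2⟩ := h
      obtain ⟨r, hr1, hr2, hr3⟩ := hprem C σ f p (WtC_twt_le hT h1) (WtC_twt_le hT h2)
        (hTne p h2)
      have h4 := hTlen p h2
      exact ⟨r, hr1, by omega, fun _ _ => hr3⟩
    · exact ⟨[], Nat.zero_le _, Nat.zero_le _, fun h1 h2 => absurd ⟨h1, h2⟩ h⟩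
  choose prem hprem1 hprem2 hprem3 using hexp
  let P0 : List (List (Fm σ)) := F0 ++ T.map SP.trunc ++ T.map der ++
    (T ×ˢ T).map (fun x => prem x.1 x.2)
  have hP0 : WBd (WtC_arg fD fP C) P0 := by
    have h1 : WBd (C * (C + 1)) (T.map SP.trunc) :=
      WtC_Bd_map T hT.2 SP.trunc (fun p hp =>
        (WtC_twt_trunc_le p).trans (WtC_twt_le hT hp))
    have h2 : WBd (C * (fD C + 1)) (T.map der) :=
      WtC_Bd_map T hT.2 der (fun p _ => hder1 p)
    have h3 : WBd (C * C * (fP C + 1)) ((T ×ˢ T).map (fun x => prem x.1 x.2)) := by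
      refine WtC_Bd_map (T ×ˢ T) ?_ _ (fun x _ => hprem1 _ _)
      rw [List.length_product]
      exact Nat.mul_le_mul hT.2 hT.2
    obtain ⟨h4, h5⟩ := WtC_Bd_append (WtC_Bd_append (WtC_Bd_append hF0 h1) h2) h3
    exact ⟨h4.trans (Nat.le_add_left _ _), h5.trans (Nat.le_add_left _ _)⟩
  have hP0len : ∀ p ∈ P0, p.length ≤ d := by
    intro p hp
    rcases List.mem_append.mp hp with h | h
    · rcases List.mem_append.mp h with h | h
      · rcases List.mem_append.mp h with h | h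
        · have h1 := (List.mem_filter.mp h).2
          simpa using h1
        · obtain ⟨p0, hp0, rfl⟩ := List.mem_map.mp h
          have h1 := hTlen p0 hp0
          rw [SP.trunc, List.length_dropLast]
          omega
      · obtain ⟨p0, _, rfl⟩ := List.mem_map.mp h
        exact hder2 _
    · obtain ⟨x, _, rfl⟩ := List.mem_map.mp h
      exact hprem2 _ _
  obtain ⟨P, hP1, hP2, hP3, hP4⟩ := hcl d (WtC_arg fD fP C) σ T P0
    ⟨hT.1.trans (Nat.le_add_right _ _), hT.2.trans (Nat.le_add_right _ _)⟩ hP0 hP0len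
  obtain ⟨G, hG1, hG2⟩ := ih σ P hP1.1 hP1.2 hP3
  refine ⟨G ++ P.map SP.lead ++ T.map SP.lead, ?_, ?_⟩
  · rw [WtC_twt_append, WtC_twt_append]
    have h1 := WtC_leads P
    have h2 := WtC_leads T
    have h3 := hP1.1
    have h4 := hP1.2
    have h5 := hT.1
    have h6 := hT.2
    omega
  intro b b' hbb
  have hGb : SgnEq G b b' := fun e he =>
    hbb e (List.mem_append_left _ (List.mem_append_left _ he))
  have hPb : ∀ p ∈ P, (SP.lead p).sgn b = (SP.lead p).sgn b' := fun p hp =>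
    hbb _ (List.mem_append_left _ (List.mem_append_right _ (List.mem_map_of_mem hp)))
  have hTb : ∀ p ∈ T, (SP.lead p).sgn b = (SP.lead p).sgn b' := fun p hp =>
    hbb _ (List.mem_append_right _ (List.mem_map_of_mem hp))
  obtain ⟨ψ0, hψ0⟩ := hG2 b b' hGb
  have hTb' : ∀ p ∈ T, (SP.lead p).eval b ≠ 0 → (SP.lead p).eval b' ≠ 0 := by
    intro p hp h1 h2
    have h3 := hTb p hp
    rw [Fm.sgn, Fm.sgn, h2, sign_zero] at h3
    exact h1 (sign_eq_zero_iff.mp h3)
  let ι : Type := {p : List (Fm σ) // p ∈ P}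
  let κ : Type := {f : List (Fm σ) // f ∈ T ∧ (SP.lead f).eval b ≠ 0}
  have hfι : Finite ι := (List.finite_toSet P).to_subtype
  have hfκ : Finite κ := by
    have h1 : {f : List (Fm σ) | f ∈ T ∧ (SP.lead f).eval b ≠ 0}.Finite :=
      (List.finite_toSet T).subset fun f hf => hf.1
    exact h1.to_subtype
  have hmem : ∀ f ∈ T, ∀ g ∈ T, prem f g ∈ P := by
    intro f hf g hg
    apply hP2
    refine List.mem_append_right _ ?_
    exact List.mem_map.mpr ⟨(f, g), List.pair_mem_product.mpr ⟨hf, hg⟩, rfl⟩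
  have hmemd : ∀ f ∈ T, der f ∈ P := by
    intro f hf
    apply hP2
    exact List.mem_append_left _ (List.mem_append_right _ (List.mem_map_of_mem hf))
  have hmemt : ∀ f ∈ T, SP.trunc f ∈ P := by
    intro f hf
    apply hP2
    exact List.mem_append_left _ (List.mem_append_left _
      (List.mem_append_right _ (List.mem_map_of_mem hf)))
  have hmemF : ∀ f ∈ F0, f ∈ P := by
    intro f hf
    apply hP2
    exact List.mem_append_left _ (List.mem_append_left _ (List.mem_append_left _ hf))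
  obtain ⟨ψ, hψ⟩ := diag_step (ι := ι) (κ := κ) (p := fun i => SP.at b i.1)
    (p' := fun i => SP.at b' i.1) (f := fun j => SP.at b j.1) (f' := fun j => SP.at b' j.1)
    ⟨ψ0, fun i t => hψ0 i.1 i.2 t⟩
    (fun j => by
      have h1 := (SP.natDegree_at (hTne j.1 j.2.1) j.2.2).1
      have h2 := (SP.natDegree_at (hTne j.1 j.2.1) (hTb' j.1 j.2.1 j.2.2)).1
      omega)
    (fun j => by
      have h1 := (SP.natDegree_at (hTne j.1 j.2.1) j.2.2).1
      have h2 := hTlen j.1 j.2.1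
      omega)
    (fun j => by
      have h1 := (SP.natDegree_at (hTne j.1 j.2.1) j.2.2).2
      have h2 := (SP.natDegree_at (hTne j.1 j.2.1) (hTb' j.1 j.2.1 j.2.2)).2
      have h3 := hTb j.1 j.2.1
      rw [h1, h2]
      exact h3)
    (fun j => ⟨⟨der j.1, hmemd j.1 j.2.1⟩, hder3 j.1 j.2.1 b, hder3 j.1 j.2.1 b'⟩)
    (fun i j hi => by
      obtain ⟨q, hq, hq1, hq2, hq3, hq4, hq5⟩ := Q3a_reduce
        (fun p hp hne => (hP4 p hp hne).1) hPb i.1.length i.1 i.2 le_rfl hi
      obtain ⟨r, hr, hrp⟩ := (hP4 q hq hq1).2 j.1 j.2.1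
      refine ⟨⟨r, hr⟩, fun t ht => ?_, fun t ht => ?_⟩
      · exact hrp b hq2 t (by rw [hq4]; exact ht)
      · exact hrp b' hq3 t (by rw [hq5]; exact ht))
    (fun j' j => by
      refine ⟨⟨prem j.1 j'.1, hmem j.1 j.2.1 j'.1 j'.2.1⟩, fun t ht => ?_, fun t ht => ?_⟩
      · exact hprem3 j.1 j'.1 j.2.1 j'.2.1 b j'.2.2 t ht
      · exact hprem3 j.1 j'.1 j.2.1 j'.2.1 b' (hTb' j'.1 j'.2.1 j'.2.2) t ht)
  refine ⟨ψ, fun f hf t => ?_⟩
  by_cases hfd : f.length ≤ d
  · have h1 : f ∈ F0 := List.mem_filter.mpr ⟨hf, by simpa using hfd⟩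
    exact hψ (Sum.inl ⟨f, hmemF f h1⟩) t
  · have h1 : f ∈ T := List.mem_filter.mpr ⟨hf, by
      have := hd f hf
      simp only [decide_eq_true_eq]
      omega⟩
    by_cases hl : (SP.lead f).eval b = 0
    · have hl' : (SP.lead f).eval b' = 0 := by
        have h3 := hTb f h1
        rw [Fm.sgn, Fm.sgn, hl, sign_zero] at h3
        exact sign_eq_zero_iff.mp h3.symm
      have h2 := hψ (Sum.inl ⟨SP.trunc f, hmemt f h1⟩) t
      change SignType.sign ((SP.at b (SP.trunc f)).eval t) =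
        SignType.sign ((SP.at b' (SP.trunc f)).eval (ψ t)) at h2
      rwa [SP.at_trunc hl, SP.at_trunc hl'] at h2
    · exact hψ (Sum.inr ⟨f, h1, hl⟩) t

private theorem WtC_base {σ : Type} (d C : ℕ) (hd : d ≤ 1) (F : List (List (Fm σ)))
    (hF : (F.map twt).sum ≤ C) (hFd : ∀ f ∈ F, f.length ≤ d) :
    ∃ G : List (Fm σ), twt G ≤ C ∧ ∀ b b' : σ → ℝ, SgnEq G b b' →
        ∃ ψ : ℝ ≃o ℝ, ∀ f ∈ F, ∀ t,
          SignType.sign ((SP.at b f).eval t) = SignType.sign ((SP.at b' f).eval (ψ t)) := by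
  refine ⟨F.flatten, ?_, fun b b' h =>
    Q3a_base F (fun f hf => (hFd f hf).trans hd) b b' h⟩
  rw [WtC_flatten]
  exact hF

theorem wt_qe_sp : ∃ f : ℕ → ℕ → ℕ, Primrec₂ f ∧ (∀ d, Monotone (f d)) ∧
    (∀ d d' C, d ≤ d' → f d C ≤ f d' C) ∧
    ∀ (d C : ℕ) (σ : Type) (F : List (List (Fm σ))),
      (F.map twt).sum ≤ C → F.length ≤ C → (∀ q ∈ F, q.length ≤ d) →
      ∃ G : List (Fm σ), twt G ≤ f d C ∧ ∀ b b' : σ → ℝ, SgnEq G b b' →
        ∃ ψ : ℝ ≃o ℝ, ∀ q ∈ F, ∀ t,
          SignType.sign ((SP.at b q).eval t) = SignType.sign ((SP.at b' q).eval (ψ t)) := by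
  obtain ⟨fD, hD1, hD2, hD3⟩ := wt_der
  obtain ⟨fP, hP1, hP2, hP3⟩ := wt_prem
  obtain ⟨fc, hc1, hc2, hc3, hc4, hc5⟩ := wt_closure
  let g : ℕ → ℕ → ℕ := fun d x => fc d (WtC_arg fD fP x)
  have hg1 : Primrec₂ g := hc1.comp Primrec.fst ((WtC_arg_prim hD1 hP1).comp Primrec.snd)
  have hg2 : ∀ d, Monotone (g d) := fun d a b hab => hc2 d (WtC_arg_mono hD2 hP2 hab)
  have hg3 : ∀ d d', d ≤ d' → g d ≤ g d' := fun d d' h x => hc3 d d' _ h
  have hg4 : ∀ d x, x ≤ g d x := fun d x => (WtC_arg_ge fD fP x).trans (hc4 d _)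
  have hit : ∀ d n a b, a ≤ b → (g d)^[n] a ≤ (g d)^[n] b := fun d n a b hab =>
    ((hg2 d).iterate n) hab
  have hit2 : ∀ d n n' a, n ≤ n' → (g d)^[n] a ≤ (g d)^[n'] a := fun d n n' a h =>
    Function.monotone_iterate_of_id_le (hg4 d) h a
  have hit3 : ∀ d d' n a, d ≤ d' → (g d)^[n] a ≤ (g d')^[n] a := fun d d' n a h =>
    (hg2 d).iterate_le_of_le (hg3 d d' h) n a
  have key : ∀ d₀ d : ℕ, d ≤ d₀ → ∀ (C : ℕ) (σ : Type) (F : List (List (Fm σ))),
      (F.map twt).sum ≤ C → F.length ≤ C → (∀ q ∈ F, q.length ≤ d) →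
      ∃ G : List (Fm σ), twt G ≤ 5 * (d + 1) * (g d₀)^[d] C ∧ ∀ b b' : σ → ℝ, SgnEq G b b' →
        ∃ ψ : ℝ ≃o ℝ, ∀ q ∈ F, ∀ t,
          SignType.sign ((SP.at b q).eval t) = SignType.sign ((SP.at b' q).eval (ψ t)) := by
    intro d₀ d
    induction d with
    | zero =>
      intro _ C σ F hF hFl hFd
      obtain ⟨G, hG1, hG2⟩ := WtC_base 0 C (by omega) F hF hFd
      refine ⟨G, ?_, hG2⟩
      rw [Function.iterate_zero, id]
      omega
    | succ d ih =>
      intro hd C σ F hF hFl hFd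
      have hge : C ≤ (g d₀)^[d + 1] C := hit2 d₀ 0 (d + 1) C (by omega)
      by_cases hd0 : d = 0
      · obtain ⟨G, hG1, hG2⟩ := WtC_base (d + 1) C (by omega) F hF hFd
        refine ⟨G, ?_, hG2⟩
        nlinarith
      · have hc : g d C ≤ g d₀ C := hg3 d d₀ (by omega) C
        obtain ⟨G, hG1, hG2⟩ := WtC_step hc5 hD3 hP3 d C (5 * (d + 1) * (g d₀)^[d] (g d C)) hd0
          (fun σ F h1 h2 h3 => ih (by omega) (g d C) σ F h1 h2 h3) σ F hF hFl hFd
        refine ⟨G, ?_, hG2⟩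
        have h1 : (g d₀)^[d] (g d C) ≤ (g d₀)^[d + 1] C := by
          rw [Function.iterate_succ_apply]
          exact hit d₀ d _ _ hc
        have h2 : g d C ≤ (g d₀)^[d + 1] C := by
          refine hc.trans ?_
          exact hit2 d₀ 1 (d + 1) C (by omega)
        have h3 : 5 * (d + 1) * (g d₀)^[d] (g d C) ≤ 5 * (d + 1) * (g d₀)^[d + 1] C :=
          Nat.mul_le_mul_left _ h1
        change twt G ≤ 5 * (d + 1) * (g d₀)^[d] (g d C) + (g d C + g d C) + (C + C) at hG1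
        have h4 : 5 * (d + 1 + 1) * (g d₀)^[d + 1] C =
          5 * (d + 1) * (g d₀)^[d + 1] C + 5 * (g d₀)^[d + 1] C := by ring
        rw [h4]
        omega
  refine ⟨fun d C => 5 * (d + 1) * (g d)^[d] C, ?_, ?_, ?_, ?_⟩
  · have h1 : Primrec (fun x : ℕ × ℕ => (g x.1)^[x.1] x.2) :=
      Primrec.nat_iterate Primrec.fst Primrec.snd
        (hg1.comp (Primrec.fst.comp Primrec.fst) Primrec.snd)
    have h2 : Primrec (fun x : ℕ × ℕ => 5 * (x.1 + 1)) :=
      Primrec.nat_mul.comp (Primrec.const 5) (Primrec.succ.comp Primrec.fst)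
    exact Primrec.nat_mul.comp h2 h1
  · intro d a b hab
    exact Nat.mul_le_mul_left _ (hit d d a b hab)
  · intro d d' C h
    exact Nat.mul_le_mul (Nat.mul_le_mul_left _ (by omega))
      ((hit3 d d' d C h).trans (hit2 d' d d' C h))
  · intro d C σ F hF hFl hFd
    exact key d d le_rfl C σ F hF hFl hFd

theorem wt_qe : ∃ f : ℕ → ℕ, Primrec f ∧ Monotone f ∧
    ∀ (C : ℕ) (σ : Type) (F : List (Fm (Option σ))), twt F ≤ C →
      ∃ G : List (Fm σ), twt G ≤ f C ∧ ∀ b b' : σ → ℝ, SgnEq G b b' →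
        ∃ ψ : ℝ ≃o ℝ, ∀ e ∈ F, ∀ t, e.sgn (ext b t) = e.sgn (ext b' (ψ t)) := by
  obtain ⟨fO, hO1, hO2, hO3⟩ := wt_of_fm
  obtain ⟨fq, hq1, hq2, hq3, hq4⟩ := wt_qe_sp
  refine ⟨fun C => fq (fO C) (C * (fO C + 1)), ?_, ?_, ?_⟩
  · exact hq1.comp hO1 (Primrec.nat_mul.comp Primrec.id (Primrec.succ.comp hO1))
  · intro a b hab
    have h1 := hO2 hab
    have h2 : a * (fO a + 1) ≤ b * (fO b + 1) := Nat.mul_le_mul hab (by omega)
    exact (hq2 _ h2).trans (hq3 _ _ _ h1)
  · intro C σ F hF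
    have hmem : ∀ e ∈ F, e.wt ≤ C := by
      intro e he
      exact (List.single_le_sum (fun _ _ => Nat.zero_le _) _ (List.mem_map_of_mem he)).trans hF
    have hex : ∀ e : Fm (Option σ), ∃ f : List (Fm σ), twt f ≤ fO C ∧
        (e ∈ F → ∀ (b : σ → ℝ) (t : ℝ), (SP.at b f).eval t = e.eval (ext b t)) := by
      intro e
      by_cases he : e ∈ F
      · obtain ⟨f, hf1, hf2⟩ := hO3 C σ e (hmem e he)
        exact ⟨f, hf1, fun _ => hf2⟩
      · exact ⟨[], Nat.zero_le _, fun h => absurd h he⟩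
    choose f hf1 hf2 using hex
    have hlen : F.length ≤ C := (WtC_length_le F).trans hF
    obtain ⟨h1, h2⟩ := WtC_Bd_map F hlen f (fun e _ => hf1 e)
    obtain ⟨G, hG1, hG2⟩ := hq4 (fO C) (C * (fO C + 1)) σ (F.map f) h1 h2 (by
      intro p hp
      obtain ⟨e, _, rfl⟩ := List.mem_map.mp hp
      exact (WtC_length_le _).trans (hf1 e))
    refine ⟨G, hG1, fun b b' hb => ?_⟩
    obtain ⟨ψ, hψ⟩ := hG2 b b' hb
    refine ⟨ψ, fun e he t => ?_⟩
    have h3 := hψ (f e) (List.mem_map_of_mem he) t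
    rw [Fm.sgn, Fm.sgn, ← hf2 e he, ← hf2 e he]
    exact h3

end BU
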