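import Pool.Agent.Work.MP_4030f5_lc.U.Defs

/-! # Weights of expressions (constants count with their magnitude) -/

namespace BU

/-- weight: size where a constant `c` counts `|c| + 1`. -/
def Fm.wt {σ : Type} : Fm σ → ℕ
  | .var _ => 1
  | .const c => c.natAbs + 1
  | .add e f => e.wt + f.wt + 1
  | .mul e f => e.wt + f.wt + 1

def twt {σ : Type} (F : List (Fm σ)) : ℕ := (F.map Fm.wt).sum

/-- families of bounded total weight and length -/
def WBd {σ : Type} (C : ℕ) (P : List (List (Fm σ))) : Prop :=
  (P.map twt).sum ≤ C ∧ P.length ≤ C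

/-- generic points: every integer polynomial that vanishes at `x` vanishes identically. -/
def Gen {σ : Type} (x : σ → ℝ) : Prop := ∀ e : Fm σ, e.eval x = 0 → ∀ y, e.eval y = 0

end BU
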