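import Pool.Agent.Work.MP_4030f5_lc.U.WtDefs

/-! # Effective bounds: pseudo remainders

Copy of the proof of `SP.exists_prem` (Q2b.lean) with `tsize` replaced by `twt` and an explicit
primitive recursive bound. The recursion in the existing proof is
B (0, C) = C, B (n + 1, C) = C + B (n, g C) with an explicit polynomial g (monotone, C ≤ g C); so
B (n, C) ≤ ∑ i ∈ range (n + 1), g^[i] C, and the bound is the value at n = C
(`Primrec.nat_iterate`; sums: `pl_sum`). -/

namespace BU

open Polynomial

variable {σ : Type}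

private theorem WtP_wt_pos (e : Fm σ) : 1 ≤ e.wt := by
  cases e <;> simp [Fm.wt]

private theorem WtP_nil : twt ([] : List (Fm σ)) = 0 := rfl

private theorem WtP_cons (c : Fm σ) (f : List (Fm σ)) : twt (c :: f) = c.wt + twt f := rfl

private theorem WtP_append (f g : List (Fm σ)) : twt (f ++ g) = twt f + twt g := by
  unfold twt
  rw [List.map_append, List.sum_append]

private theorem WtP_length_le (f : List (Fm σ)) : f.length ≤ twt f := by
  induction f with
  | nil => simp
  | cons c f ih =>
    rw [WtP_cons, List.length_cons]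
    have := WtP_wt_pos c
    omega

private theorem WtP_add (f g : List (Fm σ)) :
    twt (Q2a_add f g) ≤ 2 * (twt f + twt g) := by
  induction f generalizing g with
  | nil =>
    rw [Q2a_add, WtP_nil]
    omega
  | cons c f ih =>
    cases g with
    | nil =>
      rw [Q2a_add]
      omega
    | cons d g =>
      rw [Q2a_add, WtP_cons, WtP_cons, WtP_cons]
      have h1 := ih g
      have h2 : (Fm.add c d).wt = c.wt + d.wt + 1 := rfl
      have h3 := WtP_wt_pos c
      omega

private theorem WtP_scale (c : Fm σ) (f : List (Fm σ)) :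
    twt (Q2a_scale c f) ≤ twt f * (c.wt + 2) := by
  induction f with
  | nil => simp [Q2a_scale, WtP_nil]
  | cons d f ih =>
    have h0 : Q2a_scale c (d :: f) = Fm.mul c d :: Q2a_scale c f := rfl
    have h2 : (Fm.mul c d).wt = c.wt + d.wt + 1 := rfl
    have h3 := WtP_wt_pos d
    rw [h0, WtP_cons, WtP_cons, h2, add_mul]
    have h4 : c.wt + d.wt + 1 ≤ d.wt * (c.wt + 2) := by nlinarith
    omega

private theorem WtP_shift (m : ℕ) (f : List (Fm σ)) : twt (Q2b_shift m f) = m + twt f := by
  rw [Q2b_shift, WtP_append]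
  congr 1
  induction m with
  | zero => rfl
  | succ m ih =>
    rw [List.replicate_succ, WtP_cons, ih]
    have : (Fm.const 0 : Fm σ).wt = 1 := rfl
    omega

private theorem WtP_trunc (f : List (Fm σ)) (hne : f ≠ []) :
    twt (SP.trunc f) + (SP.lead f).wt = twt f := by
  conv_rhs => rw [← Q2a_split f hne]
  rw [WtP_append]
  rfl

private theorem WtP_step {C : ℕ} (f p : List (Fm σ)) (hf : twt f ≤ C) (hpC : twt p ≤ C)
    (hp : p ≠ []) (h : p.length ≤ f.length) :
    twt (Q2b_step f p) ≤ 2 * (C * (2 * C + 3) + (C + C * (2 * C + 6))) := by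
  have hfne : f ≠ [] := by
    rintro rfl
    have hlen : 0 < p.length := List.length_pos_iff.mpr hp
    simp at h
    exact hp h
  have h1 := WtP_trunc f hfne
  have h2 := WtP_trunc p hp
  have h3 := WtP_length_le f
  refine (WtP_add _ _).trans (Nat.mul_le_mul_left 2 ?_)
  rw [WtP_shift]
  refine Nat.add_le_add ?_ (Nat.add_le_add (by omega) ?_)
  · refine (WtP_scale _ _).trans (Nat.mul_le_mul (by omega) ?_)
    have h4 : (Fm.mul (SP.lead p) (SP.lead p)).wt =
        (SP.lead p).wt + (SP.lead p).wt + 1 := rfl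
    omega
  · refine (WtP_scale _ _).trans (Nat.mul_le_mul (by omega) ?_)
    have h4 : (Fm.mul (Fm.const (-1)) (Fm.mul (SP.lead p) (SP.lead f))).wt =
        2 + ((SP.lead p).wt + (SP.lead f).wt + 1) + 1 := rfl
    omega

private def WtP_g (C : ℕ) : ℕ := C + 2 * (C * (2 * C + 3) + (C + C * (2 * C + 6)))

private theorem WtP_g_prim : Primrec WtP_g := by
  have h1 : Primrec (fun C : ℕ => C) := Primrec.id
  have h2 : Primrec (fun C : ℕ => 2 * C) := Primrec.nat_mul.comp (Primrec.const 2) h1
  have h3 : Primrec (fun C : ℕ => C * (2 * C + 3)) :=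
    Primrec.nat_mul.comp h1 (Primrec.nat_add.comp h2 (Primrec.const 3))
  have h4 : Primrec (fun C : ℕ => C * (2 * C + 6)) :=
    Primrec.nat_mul.comp h1 (Primrec.nat_add.comp h2 (Primrec.const 6))
  exact Primrec.nat_add.comp h1 (Primrec.nat_mul.comp (Primrec.const 2)
    (Primrec.nat_add.comp h3 (Primrec.nat_add.comp h1 h4)))

private theorem WtP_g_mono : Monotone WtP_g := by
  intro a b hab
  unfold WtP_g
  gcongr

private theorem WtP_g_ge (x : ℕ) : x ≤ WtP_g x := by
  unfold WtP_g
  omega

theorem wt_prem : ∃ f : ℕ → ℕ, Primrec f ∧ Monotone f ∧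
    ∀ (C : ℕ) (σ : Type) (F p : List (Fm σ)), twt F ≤ C → twt p ≤ C → p ≠ [] →
      ∃ r : List (Fm σ), twt r ≤ f C ∧ r.length < p.length ∧
        ∀ b : σ → ℝ, (SP.lead p).eval b ≠ 0 → ∀ t, (SP.at b p).eval t = 0 →
          SignType.sign ((SP.at b F).eval t) = SignType.sign ((SP.at b r).eval t) := by
  have key : ∀ n C : ℕ, ∀ (σ : Type) (f p : List (Fm σ)), f.length ≤ n →
      twt f ≤ C → twt p ≤ C → p ≠ [] → ∃ r : List (Fm σ), twt r ≤ WtP_g^[n] C ∧
      r.length < p.length ∧
      ∀ b : σ → ℝ, (SP.lead p).eval b ≠ 0 → ∀ t, (SP.at b p).eval t = 0 →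
        SignType.sign ((SP.at b f).eval t) = SignType.sign ((SP.at b r).eval t) := by
    intro n
    induction n with
    | zero =>
      intro C σ f p hn hf hpC hp
      refine ⟨f, hf, ?_, fun b _ t _ => rfl⟩
      have hlen : 0 < p.length := List.length_pos_iff.mpr hp
      omega
    | succ n ih =>
      intro C σ f p hn hf hpC hp
      rw [Function.iterate_succ_apply]
      by_cases h : f.length < p.length
      · refine ⟨f, ?_, h, fun b _ t _ => rfl⟩
        have h1 := Function.id_le_iterate_of_id_le (f := WtP_g) WtP_g_ge n (WtP_g C)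
        exact hf.trans ((WtP_g_ge C).trans h1)
      · rw [not_lt] at h
        have h1 := WtP_step f p hf hpC hp h
        have h2 := Q2b_step_length f p hp h
        have hlen : 0 < p.length := List.length_pos_iff.mpr hp
        obtain ⟨r, hr1, hr2, hr3⟩ := ih (WtP_g C) σ (Q2b_step f p) p (by omega) (by
          unfold WtP_g
          omega) (hpC.trans (WtP_g_ge C)) hp
        refine ⟨r, hr1, hr2, fun b hb t ht => ?_⟩
        rw [← hr3 b hb t ht, Q2b_step_at b f p hp h, eval_sub, eval_mul, eval_mul, ht, mul_zero,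
          sub_zero, eval_C, sign_mul, sign_mul]
        have h3 : SignType.sign ((SP.lead p).eval b) * SignType.sign ((SP.lead p).eval b) = 1 := by
          rcases lt_or_gt_of_ne hb with h4 | h4
          · rw [sign_neg h4]
            rfl
          · rw [sign_pos h4]
            rfl
        rw [h3, one_mul]
  refine ⟨fun C => WtP_g^[C] C, ?_, ?_, ?_⟩
  · exact Primrec.nat_iterate Primrec.id Primrec.id (WtP_g_prim.comp Primrec.snd)
  · intro a b hab
    exact ((WtP_g_mono.iterate a) hab).trans
      (Function.monotone_iterate_of_id_le (f := WtP_g) WtP_g_ge hab b)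
  · intro C σ f p hf hpC hp
    exact key C C σ f p ((WtP_length_le f).trans hf) hf hpC hp

end BU
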